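import Pool.Agent.P.MP_4830f8_gt.RG.Iface2

/-! Existence of the node functions and the matrices of the arcs. -/

set_option autoImplicit false

namespace Pool.Agent.P.MP_4830f8_gt.RG

open Matrix CB

namespace ALG

/-- the entries of a cap -/
noncomputable def cap (τ : ℂ) (x : Fin 9 → ℂ) (k c : ℕ) : ℂ :=
  if c = 0 then (1 + 2 * (par τ x (2 * k - 2) * par τ x (2 * k - 1))) * Complex.I
  else if c = 1 then
    -(2 * (par τ x (2 * k - 2) * (1 + par τ x (2 * k - 2) * par τ x (2 * k - 1))) * Complex.I)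
  else 2 * par τ x (2 * k - 1) * Complex.I

/-- the entries of the arcs -/
noncomputable def F (op : ℕ → ℕ) (τ : ℂ) (x : Fin 9 → ℂ) (k : ℕ) : ℕ → ℂ :=
  if k < 7 then cap τ x k else if h : o1 (op k) < k ∧ o2 (op k) < k then fun c =>
    F op τ x (o2 (op k)) c + (2 * (F op τ x (o1 (op k)) 0 * F op τ x (o2 (op k)) 0) +
      F op τ x (o1 (op k)) 1 * F op τ x (o2 (op k)) 2 +
      F op τ x (o1 (op k)) 2 * F op τ x (o2 (op k)) 1) * F op τ x (o1 (op k)) c
  else fun _ => 0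
termination_by k
decreasing_by all_goals first | exact h.1 | exact h.2

/-- all nodes -/
noncomputable def G (op : ℕ → ℕ) (τ : ℂ) (x : Fin 9 → ℂ) (k c : ℕ) : ℂ :=
  if k < 45 then F op τ x k c else if k < 53 then
    (if fd (op ((k - 45) / 2)) 12 1 = 0
    then F op τ x (o1 (op ((k - 45) / 2))) ((k - 45) % 2) -
      F op τ x (o2 (op ((k - 45) / 2))) ((k - 45) % 2)
    else F op τ x (o1 (op ((k - 45) / 2))) ((k - 45) % 2) +
      F op τ x (o2 (op ((k - 45) / 2))) ((k - 45) % 2))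
  else F op τ x (o1 (op 4)) 0 * F op τ x (o2 (op 4)) 1 -
    F op τ x (o1 (op 4)) 1 * F op τ x (o2 (op 4)) 0

lemma G_lt (op : ℕ → ℕ) (τ : ℂ) (x : Fin 9 → ℂ) {k : ℕ} (hk : k < 45) (c : ℕ) :
    G op τ x k c = F op τ x k c := by
  unfold G; rw [if_pos hk]

lemma isNode (op : ℕ → ℕ) (τ : ℂ) (x : Fin 9 → ℂ)
    (h1 : ∀ k, 7 ≤ k → k < 45 → 0 < o1 (op k) ∧ o1 (op k) < k ∧ 0 < o2 (op k) ∧ o2 (op k) < k)
    (h2 : ∀ i < 5, 0 < o1 (op i) ∧ o1 (op i) < 45 ∧ 0 < o2 (op i) ∧ o2 (op i) < 45) :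
    IsNode op τ x (G op τ x) := by
  refine ⟨fun k _ hk => ?_, fun k hk hk' c _ => ?_, fun i hi => ?_, ?_⟩
  · have e : ∀ c, G op τ x k c = cap τ x k c := fun c => by
      rw [G_lt op τ x (by omega), F, if_pos hk]
    simp only [e, cap]
    refine ⟨by rw [if_pos trivial], ?_, ?_⟩
    · rw [if_neg (by omega), if_pos trivial]
    · rw [if_neg (by omega), if_neg (by omega)]
  · obtain ⟨_, a, _, b⟩ := h1 k hk hk'
    have a' : o1 (op k) < 45 := by omega
    have b' : o2 (op k) < 45 := by omega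
    simp only [G_lt op τ x a', G_lt op τ x b', G_lt op τ x hk']
    rw [F, if_neg (by omega), dif_pos ⟨a, b⟩]
  · obtain ⟨_, a, _, b⟩ := h2 (i / 2) (by omega)
    simp only [G_lt op τ x a, G_lt op τ x b]
    rw [G, if_neg (by omega), if_pos (by omega), Nat.add_sub_cancel_left]
  · obtain ⟨_, a, _, b⟩ := h2 4 (by omega)
    simp only [G_lt op τ x a, G_lt op τ x b]
    rw [G, if_neg (by omega), if_neg (by omega)]

lemma tm_det {a b c : ℂ} (h : a ^ 2 + b * c = -1) : (tm a b c).det = 1 := by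
  simp only [tm, det_fin_two_of]; linear_combination -h

lemma tm_trace (a b c : ℂ) : (tm a b c).trace = 0 := by
  simp [tm, trace_fin_two]

lemma tm_sq {a b c : ℂ} (h : a ^ 2 + b * c = -1) : tm a b c * tm a b c = -1 := by
  ext i j
  fin_cases i <;> fin_cases j <;> simp [tm, Matrix.mul_apply, Fin.sum_univ_two] <;>
    first | linear_combination h | ring

lemma tm_conj {a b c : ℂ} (h : a ^ 2 + b * c = -1) (a' b' c' : ℂ) :
    tm a b c * tm a' b' c' * tm a b c =
      tm (a' + (2 * (a * a') + b * c' + c * b') * a) (b' + (2 * (a * a') + b * c' + c * b') * b)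
        (c' + (2 * (a * a') + b * c' + c * b') * c) := by
  ext i j
  fin_cases i <;> fin_cases j <;> simp [tm, Matrix.mul_apply, Fin.sum_univ_two]
  · linear_combination (-a') * h
  · linear_combination (-b') * h
  · linear_combination (-c') * h
  · linear_combination a' * h

lemma tm_neg (a b c : ℂ) : tm (-a) (-b) (-c) = -tm a b c := by
  ext i j
  fin_cases i <;> fin_cases j <;> simp [tm]

lemma comm01 (a b c a' b' c' : ℂ) :
    (tm a b c * tm a' b' c' - tm a' b' c' * tm a b c) 0 1 = 2 * (a * b' - b * a') := by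
  simp [tm]; ring

lemma quad {op : ℕ → ℕ} {τ : ℂ} {x : Fin 9 → ℂ} {f : ℕ → ℕ → ℂ}
    (h1 : ∀ k, 7 ≤ k → k < 45 → 0 < o1 (op k) ∧ o1 (op k) < k ∧ 0 < o2 (op k) ∧ o2 (op k) < k)
    (hf : IsNode op τ x f) : ∀ k, 1 ≤ k → k < 45 → f k 0 ^ 2 + f k 1 * f k 2 = -1 := by
  intro k
  induction k using Nat.strong_induction_on with
  | _ k ih =>
    intro hk hk'
    by_cases h7 : k < 7
    · obtain ⟨e0, e1, e2⟩ := hf.1 k hk h7
      rw [e0, e1, e2]
      linear_combination Complex.I_mul_I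
    · obtain ⟨a0, a, b0, b⟩ := h1 k (by omega) hk'
      have u := ih _ a a0 (by omega)
      have v := ih _ b b0 (by omega)
      rw [hf.2.1 k (by omega) hk' 0 (by omega), hf.2.1 k (by omega) hk' 1 (by omega),
        hf.2.1 k (by omega) hk' 2 (by omega)]
      linear_combination v + (2 * (f (o1 (op k)) 0 * f (o2 (op k)) 0) +
        f (o1 (op k)) 1 * f (o2 (op k)) 2 + f (o1 (op k)) 2 * f (o2 (op k)) 1) ^ 2 * u

lemma pm_of {p q : SL2} (hp : p * p = -1) (h : (q : M2) = p ∨ (q : M2) = -p) : PM (p * q) 1 := by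
  rcases h with h | h
  · have e : q = p := Subtype.ext h
    rw [e]; exact Or.inr hp
  · have e : q = -p := Subtype.ext (by rw [SpecialLinearGroup.coe_neg]; exact h)
    rw [e, mul_neg, hp, neg_neg]; exact Or.inl rfl

end ALG

theorem EXN : S_EXN := by
  intro nv ns op xc ta ρ nj h
  have h1 : ∀ k, 7 ≤ k → k < 45 →
      0 < o1 (op k) ∧ o1 (op k) < k ∧ 0 < o2 (op k) ∧ o2 (op k) < k := by
    intro k hk hk'
    have := h k (by omega)
    rw [nodeChk, cn_eq, if_neg (by rw [lt_iff]; omega), cn_eq, if_pos (lt_iff.2 hk')] at this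
    simp only [crsChk, force_eq, CB.fz_eq, an_iff, lt_iff] at this
    exact ⟨this.1, this.2.1, this.2.2.1, this.2.2.2.1⟩
  have h2 : ∀ i < 5, 0 < o1 (op i) ∧ o1 (op i) < 45 ∧ 0 < o2 (op i) ∧ o2 (op i) < 45 := by
    intro i hi
    have := h (45 + 2 * i) (by omega)
    rw [nodeChk, cn_eq, if_neg (by rw [lt_iff]; omega), cn_eq, if_neg (by rw [lt_iff]; omega),
      oo_iff, ble_iff, force_eq] at this
    have h3 := this.resolve_left (by omega)
    have e : Nat.shiftRight (Nat.sub (45 + 2 * i) 45) 1 = i := by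
      show (45 + 2 * i - 45) >>> 1 = i
      rw [Nat.shiftRight_eq_div_pow]; omega
    simp only [eqChk, force_eq, an_iff, lt_iff, e] at h3
    exact ⟨h3.1, h3.2.1, h3.2.2.1, h3.2.2.2.1⟩
  exact ⟨⟨h1, h2⟩, fun τ x => ⟨_, ALG.isNode op τ x h1 h2⟩⟩

theorem ALG (h : S_REC) : S_ALG := by
  intro nv op τ x f h1 h2 hf h0 hm hz
  have d := ALG.quad h1 hf
  simp only [nzChk, an_iff, allN_iff, force_eq, CB.fz_eq] at hz
  obtain ⟨g, g0, hg⟩ : ∃ g : ℕ → SL2, g 0 = 1 ∧
      ∀ k, 1 ≤ k → k < 45 → (g k : M2) = tm (f k 0) (f k 1) (f k 2) := by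
    have e : ∀ k, ∃ y : SL2, (k = 0 → y = 1) ∧
        (1 ≤ k → k < 45 → (y : M2) = tm (f k 0) (f k 1) (f k 2)) := fun k => by
      by_cases hk : 1 ≤ k ∧ k < 45
      · exact ⟨⟨tm (f k 0) (f k 1) (f k 2), ALG.tm_det (d k hk.1 hk.2)⟩,
          fun h => by omega, fun _ _ => rfl⟩
      · exact ⟨1, fun _ => rfl, fun a b => absurd ⟨a, b⟩ hk⟩
    choose g g0 hg using e
    exact ⟨g, g0 0 rfl, hg⟩
  have sq : ∀ k, 1 ≤ k → k < 45 → g k * g k = -1 := fun k hk hk' => by
    refine Subtype.ext ?_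
    show (g k : M2) * (g k : M2) = -1
    rw [hg k hk hk']
    exact ALG.tm_sq (d k hk hk')
  refine ⟨g, ⟨g0, sq, fun k hk hk' => ?_, fun i hi => ?_, ?_⟩, hg⟩
  · obtain ⟨a0, a, b0, b⟩ := h1 k hk hk'
    refine ⟨by omega, by omega, Subtype.ext ?_⟩
    show (g k : M2) = (g (o1 (op k)) : M2) * (g (o2 (op k)) : M2) * (g (o1 (op k)) : M2)
    rw [hg k (by omega) hk',
      hg _ a0 (by omega), hg _ b0 (by omega), ALG.tm_conj (d _ a0 (by omega)),
      hf.2.1 k hk hk' 0 (by omega), hf.2.1 k hk hk' 1 (by omega), hf.2.1 k hk hk' 2 (by omega)]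
  · obtain ⟨a0, a, b0, b⟩ := h2 i (by omega)
    refine ⟨a, b, ALG.pm_of (sq _ a0 a) ?_⟩
    have e0 := hf.2.2.1 (2 * i) (by omega)
    have e1 := hf.2.2.1 (2 * i + 1) (by omega)
    rw [h0 _ (by omega), show 2 * i / 2 = i by omega, show 2 * i % 2 = 0 by omega] at e0
    rw [h0 _ (by omega), show (2 * i + 1) / 2 = i by omega, show (2 * i + 1) % 2 = 1 by omega] at e1
    have nb : f (o1 (op i)) 1 ≠ 0 := (hm _ a0 a 1 (by omega)).ne_zero (hz.1 i hi)
    have u := d _ a0 a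
    have v := d _ b0 b
    rw [hg _ a0 a, hg _ b0 b]
    split_ifs at e0 e1
    · have c0 : f (o2 (op i)) 0 = f (o1 (op i)) 0 := by linear_combination e0
      have c1 : f (o2 (op i)) 1 = f (o1 (op i)) 1 := by linear_combination e1
      have c2 : f (o2 (op i)) 2 = f (o1 (op i)) 2 := by
        rw [c0, c1] at v
        exact mul_left_cancel₀ nb (by linear_combination v - u)
      left; rw [c0, c1, c2]
    · have c0 : f (o2 (op i)) 0 = -f (o1 (op i)) 0 := by linear_combination -e0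
      have c1 : f (o2 (op i)) 1 = -f (o1 (op i)) 1 := by linear_combination -e1
      have c2 : f (o2 (op i)) 2 = -f (o1 (op i)) 2 := by
        rw [c0, c1] at v
        exact mul_left_cancel₀ nb (by linear_combination u - v)
      right; rw [c0, c1, c2, ALG.tm_neg]
  · obtain ⟨a0, a, b0, b⟩ := h2 4 (by omega)
    refine ⟨a, b, fun p0 p q0 q hp => ALG.pm_of (sq _ a0 a) ?_⟩
    refine h (g (o1 (op 5))) (g (o2 (op 5))) (g (o1 (op 4))) (g (o2 (op 4)))
      (by rw [hg _ p0 p]; exact ALG.tm_trace _ _ _) (by rw [hg _ q0 q]; exact ALG.tm_trace _ _ _)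
      (by rw [hg _ a0 a]; exact ALG.tm_trace _ _ _) (by rw [hg _ b0 b]; exact ALG.tm_trace _ _ _)
      (g _).2 (g _).2 (g _).2 (g _).2 ?_ 0 1 ?_ ?_
    · rcases hp with hp | hp
      · exact Or.inl (congrArg (fun y : SL2 => (y : M2)) hp)
      · exact Or.inr (congrArg (fun y : SL2 => (y : M2)) hp)
    · rw [hg _ a0 a, hg _ b0 b, ALG.comm01, ← hf.2.2.2, h0 8 (by omega), mul_zero]
    · rw [hg _ a0 a, hg _ p0 p, ALG.comm01]
      exact mul_ne_zero two_ne_zero ((((hm _ a0 a 0 (by omega)).mul (hm _ p0 p 1 (by omega))).sub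
        ((hm _ a0 a 1 (by omega)).mul (hm _ p0 p 0 (by omega)))).ne_zero hz.2)

end Pool.Agent.P.MP_4830f8_gt.RG
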