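import Pool.Agent.P.MP_4830f8_gt.RG.Iface

/-! The dihedral angles around an axis add up to a full turn. -/

set_option autoImplicit false

namespace Pool.Agent.P.MP_4830f8_gt.RG

open Finset Matrix

namespace ANG

def X (p a b : Fin 3 → ℝ) : ℝ := (p ⨯₃ a) ⬝ᵥ (p ⨯₃ b)

noncomputable def Y (p a b : Fin 3 → ℝ) : ℝ := √(p ⬝ᵥ p) * D3 p a b

theorem pp_nonneg (p : Fin 3 → ℝ) : 0 ≤ p ⬝ᵥ p := by
  simp only [dotProduct, Fin.sum_univ_three]
  nlinarith [mul_self_nonneg (p 0), mul_self_nonneg (p 1), mul_self_nonneg (p 2)]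

theorem X_nonneg (p a : Fin 3 → ℝ) : 0 ≤ X p a a := pp_nonneg _

theorem id1 (p a b d : Fin 3 → ℝ) :
    X p a b * X p b d - p ⬝ᵥ p * (D3 p a b * D3 p b d) = X p b b * X p a d := by
  simp only [X, D3, cross_apply, dotProduct, Fin.sum_univ_three, cons_val_zero, cons_val_one,
    Matrix.cons_val]
  ring

theorem id2 (p a b d : Fin 3 → ℝ) :
    X p a b * D3 p b d + D3 p a b * X p b d = X p b b * D3 p a d := by
  simp only [X, D3, cross_apply, dotProduct, Fin.sum_univ_three, cons_val_zero, cons_val_one,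
    Matrix.cons_val]
  ring

theorem id3 (p a b : Fin 3 → ℝ) :
    X p a b ^ 2 + p ⬝ᵥ p * D3 p a b ^ 2 = X p a a * X p b b := by
  simp only [X, D3, cross_apply, dotProduct, Fin.sum_univ_three, cons_val_zero, cons_val_one,
    Matrix.cons_val]
  ring

theorem D3_self (p a : Fin 3 → ℝ) : D3 p a a = 0 := by
  simp [D3]

theorem mulX (p a b d : Fin 3 → ℝ) :
    X p a b * X p b d - Y p a b * Y p b d = X p b b * X p a d := by
  have h := Real.mul_self_sqrt (pp_nonneg p)
  unfold Y
  linear_combination id1 p a b d - D3 p a b * D3 p b d * h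

theorem mulY (p a b d : Fin 3 → ℝ) :
    X p a b * Y p b d + Y p a b * X p b d = X p b b * Y p a d := by
  unfold Y
  linear_combination √(p ⬝ᵥ p) * id2 p a b d

theorem sqXY (p a b : Fin 3 → ℝ) : X p a b ^ 2 + Y p a b ^ 2 = X p a a * X p b b := by
  have h := Real.mul_self_sqrt (pp_nonneg p)
  unfold Y
  linear_combination id3 p a b + D3 p a b ^ 2 * h

theorem rho_pos {p a b : Fin 3 → ℝ} (h : 0 < D3 p a b) : 0 < √(p ⬝ᵥ p) := by
  rw [Real.sqrt_pos]
  rcases (pp_nonneg p).lt_or_eq with h1 | h1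
  · exact h1
  · have : p = 0 := dotProduct_self_eq_zero.mp h1.symm
    subst this
    simp [D3] at h

theorem ang {p a b : Fin 3 → ℝ} (h : 0 < D3 p a b) :
    0 < X p a a ∧ 0 < dih p a b ∧ dih p a b < Real.pi ∧
      ∃ s, 0 < s ∧ X p a b = s * Real.cos (dih p a b) ∧ Y p a b = s * Real.sin (dih p a b) := by
  have hY : 0 < Y p a b := mul_pos (rho_pos h) h
  have hq := sqXY p a b
  have hN : 0 < X p a a * X p b b := by nlinarith [sq_nonneg (X p a b), pow_pos hY 2]
  have ha : 0 < X p a a := by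
    rcases (X_nonneg p a).lt_or_eq with h1 | h1
    · exact h1
    · rw [← h1] at hN
      simp at hN
  have hs : 0 < √(X p a a * X p b b) := Real.sqrt_pos.mpr hN
  have hss := Real.mul_self_sqrt hN.le
  have hd : dih p a b = Real.arccos (X p a b / √(X p a a * X p b b)) := rfl
  generalize √(X p a a * X p b b) = s at hs hss hd
  have hx : (X p a b / s) ^ 2 + (Y p a b / s) ^ 2 = 1 := by
    field_simp
    linarith
  have hy : 0 < Y p a b / s := div_pos hY hs
  have hc : Real.cos (dih p a b) = X p a b / s := by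
    rw [hd]
    apply Real.cos_arccos <;> nlinarith [sq_nonneg (Y p a b / s), sq_nonneg (X p a b / s + 1),
      sq_nonneg (X p a b / s - 1)]
  have hsn : Real.sin (dih p a b) = Y p a b / s := by
    rw [hd, Real.sin_arccos, show 1 - (X p a b / s) ^ 2 = (Y p a b / s) ^ 2 by linarith,
      Real.sqrt_sq hy.le]
  have h0 : 0 ≤ dih p a b := hd ▸ Real.arccos_nonneg _
  have h1 : dih p a b ≤ Real.pi := hd ▸ Real.arccos_le_pi _
  refine ⟨ha, ?_, ?_, s, hs, ?_, ?_⟩
  · rcases h0.lt_or_eq with h2 | h2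
    · exact h2
    · rw [← h2, Real.sin_zero] at hsn
      linarith
  · rcases h1.lt_or_eq with h2 | h2
    · exact h2
    · rw [h2, Real.sin_pi] at hsn
      linarith
  · rw [hc]
    field_simp
  · rw [hsn]
    field_simp

end ANG

open ANG in
theorem ANG : S_ANG := by
  intro p n u hn ⟨h1, m, h2⟩
  set φ : ℕ → ℝ := fun k => ∑ j ∈ range k, dih p (u j) (u ((j + 1) % n)) with hφ
  have hstep : ∀ k, φ (k + 1) = φ k + dih p (u k) (u ((k + 1) % n)) := fun k =>
    sum_range_succ _ k
  have h0 : φ 0 = 0 := by simp [hφ]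
  have hρ : 0 < √(p ⬝ᵥ p) := rho_pos (h1 0 hn)
  have hpi := Real.pi_pos
  have hA : ∀ k ≤ n, ∃ r, 0 < r ∧ X p (u 0) (u (k % n)) = r * Real.cos (φ k) ∧
      Y p (u 0) (u (k % n)) = r * Real.sin (φ k) := by
    intro k
    induction k with
    | zero =>
      intro _
      refine ⟨X p (u 0) (u 0), (ang (h1 0 hn)).1, ?_, ?_⟩
      · simp [h0]
      · simp [h0, Y, D3_self]
    | succ k ih =>
      intro hk
      obtain ⟨r, hr, hx, hy⟩ := ih (by omega)
      rw [Nat.mod_eq_of_lt (by omega : k < n)] at hx hy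
      obtain ⟨hN, -, -, s, hs, hx', hy'⟩ := ang (h1 k (by omega))
      have e1 := mulX p (u 0) (u k) (u ((k + 1) % n))
      have e2 := mulY p (u 0) (u k) (u ((k + 1) % n))
      rw [hx, hy, hx', hy'] at e1 e2
      refine ⟨r * s / X p (u k) (u k), by positivity, ?_, ?_⟩
      · rw [hstep, Real.cos_add]
        field_simp
        linarith
      · rw [hstep, Real.sin_add]
        field_simp
        linarith
  have hS : ∀ k < n, ∃ r, 0 < r ∧ D3 p (u 0) (u k) = r * Real.sin (φ k) := by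
    intro k hk
    obtain ⟨r, hr, -, hy⟩ := hA k hk.le
    rw [Nat.mod_eq_of_lt hk] at hy
    refine ⟨r / √(p ⬝ᵥ p), by positivity, ?_⟩
    unfold Y at hy
    field_simp
    linarith
  have hlt : ∀ k < n, φ k < φ (k + 1) ∧ φ (k + 1) < φ k + Real.pi := by
    intro k hk
    obtain ⟨-, a1, a2, -⟩ := ang (h1 k hk)
    rw [hstep]
    constructor <;> linarith
  have hB : ∀ k < n, 0 ≤ φ k ∧ (k ≤ m → φ k < Real.pi) ∧ φ k < 2 * Real.pi := by
    intro k
    induction k with
    | zero =>
      intro _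
      rw [h0]
      exact ⟨le_rfl, fun _ => hpi, by linarith⟩
    | succ k ih =>
      intro hk
      obtain ⟨b0, b1, b2⟩ := ih (by omega)
      obtain ⟨c1, c2⟩ := hlt k (by omega)
      obtain ⟨r, hr, hs⟩ := hS (k + 1) hk
      have hm : k + 1 ≤ m → φ (k + 1) < Real.pi := by
        intro hkm
        have h3 := (h2 (k + 1) hk).1 (by omega) hkm
        have h4 := b1 (by omega)
        by_contra hc
        have h5 : 0 ≤ Real.sin (φ (k + 1) - Real.pi) :=
          Real.sin_nonneg_of_nonneg_of_le_pi (by linarith) (by linarith)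
        rw [Real.sin_sub_pi] at h5
        rw [hs] at h3
        nlinarith
      refine ⟨by linarith, hm, ?_⟩
      by_cases hkm : k ≤ m
      · have := b1 hkm
        linarith
      · have h3 := (h2 (k + 1) hk).2 (by omega)
        by_contra hc
        have h5 : 0 ≤ Real.sin (φ (k + 1) - 2 * Real.pi) :=
          Real.sin_nonneg_of_nonneg_of_le_pi (by linarith) (by linarith)
        rw [Real.sin_sub_two_pi] at h5
        rw [hs] at h3
        nlinarith
  obtain ⟨k, rfl⟩ : ∃ k, n = k + 1 := ⟨n - 1, by omega⟩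
  obtain ⟨b0, -, b2⟩ := hB k (by omega)
  obtain ⟨c1, c2⟩ := hlt k (by omega)
  obtain ⟨r, hr, hx, hy⟩ := hA (k + 1) le_rfl
  rw [Nat.mod_self] at hx hy
  have hN := (ang (h1 0 hn)).1
  have hs : Real.sin (φ (k + 1)) = 0 := by
    rw [Y, D3_self, mul_zero] at hy
    exact (mul_eq_zero.mp hy.symm).resolve_left hr.ne'
  have hc : 0 < Real.cos (φ (k + 1)) := by
    rw [hx] at hN
    exact (mul_pos_iff_of_pos_left hr).mp hN
  have hc1 : Real.cos (φ (k + 1) - 2 * Real.pi) = 1 := by
    rw [Real.cos_sub_two_pi]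
    have := Real.sin_sq_add_cos_sq (φ (k + 1))
    rw [hs] at this
    nlinarith
  have := (Real.cos_eq_one_iff_of_lt_of_lt (by linarith) (by linarith)).mp hc1
  change φ (k + 1) = _
  linarith

end Pool.Agent.P.MP_4830f8_gt.RG
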