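import Pool.Agent.P.MP_4830f8_gt.RG.DatP
import Pool.Agent.P.MP_4830f8_gt.RG.DatT

/-! Kernel checks: life times. -/

set_option autoImplicit false
set_option maxRecDepth 100000

namespace Pool.Agent.P.MP_4830f8_gt.RG.D

theorem c_life_0 : allB (rng 0 10259 (lifeChk tt mv 1053 3884 (tets ops))) 12 0 = true := by decide +kernel
theorem c_life_1 : allB (rng 0 10259 (lifeChk tt mv 1053 3884 (tets ops))) 12 1 = true := by decide +kernel
theorem c_life_2 : allB (rng 0 10259 (lifeChk tt mv 1053 3884 (tets ops))) 12 2 = true := by decide +kernel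
theorem c_life (i : ℕ) (h1 : 0 ≤ i) (h2 : i < 10259) : lifeChk tt mv 1053 3884 (tets ops) i = true := by
  have h : i / 2 ^ 12 = 0 ∨ i / 2 ^ 12 = 1 ∨ i / 2 ^ 12 = 2 := by omega
  rcases h with h | h | h
  · exact rng_sound (allB_sound c_life_0 i h) h1 h2
  · exact rng_sound (allB_sound c_life_1 i h) h1 h2
  · exact rng_sound (allB_sound c_life_2 i h) h1 h2

end Pool.Agent.P.MP_4830f8_gt.RG.D
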