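import Pool.Agent.P.MP_4830f8_gt.RG.DatP
import Pool.Agent.P.MP_4830f8_gt.RG.DatT

/-! Kernel checks: moves and state sum. -/

set_option autoImplicit false
set_option maxRecDepth 100000

namespace Pool.Agent.P.MP_4830f8_gt.RG.D

theorem c_mv_0 : allB (rng 1 3885 (moveChk tt mv 10259)) 10 0 = true := by decide +kernel
theorem c_mv_1 : allB (rng 1 3885 (moveChk tt mv 10259)) 10 1 = true := by decide +kernel
theorem c_mv_2 : allB (rng 1 3885 (moveChk tt mv 10259)) 10 2 = true := by decide +kernel
theorem c_mv_3 : allB (rng 1 3885 (moveChk tt mv 10259)) 10 3 = true := by decide +kernel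
theorem c_mv (i : ℕ) (h1 : 1 ≤ i) (h2 : i < 3885) : moveChk tt mv 10259 i = true := by
  have h : i / 2 ^ 10 = 0 ∨ i / 2 ^ 10 = 1 ∨ i / 2 ^ 10 = 2 ∨ i / 2 ^ 10 = 3 := by omega
  rcases h with h | h | h | h
  · exact rng_sound (allB_sound c_mv_0 i h) h1 h2
  · exact rng_sound (allB_sound c_mv_1 i h) h1 h2
  · exact rng_sound (allB_sound c_mv_2 i h) h1 h2
  · exact rng_sound (allB_sound c_mv_3 i h) h1 h2
theorem c_cnt : cnt1 mv 3884 12 0 = 96 := by decide +kernel
theorem c_dp : dpChk ops 334484573959393691908 541207409378826984196 = true := by decide +kernel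
theorem c_fin : finChk tt 10259 3884 ops = true := by decide +kernel
theorem c_len : (tets ops).length = 45 := by decide +kernel

end Pool.Agent.P.MP_4830f8_gt.RG.D
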