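import Pool.Agent.P.MP_4830f8_gt.RG.Chk2
import Pool.Agent.P.MP_4830f8_gt.RG.DatE
import Pool.Agent.P.MP_4830f8_gt.RG.DatT

/-! Kernel checks: triangulation. -/

set_option autoImplicit false
set_option maxRecDepth 100000

namespace Pool.Agent.P.MP_4830f8_gt.RG.D

theorem c_tri_0 : allB (rng 0 1053 (triChk tt ed en tx 97 1053 1150)) 11 0 = true := by decide +kernel
theorem c_tri (i : ℕ) (h1 : 0 ≤ i) (h2 : i < 1053) : triChk tt ed en tx 97 1053 1150 i = true := by
  have h : i / 2 ^ 11 = 0 := by omega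
  exact rng_sound (allB_sound c_tri_0 i h) h1 h2
theorem c_edge_0 : allB (rng 1 1151 (edgeChk tt ed en vt 1053)) 11 0 = true := by decide +kernel
theorem c_edge (i : ℕ) (h1 : 1 ≤ i) (h2 : i < 1151) : edgeChk tt ed en vt 1053 i = true := by
  have h : i / 2 ^ 11 = 0 := by omega
  exact rng_sound (allB_sound c_edge_0 i h) h1 h2
theorem c_vert_0 : allB (rng 1 97 (vertChk tt vt 1053)) 7 0 = true := by decide +kernel
theorem c_vert (i : ℕ) (h1 : 1 ≤ i) (h2 : i < 97) : vertChk tt vt 1053 i = true := by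
  have h : i / 2 ^ 7 = 0 := by omega
  exact rng_sound (allB_sound c_vert_0 i h) h1 h2
theorem c_sg_0 : allB (rng 1 1151 (sgChk ed en mw)) 9 0 = true := by decide +kernel
theorem c_sg_1 : allB (rng 1 1151 (sgChk ed en mw)) 9 1 = true := by decide +kernel
theorem c_sg_2 : allB (rng 1 1151 (sgChk ed en mw)) 9 2 = true := by decide +kernel
theorem c_sg (i : ℕ) (h1 : 1 ≤ i) (h2 : i < 1151) : sgChk ed en mw i = true := by
  have h : i / 2 ^ 9 = 0 ∨ i / 2 ^ 9 = 1 ∨ i / 2 ^ 9 = 2 := by omega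
  rcases h with h | h | h
  · exact rng_sound (allB_sound c_sg_0 i h) h1 h2
  · exact rng_sound (allB_sound c_sg_1 i h) h1 h2
  · exact rng_sound (allB_sound c_sg_2 i h) h1 h2

end Pool.Agent.P.MP_4830f8_gt.RG.D
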