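import Pool.Agent.P.MP_4830f8_gt.RG.DatN
import Pool.Agent.P.MP_4830f8_gt.RG.DatF
import Pool.Agent.P.MP_4830f8_gt.RG.DatE
import Pool.Agent.P.MP_4830f8_gt.RG.DatT

/-! Kernel checks: relations. -/

set_option autoImplicit false
set_option maxRecDepth 100000

namespace Pool.Agent.P.MP_4830f8_gt.RG.D

theorem c_tetA_0 : allB (rng 0 801 (tetChk FA 90)) 10 0 = true := by decide +kernel
theorem c_tetA (i : ℕ) (h1 : 0 ≤ i) (h2 : i < 801) : tetChk FA 90 i = true := by
  have h : i / 2 ^ 10 = 0 := by omega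
  exact rng_sound (allB_sound c_tetA_0 i h) h1 h2
theorem c_defA_0 : allB (rng 0 215 (defChk FA 45)) 8 0 = true := by decide +kernel
theorem c_defA (i : ℕ) (h1 : 0 ≤ i) (h2 : i < 215) : defChk FA 45 i = true := by
  have h : i / 2 ^ 8 = 0 := by omega
  exact rng_sound (allB_sound c_defA_0 i h) h1 h2
theorem c_baseA_0 : allB (rng 215 801 (baseA FA opT 215 344)) 10 0 = true := by decide +kernel
theorem c_baseA (i : ℕ) (h1 : 215 ≤ i) (h2 : i < 801) : baseA FA opT 215 344 i = true := by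
  have h : i / 2 ^ 10 = 0 := by omega
  exact rng_sound (allB_sound c_baseA_0 i h) h1 h2
theorem c_ph : phChk FA opT 344 161 160 343 = true := by decide +kernel
theorem c_face_0 : allB (rng 0 1053 (faceChk FA tt ed tx 90 801)) 11 0 = true := by decide +kernel
theorem c_face (i : ℕ) (h1 : 0 ≤ i) (h2 : i < 1053) : faceChk FA tt ed tx 90 801 i = true := by
  have h : i / 2 ^ 11 = 0 := by omega
  exact rng_sound (allB_sound c_face_0 i h) h1 h2
theorem c_tetB_0 : allB (rng 0 8156 (tetChk FB 2)) 12 0 = true := by decide +kernel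
theorem c_tetB_1 : allB (rng 0 8156 (tetChk FB 2)) 12 1 = true := by decide +kernel
theorem c_tetB (i : ℕ) (h1 : 0 ≤ i) (h2 : i < 8156) : tetChk FB 2 i = true := by
  have h : i / 2 ^ 12 = 0 ∨ i / 2 ^ 12 = 1 := by omega
  rcases h with h | h
  · exact rng_sound (allB_sound c_tetB_0 i h) h1 h2
  · exact rng_sound (allB_sound c_tetB_1 i h) h1 h2
theorem c_defB_0 : allB (rng 0 1472 (defChk FB (1150 + 1))) 11 0 = true := by decide +kernel
theorem c_defB (i : ℕ) (h1 : 0 ≤ i) (h2 : i < 1472) : defChk FB (1150 + 1) i = true := by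
  have h : i / 2 ^ 11 = 0 := by omega
  exact rng_sound (allB_sound c_defB_0 i h) h1 h2
theorem c_baseB_0 : allB (rng 1472 8156 (baseB FB tt en vt 1053 1150 4611 4696 4658 4700)) 13 0 = true := by decide +kernel
theorem c_baseB (i : ℕ) (h1 : 1472 ≤ i) (h2 : i < 8156) : baseB FB tt en vt 1053 1150 4611 4696 4658 4700 i = true := by
  have h : i / 2 ^ 13 = 0 := by omega
  exact rng_sound (allB_sound c_baseB_0 i h) h1 h2
theorem c_mark_0 : allB (rng 1 1151 (markChk FB ed en 8156)) 11 0 = true := by decide +kernel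
theorem c_mark (i : ℕ) (h1 : 1 ≤ i) (h2 : i < 1151) : markChk FB ed en 8156 i = true := by
  have h : i / 2 ^ 11 = 0 := by omega
  exact rng_sound (allB_sound c_mark_0 i h) h1 h2

end Pool.Agent.P.MP_4830f8_gt.RG.D
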