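import Pool.Agent.P.MP_4830f8_gt.RG.DatN
import Pool.Agent.P.MP_4830f8_gt.RG.DatF
import Pool.Agent.P.MP_4830f8_gt.RG.DatE

/-! Kernel checks: enclosures. -/

set_option autoImplicit false
set_option maxRecDepth 100000

namespace Pool.Agent.P.MP_4830f8_gt.RG.D

theorem c_node : allN (nodeChk nv ns opT xc ta rho 9) 54 = true := by decide +kernel
theorem c_ctr : allN (nodeChk nc ns opT xc ta 0 0) 54 = true := by decide +kernel
theorem c_row : allN (rowChk nc ns yt rho) 9 = true := by decide +kernel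
theorem c_nz : nzChk nv opT = true := by decide +kernel
theorem c_prod : allN (prodChk FA nv mt) 92 = true := by decide +kernel
theorem c_g_0 : allB (rng 1 1151 (gChk ed en vt nv mt 92)) 8 0 = true := by decide +kernel
theorem c_g_1 : allB (rng 1 1151 (gChk ed en vt nv mt 92)) 8 1 = true := by decide +kernel
theorem c_g_2 : allB (rng 1 1151 (gChk ed en vt nv mt 92)) 8 2 = true := by decide +kernel
theorem c_g_3 : allB (rng 1 1151 (gChk ed en vt nv mt 92)) 8 3 = true := by decide +kernel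
theorem c_g_4 : allB (rng 1 1151 (gChk ed en vt nv mt 92)) 8 4 = true := by decide +kernel
theorem c_g (i : ℕ) (h1 : 1 ≤ i) (h2 : i < 1151) : gChk ed en vt nv mt 92 i = true := by
  have h : i / 2 ^ 8 = 0 ∨ i / 2 ^ 8 = 1 ∨ i / 2 ^ 8 = 2 ∨ i / 2 ^ 8 = 3 ∨ i / 2 ^ 8 = 4 := by omega
  rcases h with h | h | h | h | h
  · exact rng_sound (allB_sound c_g_0 i h) h1 h2
  · exact rng_sound (allB_sound c_g_1 i h) h1 h2
  · exact rng_sound (allB_sound c_g_2 i h) h1 h2
  · exact rng_sound (allB_sound c_g_3 i h) h1 h2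
  · exact rng_sound (allB_sound c_g_4 i h) h1 h2

end Pool.Agent.P.MP_4830f8_gt.RG.D
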