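import Pool.Agent.P.MP_4830f8_gt.RG.Iface2
import Pool.Agent.P.MP_4830f8_gt.RG.C1
import Pool.Agent.P.MP_4830f8_gt.RG.C2
import Pool.Agent.P.MP_4830f8_gt.RG.C3
import Pool.Agent.P.MP_4830f8_gt.RG.C4
import Pool.Agent.P.MP_4830f8_gt.RG.C5

/-! Assembly of the parts. -/

set_option autoImplicit false

namespace Pool.Agent.P.MP_4830f8_gt.RG

open Finset D

theorem ASM (cyc : S_CYC) (hyp : S_HYP) (df : S_DEF) (mvc : S_MVC) (dp : S_DP) (gen : S_GEN)
    (num : S_NUM) (tri : S_TRI) (lnk : S_LNK) (rkb : S_RKB) (exn : S_EXN) (sol : S_SOL)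
    (alg : S_ALG) (rp : S_REP) (prd : S_PROD) (coc : S_COC) (gp : S_GP) (sg : S_SG) : Main := by
  have hE : ∀ z, 1 ≤ z → z ≤ 1150 → edgeChk tt ed en vt 1053 z = true :=
    fun z h1 h2 => c_edge z h1 (by omega)
  have T := tri tt ed en tx vt 97 1053 1150 (fun i h => c_tri i (Nat.zero_le _) h) hE
  obtain ⟨l0, l1, l2⟩ := lnk tt ed en vt 97 1053 1150 (by norm_num) T hE c_vert
  have hn := allN_iff.1 c_node
  obtain ⟨⟨b1, b2⟩, -⟩ := exn _ _ _ _ _ _ _ hn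
  obtain ⟨τ, x, f, f1, f2, f3⟩ := sol nv nc ns opT xc yt ta rho (by decide +kernel) hn
    (allN_iff.1 c_ctr) (allN_iff.1 c_row)
  obtain ⟨g, g1, g2⟩ := alg nv opT τ x f b1 b2 f1 f2 f3 c_nz
  have hd : ∀ i < 215, defChk FA 45 i = true := fun i h => c_defA i (Nat.zero_le _) h
  obtain ⟨val, v1, v2, -⟩ := df SL2 90 45 215 FA g (by norm_num) hd
  have co := rp FA opT tt ed tx g val 215 344 801 1053 161 160 343 g1 v1 v2 (by norm_num) hd
    (fun i h => c_tetA i (Nat.zero_le _) h) c_baseA c_ph (fun i h => c_face i (Nat.zero_le _) h)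
    fun i h => ⟨(T.srt i h).1, (T.srt i h).2.1, (T.srt i h).2.2.1⟩
  have en' := prd FA nv D.mt f val 92 ((v1 0 (by norm_num)).trans g1.one)
    (fun k h1 h2 => by rw [v1 k h2, g2 k h1 h2]) f3 (fun i h => v2 i (by omega))
    (fun i h => hd i (by omega)) (allN_iff.1 c_prod)
  obtain ⟨c1, c2⟩ := coc _ vt (fun v w => sv 90 val (eG (ed (ky v w)))) co
  have ps := gp tt ed en vt nv D.mt val 97 1053 1150 92 T en' fun z h1 h2 => c_g z h1 (by omega)
  have s1 := sg tt ed en mw _ 97 1053 1150 T ps fun z h1 h2 => c_sg z h1 (by omega)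
  obtain ⟨h1, h2⟩ := hyp _ _ _ _ T.card T.cyc c1 c2 s1
  refine ⟨TT tt 1053, ⟨?_, T.card, (cyc _ _ _ T.card T.cyc).1, l2, h2⟩, h1, ?_, gen _ ?_⟩
  · obtain ⟨σ, h, -⟩ := l0; exact ⟨σ, h⟩
  · exact rkb FB tt ed en vt 97 1053 1150 1472 8156 _ _ _ _ T l0 l1
      (fun i h => c_defB i (Nat.zero_le _) h) (fun i h => c_tetB i (Nat.zero_le _) h) c_baseB
      fun z h1 h2 => c_mark z h1 (by omega)
  · refine num _ (FF ops 0) T.vts (T.sum.trans (mvc tt mv 10259 1053 3884 96 12 ops (by norm_num)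
      (by norm_num) (fun i h => c_life i (Nat.zero_le _) h) (fun t h1 h2 => c_mv t h1 (by omega))
      c_cnt c_fin)) ?_
    rw [← c_len]; exact dp _ _ _ c_dp

end Pool.Agent.P.MP_4830f8_gt.RG
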