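import Pool.Agent.P.MP_4830f8_gt.RG.Chk2

/-! Soundness of the ball operations. -/

set_option autoImplicit false

namespace Pool.Agent.P.MP_4830f8_gt.RG.CB

open Complex

/-- the centre -/
noncomputable def ce (b : CB) : ℂ := b.x + b.y * I

lemma mem_def {s : ℕ} {z : ℂ} {b : CB} : mem s z b ↔ ‖z * 3 ^ s - b.ce‖ ≤ b.r := Iff.rfl

lemma iadd (a b : ℤ) : Int.add a b = a + b := rfl
lemma isub (a b : ℤ) : Int.sub a b = a - b := rfl
lemma imul (a b : ℤ) : Int.mul a b = a * b := rfl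
lemma ineg (a : ℤ) : Int.neg a = -a := rfl

lemma norm_int (x y : ℤ) : ‖(x : ℂ) + y * I‖ ≤ ((x.natAbs + y.natAbs : ℕ) : ℝ) := by
  refine (norm_add_le _ _).trans (le_of_eq ?_)
  simp [Nat.cast_natAbs]

lemma norm_ce (b : CB) : ‖b.ce‖ ≤ b.nm := norm_int _ _

variable {s t : ℕ} {z w : ℂ} {a b : CB}

lemma mem.norm_le (h : mem s z a) : ‖z‖ * 3 ^ s ≤ a.nm + a.r := by
  have h1 : ‖z * 3 ^ s‖ ≤ ‖z * 3 ^ s - a.ce‖ + ‖a.ce‖ := by
    simpa using norm_add_le (z * 3 ^ s - a.ce) a.ce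
  have h2 : ‖z * 3 ^ s‖ = ‖z‖ * 3 ^ s := by simp
  have := norm_ce a
  rw [mem_def] at h; linarith

lemma mem.add (h : mem s z a) (k : mem s w b) : mem s (z + w) (a.add b) := by
  rw [mem_def] at *
  have e : (z + w) * 3 ^ s - (a.add b).ce = (z * 3 ^ s - a.ce) + (w * 3 ^ s - b.ce) := by
    simp only [ce, CB.add, iadd]; push_cast; ring
  rw [e]; refine (norm_add_le _ _).trans ?_
  simp only [CB.add, Nat.add_eq]; push_cast; linarith

lemma mem.neg (h : mem s z a) : mem s (-z) a.neg := by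
  rw [mem_def] at *
  have e : (-z) * 3 ^ s - a.neg.ce = -(z * 3 ^ s - a.ce) := by
    simp only [ce, CB.neg, ineg]; push_cast; ring
  rw [e, norm_neg]; exact h

lemma mem.sub (h : mem s z a) (k : mem s w b) : mem s (z - w) (a.sub b) := by
  rw [mem_def] at *
  have e : (z - w) * 3 ^ s - (a.sub b).ce = (z * 3 ^ s - a.ce) - (w * 3 ^ s - b.ce) := by
    simp only [ce, CB.sub, isub]; push_cast; ring
  rw [e]; refine (norm_sub_le _ _).trans ?_
  simp only [CB.sub, Nat.add_eq]; push_cast; linarith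

lemma mem.mul (h : mem s z a) (k : mem t w b) : mem (s + t) (z * w) (a.mul b) := by
  have h1 := h.norm_le
  have h2 := norm_ce b
  rw [mem_def] at *
  have e : (z * w) * 3 ^ (s + t) - (a.mul b).ce =
      (z * 3 ^ s) * (w * 3 ^ t - b.ce) + b.ce * (z * 3 ^ s - a.ce) := by
    simp only [ce, CB.mul, iadd, isub, imul]; push_cast
    linear_combination (a.y * b.y : ℂ) * I_mul_I
  rw [e]; refine (norm_add_le _ _).trans ?_
  have h3 : ‖z * 3 ^ s‖ = ‖z‖ * 3 ^ s := by simp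
  rw [norm_mul (z * 3 ^ s), norm_mul b.ce, h3]
  simp only [CB.mul, Nat.add_eq, Nat.mul_eq]; push_cast
  gcongr

lemma mem.conj (h : mem s z a) : mem s ((starRingEnd ℂ) z) a.conj := by
  rw [mem_def] at *
  have e : (starRingEnd ℂ) z * 3 ^ s - a.conj.ce = (starRingEnd ℂ) (z * 3 ^ s - a.ce) := by
    have : (starRingEnd ℂ) 3 = 3 := conj_ofNat 3
    simp [ce, CB.conj, ineg, this]
  rw [e, norm_conj]; exact h

lemma mem.mulI (h : mem s z a) : mem s (z * I) a.mulI := by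
  rw [mem_def] at *
  have e : (z * I) * 3 ^ s - a.mulI.ce = (z * 3 ^ s - a.ce) * I := by
    simp only [ce, CB.mulI, ineg]; push_cast
    linear_combination (a.y : ℂ) * I_mul_I
  rw [e, norm_mul, norm_I, mul_one]; exact h

/-- scaling the ball by any factor -/
lemma mem.up' (h : mem s z a) (m : ℕ) : mem s (z * m) (up m a) := by
  rw [mem_def] at *
  have e : (z * m) * 3 ^ s - (up m a).ce = (z * 3 ^ s - a.ce) * m := by
    simp only [ce, up, imul, Int.ofNat_eq_natCast]; push_cast; ring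
  rw [e, norm_mul, norm_natCast]
  simp only [up, Nat.mul_eq]; push_cast; gcongr

lemma mem.up {m : ℕ} (k : ℕ) (hm : m = 3 ^ k) (h : mem s z a) : mem (s + k) z (up m a) := by
  have := h.up' m
  rw [mem_def] at *
  rwa [show z * 3 ^ (s + k) = z * m * 3 ^ s by subst hm; push_cast; ring]

lemma mem_cst {n : ℤ} (h : z * 3 ^ s = n) : mem s z (cst n) := by
  rw [mem_def, h]; simp [ce, cst]

lemma mem_mk {x y : ℤ} (h : z * 3 ^ s = x + y * I) : mem s z ⟨x, y, 0⟩ := by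
  rw [mem_def, h]; simp [ce]

lemma mem.inc {m : ℕ} (k : ℕ) (hm : m = 3 ^ k) (h : mem (s + k) z a) (hi : inc m a b = true) :
    mem s z b := by
  rw [mem_def] at *
  have h0 : (0 : ℝ) < m := by subst hm; positivity
  have h1 := norm_int (a.x - b.x * m) (a.y - b.y * m)
  have h2 : (((a.x - b.x * m).natAbs + (a.y - b.y * m).natAbs + a.r : ℕ) : ℝ) ≤ (b.r * m : ℕ) :=
    Nat.cast_le.2 (ble_iff.1 hi)
  have e : (z * 3 ^ s - b.ce) * m = (z * 3 ^ (s + k) - a.ce) +
      (((a.x - b.x * m : ℤ) : ℂ) + ((a.y - b.y * m : ℤ) : ℂ) * I) := by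
    subst hm; simp only [ce]; push_cast; ring
  have h3 := norm_add_le (z * 3 ^ (s + k) - a.ce)
    (((a.x - b.x * m : ℤ) : ℂ) + ((a.y - b.y * m : ℤ) : ℂ) * I)
  rw [← e, norm_mul, norm_natCast] at h3
  refine le_of_mul_le_mul_right ?_ h0
  rw [Nat.cast_add] at h2; rw [Nat.cast_mul] at h2; linarith

lemma mem.inc1 (h : mem s z a) (hi : CB.inc 1 a b = true) : mem s z b :=
  mem.inc 0 rfl h hi

lemma mem.ne_zero (h : mem s z a) (hz : a.nz = true) : z ≠ 0 := by
  rintro rfl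
  rw [mem_def, zero_mul, zero_sub, norm_neg] at h
  have h1 := (abs_re_le_norm a.ce).trans h
  have h2 := (abs_im_le_norm a.ce).trans h
  have h3 : ((2 * a.r : ℕ) : ℝ) < (a.x.natAbs + a.y.natAbs : ℕ) := Nat.cast_lt.2 (lt_iff.1 hz)
  simp [ce] at h1 h2
  simp [Nat.cast_natAbs] at h3
  linarith

lemma mem.re (h : mem s z a) : |z.re * 3 ^ s - a.x| ≤ a.r := by
  have := (abs_re_le_norm _).trans (mem_def.1 h)
  have e : ((3 : ℂ) ^ s) = ((3 ^ s : ℝ) : ℂ) := by push_cast; rfl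
  rw [e, sub_re, re_mul_ofReal] at this
  simpa [ce] using this

lemma mem.im (h : mem s z a) : |z.im * 3 ^ s - a.y| ≤ a.r := by
  have := (abs_im_le_norm _).trans (mem_def.1 h)
  have e : ((3 : ℂ) ^ s) = ((3 ^ s : ℝ) : ℂ) := by push_cast; rfl
  rw [e, sub_im, im_mul_ofReal] at this
  simpa [ce] using this

lemma P1_eq : P1 = 3 ^ 202 := rfl
lemma P2_eq : P2 = 3 ^ 404 := by unfold P2; exact Nat.pow_eq

end Pool.Agent.P.MP_4830f8_gt.RG.CB
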