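import Pool.Agent.P.MP_4830f8_gt.Defs

/-! State sums of Fibonacci type: definitions and toolbox. -/

set_option autoImplicit false

namespace Pool.Agent.P.MP_4830f8_gt.RG

open Finset

/-- `ss ^ 4 + ss ^ 2 = 1` -/
noncomputable def ss : ℝ := √((√5 - 1) / 2)
/-- the golden ratio -/
noncomputable def ph : ℝ := 1 + ss ^ 2
/-- the global dimension -/
noncomputable def DD : ℝ := 1 + ph ^ 2

lemma ss_sq : ss ^ 2 = (√5 - 1) / 2 := by
  have : (1 : ℝ) ≤ √5 := Real.one_le_sqrt.2 (by norm_num)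
  unfold ss; rw [Real.sq_sqrt (by linarith)]

lemma ss_pos : 0 < ss := by
  have : (1 : ℝ) < √5 := Real.lt_sqrt_of_sq_lt (by norm_num)
  unfold ss; exact Real.sqrt_pos.2 (by linarith)

lemma ss_four : ss ^ 4 = 1 - ss ^ 2 := by
  have h : √5 ^ 2 = (5 : ℝ) := Real.sq_sqrt (by norm_num)
  have : ss ^ 4 = (ss ^ 2) ^ 2 := by ring
  rw [this, ss_sq]; nlinarith

lemma ph_pos : 0 < ph := by unfold ph; positivity
lemma one_lt_DD : 1 < DD := by have := ph_pos; unfold DD; nlinarith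
lemma DD_pos : 0 < DD := lt_trans one_pos one_lt_DD

/-- weight of an edge colour -/
noncomputable def pw (b : Bool) : ℝ := if b then ph else 1
/-- admissible triangle -/
def adm (a b c : Bool) : Bool := a.toNat + b.toNat + c.toNat != 1
/-- indicator of an admissible triangle -/
noncomputable def ad (a b c : Bool) : ℝ := if adm a b c then 1 else 0
/-- weight of an admissible tetrahedron by the number of coloured edges -/
noncomputable def wn : ℕ → ℝ
  | 0 => 1 | 3 => ss | 4 => ss ^ 2 | 5 => ss ^ 2 | 6 => -ss ^ 4 | _ => 0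
/-- weight of a tetrahedron, edges in the order 01 02 03 12 13 23 -/
noncomputable def W6 (a b c d e f : Bool) : ℝ :=
  if adm a b d && adm a c e && adm b c f && adm d e f then
    wn (a.toNat + b.toNat + c.toNat + d.toNat + e.toNat + f.toNat) else 0

/-- sum over the colourings of a set of edges -/
noncomputable def SS {α : Type} (E : Finset α) (f : Finset α → ℝ) : ℝ :=
  ∑ U ∈ E.powerset, ph ^ U.card * f U

section
variable {α : Type} [DecidableEq α]

omit [DecidableEq α] in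
lemma SS_empty (f : Finset α → ℝ) : SS ∅ f = f ∅ := by simp [SS]

omit [DecidableEq α] in
lemma SS_congr {E : Finset α} {f g : Finset α → ℝ} (h : ∀ U ⊆ E, f U = g U) :
    SS E f = SS E g :=
  sum_congr rfl fun U hU => by rw [h U (mem_powerset.1 hU)]

omit [DecidableEq α] in
lemma SS_mul (E : Finset α) (c : ℝ) (f : Finset α → ℝ) :
    SS E (fun U => c * f U) = c * SS E f := by
  unfold SS; rw [mul_sum]; exact sum_congr rfl fun U _ => by ring

omit [DecidableEq α] in
lemma SS_add (E : Finset α) (f g : Finset α → ℝ) :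
    SS E (fun U => f U + g U) = SS E f + SS E g := by
  unfold SS; rw [← sum_add_distrib]; exact sum_congr rfl fun U _ => by ring

lemma SS_insert {E : Finset α} {e : α} (h : e ∉ E) (f : Finset α → ℝ) :
    SS (insert e E) f = SS E fun U => f U + ph * f (insert e U) := by
  unfold SS
  rw [sum_powerset_insert h, ← sum_add_distrib]
  refine sum_congr rfl fun U hU => ?_
  rw [card_insert_of_notMem fun he => h (mem_powerset.1 hU he)]; ring

lemma SS_singleton (e : α) (f : Finset α → ℝ) : SS {e} f = f ∅ + ph * f {e} := by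
  have := SS_insert (notMem_empty e) f
  simpa [SS_empty] using this

lemma SS_union {E E' : Finset α} (h : Disjoint E E') (f : Finset α → ℝ) :
    SS (E ∪ E') f = SS E fun U => SS E' fun U' => f (U ∪ U') := by
  induction E using Finset.induction_on generalizing f with
  | empty => simp [SS_empty]
  | insert e E he ih =>
    have h1 : e ∉ E' := disjoint_left.1 h (mem_insert_self _ _)
    have h2 : Disjoint E E' := h.mono_left (subset_insert _ _)
    rw [insert_union, SS_insert (by simp [he, h1]), ih h2, SS_insert he]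
    refine SS_congr fun U _ => ?_
    rw [SS_add, SS_mul]; simp only [insert_union]

omit [DecidableEq α] in
lemma SS_comm {β : Type} (E : Finset α) (E' : Finset β) (f : Finset α → Finset β → ℝ) :
    (SS E fun U => SS E' fun U' => f U U') = SS E' fun U' => SS E fun U => f U U' := by
  unfold SS
  simp only [mul_sum]
  rw [sum_comm]
  exact sum_congr rfl fun _ _ => sum_congr rfl fun _ _ => by ring

lemma SS_image {β : Type} [DecidableEq β] {E : Finset α} {φ : α → β} (h : Set.InjOn φ E)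
    (f : Finset β → ℝ) : SS (E.image φ) f = SS E fun U => f (U.image φ) := by
  induction E using Finset.induction_on generalizing f with
  | empty => simp [SS_empty]
  | insert e E he ih =>
    have h2 : Set.InjOn φ E := h.mono (by simp)
    have h3 : φ e ∉ E.image φ := by
      intro hh
      obtain ⟨x, hx, e'⟩ := mem_image.1 hh
      exact he (h (by simp [hx]) (by simp) e' ▸ hx)
    rw [image_insert, SS_insert h3, ih h2, SS_insert he]
    simp only [image_insert]
end

/-- indicator that all triangles of `σ` are admissible -/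
noncomputable def AD (σ : Finset ℕ) (U : Finset (Finset ℕ)) : ℝ :=
  if ∀ t ∈ σ.powersetCard 3, (t.powersetCard 2 ∩ U).card ≠ 1 then 1 else 0
/-- weight of a tetrahedron -/
noncomputable def WW (σ : Finset ℕ) (U : Finset (Finset ℕ)) : ℝ :=
  AD σ U * wn (σ.powersetCard 2 ∩ U).card
/-- weight in a complex with cone point `0` -/
noncomputable def W0 (σ : Finset ℕ) (U : Finset (Finset ℕ)) : ℝ :=
  if 0 ∈ σ then AD (σ.erase 0) U else WW σ U
def edges (T : Cx) : Finset (Finset ℕ) := T.biUnion (powersetCard 2)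
def verts (T : Cx) : Finset ℕ := T.biUnion id
/-- the Turaev-Viro number -/
noncomputable def TV (T : Cx) : ℝ :=
  (DD ^ (verts T).card)⁻¹ * SS (edges T) fun U => ∏ σ ∈ T, WW σ U
/-- the boundary triangles -/
def lk (K : Cx) : Cx := (K.filter (0 ∈ ·)).image (·.erase 0)
def eB (K : Cx) : Finset (Finset ℕ) := edges (lk K)
def vB (K : Cx) : Finset ℕ := verts (lk K)
def eI (K : Cx) : Finset (Finset ℕ) := (edges K).filter (0 ∉ ·) \ eB K
def vI (K : Cx) : Finset ℕ := (verts K).erase 0 \ vB K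
noncomputable def ZZ (K : Cx) (c : Finset (Finset ℕ)) : ℝ :=
  SS (eI K) fun U => ∏ σ ∈ K, W0 σ (c ∪ U)
/-- the Turaev-Viro number of the double -/
noncomputable def NN (K : Cx) : ℝ :=
  (DD ^ (2 * (vI K).card + (vB K).card))⁻¹ * SS (eB K) fun c => ZZ K c ^ 2

lemma mem_edges {T : Cx} {e : Finset ℕ} : e ∈ edges T ↔ e.card = 2 ∧ Face T e := by
  simp only [edges, mem_biUnion, mem_powersetCard, Face]
  exact ⟨fun ⟨σ, h, h1, h2⟩ => ⟨h2, σ, h, h1⟩, fun ⟨h2, σ, h, h1⟩ => ⟨σ, h, h1, h2⟩⟩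

lemma mem_verts {T : Cx} {v : ℕ} : v ∈ verts T ↔ Face T {v} := by
  simp [verts, Face]

lemma face_lk {K : Cx} {A : Finset ℕ} : Face (lk K) A ↔ 0 ∉ A ∧ Face K (insert 0 A) := by
  simp only [Face, lk, mem_image, mem_filter]
  constructor
  · rintro ⟨_, ⟨σ, ⟨h, h0⟩, rfl⟩, hA⟩
    exact ⟨fun h' => by simpa using hA h', σ, h,
      insert_subset h0 (hA.trans (erase_subset _ _))⟩
  · rintro ⟨h0, σ, h, hA⟩
    exact ⟨_, ⟨σ, ⟨h, hA (mem_insert_self _ _)⟩, rfl⟩,
      subset_erase.2 ⟨(subset_insert _ _).trans hA, h0⟩⟩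

lemma mem_eB {K : Cx} {e : Finset ℕ} :
    e ∈ eB K ↔ e.card = 2 ∧ 0 ∉ e ∧ Face K (insert 0 e) := by rw [eB, mem_edges, face_lk]

lemma mem_vB {K : Cx} {v : ℕ} : v ∈ vB K ↔ v ≠ 0 ∧ Face K {0, v} := by
  rw [vB, mem_verts, face_lk]; simp [eq_comm]

lemma mem_eI {K : Cx} {e : Finset ℕ} :
    e ∈ eI K ↔ e.card = 2 ∧ 0 ∉ e ∧ Face K e ∧ ¬ Face K (insert 0 e) := by
  rw [eI, mem_sdiff, mem_filter, mem_edges, mem_eB]; tauto

lemma mem_vI {K : Cx} {v : ℕ} : v ∈ vI K ↔ v ≠ 0 ∧ Face K {v} ∧ ¬ Face K {0, v} := by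
  rw [vI, mem_sdiff, mem_erase, mem_verts, mem_vB]; tauto

lemma Face.mono {T : Cx} {A B : Finset ℕ} (h : Face T B) (hA : A ⊆ B) : Face T A := by
  obtain ⟨σ, h1, h2⟩ := h; exact ⟨σ, h1, hA.trans h2⟩

lemma AD_congr {σ : Finset ℕ} {U U' : Finset (Finset ℕ)}
    (h : ∀ e ⊆ σ, e.card = 2 → (e ∈ U ↔ e ∈ U')) : AD σ U = AD σ U' := by
  have : ∀ t ∈ σ.powersetCard 3, t.powersetCard 2 ∩ U = t.powersetCard 2 ∩ U' := by
    intro t ht
    ext e
    simp only [mem_inter, mem_powersetCard, and_congr_right_iff]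
    exact fun he => h e (he.1.trans (mem_powersetCard.1 ht).1) he.2
  unfold AD
  exact if_congr (forall₂_congr fun t ht => by rw [this t ht]) rfl rfl

lemma WW_congr {σ : Finset ℕ} {U U' : Finset (Finset ℕ)}
    (h : ∀ e ⊆ σ, e.card = 2 → (e ∈ U ↔ e ∈ U')) : WW σ U = WW σ U' := by
  have : σ.powersetCard 2 ∩ U = σ.powersetCard 2 ∩ U' := by
    ext e
    simp only [mem_inter, mem_powersetCard, and_congr_right_iff]
    exact fun he => h e he.1 he.2
  rw [WW, WW, AD_congr h, this]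

lemma W0_congr {σ : Finset ℕ} {U U' : Finset (Finset ℕ)}
    (h : ∀ e ⊆ σ, e.card = 2 → 0 ∉ e → (e ∈ U ↔ e ∈ U')) : W0 σ U = W0 σ U' := by
  unfold W0
  split_ifs with h0
  · exact AD_congr fun e he hc =>
      h e (he.trans (erase_subset _ _)) hc fun h' => by simpa using he h'
  · exact WW_congr fun e he hc => h e he hc fun h' => h0 (he h')

lemma AD_mul_AD {F σ : Finset ℕ} (h : F ⊆ σ) (U : Finset (Finset ℕ)) :
    AD σ U * AD F U = AD σ U := by
  unfold AD
  split_ifs with h1 h2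
  · simp
  · exact absurd (fun t ht => h1 t (powersetCard_mono h ht)) h2
  · simp
  · simp

lemma WW_mul_AD {F σ : Finset ℕ} (h : F ⊆ σ) (U : Finset (Finset ℕ)) :
    WW σ U * AD F U = WW σ U := by
  rw [WW, mul_right_comm, AD_mul_AD h]

/-- the edges of the five vertices `A ∪ B` that contain `A` -/
def eO (A B : Finset ℕ) : Finset (Finset ℕ) := ((A ∪ B).powersetCard 2).filter (A ⊆ ·)

section
variable {A B F : Finset ℕ} {K K' : Cx}

lemma flip_symm (h : Flip A B K K') : Flip B A K' K := by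
  obtain ⟨h1, h2, h3, h4, R, h5, h6, h7⟩ := h
  refine ⟨h2, h1, h3.symm, by rwa [union_comm], R, fun σ hσ => (h5 σ hσ).symm, ?_, ?_⟩ <;>
    rw [union_comm B A] <;> assumption

lemma flip_face_of (h : Flip A B K K') (hF : F ⊆ A ∪ B) (hB : ¬ B ⊆ F) : Face K F := by
  obtain ⟨-, -, -, -, R, -, rfl, -⟩ := h
  obtain ⟨b, hb, hb'⟩ := not_subset.1 hB
  exact ⟨_, mem_union_right _ (mem_image_of_mem _ hb), subset_erase.2 ⟨hF, hb'⟩⟩

lemma flip_not_face (h : Flip A B K K') (hB : B ⊆ F) : ¬ Face K F := by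
  obtain ⟨-, -, -, -, R, h5, rfl, -⟩ := h
  rintro ⟨σ, hσ, hF⟩
  rcases mem_union.1 hσ with hσ | hσ
  · exact (h5 σ hσ).2 (hB.trans hF)
  · obtain ⟨b, hb, rfl⟩ := mem_image.1 hσ
    simpa using hF (hB hb)

lemma flip_face (h : Flip A B K K') (hA : ¬ A ⊆ F) (hF : Face K F) : Face K' F := by
  have h' := flip_symm h
  obtain ⟨-, -, -, -, R, -, rfl, e⟩ := h
  obtain ⟨σ, hσ, hF⟩ := hF
  rcases mem_union.1 hσ with hσ | hσ
  · exact ⟨σ, e ▸ mem_union_left _ hσ, hF⟩
  · obtain ⟨b, -, rfl⟩ := mem_image.1 hσ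
    exact flip_face_of h' (by rw [union_comm]; exact hF.trans (erase_subset _ _)) hA

/-- a face of `K` containing `A` lies in `A ∪ B` -/
lemma flip_sub (h : Flip A B K K') (hA : A ⊆ F) (hF : Face K F) : F ⊆ A ∪ B := by
  obtain ⟨-, -, -, -, R, h5, rfl, -⟩ := h
  obtain ⟨σ, hσ, hF⟩ := hF
  rcases mem_union.1 hσ with hσ | hσ
  · exact absurd (hA.trans hF) (h5 σ hσ).1
  · obtain ⟨b, -, rfl⟩ := mem_image.1 hσ
    exact hF.trans (erase_subset _ _)

/-- products over the two complexes of a flip -/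
lemma flip_prod (h : Flip A B K K') : ∃ R : Cx, (∀ σ ∈ R, ¬ A ⊆ σ ∧ ¬ B ⊆ σ) ∧
    (∀ f : Finset ℕ → ℝ, ∏ σ ∈ K, f σ = (∏ σ ∈ R, f σ) * ∏ b ∈ B, f ((A ∪ B).erase b)) ∧
    ∀ f : Finset ℕ → ℝ, ∏ σ ∈ K', f σ = (∏ σ ∈ R, f σ) * ∏ a ∈ A, f ((A ∪ B).erase a) := by
  obtain ⟨-, -, h3, -, R, h5, rfl, rfl⟩ := h
  have key : ∀ C D : Finset ℕ, Disjoint C D → C ⊆ A ∪ B → D ⊆ A ∪ B → (∀ σ ∈ R, ¬ C ⊆ σ) →
      ∀ f : Finset ℕ → ℝ, ∏ σ ∈ R ∪ D.image (A ∪ B).erase, f σ =
        (∏ σ ∈ R, f σ) * ∏ b ∈ D, f ((A ∪ B).erase b) := by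
    intro C D hCD hC hD hR f
    rw [prod_union, prod_image]
    · exact fun x hx y hy e => (erase_inj _ (hD hx)).1 e
    · refine disjoint_left.2 fun σ hσ hσ' => ?_
      obtain ⟨b, hb, rfl⟩ := mem_image.1 hσ'
      exact hR _ hσ (subset_erase.2 ⟨hC, fun h => disjoint_left.1 hCD h hb⟩)
  exact ⟨R, h5, key A B h3 subset_union_left subset_union_right fun σ h => (h5 σ h).1,
    key B A h3.symm subset_union_right subset_union_left fun σ h => (h5 σ h).2⟩
end

end Pool.Agent.P.MP_4830f8_gt.RG
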