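import Pool.Agent.P.MP_4830f8_gt.RG.Base

/-! The local identities between the weights. -/

set_option autoImplicit false

namespace Pool.Agent.P.MP_4830f8_gt.RG

open Finset

/-- the ring generated by `ss` -/
structure Q4 where
  a : ℤ
  b : ℤ
  c : ℤ
  d : ℤ
deriving DecidableEq

namespace Q4
noncomputable def ev (x : Q4) : ℝ := x.a + x.b * ss + x.c * ss ^ 2 + x.d * ss ^ 3
def add (x y : Q4) : Q4 := ⟨x.a + y.a, x.b + y.b, x.c + y.c, x.d + y.d⟩
def mul (x y : Q4) : Q4 :=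
  ⟨x.a * y.a + (x.b * y.d + x.c * y.c + x.d * y.b) - x.d * y.d,
   x.a * y.b + x.b * y.a + (x.c * y.d + x.d * y.c),
   x.a * y.c + x.b * y.b + x.c * y.a - (x.b * y.d + x.c * y.c + x.d * y.b) + 2 * (x.d * y.d),
   x.a * y.d + x.b * y.c + x.c * y.b + x.d * y.a - (x.c * y.d + x.d * y.c)⟩
lemma ev_add (x y : Q4) : (add x y).ev = x.ev + y.ev := by simp only [ev, add]; push_cast; ring
lemma ev_mul (x y : Q4) : (mul x y).ev = x.ev * y.ev := by
  simp only [ev, mul]; push_cast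
  linear_combination (-(x.b * y.d + x.c * y.c + x.d * y.b) - (x.c * y.d + x.d * y.c) * ss
    - x.d * y.d * (ss ^ 2 - 1) : ℝ) * ss_four
def zero : Q4 := ⟨0, 0, 0, 0⟩
def one : Q4 := ⟨1, 0, 0, 0⟩
def pw (b : Bool) : Q4 := if b then ⟨1, 0, 1, 0⟩ else one
def DD : Q4 := ⟨3, 0, 1, 0⟩
def ad (a b c : Bool) : Q4 := if adm a b c then one else zero
def wn : ℕ → Q4
  | 0 => one | 3 => ⟨0, 1, 0, 0⟩ | 4 => ⟨0, 0, 1, 0⟩ | 5 => ⟨0, 0, 1, 0⟩ | 6 => ⟨-1, 0, 1, 0⟩
  | _ => zero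
def W6 (a b c d e f : Bool) : Q4 :=
  if adm a b d && adm a c e && adm b c f && adm d e f then
    wn (a.toNat + b.toNat + c.toNat + d.toNat + e.toNat + f.toNat) else zero
def sm (f : Bool → Q4) : Q4 := add (f false) (mul (pw true) (f true))
lemma ev_zero : zero.ev = 0 := by simp [ev, zero]
lemma ev_one : one.ev = 1 := by simp [ev, one]
lemma ev_pw (b : Bool) : (pw b).ev = RG.pw b := by cases b <;> simp [pw, RG.pw, ev, one, ph]
lemma ev_DD : DD.ev = RG.DD := by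
  simp only [ev, DD, RG.DD, ph]; push_cast; linear_combination (-1 : ℝ) * ss_four
lemma ev_ad (a b c : Bool) : (ad a b c).ev = RG.ad a b c := by
  unfold ad RG.ad; split_ifs <;> simp [ev_one, ev_zero]
lemma ev_wn (n : ℕ) : (wn n).ev = RG.wn n := by
  unfold wn RG.wn
  split <;> simp [ev, one, zero]
  linear_combination ss_four
lemma ev_W6 (a b c d e f : Bool) : (W6 a b c d e f).ev = RG.W6 a b c d e f := by
  unfold W6 RG.W6; split_ifs <;> simp [ev_wn, ev_zero]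
end Q4

/-- sum over the two colours of an edge -/
noncomputable def sm (f : Bool → ℝ) : ℝ := f false + ph * f true

lemma Q4.ev_sm (f : Bool → Q4) : (Q4.sm f).ev = RG.sm fun x => (f x).ev := by
  rw [Q4.sm, Q4.ev_add, Q4.ev_mul, Q4.ev_pw]; rfl

section
open Q4
/-- five vertices, edges `c0 .. c9` = 01 02 03 04 12 13 14 23 24 34; the edge 01 disappears -/
theorem b32 (c1 c2 c3 c4 c5 c6 c7 c8 c9 : Bool) :
    RG.sm (fun c0 => RG.W6 c0 c2 c3 c5 c6 c9 * RG.W6 c0 c1 c3 c4 c6 c8 * RG.W6 c0 c1 c2 c4 c5 c7) =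
      RG.W6 c4 c5 c6 c7 c8 c9 * RG.W6 c1 c2 c3 c7 c8 c9 := by
  have : ∀ c1 c2 c3 c4 c5 c6 c7 c8 c9 : Bool, Q4.sm (fun c0 => mul (mul (Q4.W6 c0 c2 c3 c5 c6 c9)
      (Q4.W6 c0 c1 c3 c4 c6 c8)) (Q4.W6 c0 c1 c2 c4 c5 c7)) =
      mul (Q4.W6 c4 c5 c6 c7 c8 c9) (Q4.W6 c1 c2 c3 c7 c8 c9) := by decide +kernel
  simpa only [ev_sm, ev_mul, ev_W6] using congrArg ev (this c1 c2 c3 c4 c5 c6 c7 c8 c9)

/-- the edge 34 appears -/
theorem b23 (c0 c1 c2 c3 c4 c5 c6 c7 c8 : Bool) :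
    RG.W6 c0 c1 c3 c4 c6 c8 * RG.W6 c0 c1 c2 c4 c5 c7 = RG.sm (fun c9 =>
      RG.W6 c4 c5 c6 c7 c8 c9 * RG.W6 c1 c2 c3 c7 c8 c9 * RG.W6 c0 c2 c3 c5 c6 c9) := by
  have : ∀ c0 c1 c2 c3 c4 c5 c6 c7 c8 : Bool, mul (Q4.W6 c0 c1 c3 c4 c6 c8)
      (Q4.W6 c0 c1 c2 c4 c5 c7) = Q4.sm (fun c9 => mul (mul (Q4.W6 c4 c5 c6 c7 c8 c9)
      (Q4.W6 c1 c2 c3 c7 c8 c9)) (Q4.W6 c0 c2 c3 c5 c6 c9)) := by decide +kernel
  simpa only [ev_sm, ev_mul, ev_W6] using congrArg ev (this c0 c1 c2 c3 c4 c5 c6 c7 c8)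

/-- the vertex 0 disappears -/
theorem b41 (c4 c5 c6 c7 c8 c9 : Bool) :
    (RG.sm fun c0 => RG.sm fun c1 => RG.sm fun c2 => RG.sm fun c3 =>
      RG.W6 c1 c2 c3 c7 c8 c9 * RG.W6 c0 c2 c3 c5 c6 c9 * RG.W6 c0 c1 c3 c4 c6 c8 *
        RG.W6 c0 c1 c2 c4 c5 c7) = RG.DD * RG.W6 c4 c5 c6 c7 c8 c9 := by
  have : ∀ c4 c5 c6 c7 c8 c9 : Bool, (Q4.sm fun c0 => Q4.sm fun c1 => Q4.sm fun c2 =>
      Q4.sm fun c3 => mul (mul (mul (Q4.W6 c1 c2 c3 c7 c8 c9) (Q4.W6 c0 c2 c3 c5 c6 c9))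
      (Q4.W6 c0 c1 c3 c4 c6 c8)) (Q4.W6 c0 c1 c2 c4 c5 c7)) =
      mul Q4.DD (Q4.W6 c4 c5 c6 c7 c8 c9) := by decide +kernel
  simpa only [ev_sm, ev_mul, ev_W6, ev_DD] using congrArg ev (this c4 c5 c6 c7 c8 c9)

/-- orthogonality in the edge 23 -/
theorem bort (a a' b c d e : Bool) :
    RG.pw a * RG.sm (fun f => RG.W6 a b c d e f * RG.W6 a' b c d e f) =
      if a = a' then RG.ad a b d * RG.ad a c e else 0 := by
  have : ∀ a a' b c d e : Bool, mul (Q4.pw a) (Q4.sm fun f => mul (Q4.W6 a b c d e f)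
      (Q4.W6 a' b c d e f)) = if a = a' then mul (Q4.ad a b d) (Q4.ad a c e) else zero := by
    decide +kernel
  have h := congrArg ev (this a a' b c d e)
  rw [apply_ite ev] at h
  simpa only [ev_sm, ev_mul, ev_W6, ev_pw, ev_ad, ev_zero] using h

/-- the pillow around the vertex 3 -/
theorem bpil (a b d : Bool) :
    (RG.sm fun c => RG.sm fun e => RG.sm fun f => RG.W6 a b c d e f ^ 2) =
      RG.DD * RG.ad a b d := by
  have : ∀ a b d : Bool, (Q4.sm fun c => Q4.sm fun e => Q4.sm fun f => mul (Q4.W6 a b c d e f)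
      (Q4.W6 a b c d e f)) = mul Q4.DD (Q4.ad a b d) := by decide +kernel
  simpa only [ev_sm, ev_mul, ev_W6, ev_DD, ev_ad, sq] using congrArg ev (this a b d)

/-- the double of a tetrahedron -/
theorem bball : (RG.sm fun a => RG.sm fun b => RG.sm fun c => RG.sm fun d => RG.sm fun e =>
    RG.sm fun f => RG.W6 a b c d e f ^ 2) = RG.DD ^ 3 := by
  have : (Q4.sm fun a => Q4.sm fun b => Q4.sm fun c => Q4.sm fun d => Q4.sm fun e =>
      Q4.sm fun f => mul (Q4.W6 a b c d e f) (Q4.W6 a b c d e f)) =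
      mul Q4.DD (mul Q4.DD Q4.DD) := by decide +kernel
  have h := congrArg ev this
  simp only [ev_sm, ev_mul, ev_W6, ev_DD] at h
  simp only [sq, h]; ring

/-- the double of the prism `abcf, abef, adef` -/
theorem bpri (ab ac bc de df ef : Bool) :
    (RG.sm fun ad' => RG.sm fun ae => RG.sm fun af => RG.sm fun be => RG.sm fun bf =>
      RG.sm fun cf => (RG.W6 ab ac af bc bf cf * RG.W6 ab ae af be bf ef *
        RG.W6 ad' ae af de df ef) ^ 2) = RG.DD * RG.ad ab ac bc * RG.ad de df ef := by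
  have : ∀ ab ac bc de df ef : Bool, (Q4.sm fun ad' => Q4.sm fun ae => Q4.sm fun af =>
      Q4.sm fun be => Q4.sm fun bf => Q4.sm fun cf =>
      mul (mul (mul (Q4.W6 ab ac af bc bf cf) (Q4.W6 ab ae af be bf ef)) (Q4.W6 ad' ae af de df ef))
        (mul (mul (Q4.W6 ab ac af bc bf cf) (Q4.W6 ab ae af be bf ef))
          (Q4.W6 ad' ae af de df ef))) =
      mul (mul Q4.DD (Q4.ad ab ac bc)) (Q4.ad de df ef) := by decide +kernel
  simpa only [ev_sm, ev_mul, ev_W6, ev_DD, ev_ad, sq] using congrArg ev (this ab ac bc de df ef)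
end

/-- a non-zero weight forces the four faces to be admissible -/
lemma W6_ad (a b c d e f : Bool) :
    W6 a b c d e f * ad a b d = W6 a b c d e f ∧ W6 a b c d e f * ad a c e = W6 a b c d e f ∧
    W6 a b c d e f * ad b c f = W6 a b c d e f ∧ W6 a b c d e f * ad d e f = W6 a b c d e f := by
  unfold W6 ad
  cases adm a b d <;> cases adm a c e <;> cases adm b c f <;> cases adm d e f <;> simp

lemma ad_sq (a b c : Bool) : ad a b c * ad a b c = ad a b c := by unfold ad; split_ifs <;> simp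

lemma card_inter_three {α : Type} [DecidableEq α] {x y z : α} (hxy : x ≠ y) (hxz : x ≠ z)
    (hyz : y ≠ z) (U : Finset α) : (({x, y, z} : Finset α) ∩ U).card =
      (decide (x ∈ U)).toNat + (decide (y ∈ U)).toNat + (decide (z ∈ U)).toNat := by
  by_cases h1 : x ∈ U <;> by_cases h2 : y ∈ U <;> by_cases h3 : z ∈ U <;>
    simp [h1, h2, h3, hxy, hxz, hyz, insert_inter_of_mem, insert_inter_of_notMem,
      singleton_inter_of_mem, singleton_inter_of_notMem]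

lemma pair_ne {a b c d : ℕ} (h : ¬ ((a = c ∧ b = d) ∨ (a = d ∧ b = c))) :
    ({a, b} : Finset ℕ) ≠ {c, d} := by
  intro e
  have h1 : a ∈ ({c, d} : Finset ℕ) := e ▸ by simp
  have h2 : b ∈ ({c, d} : Finset ℕ) := e ▸ by simp
  have h3 : c ∈ ({a, b} : Finset ℕ) := e.symm ▸ by simp
  have h4 : d ∈ ({a, b} : Finset ℕ) := e.symm ▸ by simp
  simp only [mem_insert, mem_singleton] at h1 h2 h3 h4
  omega

lemma pc2_three {a b c : ℕ} (hab : a ≠ b) (hac : a ≠ c) (hbc : b ≠ c) :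
    ({a, b, c} : Finset ℕ).powersetCard 2 = {{a, b}, {a, c}, {b, c}} := by
  rw [powersetCard_succ_insert (by simp [hab, hac]), powersetCard_succ_insert (by simp [hbc])]
  simp [powersetCard_one, powersetCard_eq_empty.2]
  ext; simp; tauto

lemma pc2_four {a b c d : ℕ} (hab : a ≠ b) (hac : a ≠ c) (had : a ≠ d) (hbc : b ≠ c)
    (hbd : b ≠ d) (hcd : c ≠ d) : ({a, b, c, d} : Finset ℕ).powersetCard 2 =
      {{a, b}, {a, c}, {a, d}} ∪ {{b, c}, {b, d}, {c, d}} := by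
  rw [powersetCard_succ_insert (by simp [hab, hac, had]), pc2_three hbc hbd hcd, union_comm]
  congr 1
  simp [powersetCard_one]

lemma pc3_four {a b c d : ℕ} (hab : a ≠ b) (hac : a ≠ c) (had : a ≠ d) (hbc : b ≠ c)
    (hbd : b ≠ d) (hcd : c ≠ d) : ({a, b, c, d} : Finset ℕ).powersetCard 3 =
      {{a, b, c}, {a, b, d}, {a, c, d}, {b, c, d}} := by
  have h3 : ({b, c, d} : Finset ℕ).card = 3 := card_eq_three.2 ⟨b, c, d, hbc, hbd, hcd, rfl⟩
  rw [powersetCard_succ_insert (by simp [hab, hac, had]), pc2_three hbc hbd hcd]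
  conv_lhs => arg 1; rw [show Nat.succ 2 = ({b, c, d} : Finset ℕ).card from h3.symm, powersetCard_self]
  ext; simp; tauto

lemma AD_eq {a b c : ℕ} (hab : a ≠ b) (hac : a ≠ c) (hbc : b ≠ c) (U : Finset (Finset ℕ)) :
    AD {a, b, c} U = ad (decide ({a, b} ∈ U)) (decide ({a, c} ∈ U)) (decide ({b, c} ∈ U)) := by
  have h3 : ({a, b, c} : Finset ℕ).card = 3 := card_eq_three.2 ⟨a, b, c, hab, hac, hbc, rfl⟩
  unfold AD ad adm
  conv_lhs => rw [← h3, powersetCard_self]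
  simp only [mem_singleton, forall_eq, pc2_three hab hac hbc]
  rw [card_inter_three (pair_ne (by omega)) (pair_ne (by omega)) (pair_ne (by omega))]
  simp

lemma WW_eq {a b c d : ℕ} (hab : a ≠ b) (hac : a ≠ c) (had : a ≠ d) (hbc : b ≠ c)
    (hbd : b ≠ d) (hcd : c ≠ d) (U : Finset (Finset ℕ)) :
    WW {a, b, c, d} U = W6 (decide ({a, b} ∈ U)) (decide ({a, c} ∈ U)) (decide ({a, d} ∈ U))
      (decide ({b, c} ∈ U)) (decide ({b, d} ∈ U)) (decide ({c, d} ∈ U)) := by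
  have hd : Disjoint (({{a, b}, {a, c}, {a, d}} : Finset (Finset ℕ)) ∩ U)
      ({{b, c}, {b, d}, {c, d}} ∩ U) := by
    refine Disjoint.mono inter_subset_left inter_subset_left ?_
    simp only [disjoint_insert_left, disjoint_singleton_left, mem_insert, mem_singleton, not_or]
    refine ⟨⟨?_, ?_, ?_⟩, ⟨?_, ?_, ?_⟩, ?_, ?_, ?_⟩ <;> exact pair_ne (by omega)
  unfold WW AD W6 adm
  rw [pc3_four hab hac had hbc hbd hcd, pc2_four hab hac had hbc hbd hcd, union_inter_distrib_right,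
    card_union_of_disjoint hd]
  simp only [mem_insert, mem_singleton, forall_eq_or_imp, forall_eq, pc2_three hab hac hbc,
    pc2_three hab had hbd, pc2_three hac had hcd, pc2_three hbc hbd hcd]
  repeat rw [card_inter_three (pair_ne (by omega)) (pair_ne (by omega)) (pair_ne (by omega))]
  simp only [Bool.and_eq_true, bne_iff_ne, and_assoc, add_assoc, ite_mul, one_mul, zero_mul]

/-- summing over the colour of one new edge -/
lemma SS_insert_sm {α : Type} [DecidableEq α] {E : Finset α} {e : α} (h : e ∉ E)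
    (f : Finset α → ℝ) : SS (insert e E) f =
      sm fun x => SS E fun U => f (if x then insert e U else U) := by
  rw [SS_insert h, SS_add, SS_mul]; simp [sm]

end Pool.Agent.P.MP_4830f8_gt.RG
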