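import Pool.Agent.P.MP_4830f8_gt.RG.Iface

/-! From complexes to tetrahedra with labelled edges. -/

set_option autoImplicit false

namespace Pool.Agent.P.MP_4830f8_gt.RG

open Finset

namespace BR

/-- the label of an edge -/
def φ (lab : ℕ → ℕ → ℕ) (e : Finset ℕ) : ℕ :=
  if h : e.Nonempty then lab (e.min' h) (e.max' h) else 0

lemma φ_pair (lab : ℕ → ℕ → ℕ) {v w : ℕ} (h : v < w) : φ lab {v, w} = lab v w := by
  rw [φ, dif_pos (insert_nonempty _ _)]
  congr 1
  · refine le_antisymm (min'_le _ _ (by simp)) (le_min' _ _ _ fun y hy => ?_)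
    simp only [mem_insert, mem_singleton] at hy
    omega
  · refine le_antisymm (max'_le _ _ _ fun y hy => ?_) (le_max' _ _ (by simp))
    simp only [mem_insert, mem_singleton] at hy
    omega

lemma pair_of {e : Finset ℕ} (h : e.card = 2) : ∃ v w, v < w ∧ e = {v, w} := by
  obtain ⟨v, w, hne, rfl⟩ := card_eq_two.1 h
  rcases lt_or_gt_of_ne hne with k | k
  · exact ⟨v, w, k, rfl⟩
  · exact ⟨w, v, k, pair_comm _ _⟩

lemma quad {a b c d a' b' c' d' : ℕ} (h : a < b ∧ b < c ∧ c < d) (h' : a' < b' ∧ b' < c' ∧ c' < d')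
    (e : ({a, b, c, d} : Finset ℕ) = {a', b', c', d'}) : a = a' ∧ b = b' ∧ c = c' ∧ d = d' := by
  have k : ∀ x, (x = a ∨ x = b ∨ x = c ∨ x = d) ↔ (x = a' ∨ x = b' ∨ x = c' ∨ x = d') := by
    intro x
    simpa using Finset.ext_iff.1 e x
  have k1 := (k a).1 (by simp)
  have k2 := (k b).1 (by simp)
  have k3 := (k c).1 (by simp)
  have k4 := (k d).1 (by simp)
  omega

end BR

open BR

theorem BR : S_BR := by
  intro n t tet lab h1 h2 h3 h4
  have inj : Set.InjOn (φ lab) (edges (mkT n t) : Set (Finset ℕ)) := by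
    intro e he e' he' k
    obtain ⟨c, f⟩ := mem_edges.1 (mem_coe.1 he)
    obtain ⟨c', f'⟩ := mem_edges.1 (mem_coe.1 he')
    obtain ⟨v, w, hv, rfl⟩ := pair_of c
    obtain ⟨v', w', hv', rfl⟩ := pair_of c'
    rw [φ_pair lab hv, φ_pair lab hv'] at k
    obtain ⟨rfl, rfl⟩ := h4 v w v' w' hv hv' f f' k
    rfl
  have r6 : range 6 = {0, 1, 2, 3, 4, 5} := by decide
  have e1 : labs (range n) tet = (edges (mkT n t)).image (φ lab) := by
    rw [labs, edges, mkT, image_biUnion, biUnion_image]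
    refine biUnion_congr rfl fun i hi => ?_
    obtain ⟨a1, a2, a3⟩ := h1 i (mem_range.1 hi)
    obtain ⟨b0, b1, b2, b3, b4, b5⟩ := h3 i (mem_range.1 hi)
    rw [pc2_four (by omega) (by omega) (by omega) (by omega) (by omega) (by omega), r6]
    simp only [image_insert, image_singleton, insert_union, singleton_union]
    rw [φ_pair lab a1, φ_pair lab (a1.trans a2), φ_pair lab (a1.trans (a2.trans a3)),
      φ_pair lab a2, φ_pair lab (a2.trans a3), φ_pair lab a3, b0, b1, b2, b3, b4, b5]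
  rw [ZL, e1, SS_image inj]
  refine SS_congr fun U hU => ?_
  rw [mkT, prod_image]
  · refine prod_congr rfl fun i hi => ?_
    obtain ⟨a1, a2, a3⟩ := h1 i (mem_range.1 hi)
    obtain ⟨b0, b1, b2, b3, b4, b5⟩ := h3 i (mem_range.1 hi)
    have k : ∀ v w, v < w → ({v, w} : Finset ℕ) ⊆ {t i 0, t i 1, t i 2, t i 3} →
        decide (lab v w ∈ U.image (φ lab)) = decide ({v, w} ∈ U) := by
      intro v w hv hs
      have he : ({v, w} : Finset ℕ) ∈ edges (mkT n t) :=
        mem_edges.2 ⟨card_pair hv.ne, _, mem_image_of_mem _ hi, hs⟩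
      rw [← φ_pair lab hv]
      refine decide_eq_decide.2 ⟨fun k => ?_, mem_image_of_mem _⟩
      obtain ⟨e, he', k⟩ := mem_image.1 k
      exact inj (hU he') he k ▸ he'
    rw [WW_eq (by omega) (by omega) (by omega) (by omega) (by omega) (by omega), wt,
      b0, b1, b2, b3, b4, b5, k _ _ a1 (by simp [insert_subset_iff]),
      k _ _ (a1.trans a2) (by simp [insert_subset_iff]),
      k _ _ (a1.trans (a2.trans a3)) (by simp [insert_subset_iff]),
      k _ _ a2 (by simp [insert_subset_iff]), k _ _ (a2.trans a3) (by simp [insert_subset_iff]),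
      k _ _ a3 (by simp [insert_subset_iff])]
  · intro i hi j hj e
    have hi := mem_range.1 (mem_coe.1 hi)
    have hj := mem_range.1 (mem_coe.1 hj)
    obtain ⟨q0, q1, q2, q3⟩ := quad (h1 i hi) (h1 j hj) e
    exact h2 i hi j hj q0 q1 q2 q3

end Pool.Agent.P.MP_4830f8_gt.RG
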