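import Pool.Agent.P.MP_4830f8_gt.RG.Iface

/-! Checkers run by the kernel. Tables are arbitrary functions `ℕ → ℕ`. -/

set_option autoImplicit false

namespace Pool.Agent.P.MP_4830f8_gt.RG

open Finset

/-! ### Basics -/

/-- evaluate a number before passing it on -/
noncomputable def force {α : Type} (x : ℕ) (k : ℕ → α) : α :=
  Nat.rec (k 0) (fun n _ => k (Nat.succ n)) x
lemma force_eq {α : Type} (x : ℕ) (k : ℕ → α) : force x k = k x := by cases x <;> rfl
noncomputable def forceI {α : Type} (x : ℤ) (k : ℤ → α) : α :=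
  Int.rec (fun n => force n fun n => k (Int.ofNat n)) (fun n => force n fun n => k (Int.negSucc n)) x
lemma forceI_eq {α : Type} (x : ℤ) (k : ℤ → α) : forceI x k = k x := by
  cases x <;> simp only [forceI, force_eq]
noncomputable def an (a b : Bool) : Bool := Bool.rec false b a
lemma an_iff {a b : Bool} : an a b = true ↔ a = true ∧ b = true := by cases a <;> simp [an]
noncomputable def oo (a b : Bool) : Bool := Bool.rec b true a
lemma oo_iff {a b : Bool} : oo a b = true ↔ a = true ∨ b = true := by cases a <;> simp [oo]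
noncomputable def cn {α : Type} (c : Bool) (a b : α) : α := Bool.rec b a c
lemma cn_eq {α : Type} (c : Bool) (a b : α) : cn c a b = if c = true then a else b := by
  cases c <;> rfl
def lt (a b : ℕ) : Bool := Nat.ble (Nat.succ a) b
lemma lt_iff {a b : ℕ} : lt a b = true ↔ a < b := Nat.ble_eq.to_iff
lemma ble_iff {a b : ℕ} : Nat.ble a b = true ↔ a ≤ b := Nat.ble_eq.to_iff
lemma beq_iff {a b : ℕ} : Nat.beq a b = true ↔ a = b := Nat.beq_eq.to_iff
noncomputable def ne (a b : ℕ) : Bool := cn (Nat.beq a b) false true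
lemma ne_iff' {a b : ℕ} : ne a b = true ↔ a ≠ b := by
  unfold ne; rw [cn_eq]; simp [beq_iff]
/-- a bit field -/
def fd (x s m : ℕ) : ℕ := Nat.land (Nat.shiftRight x s) m
lemma fd_le (x s m : ℕ) : fd x s m ≤ m := Nat.and_le_right
noncomputable def allN (f : ℕ → Bool) (n : ℕ) : Bool := Nat.rec true (fun i r => an (f i) r) n
lemma allN_iff {f : ℕ → Bool} {n : ℕ} : allN f n = true ↔ ∀ i < n, f i = true := by
  induction n with
  | zero => simp [allN]
  | succ n ih =>
    have : allN f (n + 1) = an (f n) (allN f n) := rfl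
    rw [this, an_iff, ih, Nat.forall_lt_succ_right, and_comm]
noncomputable def anyN (f : ℕ → Bool) (n : ℕ) : Bool := Nat.rec false (fun i r => oo (f i) r) n
lemma anyN_iff {f : ℕ → Bool} {n : ℕ} : anyN f n = true ↔ ∃ i < n, f i = true := by
  induction n with
  | zero => simp [anyN]
  | succ n ih =>
    have : anyN f (n + 1) = oo (f n) (anyN f n) := rfl
    rw [this, oo_iff, ih, Nat.exists_lt_succ_right, or_comm]
/-- check `f` on the block `[a * 2 ^ d, (a + 1) * 2 ^ d)` -/
noncomputable def allB (f : ℕ → Bool) (d : ℕ) : ℕ → Bool :=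
  Nat.rec f (fun _ ih a => force (Nat.mul 2 a) fun b => an (ih b) (force (Nat.succ b) ih)) d
lemma allB_sound {f : ℕ → Bool} {d a : ℕ} (h : allB f d a = true) :
    ∀ i, i / 2 ^ d = a → f i = true := by
  induction d generalizing a with
  | zero => intro i hi; simp at hi; subst hi; exact h
  | succ d ih =>
    have e : allB f (d + 1) a = force (Nat.mul 2 a) fun b =>
      an (allB f d b) (force (Nat.succ b) (allB f d)) := rfl
    rw [e, force_eq, force_eq, an_iff] at h
    intro i hi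
    rw [pow_succ, ← Nat.div_div_eq_div_mul] at hi
    rcases Nat.mod_two_eq_zero_or_one (i / 2 ^ d) with h2 | h2
    · exact ih h.1 i (by show _ = 2 * a; omega)
    · exact ih h.2 i (by show _ = 2 * a + 1; omega)
/-- restrict a check to the interval `[lo, hi)` -/
noncomputable def rng (lo hi : ℕ) (f : ℕ → Bool) (i : ℕ) : Bool :=
  oo (lt i lo) (oo (Nat.ble hi i) (f i))
lemma rng_sound {lo hi : ℕ} {f : ℕ → Bool} {i : ℕ} (h : rng lo hi f i = true) (h1 : lo ≤ i)
    (h2 : i < hi) : f i = true := by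
  simp only [rng, oo_iff, lt_iff, ble_iff] at h
  rcases h with h | h | h
  · omega
  · omega
  · exact h
/-- inner node of a table -/
noncomputable def nd (m : ℕ) (l r : ℕ → ℕ) (i : ℕ) : ℕ :=
  Nat.rec (l i) (fun _ _ => r i) (Nat.land i m)
/-- leaf of a table: sixteen packed records of width `w` -/
def lf (w m x i : ℕ) : ℕ := Nat.land (Nat.shiftRight x (Nat.mul w (Nat.land i 15))) m
/-- leaf of a table: one record -/
def l1 (x _i : ℕ) : ℕ := x

/-! ### Relations in a group -/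

/-- the code of the inverse; codes below `B` belong to involutions -/
noncomputable def iv (B c : ℕ) : ℕ := cn (lt c B) c (Nat.xor c 1)
/-- the value of a code -/
def sv {G : Type} [Group G] (B : ℕ) (val : ℕ → G) (c : ℕ) : G :=
  if B ≤ c ∧ c % 2 = 1 then (val (c / 2))⁻¹ else val (c / 2)
/-- the three codes of a record -/
def cd (R k : ℕ) : ℕ := fd R (Nat.mul 14 k) 16383
/-- a record says that a product of three values is trivial, or lies in `H` -/
def Holds {G : Type} [Group G] (H : Subgroup G) (B : ℕ) (val : ℕ → G) (R : ℕ) : Prop :=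
  if fd R 42 1 = 0 then sv B val (cd R 0) * sv B val (cd R 1) * sv B val (cd R 2) = 1
  else sv B val (cd R 0) * sv B val (cd R 1) * sv B val (cd R 2) ∈ H
/-- entry `k` of the record after rotation and possibly inversion -/
noncomputable def cp (B R r k : ℕ) : ℕ :=
  cn (lt r 3) (cd R (Nat.mod (Nat.add r k) 3)) (iv B (cd R (Nat.mod (Nat.sub (Nat.add r 2) k) 3)))
/-- a table entry, or for `h = 32768 + c` the trivial record `(0, c⁻¹, c)` -/
noncomputable def gt (F : ℕ → ℕ) (B h : ℕ) : ℕ :=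
  cn (lt h 32768) (F h) (force (Nat.land h 16383) fun c =>
    Nat.add (Nat.shiftLeft (iv B c) 14) (Nat.shiftLeft c 28))
/-- record `i` follows from three earlier ones: `a b p`, `p⁻¹ c d`, `b c r` give `a r⁻¹ d` -/
noncomputable def tetChk (F : ℕ → ℕ) (B i : ℕ) : Bool :=
  force (F i) fun R => oo (Nat.beq (fd R 43 1) 0) (
  force (fd R 44 65535) fun h1 => force (fd R 63 65535) fun h2 => force (fd R 82 65535) fun h3 =>
  force (fd R 60 7) fun r1 => force (fd R 79 7) fun r2 => force (fd R 98 7) fun r3 =>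
  force (gt F B h1) fun R1 => force (gt F B h2) fun R2 => force (gt F B h3) fun R3 =>
  an (oo (lt h1 i) (Nat.ble 32768 h1)) (an (oo (lt h2 i) (Nat.ble 32768 h2))
  (an (oo (lt h3 i) (Nat.ble 32768 h3)) (an (Nat.beq (fd R3 42 1) 0)
  (an (oo (Nat.beq (fd R1 42 1) 0) (an (Nat.beq (fd R 42 1) 1) (Nat.beq (Nat.mod r1 3) 0)))
  (an (oo (Nat.beq (fd R2 42 1) 0) (an (Nat.beq (fd R 42 1) 1) (Nat.beq (Nat.mod r2 3) 0)))
  (an (Nat.beq (cp B R1 r1 0) (cd R 0)) (an (Nat.beq (cp B R2 r2 0) (iv B (cp B R1 r1 2)))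
  (an (Nat.beq (cp B R3 r3 0) (cp B R1 r1 1)) (an (Nat.beq (cp B R3 r3 1) (cp B R2 r2 1))
  (an (Nat.beq (cd R 1) (iv B (cp B R3 r3 2))) (Nat.beq (cd R 2) (cp B R2 r2 2)))))))))))))
/-- record `i` defines the name `ng + i` -/
noncomputable def defChk (F : ℕ → ℕ) (ng i : ℕ) : Bool :=
  force (F i) fun R => force (Nat.mul 2 (Nat.add ng i)) fun z =>
  an (lt (cd R 0) z) (an (lt (cd R 1) z) (an (Nat.beq (cd R 2) (Nat.succ z))
    (Nat.beq (fd R 42 3) 0)))

/-! ### The move log -/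

def lb (R k : ℕ) : ℕ := fd R (Nat.mul 27 k) 134217727
def bt (R : ℕ) : ℕ := fd R 162 4095
def dt (R : ℕ) : ℕ := fd R 174 4095
def bl (l : ℕ) : ℕ := Nat.sub (Nat.land l 32767) 16383
def dl (l : ℕ) : ℕ := Nat.shiftRight l 15
def mty (Q : ℕ) : ℕ := fd Q 0 3
def mid (Q j : ℕ) : ℕ := fd Q (Nat.add 2 (Nat.mul 19 j)) 16383
def mpm (Q j : ℕ) : ℕ := fd Q (Nat.add 16 (Nat.mul 19 j)) 31
/-- life times of tetrahedron `i`; `n0` tetrahedra at the start, the list `fin` at the end -/
noncomputable def lifeChk (tt mv : ℕ → ℕ) (n0 M : ℕ) (fin : List ℕ) (i : ℕ) : Bool :=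
  force (tt i) fun R => force (bt R) fun b => force (dt R) fun d =>
  an (lt b d) (an (allN (fun k => force (lb R k) fun l =>
    an (Nat.ble (bl l) b) (Nat.ble d (dl l))) 6)
  (an (cn (lt i n0) (Nat.beq b 0) (an (lt 0 b) (an (Nat.ble b M) (force (mv b) fun Q =>
    anyN (fun j => Nat.beq (mid Q j) i) (mty Q)))))
  (cn (Nat.ble d M) (force (mv d) fun Q =>
    anyN (fun j => an (Nat.ble (mty Q) j) (Nat.beq (mid Q j) i)) 5)
    (List.rec false (fun x _ r => oo (Nat.beq x i) r) fin))))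
/-- the ten labels of a move, read off the tetrahedra number 4, 3, 2 and packed -/
noncomputable def mvP (tt : ℕ → ℕ) (Q : ℕ) : ℕ :=
  force (mid Q 2) fun i2 => force (mid Q 3) fun i3 => force (mid Q 4) fun i4 =>
  force (tt i2) fun R2 => force (tt i3) fun R3 => force (tt i4) fun R4 =>
  force (mpm Q 2) fun p2 => force (mpm Q 3) fun p3 => force (mpm Q 4) fun p4 =>
  Nat.add (lb R4 (pc p4 0))
    (Nat.shiftLeft (Nat.add (lb R4 (pc p4 1))
    (Nat.shiftLeft (Nat.add (lb R4 (pc p4 2))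
    (Nat.shiftLeft (Nat.add (lb R3 (pc p3 2))
    (Nat.shiftLeft (Nat.add (lb R4 (pc p4 3))
    (Nat.shiftLeft (Nat.add (lb R4 (pc p4 4))
    (Nat.shiftLeft (Nat.add (lb R3 (pc p3 4))
    (Nat.shiftLeft (Nat.add (lb R4 (pc p4 5))
    (Nat.shiftLeft (Nat.add (lb R3 (pc p3 5))
    (Nat.shiftLeft (lb R2 (pc p2 5)) 27)) 27)) 27)) 27)) 27)) 27)) 27)) 27)) 27)
noncomputable def moveChk (tt mv : ℕ → ℕ) (n t : ℕ) : Bool :=
  force (mv t) fun Q => force (mty Q) fun ty => force (mvP tt Q) fun E =>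
  an (Nat.ble 1 ty) (an (allN (fun j => force (mid Q j) fun i => force (mpm Q j) fun p =>
    force (tt i) fun R => an (lt i n) (an (Nat.beq (cn (lt j ty) (bt R) (dt R)) t) (an (lt p 24)
      (allN (fun k => Nat.beq (lb R (pc p k)) (lb E (k5 j k))) 6)))) 5)
  (an (allN (fun j => oo (Nat.beq (Nat.succ j) ty) (lt (mid Q j) (mid Q (Nat.succ j)))) 4)
  (cn (Nat.beq ty 3) (Nat.beq (bl (lb E 9)) t) (an (Nat.beq (dl (lb E 0)) t) (oo (Nat.beq ty 2)
    (allN (fun k => an (Nat.beq (dl (lb E k)) t) (allN (fun k' => ne (lb E k') (lb E k)) k)) 4))))))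
/-- number of moves `1 ≤ t ≤ M` of type one in the block `[a * 2 ^ d, (a + 1) * 2 ^ d)` -/
noncomputable def cnt1 (mv : ℕ → ℕ) (M d : ℕ) : ℕ → ℕ :=
  Nat.rec (fun a => cn (an (lt 0 a) (an (Nat.ble a M) (Nat.beq (mty (mv a)) 1))) 1 0)
    (fun _ ih a => force (Nat.mul 2 a) fun b => Nat.add (ih b) (force (Nat.succ b) ih)) d

/-! ### The triangulation -/

/-- the vertices of a tetrahedron, read off its first and last label -/
def t0 (R : ℕ) : ℕ := fd R 7 127
def t1 (R : ℕ) : ℕ := fd R 0 127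
def t2 (R : ℕ) : ℕ := fd R 142 127
def t3 (R : ℕ) : ℕ := fd R 135 127
def tv (R k : ℕ) : ℕ := if k = 0 then t0 R else if k = 1 then t1 R else if k = 2 then t2 R else t3 R
/-- the complex of the first `n0` records -/
def TT (tt : ℕ → ℕ) (n0 : ℕ) : Cx := mkT n0 fun i => tv (tt i)
def ky (v w : ℕ) : ℕ := Nat.add (Nat.mul 128 v) w
def k1 (k : ℕ) : ℕ := Nat.shiftRight k 7
def k2 (k : ℕ) : ℕ := Nat.land k 127
def lex (R : ℕ) : ℕ := ky (ky (ky (t0 R) (t1 R)) (t2 R)) (t3 R)
noncomputable def inT (R x : ℕ) : Bool :=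
  oo (Nat.beq x (t0 R)) (oo (Nat.beq x (t1 R)) (oo (Nat.beq x (t2 R)) (Nat.beq x (t3 R))))
def m4 (a b c d : ℕ) : ℕ := Nat.lor (Nat.lor (Nat.shiftLeft 1 a) (Nat.shiftLeft 1 b))
  (Nat.lor (Nat.shiftLeft 1 c) (Nat.shiftLeft 1 d))
/-- fields of an edge record -/
def eD (E : ℕ) : ℕ := fd E 0 4095
def eG (E : ℕ) : ℕ := fd E 12 1023
def eZ (E : ℕ) : ℕ := fd E 22 2047
def eM (E : ℕ) : ℕ := fd E 33 16383
def eP (E : ℕ) : ℕ := fd E 47 127
def eH (E : ℕ) : ℕ := fd E 54 31
def eT (E : ℕ) : ℕ := fd E 59 2047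
def eX (E k : ℕ) : ℤ :=
  Int.subNatNat (fd E (Nat.add 70 (Nat.mul 38 k)) 274877906943) 137438953472
def eL (E : ℕ) : ℕ := fd E 184 31
def eA (E k : ℕ) : ℕ := fd E (Nat.add 189 (Nat.mul 18 k)) 127
def eC (E k : ℕ) : ℕ := fd E (Nat.add 196 (Nat.mul 18 k)) 2047
/-- fields of a vertex record -/
def vX (V k : ℕ) : ℤ := Int.subNatNat (fd V (Nat.mul 30 k) 1073741823) 536870912
def vP (V : ℕ) : ℕ := fd V 90 127
def vT (V : ℕ) : ℕ := fd V 97 2047
def vR (V : ℕ) : ℕ := fd V 108 127
/-- the label of an edge of the triangulation -/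
def labE (ed : ℕ → ℕ) (v w : ℕ) : ℕ := Nat.add (Nat.mul 32768 (eD (ed (ky v w)))) (ky v w)
noncomputable def slotChk (ed en : ℕ → ℕ) (nE l v w x y k : ℕ) : Bool :=
  force (ky v w) fun q => force (ed q) fun E => force (eZ E) fun z => force (eL E) fun n =>
  force (eA E k) fun a => force (eA E (Nat.mod (Nat.succ k) n)) fun b =>
  an (Nat.beq l (Nat.add (Nat.mul 32768 (eD E)) q)) (an (lt 0 z) (an (Nat.ble z nE)
  (an (Nat.beq (en z) q) (an (lt k n)
  (oo (an (Nat.beq a x) (Nat.beq b y)) (an (Nat.beq a y) (Nat.beq b x)))))))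
noncomputable def triChk (tt ed en tx : ℕ → ℕ) (N n0 nE i : ℕ) : Bool :=
  force (tt i) fun R => force (tx i) fun X => force (t0 R) fun a => force (t1 R) fun b =>
  force (t2 R) fun c => force (t3 R) fun d =>
  an (lt a b) (an (lt b c) (an (lt c d) (an (lt d N)
  (an (force (Nat.succ i) fun j => oo (Nat.ble n0 j) (force (tt j) fun R' => lt (lex R) (lex R')))
  (an (slotChk ed en nE (lb R 0) a b c d (fd X 0 31))
  (an (slotChk ed en nE (lb R 1) a c b d (fd X 5 31))
  (an (slotChk ed en nE (lb R 2) a d b c (fd X 10 31))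
  (an (slotChk ed en nE (lb R 3) b c a d (fd X 15 31))
  (an (slotChk ed en nE (lb R 4) b d a c (fd X 20 31))
    (slotChk ed en nE (lb R 5) c d a b (fd X 25 31)))))))))))
/-- `w` has a parent in the link of `v`, or is the root of that link -/
noncomputable def lnkChk (tt ed vt : ℕ → ℕ) (n0 v w : ℕ) : Bool :=
  force (ky v w) fun q => force (ed q) fun E => force (eH E) fun h =>
  cn (Nat.beq h 0) (Nat.beq w (vR (vt v))) (force (eP E) fun p => force (eT E) fun i =>
    force (tt i) fun R => an (lt i n0) (an (inT R v) (an (inT R w) (an (inT R p) (an (ne p v)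
      (force (ky v p) fun q' => lt (eH (ed q')) h))))))
noncomputable def edgeChk (tt ed en vt : ℕ → ℕ) (n0 z : ℕ) : Bool :=
  force (en z) fun q => force (k1 q) fun v => force (k2 q) fun w => force (ed q) fun E =>
  force (eL E) fun n =>
  an (lt v w) (an (Nat.ble 3 n) (an (allN (fun k => force (eA E k) fun a => force (eC E k) fun i =>
    force (tt i) fun R => an (lt i n0) (an (Nat.beq (m4 v w a (eA E (Nat.mod (Nat.succ k) n)))
      (m4 (t0 R) (t1 R) (t2 R) (t3 R))) (allN (fun j => ne (eA E j) a) k))) n)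
  (an (lnkChk tt ed vt n0 v w) (lnkChk tt ed vt n0 w v))))
noncomputable def vertChk (tt vt : ℕ → ℕ) (n0 v : ℕ) : Bool :=
  force (vt v) fun V => force (vT V) fun i => force (tt i) fun R =>
  an (lt (vP V) v) (an (lt i n0) (an (inT R v) (inT R (vP V))))
/-- the edge with the name `c / 2` is `v w` -/
noncomputable def nmE (en : ℕ → ℕ) (nE c v w : ℕ) : Bool :=
  force (Nat.shiftRight c 1) fun z => an (lt 0 z) (an (Nat.ble z nE) (Nat.beq (en z) (ky v w)))
/-- assumed records for the edge-path group: triangles, tree edges, the four generators -/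
noncomputable def baseB (F tt en vt : ℕ → ℕ) (n0 nE g1 g2 g3 g4 i : ℕ) : Bool :=
  force (F i) fun R => oo (Nat.beq (fd R 43 1) 1) (
  force (cd R 0) fun a => force (cd R 1) fun b => force (cd R 2) fun c =>
  cn (Nat.beq (fd R 42 1) 0)
    (force (fd R 44 2047) fun j => force (tt j) fun S => force (fd R 55 127) fun u =>
      force (fd R 62 127) fun v => force (fd R 69 127) fun w =>
      an (lt j n0) (an (inT S u) (an (inT S v) (an (inT S w)
      (an (Nat.beq (Nat.land a 1) 0) (an (Nat.beq (Nat.land b 1) 0) (an (Nat.beq (Nat.land c 1) 1)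
      (an (nmE en nE a u v) (an (nmE en nE b v w) (nmE en nE c u w))))))))))
    (an (Nat.beq a 0) (an (Nat.beq c 0) (oo (Nat.beq b g1) (oo (Nat.beq b g2) (oo (Nat.beq b g3)
      (oo (Nat.beq b g4) (force (fd R 55 127) fun v =>
        an (lt 0 v) (nmE en nE b (vP (vt v)) v)))))))))
/-- the edge `z` lies in the subgroup -/
noncomputable def markChk (F ed en : ℕ → ℕ) (n z : ℕ) : Bool :=
  force (en z) fun q => force (eM (ed q)) fun i => force (F i) fun R =>
  an (lt i n) (an (Nat.beq (cd R 0) 0) (an (Nat.beq (Nat.shiftRight (cd R 1) 1) z)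
    (Nat.beq (cd R 2) 0)))
noncomputable def fcChk (F ed : ℕ → ℕ) (B n h r u v w : ℕ) : Bool :=
  force h fun h => force r fun r => force (gt F B h) fun R =>
  an (oo (lt h n) (Nat.ble 32768 h)) (an (Nat.beq (fd R 42 1) 0)
  (an (Nat.beq (cp B R r 0) (force (ky u v) fun q => eG (ed q)))
  (an (Nat.beq (cp B R r 1) (force (ky v w) fun q => eG (ed q)))
    (Nat.beq (cp B R r 2) (force (ky u w) fun q => force (eG (ed q)) fun g => iv B g)))))
/-- the four triangles of tetrahedron `i` are relations between the edge elements -/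
noncomputable def faceChk (F tt ed tx : ℕ → ℕ) (B n i : ℕ) : Bool :=
  force (tt i) fun R => force (tx i) fun X => force (t0 R) fun a => force (t1 R) fun b =>
  force (t2 R) fun c => force (t3 R) fun d =>
  an (fcChk F ed B n (fd X 30 65535) (fd X 46 7) b c d)
  (an (fcChk F ed B n (fd X 49 65535) (fd X 65 7) a c d)
  (an (fcChk F ed B n (fd X 68 65535) (fd X 84 7) a b d)
    (fcChk F ed B n (fd X 87 65535) (fd X 103 7) a b c)))
/-- two indices packed in a record -/
def o1 (x : ℕ) : ℕ := fd x 0 63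
def o2 (x : ℕ) : ℕ := fd x 6 63
/-- assumed records for the orbifold group: `op k` for `k < 5` lists the cups, for `7 ≤ k < 45`
the crossings; cup number 4 is used only from record `n1` on -/
noncomputable def baseA (F op : ℕ → ℕ) (nd n1 i : ℕ) : Bool :=
  force (F i) fun R => oo (Nat.beq (fd R 43 1) 1) (
  force (fd R 44 63) fun k => force (op k) fun x =>
  an (Nat.beq (fd R 42 1) 0) (cn (lt k 5)
    (an (oo (lt k 4) (Nat.ble n1 i)) (an (Nat.beq (cd R 0) (Nat.mul 2 (o1 x)))
      (an (Nat.beq (cd R 1) (Nat.mul 2 (o2 x))) (Nat.beq (cd R 2) 0))))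
    (force (fd R 50 1023) fun j => force (F j) fun S =>
      an (Nat.ble 7 k) (an (lt k 45) (an (lt j nd)
      (an (Nat.beq (cd R 0) (Nat.mul 2 (Nat.add 45 j))) (an (Nat.beq (cd R 1) (Nat.mul 2 (o1 x)))
      (an (Nat.beq (cd R 2) (Nat.mul 2 k)) (an (Nat.beq (cd S 0) (Nat.mul 2 (o1 x)))
        (Nat.beq (cd S 1) (Nat.mul 2 (o2 x))))))))))))
/-- the records `p q x`, `r s y`, `x 1 y` before `n1`, for the last two cups `r s` and `p q` -/
noncomputable def phChk (F op : ℕ → ℕ) (n1 i j k : ℕ) : Bool :=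
  an (lt i n1) (an (lt j n1) (an (lt k n1) (an (Nat.beq (fd (F i) 42 1) 0)
  (an (Nat.beq (fd (F j) 42 1) 0) (an (Nat.beq (fd (F k) 42 1) 0)
  (an (Nat.beq (cd (F i) 0) (Nat.mul 2 (o1 (op 5)))) (an (Nat.beq (cd (F i) 1) (Nat.mul 2 (o2 (op 5))))
  (an (Nat.beq (cd (F j) 0) (Nat.mul 2 (o1 (op 4)))) (an (Nat.beq (cd (F j) 1) (Nat.mul 2 (o2 (op 4))))
  (an (Nat.beq (cd (F k) 0) (cd (F i) 2)) (an (Nat.beq (cd (F k) 1) 0)
  (an (Nat.beq (cd (F k) 2) (cd (F j) 2)) (an (lt 0 (o1 (op 5))) (an (lt (o1 (op 5)) 45)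
    (an (lt 0 (o2 (op 5))) (lt (o2 (op 5)) 45))))))))))))))))

end Pool.Agent.P.MP_4830f8_gt.RG
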