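import Pool.Agent.P.MP_4830f8_gt.RG.Chk

/-! Checkers: ball arithmetic and the packed dynamic programme. -/

set_option autoImplicit false

namespace Pool.Agent.P.MP_4830f8_gt.RG

open Finset Matrix

/-! ### Complex balls with integer data -/

structure CB where
  x : ℤ
  y : ℤ
  r : ℕ

namespace CB
/-- `z * 3 ^ s` lies in the ball -/
def mem (s : ℕ) (z : ℂ) (b : CB) : Prop := ‖z * 3 ^ s - (b.x + b.y * Complex.I)‖ ≤ b.r
def nm (a : CB) : ℕ := Nat.add a.x.natAbs a.y.natAbs
def add (a b : CB) : CB := ⟨Int.add a.x b.x, Int.add a.y b.y, Nat.add a.r b.r⟩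
def neg (a : CB) : CB := ⟨Int.neg a.x, Int.neg a.y, a.r⟩
def sub (a b : CB) : CB := ⟨Int.sub a.x b.x, Int.sub a.y b.y, Nat.add a.r b.r⟩
def mul (a b : CB) : CB :=
  ⟨Int.sub (Int.mul a.x b.x) (Int.mul a.y b.y), Int.add (Int.mul a.x b.y) (Int.mul a.y b.x),
    Nat.add (Nat.mul (Nat.add a.nm a.r) b.r) (Nat.mul b.nm a.r)⟩
def conj (a : CB) : CB := ⟨a.x, Int.neg a.y, a.r⟩
def mulI (a : CB) : CB := ⟨Int.neg a.y, a.x, a.r⟩
/-- the same number at the scale `s + k`, with `m = 3 ^ k` -/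
def up (m : ℕ) (a : CB) : CB := ⟨Int.mul a.x (Int.ofNat m), Int.mul a.y (Int.ofNat m), Nat.mul a.r m⟩
/-- the integer `n` as a ball -/
def cst (n : ℤ) : CB := ⟨n, Int.ofNat 0, 0⟩
/-- `a` at scale `s + k` lies in `b` at scale `s`, with `m = 3 ^ k` -/
def inc (m : ℕ) (a b : CB) : Bool :=
  Nat.ble (Nat.add (Nat.add (Int.sub a.x (Int.mul b.x (Int.ofNat m))).natAbs
    (Int.sub a.y (Int.mul b.y (Int.ofNat m))).natAbs) a.r) (Nat.mul b.r m)
/-- the ball does not contain zero -/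
def nz (a : CB) : Bool := lt (Nat.mul 2 a.r) a.nm
noncomputable def fz {α : Type} (b : CB) (k : CB → α) : α :=
  forceI b.x fun x => forceI b.y fun y => force b.r fun r => k ⟨x, y, r⟩
lemma fz_eq {α : Type} (b : CB) (k : CB → α) : fz b k = k b := by
  simp only [fz, forceI_eq, force_eq]
/-- decode a record: two fields of width `w` (mask `m`, offset `o`) and a radius -/
def dec (w m o R : ℕ) : CB :=
  ⟨Int.subNatNat (fd R 0 m) o, Int.subNatNat (fd R w m) o, Nat.shiftRight R (Nat.mul 2 w)⟩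
end CB
open CB

/-- `3 ^ 202`, `3 ^ 404` -/
def P1 : ℕ := Nat.pow 3 202
def P2 : ℕ := Nat.pow 3 404
/-- value balls have scale 202, slope balls scale 81 -/
noncomputable def dv (R : ℕ) : CB :=
  force R fun R => dec 336 (Nat.sub (Nat.pow 2 336) 1) (Nat.pow 2 335) R
noncomputable def ds (R : ℕ) : CB :=
  force R fun R => dec 160 (Nat.sub (Nat.pow 2 160) 1) (Nat.pow 2 159) R
/-- value of component `c` of node `k`, and its slope in direction `j` -/
noncomputable def vb (nv : ℕ → ℕ) (k c : ℕ) : CB := force (Nat.add (Nat.mul 3 k) c) fun i => dv (nv i)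
noncomputable def sb (ns : ℕ → ℕ) (k c j : ℕ) : CB :=
  force (Nat.add (Nat.mul 9 (Nat.add (Nat.mul 3 k) c)) j) fun i => ds (ns i)

/-! ### The equations for the orbifold group -/

/-- the twelve parameters of the six caps: `0, 0, x 0, τ, x 1, .., x 8` -/
noncomputable def par (τ : ℂ) (x : Fin 9 → ℂ) (m : ℕ) : ℂ :=
  if m < 2 then 0 else if m = 2 then x 0 else if m = 3 then τ else
    if h : m - 3 < 9 then x ⟨m - 3, h⟩ else 0
/-- `f k 0, f k 1, f k 2` are the entries `a b c` of the traceless matrix of node `k`; nodes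
`1..6` are caps, `7..44` crossings, and `f (45 + i) 0` are the nine equations. -/
def IsNode (op : ℕ → ℕ) (τ : ℂ) (x : Fin 9 → ℂ) (f : ℕ → ℕ → ℂ) : Prop :=
  (∀ k, 1 ≤ k → k < 7 →
    f k 0 = (1 + 2 * (par τ x (2 * k - 2) * par τ x (2 * k - 1))) * Complex.I ∧
    f k 1 = -(2 * (par τ x (2 * k - 2) * (1 + par τ x (2 * k - 2) * par τ x (2 * k - 1))) *
      Complex.I) ∧ f k 2 = 2 * par τ x (2 * k - 1) * Complex.I) ∧
  (∀ k, 7 ≤ k → k < 45 → ∀ c < 3, f k c = f (o2 (op k)) c +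
    (2 * (f (o1 (op k)) 0 * f (o2 (op k)) 0) + f (o1 (op k)) 1 * f (o2 (op k)) 2 +
      f (o1 (op k)) 2 * f (o2 (op k)) 1) * f (o1 (op k)) c) ∧
  (∀ i < 8, f (45 + i) 0 = if fd (op (i / 2)) 12 1 = 0
    then f (o1 (op (i / 2))) (i % 2) - f (o2 (op (i / 2))) (i % 2)
    else f (o1 (op (i / 2))) (i % 2) + f (o2 (op (i / 2))) (i % 2)) ∧
  f 53 0 = f (o1 (op 4)) 0 * f (o2 (op 4)) 1 - f (o1 (op 4)) 1 * f (o2 (op 4)) 0
/-- the approximate solution -/
noncomputable def ctr (xc : ℕ → ℕ) (j : Fin 9) : ℂ :=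
  ((dv (xc j)).x + (dv (xc j)).y * Complex.I) / 3 ^ 202
/-- value ball (radius `ρ`) and slope of parameter `m`; `τ = ta / 3 ^ 202` -/
noncomputable def pv (xc : ℕ → ℕ) (ta ρ m : ℕ) : CB :=
  cn (lt m 2) (cst (Int.ofNat 0)) (cn (Nat.beq m 3) (cst (Int.ofNat ta))
    (fz (dv (xc (cn (Nat.beq m 2) 0 (Nat.sub m 3)))) fun b => ⟨b.x, b.y, ρ⟩))
noncomputable def ps (m j : ℕ) : CB :=
  cst (Int.ofNat (cn (oo (an (Nat.beq m 2) (Nat.beq j 0)) (an (lt 3 m) (Nat.beq m (Nat.add j 3))))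
    (Nat.pow 3 81) 0))
noncomputable def capChk (nv ns xc : ℕ → ℕ) (ta ρ nj k : ℕ) : Bool :=
  force (Nat.sub (Nat.mul 2 k) 2) fun m => force (Nat.succ m) fun m' =>
  fz (pv xc ta ρ m) fun s => fz (pv xc ta ρ m') fun t => fz (mul s t) fun st =>
  fz (add (cst (Int.ofNat P2)) st) fun u => fz (mul s u) fun su =>
  an (inc P1 (mulI (add u st)) (vb nv k 0)) (an (inc P2 (neg (mulI (add su su))) (vb nv k 1))
  (an (inc 1 (mulI (add t t)) (vb nv k 2))
  (allN (fun j => fz (ps m j) fun ds => fz (ps m' j) fun dt =>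
    fz (add (mul s dt) (mul t ds)) fun dst => fz (add (mul s dst) (mul u ds)) fun dsu =>
    an (inc P1 (mulI (add dst dst)) (sb ns k 0 j)) (an (inc P2 (neg (mulI (add dsu dsu)))
      (sb ns k 1 j)) (inc 1 (mulI (add dt dt)) (sb ns k 2 j)))) nj)))
noncomputable def crsChk (nv ns op : ℕ → ℕ) (nj k : ℕ) : Bool :=
  force (op k) fun x => force (o1 x) fun p => force (o2 x) fun q =>
  fz (vb nv p 0) fun u0 => fz (vb nv p 1) fun u1 => fz (vb nv p 2) fun u2 =>
  fz (vb nv q 0) fun v0 => fz (vb nv q 1) fun v1 => fz (vb nv q 2) fun v2 =>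
  fz (mul u0 v0) fun w => fz (add (add (add w w) (mul u1 v2)) (mul u2 v1)) fun T =>
  an (lt 0 p) (an (lt p k) (an (lt 0 q) (an (lt q k)
  (an (inc P2 (add (up P2 v0) (mul T u0)) (vb nv k 0))
  (an (inc P2 (add (up P2 v1) (mul T u1)) (vb nv k 1))
  (an (inc P2 (add (up P2 v2) (mul T u2)) (vb nv k 2))
  (allN (fun j => fz (sb ns p 0 j) fun a0 => fz (sb ns p 1 j) fun a1 => fz (sb ns p 2 j) fun a2 =>
    fz (sb ns q 0 j) fun b0 => fz (sb ns q 1 j) fun b1 => fz (sb ns q 2 j) fun b2 =>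
    fz (add (mul u0 b0) (mul v0 a0)) fun dw =>
    fz (add (add (add dw dw) (add (mul u1 b2) (mul v2 a1))) (add (mul u2 b1) (mul v1 a2))) fun dT =>
    an (inc P2 (add (up P2 b0) (add (mul T a0) (mul u0 dT))) (sb ns k 0 j))
    (an (inc P2 (add (up P2 b1) (add (mul T a1) (mul u1 dT))) (sb ns k 1 j))
      (inc P2 (add (up P2 b2) (add (mul T a2) (mul u2 dT))) (sb ns k 2 j)))) nj)))))))
noncomputable def eqChk (nv ns op : ℕ → ℕ) (nj i : ℕ) : Bool :=
  force (op (Nat.shiftRight i 1)) fun x => force (o1 x) fun p => force (o2 x) fun q =>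
  force (Nat.land i 1) fun c => force (Nat.add 45 i) fun k =>
  an (lt 0 p) (an (lt p 45) (an (lt 0 q) (an (lt q 45)
  (cn (lt i 8)
    (cn (Nat.beq (fd x 12 1) 0)
      (an (inc 1 (sub (vb nv p c) (vb nv q c)) (vb nv k 0))
        (allN (fun j => inc 1 (sub (sb ns p c j) (sb ns q c j)) (sb ns k 0 j)) nj))
      (an (inc 1 (add (vb nv p c) (vb nv q c)) (vb nv k 0))
        (allN (fun j => inc 1 (add (sb ns p c j) (sb ns q c j)) (sb ns k 0 j)) nj)))
    (fz (vb nv p 0) fun u0 => fz (vb nv p 1) fun u1 => fz (vb nv q 0) fun v0 =>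
      fz (vb nv q 1) fun v1 => an (inc P1 (sub (mul u0 v1) (mul u1 v0)) (vb nv k 0))
      (allN (fun j => fz (sb ns p 0 j) fun a0 => fz (sb ns p 1 j) fun a1 =>
        fz (sb ns q 0 j) fun b0 => fz (sb ns q 1 j) fun b1 =>
        inc P1 (sub (add (mul u0 b1) (mul v1 a0)) (add (mul u1 b0) (mul v0 a1))) (sb ns k 0 j))
        nj))))))
/-- all nodes are enclosed, for parameters within `ρ / 3 ^ 202` of the centre, with slopes in the
first `nj` directions -/
noncomputable def nodeChk (nv ns op xc : ℕ → ℕ) (ta ρ nj k : ℕ) : Bool :=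
  cn (lt k 7) (oo (Nat.beq k 0) (capChk nv ns xc ta ρ nj k)) (cn (lt k 45) (crsChk nv ns op nj k)
    (oo (Nat.ble 54 k) (force (Nat.sub k 45) fun i => eqChk nv ns op nj i)))
noncomputable def sumB (f : ℕ → CB) (n : ℕ) : CB :=
  Nat.rec (cst (Int.ofNat 0)) (fun i r => add (f i) r) n
noncomputable def sumN (f : ℕ → ℕ) (n : ℕ) : ℕ := Nat.rec 0 (fun i r => Nat.add (f i) r) n
/-- entry of the approximate inverse, scale 81, radius ignored -/
noncomputable def yb (yt : ℕ → ℕ) (i j : ℕ) : CB :=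
  force (Nat.add (Nat.mul 9 i) j) fun q => fz (ds (yt q)) fun b => ⟨b.x, b.y, 0⟩
/-- row `i` of the contraction estimate and of the residual estimate -/
noncomputable def rowChk (nc ns yt : ℕ → ℕ) (ρ i : ℕ) : Bool :=
  an (Nat.ble (Nat.mul 2 (sumN (fun j => fz (sub (cst (Int.ofNat (cn (Nat.beq i j) (Nat.pow 3 162) 0)))
      (sumB (fun k => fz (yb yt i k) fun y => fz (sb ns (Nat.add 45 k) 0 j) fun s => mul y s) 9))
      fun b => Nat.add b.nm b.r) 9)) (Nat.pow 3 162))
    (fz (sumB (fun k => fz (yb yt i k) fun y => fz (vb nc (Nat.add 45 k) 0) fun s => mul y s) 9)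
      fun b => Nat.ble (Nat.mul 2 (Nat.add b.nm b.r)) (Nat.mul ρ (Nat.pow 3 81)))
/-- the non-vanishing conditions used to recover the dropped equations; `op 5` is the last cup -/
noncomputable def nzChk (nv op : ℕ → ℕ) : Bool :=
  an (allN (fun i => fz (vb nv (o1 (op i)) 1) nz) 4) (force (o1 (op 4)) fun r => force (o1 (op 5)) fun p =>
    fz (vb nv r 0) fun r0 => fz (vb nv r 1) fun r1 => fz (vb nv p 0) fun p0 => fz (vb nv p 1) fun p1 =>
    fz (sub (mul r0 p1) (mul r1 p0)) nz)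

/-! ### Group elements and positions -/

/-- the traceless matrix with entries `a b c` -/
def tm (a b c : ℂ) : M2 := !![a, b; c, -a]
/-- entry `e` (00, 01, 10, 11) of the matrix with the name `z` -/
noncomputable def mb (nv mt : ℕ → ℕ) (z e : ℕ) : CB :=
  cn (lt z 45) (cn (Nat.beq z 0)
      (cst (Int.ofNat (cn (oo (Nat.beq e 0) (Nat.beq e 3)) P1 0)))
      (cn (Nat.beq e 3) (fz (vb nv z 0) neg) (vb nv z e)))
    (force (Nat.add (Nat.mul 4 (Nat.sub z 45)) e) fun i => dv (mt i))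
/-- the same for a code -/
noncomputable def cb (nv mt : ℕ → ℕ) (c e : ℕ) : CB :=
  force (Nat.shiftRight c 1) fun z => cn (an (Nat.ble 90 c) (Nat.beq (Nat.land c 1) 1))
    (cn (Nat.beq e 0) (mb nv mt z 3) (cn (Nat.beq e 3) (mb nv mt z 0) (fz (mb nv mt z e) neg)))
    (mb nv mt z e)
/-- the ball of the name `45 + i` contains the product that defines it -/
noncomputable def prodChk (F nv mt : ℕ → ℕ) (i : ℕ) : Bool :=
  force (F i) fun R => force (cd R 0) fun p => force (cd R 1) fun q => force (Nat.add 45 i) fun z =>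
  fz (cb nv mt p 0) fun a => fz (cb nv mt p 1) fun b => fz (cb nv mt p 2) fun c =>
  fz (cb nv mt p 3) fun d => fz (cb nv mt q 0) fun a' => fz (cb nv mt q 1) fun b' =>
  fz (cb nv mt q 2) fun c' => fz (cb nv mt q 3) fun d' =>
  an (inc P1 (add (mul a a') (mul b c')) (mb nv mt z 0))
  (an (inc P1 (add (mul a b') (mul b d')) (mb nv mt z 1))
  (an (inc P1 (add (mul c a') (mul d c')) (mb nv mt z 2))
    (inc P1 (add (mul c b') (mul d d')) (mb nv mt z 3))))
/-- the matrix that places a vertex -/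
noncomputable def hm (V : ℕ) : SL2 :=
  ⟨!![1 + (vX V 0 + vX V 1 * Complex.I) / 3 ^ 15 * (vX V 2 / 3 ^ 15),
      (vX V 0 + vX V 1 * Complex.I) / 3 ^ 15; vX V 2 / 3 ^ 15, 1], by simp [det_fin_two]⟩
/-- the position table encloses the image of the origin under `[[a, b], [c, d]]` (scale 262);
the table has scale 21 and radius 16 -/
noncomputable def posChk (E : ℕ) (a b c d : CB) : Bool :=
  an (inc (Nat.pow 3 503) (add (mul a (conj c)) (mul b (conj d))) ⟨eX E 0, eX E 1, 16⟩)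
    (inc (Nat.pow 3 503) (sub (add (mul a (conj a)) (mul b (conj b)))
      (add (mul c (conj c)) (mul d (conj d)))) (up 2 ⟨eX E 2, Int.ofNat 0, 16⟩))
noncomputable def gChk (ed en vt nv mt : ℕ → ℕ) (nb z : ℕ) : Bool :=
  force (en z) fun q => force (k1 q) fun v => force (k2 q) fun w => force (ed q) fun E =>
  force (ky w v) fun q' => force (ed q') fun E' => force (vt v) fun V => force (vt w) fun W =>
  force (eG E) fun g =>
  fz (cb nv mt g 0) fun a => fz (cb nv mt g 1) fun b => fz (cb nv mt g 2) fun c =>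
  fz (cb nv mt g 3) fun d =>
  fz ⟨vX W 0, vX W 1, 0⟩ fun wb => fz (cst (vX W 2)) fun wc =>
  fz (add (cst (Int.ofNat 205891132094649)) (mul wb wc)) fun wa =>
  fz ⟨vX V 0, vX V 1, 0⟩ fun ub => fz (cst (vX V 2)) fun uc =>
  fz (add (cst (Int.ofNat 205891132094649)) (mul ub uc)) fun ua =>
  fz (add (mul a wa) (up 14348907 (mul b wc))) fun a1 =>
  fz (up 14348907 (add (mul a wb) (up 14348907 b))) fun b1 =>
  fz (add (mul c wa) (up 14348907 (mul d wc))) fun c1 =>
  fz (up 14348907 (add (mul c wb) (up 14348907 d))) fun d1 =>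
  fz (up 14348907 (sub (up 14348907 a1) (mul ub c1))) fun a2 =>
  fz (up 14348907 (sub (up 14348907 b1) (mul ub d1))) fun b2 =>
  fz (sub (mul ua c1) (up 14348907 (mul uc a1))) fun c2 =>
  fz (sub (mul ua d1) (up 14348907 (mul uc b1))) fun d2 =>
  an (lt g (Nat.mul 2 (Nat.add 45 nb))) (an (posChk E a2 b2 c2 d2)
    (fz (neg b2) fun b3 => fz (neg c2) fun c3 => posChk E' d2 b3 c3 a2))
/-- integer determinant of three position records -/
noncomputable def d3 (p0 p1 p2 : ℤ) (A B : ℕ) : ℤ :=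
  forceI (eX A 0) fun a0 => forceI (eX A 1) fun a1 => forceI (eX A 2) fun a2 =>
  forceI (eX B 0) fun b0 => forceI (eX B 1) fun b1 => forceI (eX B 2) fun b2 =>
  Int.add (Int.add (Int.mul p0 (Int.sub (Int.mul a1 b2) (Int.mul a2 b1)))
    (Int.mul p1 (Int.sub (Int.mul a2 b0) (Int.mul a0 b2))))
    (Int.mul p2 (Int.sub (Int.mul a0 b1) (Int.mul a1 b0)))
/-- `x` exceeds the error bound `6 * ((2 ^ 37 + 16) ^ 3 - 2 ^ 111)` -/
noncomputable def big (x : ℤ) : Bool := Int.rec (fun n => lt 5440166188899149983801344 n) (fun _ => false) x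
/-- the link of edge `z` turns once around it; the sign change is after position `mw z` -/
noncomputable def sgChk (ed en mw : ℕ → ℕ) (z : ℕ) : Bool :=
  force (en z) fun q => force (k1 q) fun v => force (ed q) fun E => force (eL E) fun n =>
  force (mw z) fun m => forceI (eX E 0) fun p0 => forceI (eX E 1) fun p1 => forceI (eX E 2) fun p2 =>
  force (ky v (eA E 0)) fun q0 => force (ed q0) fun A0 =>
  allN (fun k => force (ky v (eA E k)) fun qa => force (ed qa) fun A =>
    force (ky v (eA E (Nat.mod (Nat.succ k) n))) fun qb => force (ed qb) fun B =>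
    an (big (d3 p0 p1 p2 A B)) (oo (Nat.beq k 0) (cn (Nat.ble k m) (big (d3 p0 p1 p2 A0 A))
      (oo (Nat.beq k (Nat.succ m)) (big (d3 p0 p1 p2 A A0)))))) n

/-! ### The packed dynamic programme: fields of 88 bits, 13 slots -/

/-- field `i` of a packed array -/
def gf (A i : ℕ) : ℕ := fd A (88 * i) 309485009821345068724781055
/-- the first `2 ^ k` fields are full -/
def ful (k : ℕ) : ℕ := Nat.sub (Nat.shiftLeft 1 (Nat.mul 88 (Nat.pow 2 k))) 1
/-- repeat the first `2 ^ k` fields to fill `2 ^ (k + d)` fields -/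
noncomputable def rep (A k d : ℕ) : ℕ :=
  Nat.rec (fun _ A => A) (fun _ ih k A => force (Nat.succ k) fun k' =>
    force (Nat.add A (Nat.shiftLeft A (Nat.mul 88 (Nat.pow 2 k)))) fun A' => ih k' A') d k A
/-- the fields whose index has bit `j`, and those without it -/
noncomputable def mk1 (j : ℕ) : ℕ :=
  rep (Nat.shiftLeft (ful j) (Nat.mul 88 (Nat.pow 2 j))) (Nat.succ j) (Nat.sub 12 j)
noncomputable def mk0 (j : ℕ) : ℕ := rep (ful j) (Nat.succ j) (Nat.sub 12 j)
/-- the four top bits of all fields -/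
noncomputable def top : ℕ := rep (Nat.shiftLeft 15 84) 0 13
/-- coefficients of `1, r, r ^ 2, r ^ 3` -/
structure V4 where
  a : ℕ
  b : ℕ
  c : ℕ
  d : ℕ
namespace V4
def map (f : ℕ → ℕ) (x : V4) : V4 := ⟨f x.a, f x.b, f x.c, f x.d⟩
def add (x y : V4) : V4 := ⟨Nat.add x.a y.a, Nat.add x.b y.b, Nat.add x.c y.c, Nat.add x.d y.d⟩
/-- multiplication by `r`, where `r ^ 4 = r ^ 2 + 1` -/
def mr (x : V4) : V4 := ⟨x.d, x.a, Nat.add x.b x.d, x.c⟩
noncomputable def fz (x : V4) (k : V4 → Bool) : Bool :=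
  force x.a fun a => force x.b fun b => force x.c fun c => force x.d fun d => k ⟨a, b, c, d⟩
def ok (x : V4) (t : ℕ) : Bool :=
  Nat.beq (Nat.land (Nat.lor (Nat.lor x.a x.b) (Nat.lor x.c x.d)) t) 0
end V4
/-- the inverse of `ss` -/
noncomputable def rr : ℝ := ss * ph
/-- the number stored at index `i` -/
noncomputable def vl (x : V4) (i : ℕ) : ℝ :=
  gf x.a i + gf x.b i * rr + gf x.c i * rr ^ 2 + gf x.d i * rr ^ 3
noncomputable def tetV (m0 m3 m5 m6 : ℕ) (x y : V4) (k : V4 → Bool) : Bool :=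
  V4.fz (x.map (Nat.land m0)) fun u => V4.fz (u.mr.add (x.map (Nat.land m3))) fun u =>
  V4.fz (u.mr.add (x.map (Nat.land m5))) fun u => V4.fz u.mr fun u =>
  V4.fz (u.mr.add (y.map (Nat.land m6))) k
noncomputable def elimV (m s : ℕ) (x : V4) (k : V4 → Bool) : Bool :=
  V4.fz (x.map fun A => Nat.land m (Nat.shiftRight A s)) fun u => V4.fz u.mr fun u =>
  V4.fz (u.mr.add (x.map (Nat.land m))) k
noncomputable def introV (m s : ℕ) (x : V4) (k : V4 → Bool) : Bool :=
  V4.fz (x.map (Nat.land m)) fun u => V4.fz (u.map fun A => Nat.add A (Nat.shiftLeft A s)) k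
noncomputable def step (fu t : ℕ) (o : Op) (x y : V4) (k : V4 → V4 → Bool) : Bool :=
  an (x.ok t) (an (y.ok t) (Op.rec
    (fun _ j0 j1 j2 j3 j4 j5 =>
      an (lt j0 13) (an (lt j1 13) (an (lt j2 13) (an (lt j3 13) (an (lt j4 13) (an (lt j5 13)
      (force (mk1 j0) fun a => force (mk1 j1) fun b => force (mk1 j2) fun c =>
      force (mk1 j3) fun d => force (mk1 j4) fun e => force (mk1 j5) fun f =>
      force (Nat.land a (Nat.land b d)) fun s1 => force (Nat.land a (Nat.land c e)) fun s2 =>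
      force (Nat.land b (Nat.land c f)) fun s3 => force (Nat.land d (Nat.land e f)) fun s4 =>
      force (Nat.xor a (Nat.xor b d)) fun x1 =>
      force (Nat.xor fu (Nat.lor (Nat.lor (Nat.xor x1 s1) (Nat.xor (Nat.xor a (Nat.xor c e)) s2))
        (Nat.lor (Nat.xor (Nat.xor b (Nat.xor c f)) s3) (Nat.xor (Nat.xor d (Nat.xor e f)) s4))))
        fun ad =>
      force (Nat.xor fu (Nat.lor (Nat.lor a (Nat.lor b c)) (Nat.lor d (Nat.lor e f)))) fun m0 =>
      force (Nat.land s1 (Nat.land s2 f)) fun m6 =>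
      force (Nat.land (Nat.land ad (Nat.xor x1 (Nat.xor c (Nat.xor e f))))
        (Nat.xor fu (Nat.lor (Nat.lor s1 s2) (Nat.lor s3 s4)))) fun m3 =>
      force (Nat.xor (Nat.xor ad m0) (Nat.xor m3 m6)) fun m5 =>
      tetV m0 m3 m5 m6 x y fun x' => tetV m0 m3 m5 m6 y x fun y' => k x' y')))))))
    (fun j _ => an (lt j 13) (force (mk0 j) fun m => force (Nat.mul 88 (Nat.pow 2 j)) fun s =>
      elimV m s x fun x' => elimV m s y fun y' => k x' y'))
    (fun j => an (lt j 13) (force (mk0 j) fun m => force (Nat.mul 88 (Nat.pow 2 j)) fun s =>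
      introV m s x fun x' => introV m s y fun y' => k x' y')) o))
/-- run the steps (last step first in the list) and pass the positive and negative parts on -/
noncomputable def dpK (fu t : ℕ) (ops : List Op) : (V4 → V4 → Bool) → Bool :=
  List.rec (fun k => k ⟨1, 0, 0, 0⟩ ⟨0, 0, 0, 0⟩)
    (fun o _ ih k => ih fun x y => step fu t o x y k) ops
noncomputable def dpChk (ops : List Op) (a c : ℕ) : Bool :=
  force (ful 13) fun fu => force top fun t => dpK fu t ops fun x y =>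
    an (Nat.beq (gf x.a 0) (Nat.add (gf y.a 0) a)) (an (Nat.beq (gf x.c 0) (Nat.add (gf y.c 0) c))
    (an (Nat.beq (gf x.b 0) (gf y.b 0)) (Nat.beq (gf x.d 0) (gf y.d 0))))
/-- the steps run over the tetrahedra alive at the end and over their labels -/
noncomputable def finChk (tt : ℕ → ℕ) (n M : ℕ) (ops : List Op) : Bool :=
  okS 13 (fun i k => lb (tt i) k) ops (fun _ => 0) && decide (tets ops).Nodup &&
    (tets ops).all (fun i => decide (i < n ∧ M < dt (tt i)) &&
      (List.range 6).all fun k => decide (lb (tt i) k ∈ elims ops)) &&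
    (elims ops).all fun l => (tets ops).any fun i => (List.range 6).any fun k => lb (tt i) k == l

end Pool.Agent.P.MP_4830f8_gt.RG
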