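import Pool.Agent.P.MP_4830f8_gt.RG.Iface

/-! Consequences of cyclic edge links. -/

set_option autoImplicit false

namespace Pool.Agent.P.MP_4830f8_gt.RG

open Finset

namespace CYC

lemma c4 {v w x b : ℕ} (h : ({v, w, x, b} : Finset ℕ).card = 4) :
    v ≠ w ∧ v ≠ x ∧ v ≠ b ∧ w ≠ x ∧ w ≠ b ∧ x ≠ b := by
  have key : ∀ p q r : ℕ, ({v, w, x, b} : Finset ℕ) ⊆ {p, q, r} → False := fun p q r hs => by
    have := (card_le_card hs).trans card_le_three
    omega
  refine ⟨fun e => key w x b ?_, fun e => key w x b ?_, fun e => key w x b ?_,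
    fun e => key v x b ?_, fun e => key v x b ?_, fun e => key v w b ?_⟩ <;>
  · intro y
    simp only [mem_insert, mem_singleton]
    omega

lemma pair {v w x b y c : ℕ} (h : ({v, w, x, b} : Finset ℕ).card = 4)
    (e : ({v, w, x, b} : Finset ℕ) = {v, w, y, c}) : (x = y ∧ b = c) ∨ (x = c ∧ b = y) := by
  have h1 : x ∈ ({v, w, y, c} : Finset ℕ) := e ▸ by simp
  have h2 : b ∈ ({v, w, y, c} : Finset ℕ) := e ▸ by simp
  have := c4 h
  simp only [mem_insert, mem_singleton] at h1 h2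
  omega

lemma s_cases {n k : ℕ} (hk : k < n) :
    (k + 1 < n ∧ (k + 1) % n = k + 1) ∨ (k + 1 = n ∧ (k + 1) % n = 0) := by
  rcases Nat.lt_or_ge (k + 1) n with h | h
  · exact .inl ⟨h, Nat.mod_eq_of_lt h⟩
  · have e : k + 1 = n := by omega
    exact .inr ⟨e, by rw [e, Nat.mod_self]⟩

lemma s_lt {n k : ℕ} (hk : k < n) : (k + 1) % n < n := Nat.mod_lt _ (by omega)

lemma s_inj {n k j : ℕ} (hk : k < n) (hj : j < n) (e : (k + 1) % n = (j + 1) % n) : k = j := by
  have := s_cases hk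
  have := s_cases hj
  omega

lemma s_ne {n k : ℕ} (h3 : 3 ≤ n) (hk : k < n) : (k + 1) % n ≠ k := by
  have := s_cases hk
  omega

lemma ss_ne {n k : ℕ} (h3 : 3 ≤ n) (hk : k < n) : ((k + 1) % n + 1) % n ≠ k := by
  have := s_cases hk
  have := s_cases (s_lt hk)
  omega

lemma s_surj {n m : ℕ} (hm : m < n) : ∃ j < n, (j + 1) % n = m := by
  rcases Nat.eq_zero_or_pos m with rfl | h
  · refine ⟨n - 1, by omega, ?_⟩
    have := s_cases (n := n) (k := n - 1) (by omega)
    omega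
  · refine ⟨m - 1, by omega, ?_⟩
    have := s_cases (n := n) (k := m - 1) (by omega)
    omega

/-- the link of one edge -/
structure L (T : Cx) (v w n : ℕ) (a : ℕ → ℕ) : Prop where
  c : ∀ σ ∈ T, σ.card = 4
  h3 : 3 ≤ n
  mem : ∀ k < n, {v, w, a k, a ((k + 1) % n)} ∈ T
  inj : ∀ k < n, ∀ j < n, a k = a j → k = j
  all : ∀ σ ∈ T, v ∈ σ → w ∈ σ → ∃ k < n, σ = {v, w, a k, a ((k + 1) % n)}

lemma toL {T : Cx} {n : ℕ → ℕ → ℕ} {a : ℕ → ℕ → ℕ → ℕ} (c : ∀ σ ∈ T, σ.card = 4)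
    (h : Cyc T n a) {v w : ℕ} (hvw : v < w) (hf : Face T {v, w}) : L T v w (n v w) (a v w) := by
  obtain ⟨h1, h2, h3, h4⟩ := h v w hvw hf
  refine ⟨c, h1, h2, fun k hk j hj e => ?_, h4⟩
  rcases lt_trichotomy k j with h | h | h
  · exact (h3 j hj k h e).elim
  · exact h
  · exact (h3 k hk j h e.symm).elim

variable {T : Cx} {v w n : ℕ} {a : ℕ → ℕ}

lemma L.nv (h : L T v w n a) {k : ℕ} (hk : k < n) : a k ≠ v ∧ a k ≠ w := by
  have := c4 (h.c _ (h.mem k hk))
  omega

lemma L.sinj (h : L T v w n a) {i j : ℕ} (hi : i < n) (hj : j < n)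
    (e : ({v, w, a i, a ((i + 1) % n)} : Finset ℕ) = {v, w, a j, a ((j + 1) % n)}) : i = j := by
  rcases pair (h.c _ (h.mem i hi)) e with ⟨e1, _⟩ | ⟨e1, e2⟩
  · exact h.inj i hi j hj e1
  · have k1 := h.inj i hi _ (s_lt hj) e1
    have k2 := h.inj _ (s_lt hi) j hj e2
    exact (ss_ne h.h3 hj (k1 ▸ k2)).elim

lemma L.third (h : L T v w n a) {τ : Finset ℕ} (hτ : τ ∈ T) (hv : v ∈ τ) (hw : w ∈ τ) {r : ℕ}
    (hr : r ∈ τ) (h1 : r ≠ v) (h2 : r ≠ w) : ∃ m < n, r = a m := by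
  obtain ⟨k, hk, rfl⟩ := h.all τ hτ hv hw
  simp only [mem_insert, mem_singleton] at hr
  rcases hr with e | e | e | e
  · exact (h1 e).elim
  · exact (h2 e).elim
  · exact ⟨k, hk, e⟩
  · exact ⟨_, s_lt hk, e⟩

lemma L.two (h : L T v w n a) {m : ℕ} (hm : m < n) :
    (T.filter fun τ => ({v, w, a m} : Finset ℕ) ⊆ τ).card = 2 := by
  obtain ⟨j, hj, e⟩ := s_surj hm
  have hne : ({v, w, a m, a ((m + 1) % n)} : Finset ℕ) ≠ {v, w, a j, a ((j + 1) % n)} :=
    fun k => s_ne h.h3 hj (e.trans (h.sinj hm hj k))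
  rw [← card_pair hne]
  congr 1
  ext τ
  simp only [mem_filter, mem_insert, mem_singleton]
  constructor
  · rintro ⟨h1, h2⟩
    obtain ⟨i, hi, rfl⟩ := h.all τ h1 (h2 (by simp)) (h2 (by simp))
    have h3 : a m ∈ ({v, w, a i, a ((i + 1) % n)} : Finset ℕ) := h2 (by simp)
    have := h.nv hm
    simp only [mem_insert, mem_singleton] at h3
    rcases h3 with k | k | k | k
    · exact (this.1 k).elim
    · exact (this.2 k).elim
    · rw [h.inj m hm i hi k]
      exact .inl rfl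
    · rw [s_inj hi hj ((h.inj m hm _ (s_lt hi) k).symm.trans e.symm)]
      exact .inr rfl
  · rintro (rfl | rfl)
    · refine ⟨h.mem m hm, fun y => ?_⟩
      simp only [mem_insert, mem_singleton]
      omega
    · refine ⟨h.mem j hj, fun y => ?_⟩
      simp only [mem_insert, mem_singleton, e]
      omega

lemma L.conn (h : L T v w n a) : ∀ i < n,
    Relation.ReflTransGen (fun x y => y ∉ ({v, w} : Finset ℕ) ∧
      Face T (insert x (insert y {v, w}))) (a 0) (a i) ∧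
    Relation.ReflTransGen (fun x y => y ∉ ({v, w} : Finset ℕ) ∧
      Face T (insert x (insert y {v, w}))) (a i) (a 0) := by
  intro i
  induction i with
  | zero => exact fun _ => ⟨.refl, .refl⟩
  | succ i ih =>
    intro hi
    obtain ⟨h1, h2⟩ := ih (by omega)
    have hm := h.mem i (by omega)
    rw [Nat.mod_eq_of_lt hi] at hm
    have n1 := h.nv hi
    have n2 := h.nv (show i < n by omega)
    refine ⟨h1.tail ⟨by simpa using n1, _, hm, fun y => ?_⟩,
      .head ⟨by simpa using n2, _, hm, fun y => ?_⟩ h2⟩ <;>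
    · simp only [mem_insert, mem_singleton]
      omega

lemma L.sum (h : L T v w n a) (θ : Finset ℕ → ℝ) :
    ∑ σ ∈ T.filter (fun σ => v ∈ σ ∧ w ∈ σ), θ σ =
      ∑ k ∈ range n, θ {v, w, a k, a ((k + 1) % n)} := by
  have e : T.filter (fun σ => v ∈ σ ∧ w ∈ σ) =
      (range n).image fun k => ({v, w, a k, a ((k + 1) % n)} : Finset ℕ) := by
    ext τ
    simp only [mem_filter, mem_image, mem_range]
    constructor
    · rintro ⟨h1, h2, h3⟩
      obtain ⟨k, hk, e⟩ := h.all τ h1 h2 h3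
      exact ⟨k, hk, e.symm⟩
    · rintro ⟨k, hk, rfl⟩
      exact ⟨h.mem k hk, by simp, by simp⟩
  rw [e, sum_image]
  intro i hi j hj k
  exact h.sinj (mem_range.1 hi) (mem_range.1 hj) k

lemma L.four (h : L T v w n a) {x b c : ℕ} (hb : {v, w, x, b} ∈ T) (hc : {v, w, x, c} ∈ T)
    (hbc : b ≠ c) : ∃ j < n, x = a ((j + 1) % n) ∧
      (b = a j ∧ c = a (((j + 1) % n + 1) % n) ∨ c = a j ∧ b = a (((j + 1) % n + 1) % n)) := by
  obtain ⟨i, hi, e1⟩ := h.all _ hb (by simp) (by simp)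
  obtain ⟨j, hj, e2⟩ := h.all _ hc (by simp) (by simp)
  rcases pair (h.c _ hb) e1 with ⟨p1, p2⟩ | ⟨p1, p2⟩ <;>
    rcases pair (h.c _ hc) e2 with ⟨q1, q2⟩ | ⟨q1, q2⟩
  · have k := h.inj i hi j hj (p1.symm.trans q1)
    subst k
    exact (hbc (p2.trans q2.symm)).elim
  · have k := h.inj i hi _ (s_lt hj) (p1.symm.trans q1)
    subst k
    exact ⟨j, hj, q1, .inr ⟨q2, p2⟩⟩
  · have k := h.inj _ (s_lt hi) j hj (p1.symm.trans q1)
    subst k
    exact ⟨i, hi, p1, .inl ⟨p2, q2⟩⟩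
  · have k := s_inj hi hj (h.inj _ (s_lt hi) _ (s_lt hj) (p1.symm.trans q1))
    subst k
    exact (hbc (p2.trans q2.symm)).elim

end CYC

open CYC in
theorem CYC : S_CYC := by
  intro T n a c h
  refine ⟨fun σ hσ v hv => ?_, fun A hA x hx y hy fx fy => ?_,
    fun v w hvw hf θ => (toL c h hvw hf).sum θ,
    fun v w x b c' hvw hb hc hbc => (toL c h hvw ⟨_, hb, fun y => ?_⟩).four hb hc hbc⟩
  · have h3 : (σ.erase v).card = 3 := by rw [card_erase_of_mem hv, c σ hσ]
    have key : ∀ p q r : ℕ, p < q → r ≠ p → r ≠ q → σ.erase v = {p, q, r} →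
        (T.filter fun τ => σ.erase v ⊆ τ).card = 2 := by
      intro p q r hpq h1 h2 e
      have hs : ({p, q, r} : Finset ℕ) ⊆ σ := e ▸ erase_subset v σ
      have hp : p ∈ σ := hs (by simp)
      have hq : q ∈ σ := hs (by simp)
      have l := toL c h hpq ⟨σ, hσ, by simp [insert_subset_iff, hp, hq]⟩
      obtain ⟨m, hm, rfl⟩ := l.third hσ hp hq (hs (by simp : r ∈ _)) h1 h2
      rw [e]
      exact l.two hm
    obtain ⟨p, q, r, h1, h2, h4, e⟩ := card_eq_three.1 h3
    rcases lt_or_gt_of_ne h1 with k | k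
    · exact key p q r k h2.symm h4.symm e
    · exact key q p r k h4.symm h2.symm (by rw [e, insert_comm])
  · have key : ∀ v w : ℕ, v < w → A = {v, w} →
        Relation.ReflTransGen (fun x y => y ∉ A ∧ Face T (insert x (insert y A))) x y := by
      intro v w hvw e
      subst e
      obtain ⟨σ, hσ, sx⟩ := fx
      obtain ⟨τ, hτ, sy⟩ := fy
      have l := toL c h hvw ⟨σ, hσ, (subset_insert _ _).trans sx⟩
      simp only [mem_insert, mem_singleton, not_or] at hx hy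
      obtain ⟨i, hi, rfl⟩ := l.third hσ (sx (by simp)) (sx (by simp)) (sx (mem_insert_self _ _))
        hx.1 hx.2
      obtain ⟨j, hj, rfl⟩ := l.third hτ (sy (by simp)) (sy (by simp)) (sy (mem_insert_self _ _))
        hy.1 hy.2
      exact (l.conn i hi).2.trans (l.conn j hj).1
    obtain ⟨v, w, h1, e⟩ := card_eq_two.1 hA
    rcases lt_or_gt_of_ne h1 with k | k
    · exact key v w k e
    · exact key w v k (by rw [e, pair_comm])
  · simp only [mem_insert, mem_singleton]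
    omega

end Pool.Agent.P.MP_4830f8_gt.RG
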