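import Pool.Agent.P.MP_4830f8_gt.RG.Chk2

/-! Data: the steps of the dynamic programme. -/

set_option autoImplicit false
set_option maxRecDepth 100000

namespace Pool.Agent.P.MP_4830f8_gt.RG.D

def ops : List Op := [.elim 4 134205196,
  .elim 0 134205195,
  .elim 3 134205193,
  .elim 2 134205178,
  .elim 12 134205144,
  .tet 10199 3 2 12 4 0 3,
  .elim 1 134205197,
  .tet 10204 4 3 2 0 1 4,
  .elim 7 134205110,
  .tet 10207 1 4 2 0 7 1,
  .intro 4,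
  .elim 8 134205198,
  .tet 10211 0 1 7 7 8 2,
  .intro 1,
  .elim 1 134205000,
  .tet 10184 2 12 1 3 12 0,
  .intro 3,
  .elim 5 134205210,
  .tet 10217 2 8 12 7 1 5,
  .intro 2,
  .elim 10 134205171,
  .tet 10206 12 10 1 8 0 7,
  .intro 0,
  .elim 0 134205212,
  .elim 9 134205190,
  .elim 11 134205172,
  .elim 4 134205166,
  .tet 10225 9 9 11 0 8 4,
  .elim 2 134205170,
  .tet 10222 2 9 9 4 12 0,
  .elim 3 134204684,
  .tet 10174 4 11 3 9 2 12,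
  .elim 6 134205168,
  .tet 10213 6 4 2 11 8 9,
  .intro 9,
  .elim 9 134205217,
  .tet 10234 8 6 10 2 12 9,
  .tet 10244 12 2 4 9 0 3,
  .intro 2,
  .elim 2 134205220,
  .tet 10249 3 0 4 9 2 8,
  .intro 0,
  .elim 0 134204729,
  .tet 10241 6 4 3 11 0 2,
  .intro 4,
  .elim 4 134205224,
  .tet 10258 4 5 8 3 11 12,
  .intro 12,
  .tet 10251 2 8 11 9 0 4,
  .intro 11,
  .intro 8,
  .intro 2,
  .elim 2 134205222,
  .tet 10256 9 2 0 5 4 3,
  .intro 4,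
  .elim 12 134205214,
  .elim 11 134205165,
  .elim 4 134204290,
  .tet 10237 10 6 11 9 12 4,
  .elim 8 134205181,
  .tet 10254 8 4 12 2 5 9,
  .intro 9,
  .elim 9 134204720,
  .tet 10248 9 8 4 3 0 2,
  .intro 2,
  .elim 2 134204706,
  .tet 10215 0 3 2 6 11 4,
  .intro 6,
  .tet 10221 2 0 4 8 3 9,
  .intro 3,
  .elim 6 134204710,
  .tet 9069 6 9 4 4 9 0,
  .elim 3 134204709,
  .tet 9053 6 4 3 9 4 6,
  .intro 9,
  .tet 9036 3 4 4 6 4 3,
  .intro 6,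
  .intro 4,
  .intro 3,
  .elim 9 134204854,
  .tet 10149 11 0 2 2 9 8,
  .intro 0,
  .elim 4 134205189,
  .elim 0 134204988,
  .elim 3 134204453,
  .tet 10239 4 0 3 5 8 12,
  .elim 6 134205011,
  .tet 10232 1 7 6 5 4 0,
  .intro 5,
  .elim 5 134205105,
  .tet 10227 5 10 11 0 3 12,
  .intro 12,
  .tet 10198 7 1 6 10 5 0,
  .intro 10,
  .elim 10 134204987,
  .tet 10230 9 10 2 4 8 3,
  .intro 8,
  .elim 8 134204836,
  .tet 10177 2 9 8 11 5 3,
  .intro 11,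
  .tet 9986 10 3 9 2 5 8,
  .intro 2,
  .elim 2 134205020,
  .tet 10168 2 6 1 10 9 4,
  .intro 4,
  .elim 4 134205012,
  .tet 10153 4 0 1 2 10 6,
  .tet 9968 1 9 10 2 4 5,
  .intro 10,
  .intro 1,
  .elim 1 134204837,
  .elim 10 134204832,
  .tet 9357 1 3 10 8 3 1,
  .tet 9341 3 10 3 1 10 3,
  .intro 10,
  .tet 9373 1 3 8 8 3 9,
  .intro 9,
  .intro 8,
  .intro 3,
  .intro 1,
  .elim 1 134205022,
  .tet 9970 2 4 0 5 4 1,
  .intro 2,
  .elim 2 134205029,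
  .elim 3 134205023,
  .tet 9790 3 6 0 1 0 2,
  .tet 9982 6 0 2 7 5 6,
  .intro 7,
  .tet 9971 4 1 3 5 2 6,
  .intro 6,
  .intro 5,
  .tet 9798 0 1 0 2 3 4,
  .intro 4,
  .intro 3,
  .intro 2,
  .intro 1,
  .intro 0]

end Pool.Agent.P.MP_4830f8_gt.RG.D
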