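import Pool.Agent.P.MP_4830f8_gt.RG.Iface2

/-! Soundness of the packed dynamic programme. -/

set_option autoImplicit false

namespace Pool.Agent.P.MP_4830f8_gt.RG

namespace DP

lemma mand (h1 : S_PK) {a b : ℕ} {p q : ℕ → Bool} (ha : Msk a p) (hb : Msk b q) :
    Msk (Nat.land a b) fun i => p i && q i := fun i hi => by
  rw [h1.1, ha i hi, hb i hi]
  beta_reduce
  cases p i <;> cases q i <;> simp

lemma mor (h1 : S_PK) {a b : ℕ} {p q : ℕ → Bool} (ha : Msk a p) (hb : Msk b q) :
    Msk (Nat.lor a b) fun i => p i || q i := fun i hi => by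
  rw [h1.2.1, ha i hi, hb i hi]
  beta_reduce
  cases p i <;> cases q i <;> simp

lemma mxor (h1 : S_PK) {a b : ℕ} {p q : ℕ → Bool} (ha : Msk a p) (hb : Msk b q) :
    Msk (Nat.xor a b) fun i => xor (p i) (q i) := fun i hi => by
  rw [h1.2.2.1, ha i hi, hb i hi]
  beta_reduce
  cases p i <;> cases q i <;> simp

def q0 (a b c d e f : Bool) : Bool := xor true ((a || (b || c)) || (d || (e || f)))
def qa (a b c d e f : Bool) : Bool :=
  xor true ((xor (xor a (xor b d)) (a && (b && d)) || xor (xor a (xor c e)) (a && (c && e))) ||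
    (xor (xor b (xor c f)) (b && (c && f)) || xor (xor d (xor e f)) (d && (e && f))))
def q6 (a b c d e f : Bool) : Bool := (a && (b && d)) && ((a && (c && e)) && f)
def q3 (a b c d e f : Bool) : Bool :=
  (qa a b c d e f && xor (xor a (xor b d)) (xor c (xor e f))) &&
    xor true (((a && (b && d)) || (a && (c && e))) || ((b && (c && f)) || (d && (e && f))))
def q5 (a b c d e f : Bool) : Bool :=
  xor (xor (qa a b c d e f) (q0 a b c d e f)) (xor (q3 a b c d e f) (q6 a b c d e f))

lemma sp : ss ^ 2 * ph = 1 := by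
  have := ss_four
  unfold ph
  linear_combination this

lemma rr2 : rr ^ 2 = ph := by
  unfold rr
  linear_combination ph * sp

lemma key (a b c d e f : Bool) : ph ^ 2 * W6 a b c d e f =
    (if q0 a b c d e f then rr ^ 4 else 0) + (if q3 a b c d e f then rr ^ 3 else 0) +
      (if q5 a b c d e f then rr ^ 2 else 0) - if q6 a b c d e f then 1 else 0 := by
  have e4 : rr ^ 4 = ph ^ 2 := by rw [← rr2]; ring
  have e3 : rr ^ 3 = ph ^ 2 * ss := by
    rw [pow_succ, rr2]; unfold rr; ring
  have e2 : rr ^ 2 = ph ^ 2 * ss ^ 2 := by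
    unfold rr; ring
  have e1 : ph ^ 2 * ss ^ 4 = 1 := by
    linear_combination (ss ^ 2 * ph + 1) * sp
  rw [e4, e3, e2]
  cases a <;> cases b <;> cases c <;> cases d <;> cases e <;> cases f <;>
    simp [W6, adm, wn, q0, qa, q3, q5, q6, e1]

lemma bit_lt {i j : ℕ} (hi : i < 8192) (hj : j < 13) (h : i.testBit j = false) :
    i + 2 ^ j < 8192 := by
  rw [Nat.testBit_eq_decide_div_mod_eq] at h
  simp only [decide_eq_false_iff_not] at h
  interval_cases j <;> omega

lemma inv (h1 : S_PK) (h2 : S_VEC) (ops : List Op) : ∀ k : V4 → V4 → Bool,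
    dpK (ful 13) top ops k = true → ∃ x y, k x y = true ∧ ∀ i < 8192,
      vl x i - vl y i = ph ^ (2 * (tets ops).length) * FF ops i := by
  induction ops with
  | nil =>
    intro k h
    refine ⟨_, _, h, fun i _ => ?_⟩
    have := h1.2.2.2.2.2.2.2.2.2.2 i
    simp only [vl, this.1, this.2, tets, FF]
    split_ifs <;> simp
  | cons o ops ih =>
    intro k h
    obtain ⟨x, y, h, H⟩ := ih (fun x y => step (ful 13) top o x y k) h
    simp only [step, an_iff] at h
    obtain ⟨kx, ky, h⟩ := h
    have sx : Sml x := h1.2.2.2.2.2.2.2.2.2.1 x kx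
    have sy : Sml y := h1.2.2.2.2.2.2.2.2.2.1 y ky
    cases o with
    | tet n j0 j1 j2 j3 j4 j5 =>
      simp only [an_iff, lt_iff, force_eq] at h
      obtain ⟨l0, l1, l2, l3, l4, l5, h⟩ := h
      have u : Msk (ful 13) fun _ => true := fun i hi => h1.2.2.2.2.2.2.1 i hi
      have m : ∀ j < 13, Msk (mk1 j) fun i => i.testBit j := h1.2.2.2.2.2.2.2.1
      have a := m _ l0
      have b := m _ l1
      have c := m _ l2
      have d := m _ l3
      have e := m _ l4
      have f := m _ l5
      have s1 := mand h1 a (mand h1 b d)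
      have s2 := mand h1 a (mand h1 c e)
      have s3 := mand h1 b (mand h1 c f)
      have s4 := mand h1 d (mand h1 e f)
      have x1 := mxor h1 a (mxor h1 b d)
      have ad : Msk _ fun i => qa (i.testBit j0) (i.testBit j1) (i.testBit j2) (i.testBit j3)
          (i.testBit j4) (i.testBit j5) := mxor h1 u (mor h1 (mor h1 (mxor h1 x1 s1)
        (mxor h1 (mxor h1 a (mxor h1 c e)) s2)) (mor h1 (mxor h1 (mxor h1 b (mxor h1 c f)) s3)
        (mxor h1 (mxor h1 d (mxor h1 e f)) s4)))
      have m0 : Msk _ fun i => q0 (i.testBit j0) (i.testBit j1) (i.testBit j2) (i.testBit j3)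
          (i.testBit j4) (i.testBit j5) :=
        mxor h1 u (mor h1 (mor h1 a (mor h1 b c)) (mor h1 d (mor h1 e f)))
      have m6 : Msk _ fun i => q6 (i.testBit j0) (i.testBit j1) (i.testBit j2) (i.testBit j3)
          (i.testBit j4) (i.testBit j5) := mand h1 s1 (mand h1 s2 f)
      have m3 : Msk _ fun i => q3 (i.testBit j0) (i.testBit j1) (i.testBit j2) (i.testBit j3)
          (i.testBit j4) (i.testBit j5) :=
        mand h1 (mand h1 ad (mxor h1 x1 (mxor h1 c (mxor h1 e f))))
          (mxor h1 u (mor h1 (mor h1 s1 s2) (mor h1 s3 s4)))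
      have m5 : Msk _ fun i => q5 (i.testBit j0) (i.testBit j1) (i.testBit j2) (i.testBit j3)
          (i.testBit j4) (i.testBit j5) := mxor h1 (mxor h1 ad m0) (mxor h1 m3 m6)
      obtain ⟨x', h, hx⟩ := h2.1 _ _ _ _ _ _ _ _ x y _ m0 m3 m5 m6 sx sy h
      obtain ⟨y', h, hy⟩ := h2.1 _ _ _ _ _ _ _ _ y x _ m0 m3 m5 m6 sy sx h
      refine ⟨x', y', h, fun i hi => ?_⟩
      have hk := key (i.testBit j0) (i.testBit j1) (i.testBit j2) (i.testBit j3) (i.testBit j4)
        (i.testBit j5)
      have hH := H i hi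
      rw [hx i hi, hy i hi]
      simp only [tets, FF, List.length_cons, mul_add, pow_add, mul_one]
      generalize (if q0 _ _ _ _ _ _ = true then rr ^ 4 else 0) = A at hk ⊢
      generalize (if q3 _ _ _ _ _ _ = true then rr ^ 3 else 0) = B at hk ⊢
      generalize (if q5 _ _ _ _ _ _ = true then rr ^ 2 else 0) = C at hk ⊢
      split_ifs at hk ⊢
      · linear_combination (A + B + C - 1) * hH -
          ph ^ (2 * (tets ops).length) * FF ops i * hk
      · linear_combination (A + B + C) * hH - ph ^ (2 * (tets ops).length) * FF ops i * hk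
    | elim j l =>
      simp only [an_iff, lt_iff, force_eq] at h
      obtain ⟨l0, h⟩ := h
      obtain ⟨x', h, hx⟩ := h2.2.1 j l0 x _ sx h
      obtain ⟨y', h, hy⟩ := h2.2.1 j l0 y _ sy h
      refine ⟨x', y', h, fun i hi => ?_⟩
      rw [hx i hi, hy i hi]
      simp only [tets, FF]
      cases e : i.testBit j
      · simp only [Bool.false_eq_true, if_false]
        linear_combination H i hi + ph * H _ (bit_lt hi l0 e)
      · simp
    | intro j =>
      simp only [an_iff, lt_iff, force_eq] at h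
      obtain ⟨l0, h⟩ := h
      obtain ⟨x', h, hx⟩ := h2.2.2 j l0 x _ sx h
      obtain ⟨y', h, hy⟩ := h2.2.2 j l0 y _ sy h
      refine ⟨x', y', h, fun i hi => ?_⟩
      rw [hx i hi, hy i hi]
      simp only [tets, FF]
      exact H _ (by split_ifs; exacts [(Nat.sub_le _ _).trans_lt hi, hi])

end DP

theorem DP (h1 : S_PK) (h2 : S_VEC) : S_DP := by
  intro ops a c h
  simp only [dpChk, force_eq] at h
  obtain ⟨x, y, h, H⟩ := DP.inv h1 h2 ops _ h
  simp only [an_iff, beq_iff, Nat.add_eq] at h
  obtain ⟨e1, e2, e3, e4⟩ := h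
  rw [← H 0 (by norm_num), ← DP.rr2]
  simp only [vl, e1, e2, e3, e4]
  push_cast
  ring

end Pool.Agent.P.MP_4830f8_gt.RG
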