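import Pool.Agent.P.MP_4830f8_gt.RG.Iface2

/-! Soundness of the checker for relations in a group. -/

set_option autoImplicit false

namespace Pool.Agent.P.MP_4830f8_gt.RG

namespace FACT

lemma fd_eq (x s k : ℕ) : fd x s (2 ^ k - 1) = x / 2 ^ s % 2 ^ k := by
  show (x >>> s) &&& (2 ^ k - 1) = _
  rw [Nat.and_two_pow_sub_one_eq_mod, Nat.shiftRight_eq_div_pow]

lemma iv_eq (B c : ℕ) : iv B c = if c < B then c else if c % 2 = 0 then c + 1 else c - 1 := by
  simp only [iv, cn_eq, lt_iff]
  split_ifs with h1 h2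
  · rfl
  · exact Nat.xor_one_of_even (Nat.even_iff.2 h2)
  · exact Nat.xor_one_of_odd (Nat.odd_iff.2 (by omega))

lemma cp_eq (B R r k : ℕ) : cp B R r k =
    if r < 3 then cd R ((r + k) % 3) else iv B (cd R ((r + 2 - k) % 3)) := by
  simp only [cp, cn_eq, lt_iff]
  rfl

variable {G : Type} [Group G] {H : Subgroup G} {B : ℕ} {val : ℕ → G}

lemma sv_iv (hB : B % 2 = 0) (h2 : ∀ c < B, val (c / 2) * val (c / 2) = 1) (c : ℕ) :
    sv B val (iv B c) = (sv B val c)⁻¹ := by
  rw [iv_eq]
  split_ifs with h1 h3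
  · rw [sv, if_neg (by omega)]
    exact eq_inv_of_mul_eq_one_left (h2 c h1)
  · rw [sv, sv, if_pos (by omega), if_neg (by omega), show (c + 1) / 2 = c / 2 by omega]
  · rw [sv, sv, if_neg (by omega), if_pos (by omega), show (c - 1) / 2 = c / 2 by omega, inv_inv]

/-- the product of a record after rotation -/
noncomputable def P (B : ℕ) (val : ℕ → G) (R r : ℕ) : G :=
  sv B val (cp B R r 0) * sv B val (cp B R r 1) * sv B val (cp B R r 2)

lemma P_one (hi : ∀ c, sv B val (iv B c) = (sv B val c)⁻¹) {R : ℕ} (h : Holds H B val R)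
    (h0 : fd R 42 1 = 0) (r : ℕ) : P B val R r = 1 := by
  rw [Holds, if_pos h0] at h
  have e := eq_inv_of_mul_eq_one_right h
  simp only [P, cp_eq]
  split_ifs with h1
  · interval_cases r <;> simp only [Nat.reduceAdd, Nat.reduceMod, e] <;> group
  · simp only [hi]
    have h3 : r % 3 = 0 ∨ r % 3 = 1 ∨ r % 3 = 2 := by omega
    rcases h3 with h3 | h3 | h3
    · rw [show (r + 2 - 0) % 3 = 2 by omega, show (r + 2 - 1) % 3 = 1 by omega,
        show (r + 2 - 2) % 3 = 0 by omega, e]
      group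
    · rw [show (r + 2 - 0) % 3 = 0 by omega, show (r + 2 - 1) % 3 = 2 by omega,
        show (r + 2 - 2) % 3 = 1 by omega, e]
      group
    · rw [show (r + 2 - 0) % 3 = 1 by omega, show (r + 2 - 1) % 3 = 0 by omega,
        show (r + 2 - 2) % 3 = 2 by omega, e]
      group

lemma P_mem (hi : ∀ c, sv B val (iv B c) = (sv B val c)⁻¹) {R : ℕ} (h : Holds H B val R) {r : ℕ}
    (h0 : fd R 42 1 = 0 ∨ r % 3 = 0) : P B val R r ∈ H := by
  by_cases h1 : fd R 42 1 = 0
  · rw [P_one hi h h1]
    exact H.one_mem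
  have h3 := h0.resolve_left h1
  rw [Holds, if_neg h1] at h
  simp only [P, cp_eq]
  split_ifs with h2
  · obtain rfl : r = 0 := by omega
    exact h
  · simp only [hi]
    rw [show (r + 2 - 0) % 3 = 2 by omega, show (r + 2 - 1) % 3 = 1 by omega,
      show (r + 2 - 2) % 3 = 0 by omega]
    convert H.inv_mem h using 1
    group

lemma holds_gt (hi : ∀ c, sv B val (iv B c) = (sv B val c)⁻¹) (h0 : val 0 = 1) {F : ℕ → ℕ}
    {n h : ℕ} (hF : ∀ i < n, Holds H B val (F i)) (hh : h < n ∨ 32768 ≤ h) :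
    Holds H B val (gt F B h) := by
  simp only [gt, cn_eq, lt_iff, force_eq]
  split_ifs with h1
  · exact hF h (by omega)
  have hc : Nat.land h 16383 ≤ 16383 := Nat.and_le_right
  generalize Nat.land h 16383 = c at hc
  have hv : iv B c ≤ 16383 := by
    rw [iv_eq]
    split_ifs <;> omega
  have e : Nat.add (Nat.shiftLeft (iv B c) 14) (Nat.shiftLeft c 28) =
      iv B c * 2 ^ 14 + c * 2 ^ 28 := by
    show iv B c <<< 14 + c <<< 28 = _
    rw [Nat.shiftLeft_eq, Nat.shiftLeft_eq]
  rw [e]
  generalize hw : iv B c = w at hv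
  have e0 : cd (w * 2 ^ 14 + c * 2 ^ 28) 0 = 0 := (fd_eq _ 0 14).trans (by omega)
  have e1 : cd (w * 2 ^ 14 + c * 2 ^ 28) 1 = w := (fd_eq _ 14 14).trans (by omega)
  have e2 : cd (w * 2 ^ 14 + c * 2 ^ 28) 2 = c := (fd_eq _ 28 14).trans (by omega)
  have e3 : fd (w * 2 ^ 14 + c * 2 ^ 28) 42 1 = 0 := (fd_eq _ 42 1).trans (by omega)
  rw [Holds, if_pos e3, e0, e1, e2, ← hw, hi, sv, if_neg (by omega), h0]
  group

lemma sv_congr {val' : ℕ → G} {c : ℕ} (h : val' (c / 2) = val (c / 2)) :
    sv B val' c = sv B val c := by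
  rw [sv, sv, h]

lemma def_iff {F : ℕ → ℕ} {ng i : ℕ} : defChk F ng i = true ↔ cd (F i) 0 < 2 * (ng + i) ∧
    cd (F i) 1 < 2 * (ng + i) ∧ cd (F i) 2 = 2 * (ng + i) + 1 ∧ fd (F i) 42 3 = 0 := by
  simp only [defChk, force_eq, an_iff, lt_iff, beq_iff]
  rfl

end FACT

open FACT

theorem FACT : S_FACT := by
  intro G _ H B val F n hB h0 h2
  have hi := sv_iv hB h2
  refine ⟨fun hT hb i => ?_, fun hF ed h r u v w hc => ?_⟩
  · induction i using Nat.strong_induction_on with
    | _ i ih =>
      intro hn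
      have hc := hT i hn
      simp only [tetChk, force_eq, an_iff, oo_iff, lt_iff, ble_iff, beq_iff] at hc
      rcases hc with hc | ⟨a1, a2, a3, f3, f1, f2, e1, e2, e3, e4, e5, e6⟩
      · exact hb i hn hc
      have ih' : ∀ j < i, Holds H B val (F j) := fun j hj => ih j hj (hj.trans hn)
      have k1 := holds_gt hi h0 ih' a1
      have k2 := holds_gt hi h0 ih' a2
      have k3 := P_one hi (holds_gt hi h0 ih' a3) f3 (fd (F i) 98 7)
      have key : sv B val (cd (F i) 0) * sv B val (cd (F i) 1) * sv B val (cd (F i) 2) =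
          P B val (gt F B (fd (F i) 44 65535)) (fd (F i) 60 7) *
            P B val (gt F B (fd (F i) 63 65535)) (fd (F i) 79 7) := by
        rw [P, e3, e4] at k3
        rw [P, P, e1, e2, e5, e6, hi, hi, eq_inv_of_mul_eq_one_right k3]
        group
      rw [Holds, key]
      split_ifs with hR
      · rw [P_one hi k1 (f1.resolve_right fun k => by omega),
          P_one hi k2 (f2.resolve_right fun k => by omega), mul_one]
      · exact H.mul_mem (P_mem hi k1 (f1.imp_right fun k => k.2))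
          (P_mem hi k2 (f2.imp_right fun k => k.2))
  · simp only [fcChk, force_eq, an_iff, oo_iff, lt_iff, ble_iff, beq_iff] at hc
    obtain ⟨a1, f1, e1, e2, e3⟩ := hc
    have k := P_one hi (holds_gt hi h0 hF a1) f1 r
    rw [P, e1, e2, e3, hi] at k
    exact mul_inv_eq_one.1 k

theorem DEF : S_DEF := by
  intro G _ B ng nd F g _ hD
  suffices h : ∃ val : ℕ → G, (∀ z < ng, val z = g z) ∧
      (∀ i < nd, val (ng + i) = sv B val (cd (F i) 0) * sv B val (cd (F i) 1)) ∧
      ∀ L : Subgroup G, (∀ z < ng, g z ∈ L) → ∀ z, val z ∈ L by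
    obtain ⟨val, h1, h2, h3⟩ := h
    refine ⟨val, h1, h2, fun L hL c => ?_⟩
    rw [sv]
    split_ifs
    exacts [L.inv_mem (h3 L hL _), h3 L hL _]
  induction nd with
  | zero =>
    refine ⟨fun z => if z < ng then g z else 1, fun z hz => if_pos hz, by simp, fun L hL z => ?_⟩
    dsimp only
    split_ifs with hz
    exacts [hL z hz, L.one_mem]
  | succ nd ih =>
    obtain ⟨val, h1, h2, h3⟩ := ih fun i hi => hD i (by omega)
    have e : ∀ x, ∀ c < 2 * (ng + nd), sv B (Function.update val (ng + nd) x) c = sv B val c :=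
      fun x c hc => sv_congr (Function.update_of_ne (by omega) _ _)
    refine ⟨Function.update val (ng + nd) (sv B val (cd (F nd) 0) * sv B val (cd (F nd) 1)),
      fun z hz => by rw [Function.update_of_ne (by omega), h1 z hz], fun i hi => ?_,
      fun L hL z => ?_⟩
    · obtain ⟨a1, a2, -⟩ := def_iff.1 (hD i hi)
      rw [e _ _ (by omega), e _ _ (by omega)]
      by_cases hn : i = nd
      · rw [hn, Function.update_self]
      · rw [Function.update_of_ne (by omega), h2 i (by omega)]
    · have hs : ∀ c, sv B val c ∈ L := fun c => by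
        rw [sv]
        split_ifs
        exacts [L.inv_mem (h3 L hL _), h3 L hL _]
      by_cases hz : z = ng + nd
      · rw [hz, Function.update_self]
        exact L.mul_mem (hs _) (hs _)
      · rw [Function.update_of_ne hz]
        exact h3 L hL z

theorem DH : S_DH := by
  intro G _ H B ng i F val hB hD hv
  obtain ⟨-, -, a3, a4⟩ := def_iff.1 hD
  have e1 := fd_eq (F i) 42 2
  have e2 := fd_eq (F i) 42 1
  have e3 : fd (F i) 42 1 = 0 := by
    norm_num at e1 e2
    omega
  rw [Holds, if_pos e3, a3, ← hv, sv, if_pos (by omega),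
    show (2 * (ng + i) + 1) / 2 = ng + i by omega, mul_inv_cancel]

end Pool.Agent.P.MP_4830f8_gt.RG
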