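import Pool.Agent.P.MP_4830f8_gt.RG.Iface2

/-! The state sum bounds the Heegaard genus. -/

set_option autoImplicit false

namespace Pool.Agent.P.MP_4830f8_gt.RG

open Finset

namespace GEN

lemma flip0 (h4 : S_NF3) (h5 : S_NF4) {A B : Finset ℕ} {K K' : Cx} (h : Flip A B K K')
    (h0 : 0 ∈ A) (hc : 3 ≤ A.card) : NN K = NN K' := by
  have e1 := h.2.2.2.1
  rw [card_union_of_disjoint h.2.2.1] at e1
  have e2 := h.2.1.card_pos
  rcases (by omega : A.card = 3 ∨ A.card = 4) with e | e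
  exacts [h4 A B K K' h h0 e, h5 A B K K' h h0 e]

lemma nn (h2 : S_REN) (h3 : S_NFI) (h4 : S_NF3) (h5 : S_NF4) (h6 : S_NH) (h7 : S_NB) {g : ℕ}
    {K : Cx} (h : Hb g K) : NN K = DD ^ g * DD⁻¹ := by
  induction h with
  | ball => rw [pow_zero, one_mul]; exact h7
  | ren f h0 _ ih => rw [h2.2 f _ h0, ih]
  | flip A B hf hA hB _ ih =>
    rw [← ih]
    by_cases a : 0 ∈ A
    · exact (flip0 h4 h5 hf a (hA a)).symm
    by_cases b : 0 ∈ B
    · exact flip0 h4 h5 (flip_symm hf) b (hB b)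
    · exact (h3 A B _ _ hf (by simp [a, b])).symm
  | handle R a b c d e f hn hR _ ih => rw [h6 R a b c d e f hn hR, ih, pow_succ', mul_assoc]

lemma tv_eqv (h1 : S_TVF) (h2 : S_REN) {T T' : Cx} (h : Eqv T T') : TV T' = TV T := by
  induction h with
  | refl => rfl
  | tail _ hs ih =>
    rcases hs with ⟨A, B, hf⟩ | ⟨f, rfl⟩
    · rw [← h1 A B _ _ hf, ih]
    · rw [h2.1, ih]

lemma ph_sq : ph ^ 2 = ph + 1 := by
  unfold ph
  linear_combination ss_four

lemma ph_pow (n : ℕ) : ph ^ (n + 1) = Nat.fib (n + 1) * ph + Nat.fib n := by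
  induction n with
  | zero => simp
  | succ n ih =>
    rw [pow_succ, ih, Nat.fib_add_two]
    push_cast
    linear_combination (Nat.fib (n + 1) : ℝ) * ph_sq

lemma dd4 : DD ^ 4 = 25 * ph ^ 4 := by
  have e : DD ^ 2 = 5 * ph ^ 2 := by
    unfold DD
    linear_combination (ph ^ 2 + ph - 1) * ph_sq
  rw [show DD ^ 4 = (DD ^ 2) ^ 2 by ring, e]
  ring

end GEN

open GEN in
theorem GEN (h1 : S_TVF) (h2 : S_REN) (h3 : S_NFI) (h4 : S_NF3) (h5 : S_NF4) (h6 : S_NH)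
    (h7 : S_NB) (h8 : S_INV) (h9 : S_SPL) : S_GEN := by
  rintro T hT T' he g hg ⟨K, L, hK, hL, a1, a2, a3⟩
  have k := h9 K L T' (h8 g K hK) (h8 g L hL) a1 a2 a3
  rw [nn h2 h3 h4 h5 h6 h7 hK, nn h2 h3 h4 h5 h6 h7 hL, tv_eqv h1 h2 he] at k
  have hD := DD_pos
  have e1 : DD ^ g * DD⁻¹ ≤ DD ^ 3 := by
    rw [mul_inv_le_iff₀ hD, ← pow_succ]
    exact pow_le_pow_right₀ one_lt_DD.le hg
  have e2 : 0 ≤ DD ^ g * DD⁻¹ := by positivity
  have e3 := mul_self_le_mul_self e2 e1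
  have e4 := mul_self_lt_mul_self (by positivity) hT
  rw [sq] at k
  linarith

open GEN in
theorem NUM : S_NUM := by
  intro T x hv hs hx
  have hD := DD_pos
  have hp := ph_pos
  have f1 : Nat.fib (93 + 1) = 19740274219868223167 := by decide +kernel
  have f2 : Nat.fib 93 = 12200160415121876738 := by decide +kernel
  have e1 := ph_pow 93
  rw [f1, f2] at e1
  have e2 : ph ^ (2 * 45) * DD ^ 4 < ph ^ (2 * 45) * x := by
    rw [hx, dd4, show ph ^ (2 * 45) * (25 * ph ^ 4) = 25 * ph ^ (93 + 1) by ring, e1]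
    push_cast
    linarith
  have e3 : DD ^ 4 < x := lt_of_mul_lt_mul_left e2 (by positivity)
  have e4 : DD ^ (verts T).card ≤ DD ^ 97 := pow_le_pow_right₀ one_lt_DD.le hv
  rw [TV, hs, lt_inv_mul_iff₀ (by positivity)]
  calc _ ≤ DD ^ 97 * DD ^ 3 := mul_le_mul_of_nonneg_right e4 (by positivity)
    _ = DD ^ 96 * DD ^ 4 := by ring
    _ < _ := mul_lt_mul_of_pos_left e3 (by positivity)

end Pool.Agent.P.MP_4830f8_gt.RG
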