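import Pool.Agent.P.MP_4830f8_gt.RG.Iface2

/-! Soundness of the position checker. -/

set_option autoImplicit false

namespace Pool.Agent.P.MP_4830f8_gt.RG

open Finset Matrix CB

namespace GP

lemma mu {s t : ℕ} {z w : ℂ} {a b : CB} (u : ℕ) (h : mem s z a) (k : mem t w b) (e : s + t = u) :
    mem u (z * w) (a.mul b) := e ▸ h.mul k

lemma u15 {s : ℕ} {z : ℂ} {a : CB} (u : ℕ) (h : mem s z a) (e : s + 15 = u) :
    mem u z (up 14348907 a) := e ▸ h.up 15 (by norm_num)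

lemma i503 {z : ℂ} {a b : CB} (h : mem 524 z a) (hi : inc (Nat.pow 3 503) a b = true) :
    mem 21 z b := by
  have e : 524 = 21 + 503 := rfl
  rw [e] at h
  exact mem.inc 503 Nat.pow_eq h hi

lemma pos_sound {g : M2} {E : ℕ} {a b c d : CB} (ha : mem 262 (g 0 0) a) (hb : mem 262 (g 0 1) b)
    (hc : mem 262 (g 1 0) c) (hd : mem 262 (g 1 1) d) (h : posChk E a b c d = true) :
    Near (pos g) E := by
  rw [posChk, an_iff] at h
  have k1 := i503 ((mu 524 ha hc.conj rfl).add (mu 524 hb hd.conj rfl)) h.1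
  have k2 := (i503 (((mu 524 ha ha.conj rfl).add (mu 524 hb hb.conj rfl)).sub
    ((mu 524 hc hc.conj rfl).add (mu 524 hd hd.conj rfl))) h.2).re
  intro k
  fin_cases k
  · simpa [pos] using k1.re
  · simpa [pos] using k1.im
  · simp only [Complex.mul_conj, up, imul, Nat.mul_eq, Int.ofNat_eq_natCast, Complex.sub_re,
      Complex.add_re, Complex.ofReal_re] at k2
    push_cast at k2
    rw [abs_le] at k2
    have e2 : pos g 2 = (Complex.normSq (g 0 0) + Complex.normSq (g 0 1) - Complex.normSq (g 1 0) -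
      Complex.normSq (g 1 1)) / 2 := rfl
    change |pos g 2 * 3 ^ 21 - eX E 2| ≤ 16
    rw [e2, abs_le]
    constructor <;> linarith [k2.1, k2.2]

/-- the parameters of a vertex -/
noncomputable def be (V : ℕ) : ℂ := (vX V 0 + vX V 1 * Complex.I) / 3 ^ 15
noncomputable def ga (V : ℕ) : ℂ := vX V 2 / 3 ^ 15

lemma mem_be (V : ℕ) : mem 15 (be V) ⟨vX V 0, vX V 1, 0⟩ :=
  mem_mk (div_mul_cancel₀ _ (by norm_num))

lemma mem_ga (V : ℕ) : mem 15 (ga V) (cst (vX V 2)) :=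
  mem_cst (div_mul_cancel₀ _ (by norm_num))

lemma mem_al (V : ℕ) : mem 30 (1 + be V * ga V)
    (CB.add (cst (Int.ofNat 205891132094649)) (CB.mul ⟨vX V 0, vX V 1, 0⟩ (cst (vX V 2)))) := by
  have h1 : mem 30 1 (cst (Int.ofNat 205891132094649)) := mem_cst (by norm_num)
  exact h1.add (mu 30 (mem_be V) (mem_ga V) rfl)

lemma entries (V W : ℕ) (γ : SL2) :
    ((hm V)⁻¹ * γ * hm W : SL2) 0 0 = (γ 0 0 * (1 + be W * ga W) + γ 0 1 * ga W) -
      be V * (γ 1 0 * (1 + be W * ga W) + γ 1 1 * ga W) ∧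
    ((hm V)⁻¹ * γ * hm W : SL2) 0 1 = (γ 0 0 * be W + γ 0 1) - be V * (γ 1 0 * be W + γ 1 1) ∧
    ((hm V)⁻¹ * γ * hm W : SL2) 1 0 = (1 + be V * ga V) * (γ 1 0 * (1 + be W * ga W) + γ 1 1 * ga W) -
      ga V * (γ 0 0 * (1 + be W * ga W) + γ 0 1 * ga W) ∧
    ((hm V)⁻¹ * γ * hm W : SL2) 1 1 = (1 + be V * ga V) * (γ 1 0 * be W + γ 1 1) -
      ga V * (γ 0 0 * be W + γ 0 1) := by
  have e : ∀ V, (hm V : M2) = !![1 + be V * ga V, be V; ga V, 1] := fun _ => rfl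
  have e3 : ∀ (A B C : SL2) i j, (A⁻¹ * B * C : SL2) i j =
      (adjugate (A : M2) * (B : M2) * (C : M2)) i j := fun _ _ _ _ _ => rfl
  simp only [e3, e, adjugate_fin_two, Matrix.mul_apply, Fin.sum_univ_two, of_apply, cons_val',
    cons_val_zero, cons_val_one, cons_val_fin_one]
  refine ⟨?_, ?_, ?_, ?_⟩ <;> ring

lemma inv_entries (g : SL2) : (g⁻¹ : SL2) 0 0 = g 1 1 ∧ (g⁻¹ : SL2) 0 1 = -g 0 1 ∧
    (g⁻¹ : SL2) 1 0 = -g 1 0 ∧ (g⁻¹ : SL2) 1 1 = g 0 0 := by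
  simp [adjugate_fin_two]

lemma edge {ed en vt nv mt : ℕ → ℕ} {val : ℕ → SL2} {nb z v w : ℕ}
    (hE : ∀ c < 2 * (45 + nb), Enc 202 (sv 90 val c) (cb nv mt c))
    (h : gChk ed en vt nv mt nb z = true) (h0 : en z = ky v w) (h1 : k1 (en z) = v)
    (h2 : k2 (en z) = w) :
    Near (pos ((hm (vt v))⁻¹ * sv 90 val (eG (ed (ky v w))) * hm (vt w) : SL2)) (ed (ky v w)) ∧
    Near (pos (((hm (vt v))⁻¹ * sv 90 val (eG (ed (ky v w))) * hm (vt w))⁻¹ : SL2))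
      (ed (ky w v)) := by
  simp only [gChk, force_eq, fz_eq, an_iff, lt_iff, h1, h2] at h
  rw [h0] at h
  obtain ⟨hg, p1, p2⟩ := h
  obtain ⟨ha, hb, hc, hd⟩ := hE _ hg
  obtain ⟨e1, e2, e3, e4⟩ := entries (vt v) (vt w) (sv 90 val (eG (ed (ky v w))))
  obtain ⟨i1, i2, i3, i4⟩ := inv_entries ((hm (vt v))⁻¹ * sv 90 val (eG (ed (ky v w))) * hm (vt w))
  have wa := mem_al (vt w)
  have wb := mem_be (vt w)
  have wc := mem_ga (vt w)
  have ua := mem_al (vt v)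
  have ub := mem_be (vt v)
  have uc := mem_ga (vt v)
  have a1 := (mu 232 ha wa rfl).add (u15 232 (mu 217 hb wc rfl) rfl)
  have b1 := u15 232 ((mu 217 ha wb rfl).add (u15 217 hb rfl)) rfl
  have c1 := (mu 232 hc wa rfl).add (u15 232 (mu 217 hd wc rfl) rfl)
  have d1 := u15 232 ((mu 217 hc wb rfl).add (u15 217 hd rfl)) rfl
  have a2 := u15 262 ((u15 247 a1 rfl).sub (mu 247 ub c1 rfl)) rfl
  have b2 := u15 262 ((u15 247 b1 rfl).sub (mu 247 ub d1 rfl)) rfl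
  have c2 := (mu 262 ua c1 rfl).sub (u15 262 (mu 247 uc a1 rfl) rfl)
  have d2 := (mu 262 ua d1 rfl).sub (u15 262 (mu 247 uc b1 rfl) rfl)
  rw [← e1] at a2
  rw [← e2] at b2
  rw [← e3] at c2
  rw [← e4] at d2
  have r1 := pos_sound a2 b2 c2 d2 p1
  have b3 := b2.neg
  have c3 := c2.neg
  rw [← i1] at d2
  rw [← i2] at b3
  rw [← i3] at c3
  rw [← i4] at a2
  exact ⟨r1, pos_sound d2 b3 c3 a2 p2⟩

end GP

theorem GP : S_GP := by
  intro tt ed en vt nv mt val N n0 nE nb hT hE hc v w hvw hF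
  rcases lt_or_gt_of_ne hvw with h | h
  · obtain ⟨z, z1, z2, h0, h1, h2⟩ := hT.nam v w h hF
    rw [GG, if_pos h]
    exact (GP.edge hE (hc z z1 z2) h0 h1 h2).1
  · obtain ⟨z, z1, z2, h0, h1, h2⟩ := hT.nam w v h (by rwa [pair_comm])
    rw [GG, if_neg (not_lt.2 h.le), if_pos h]
    exact (GP.edge hE (hc z z1 z2) h0 h1 h2).2

end Pool.Agent.P.MP_4830f8_gt.RG
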