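import Pool.Agent.P.MP_4830f8_gt.RG.Iface

set_option autoImplicit false

namespace Pool.Agent.P.MP_4830f8_gt.RG

open Finset Matrix

namespace HYP

lemma dist4 {v w a b : ℕ} (h : ({v, w, a, b} : Finset ℕ).card = 4) :
    v ≠ w ∧ v ≠ a ∧ v ≠ b ∧ w ≠ a ∧ w ≠ b ∧ a ≠ b := by
  have k : ∀ x y z : ℕ, ({x, y, z} : Finset ℕ).card ≤ 3 := fun _ _ _ => card_le_three
  refine ⟨?_, ?_, ?_, ?_, ?_, ?_⟩ <;> rintro rfl
  · have := k v a b
    rw [insert_eq_of_mem (by simp)] at h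
    omega
  · have := k w v b
    rw [insert_eq_of_mem (by simp)] at h
    omega
  · have := k w a v
    rw [insert_eq_of_mem (by simp)] at h
    omega
  · have := k v w b
    rw [insert_eq_of_mem (s := {w, b}) (by simp)] at h
    omega
  · have := k v a w
    rw [insert_eq_of_mem (s := {a, w}) (by simp)] at h
    omega
  · have := k v w a
    rw [insert_eq_of_mem (s := {a}) (by simp)] at h
    omega

lemma pair4 {v w a b c d : ℕ} (h : ({v, w, a, b} : Finset ℕ).card = 4)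
    (e : ({v, w, a, b} : Finset ℕ) = {v, w, c, d}) : a = c ∧ b = d ∨ a = d ∧ b = c := by
  have h1 := dist4 h
  have ha : a ∈ ({v, w, c, d} : Finset ℕ) := by rw [← e]; simp
  have hb : b ∈ ({v, w, c, d} : Finset ℕ) := by rw [← e]; simp
  simp only [mem_insert, mem_singleton] at ha hb
  omega

lemma D3_swap1 (p a b : Fin 3 → ℝ) : D3 p a b = -D3 a p b := by
  simp [D3, cross_apply, dotProduct, Fin.sum_univ_three]
  ring

lemma D3_swap2 (p a b : Fin 3 → ℝ) : D3 p a b = -D3 p b a := by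
  simp [D3, cross_apply, dotProduct, Fin.sum_univ_three]
  ring

lemma dih_comm (p a b : Fin 3 → ℝ) : dih p a b = dih p b a := by
  unfold dih
  rw [dotProduct_comm (p ⨯₃ a) (p ⨯₃ b), mul_comm]

lemma dec_ne {x y : ℝ} (h : x * y < 0) : decide (0 < x) ≠ decide (0 < y) := by
  rcases mul_neg_iff.1 h with ⟨h1, h2⟩ | ⟨h1, h2⟩
  · simp [h1, h2.le]
  · simp [h2, h1.le]

lemma dec_neg {x y : ℝ} (h : x ≠ 0) (e : x = -y) : decide (0 < x) ≠ decide (0 < y) := by
  refine dec_ne ?_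
  have : y = -x := by rw [e, neg_neg]
  rw [this, mul_neg, neg_lt_zero]
  exact mul_self_pos.2 h

open Classical in
/-- the dihedral angle of a tetrahedron along one of its edges -/
noncomputable def ang (x : ℕ → ℕ → Fin 3 → ℝ) (v w : ℕ) (σ : Finset ℕ) : ℝ :=
  if h : ∃ p : ℕ × ℕ, σ = {v, w, p.1, p.2} then dih (x v w) (x v h.choose.1) (x v h.choose.2) else 0

lemma ang_eq (x : ℕ → ℕ → Fin 3 → ℝ) {v w a b : ℕ} (h : ({v, w, a, b} : Finset ℕ).card = 4) :
    ang x v w {v, w, a, b} = dih (x v w) (x v a) (x v b) := by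
  have ex : ∃ p : ℕ × ℕ, ({v, w, a, b} : Finset ℕ) = {v, w, p.1, p.2} := ⟨(a, b), rfl⟩
  rw [ang, dif_pos ex]
  rcases pair4 h ex.choose_spec with ⟨h1, h2⟩ | ⟨h1, h2⟩
  · rw [← h1, ← h2]
  · rw [← h1, ← h2, dih_comm]

end HYP

open HYP

theorem HYP (h1 : S_POS) (h2 : S_ANG) (h3 : S_CYC) : S_HYP := by
  intro T n a G hc hcyc hG1 hG hS
  obtain ⟨p1, pneg, pch, pD⟩ := h1
  obtain ⟨-, -, c3, c4⟩ := h3 T n a hc hcyc
  set x : ℕ → ℕ → Fin 3 → ℝ := fun v w => pos (G v w : M2) with hx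
  have cocy : ∀ v p q, Face T {v, p, q} → pos (((G v p)⁻¹ * G v q : SL2) : M2) = x p q := by
    intro v p q hf
    rcases hG v p q hf with e | e
    · rw [← e, inv_mul_cancel_left]
    · have : G v q = -(G v p * G p q) := by rw [e, neg_neg]
      rw [this, mul_neg, inv_mul_cancel_left, SpecialLinearGroup.coe_neg, pneg]
  have fc : ∀ {v w p q : ℕ}, {v, w, p, q} ∈ T → ∀ A : Finset ℕ, A ⊆ {v, w, p, q} → Face T A :=
    fun h A hA => ⟨_, h, hA⟩
  have swp : ∀ v w p q, {v, w, p, q} ∈ T → D3 (x v w) (x v p) (x v q) = -D3 (x w v) (x w p) (x w q) := by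
    intro v w p q h
    have e1 := cocy v w v (fc h _ (by intro y; simp; tauto))
    rw [hG1, mul_one] at e1
    rw [← e1, ← cocy v w p (fc h _ (by intro y; simp; tauto)),
      ← cocy v w q (fc h _ (by intro y; simp; tauto))]
    exact pD _ _ _
  have sw : ∀ {v w p q : ℕ}, {v, w, p, q} ∈ T → {w, v, p, q} ∈ T := fun h => by
    rwa [insert_comm]
  have ne1 : ∀ v w p q, v < w → {v, w, p, q} ∈ T → D3 (x v w) (x v p) (x v q) ≠ 0 := by
    intro v w p q hvw h
    have hf : Face T {v, w} := fc h _ (by intro y; simp; tauto)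
    obtain ⟨k, hk, e⟩ := (hcyc v w hvw hf).2.2.2 _ h (by simp) (by simp)
    have := (hS v w hvw hf).1 k hk
    rcases pair4 (hc _ h) e with ⟨rfl, rfl⟩ | ⟨rfl, rfl⟩
    · exact this.ne'
    · rw [D3_swap2]
      exact neg_ne_zero.2 this.ne'
  have ne0 : ∀ v w p q, {v, w, p, q} ∈ T → D3 (x v w) (x v p) (x v q) ≠ 0 := by
    intro v w p q h
    rcases lt_or_gt_of_ne (dist4 (hc _ h)).1 with k | k
    · exact ne1 v w p q k h
    · rw [swp v w p q h]
      exact neg_ne_zero.2 (ne1 w v p q k (sw h))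
  have op1 : ∀ v w p q r, v < w → {v, w, p, q} ∈ T → {v, w, p, r} ∈ T → q ≠ r →
      D3 (x v w) (x v p) (x v q) * D3 (x v w) (x v p) (x v r) < 0 := by
    intro v w p q r hvw h h' hqr
    have hf : Face T {v, w} := fc h _ (by intro y; simp; tauto)
    obtain ⟨j, hj, e, k⟩ := c4 v w p q r hvw h h' hqr
    have s1 := (hS v w hvw hf).1 j hj
    have s2 := (hS v w hvw hf).1 ((j + 1) % n v w) (Nat.mod_lt _ (by omega))
    rw [D3_swap2] at s1
    subst e
    rcases k with ⟨rfl, rfl⟩ | ⟨rfl, rfl⟩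
    · exact mul_neg_of_neg_of_pos (neg_pos.1 s1) s2
    · exact mul_neg_of_pos_of_neg s2 (neg_pos.1 s1)
  have op0 : ∀ v w p q r, {v, w, p, q} ∈ T → {v, w, p, r} ∈ T → q ≠ r →
      D3 (x v w) (x v p) (x v q) * D3 (x v w) (x v p) (x v r) < 0 := by
    intro v w p q r h h' hqr
    rcases lt_or_gt_of_ne (dist4 (hc _ h)).1 with k | k
    · exact op1 v w p q r k h h' hqr
    · rw [swp v w p q h, swp v w p r h', neg_mul_neg]
      exact op1 w v p q r k (sw h) (sw h') hqr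
  refine ⟨⟨x, fun p q => ch 0 (x p q), ang x, fun v => ?_, fun v p q hf => ?_,
    fun v w p q h => ⟨ne0 v w p q h, ang_eq x (hc _ h)⟩, fun v w hvw hf => ?_⟩,
    fun v w p q => decide (0 < D3 (x v w) (x v p) (x v q)), fun v w p q h =>
      ⟨dec_neg (ne0 v w p q h) (swp v w p q h), dec_neg (ne0 v w p q h) (D3_swap1 _ _ _),
        dec_neg (ne0 v w p q h) (D3_swap2 _ _ _),
        fun r hr h' => dec_ne (op0 v w p q r h h' hr.symm)⟩⟩
  · simp only [hx, hG1]
    exact p1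
  · simp only
    rw [← cocy v p q hf]
    exact pch _ _
  · obtain ⟨hn, hT, -⟩ := hcyc v w hvw hf
    rw [c3 v w hvw hf, ← h2 _ _ _ (by omega) (hS v w hvw hf)]
    exact sum_congr rfl fun k hk => ang_eq x (hc _ (hT k (mem_range.1 hk)))

end Pool.Agent.P.MP_4830f8_gt.RG
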