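import Pool.Agent.P.MP_4830f8_gt.RG.Bool

/-! Definitions and statements of the parts. -/

set_option autoImplicit false

namespace Pool.Agent.P.MP_4830f8_gt.RG

open Finset Matrix

/-! ### Invariance of the state sums -/

def S_LOC : Prop := ∀ A B : Finset ℕ, A.Nonempty → B.Nonempty → Disjoint A B →
  (A ∪ B).card = 5 → ∀ c : Finset (Finset ℕ), Disjoint c (eO A B) → Disjoint c (eO B A) →
    DD ^ (if B.card = 1 then 1 else 0) *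
      SS (eO A B) (fun U => ∏ b ∈ B, WW ((A ∪ B).erase b) (c ∪ U)) =
    DD ^ (if A.card = 1 then 1 else 0) *
      SS (eO B A) (fun U => ∏ a ∈ A, WW ((A ∪ B).erase a) (c ∪ U))

def S_CORE : Prop := ∀ (A B : Finset ℕ) (K K' : Cx), Flip A B K K' →
  ∀ ω : Finset ℕ → Finset (Finset ℕ) → ℝ,
    (∀ σ U U', (∀ e ⊆ σ, e.card = 2 → (e ∈ U ↔ e ∈ U')) → ω σ U = ω σ U') →
    (∀ σ ⊆ A ∪ B, ∀ U, ω σ U = WW σ U) →
    ∀ E c : Finset (Finset ℕ), (∀ e ∈ E ∪ c, ¬ A ⊆ e ∧ ¬ B ⊆ e) →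
      DD ^ (if B.card = 1 then 1 else 0) * SS (E ∪ eO A B) (fun U => ∏ σ ∈ K, ω σ (c ∪ U)) =
      DD ^ (if A.card = 1 then 1 else 0) * SS (E ∪ eO B A) (fun U => ∏ σ ∈ K', ω σ (c ∪ U))

def S_TVF : Prop := ∀ (A B : Finset ℕ) (K K' : Cx), Flip A B K K' → TV K = TV K'

def S_NFI : Prop := ∀ (A B : Finset ℕ) (K K' : Cx), Flip A B K K' → 0 ∉ A ∪ B → NN K = NN K'

def S_NF3 : Prop := ∀ (A B : Finset ℕ) (K K' : Cx), Flip A B K K' → 0 ∈ A → A.card = 3 →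
  NN K = NN K'

def S_NF4 : Prop := ∀ (A B : Finset ℕ) (K K' : Cx), Flip A B K K' → 0 ∈ A → A.card = 4 →
  NN K = NN K'

def S_REN : Prop := (∀ (f : Equiv.Perm ℕ) (K : Cx), TV (ren f K) = TV K) ∧
  ∀ (f : Equiv.Perm ℕ) (K : Cx), f 0 = 0 → NN (ren f K) = NN K

def S_NH : Prop := ∀ (R : Cx) (a b c d e f : ℕ), [0, a, b, c, d, e, f].Nodup →
  (∀ σ ∈ R, σ ≠ {0, a, b, c} ∧ σ ≠ {0, d, e, f} ∧ ¬ {a, d} ⊆ σ ∧ ¬ {a, e} ⊆ σ ∧
    ¬ {a, f} ⊆ σ ∧ ¬ {b, e} ⊆ σ ∧ ¬ {b, f} ⊆ σ ∧ ¬ {c, f} ⊆ σ) →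
  NN (R ∪ {{a, b, c, f}, {a, b, e, f}, {a, d, e, f}, {0, a, b, e}, {0, a, d, e},
    {0, b, c, f}, {0, b, e, f}, {0, a, c, f}, {0, a, d, f}}) =
  DD * NN (R ∪ {{0, a, b, c}, {0, d, e, f}})

def S_NB : Prop := NN ((range 5).powersetCard 4) = DD⁻¹

/-- every triangle lies in at least two tetrahedra -/
def Inv (K : Cx) : Prop := ∀ σ ∈ K, σ.card = 4 ∧ ∀ v ∈ σ, ∃ τ ∈ K, τ ≠ σ ∧ σ.erase v ⊆ τ

def S_INV : Prop := ∀ (g : ℕ) (K : Cx), Hb g K → Inv K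

def S_SPL : Prop := ∀ K L T : Cx, Inv K → Inv L → (∀ σ, 0 ∈ σ → (σ ∈ K ↔ σ ∈ L)) →
  (∀ σ, σ ∈ T ↔ 0 ∉ σ ∧ (σ ∈ K ∨ σ ∈ L)) → (∀ A, Face K A → Face L A → Face K (insert 0 A)) →
  TV T ^ 2 ≤ NN K * NN L

/-! ### Tetrahedra with labelled edges -/

/-- weight of a tetrahedron whose six edges carry the labels `t 0, .., t 5` -/
noncomputable def wt (t : ℕ → ℕ) (U : Finset ℕ) : ℝ :=
  W6 (decide (t 0 ∈ U)) (decide (t 1 ∈ U)) (decide (t 2 ∈ U)) (decide (t 3 ∈ U))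
    (decide (t 4 ∈ U)) (decide (t 5 ∈ U))
def labs (I : Finset ℕ) (tet : ℕ → ℕ → ℕ) : Finset ℕ :=
  I.biUnion fun i => (range 6).image (tet i)
noncomputable def ZL (I : Finset ℕ) (tet : ℕ → ℕ → ℕ) : ℝ :=
  SS (labs I tet) fun U => ∏ i ∈ I, wt (tet i) U
/-- the complex given by a table of quadruples -/
def mkT (n : ℕ) (t : ℕ → ℕ → ℕ) : Cx := (range n).image fun i => {t i 0, t i 1, t i 2, t i 3}

def S_BR : Prop := ∀ (n : ℕ) (t tet lab : ℕ → ℕ → ℕ),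
  (∀ i < n, t i 0 < t i 1 ∧ t i 1 < t i 2 ∧ t i 2 < t i 3) →
  (∀ i < n, ∀ j < n, t i 0 = t j 0 → t i 1 = t j 1 → t i 2 = t j 2 → t i 3 = t j 3 → i = j) →
  (∀ i < n, tet i 0 = lab (t i 0) (t i 1) ∧ tet i 1 = lab (t i 0) (t i 2) ∧
    tet i 2 = lab (t i 0) (t i 3) ∧ tet i 3 = lab (t i 1) (t i 2) ∧
    tet i 4 = lab (t i 1) (t i 3) ∧ tet i 5 = lab (t i 2) (t i 3)) →
  (∀ v w v' w', v < w → v' < w' → Face (mkT n t) {v, w} → Face (mkT n t) {v', w'} →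
    lab v w = lab v' w' → v = v' ∧ w = w') →
  SS (edges (mkT n t)) (fun U => ∏ σ ∈ mkT n t, WW σ U) = ZL (range n) tet

/-- the action of the `p`-th permutation of four vertices on the six edges, `p < 24` -/
def pc (p k : ℕ) : ℕ := Nat.land (Nat.shiftRight
  245259163395261510934676180130863945236577526859003562731096002783785203297058793014534113244168265552512408533838103090712200840
  (Nat.add (Nat.mul 18 p) (Nat.mul 3 k))) 7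
/-- edge `k` of the tetrahedron without vertex `j` among the ten edges of five vertices -/
def k5 (j k : ℕ) : ℕ := Nat.land (Nat.shiftRight 608838680685083747855161545044031060
  (Nat.add (Nat.mul 24 j) (Nat.mul 4 k))) 15
/-- the tetrahedra alive after move `t` -/
def Live (n : ℕ) (b d : ℕ → ℕ) (t : ℕ) : Finset ℕ := (range n).filter fun i => b i ≤ t ∧ t < d i

/-- Move `t` (`1 ≤ t ≤ M`) of type `ty t` creates the tetrahedra `id t j`, `j < ty t`, and kills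
the tetrahedra `id t j`, `ty t ≤ j < 5`; `e t` lists the ten edge labels. `b, d` are the birth and
death times of tetrahedra, `bl, dl` those of labels. -/
def S_MV : Prop := ∀ (n M : ℕ) (tet id e : ℕ → ℕ → ℕ) (b d bl dl ty : ℕ → ℕ),
  (∀ i < n, b i < d i ∧ (∀ k < 6, bl (tet i k) ≤ b i ∧ d i ≤ dl (tet i k)) ∧
    (0 < b i → b i ≤ M → ∃ j < ty (b i), id (b i) j = i) ∧
    (d i ≤ M → ∃ j, ty (d i) ≤ j ∧ j < 5 ∧ id (d i) j = i)) →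
  (∀ t, 1 ≤ t → t ≤ M → 1 ≤ ty t ∧ ty t ≤ 3 ∧
    (∀ j < 5, id t j < n ∧ (j < ty t → b (id t j) = t) ∧ (ty t ≤ j → d (id t j) = t) ∧
      ∃ p < 24, ∀ k < 6, tet (id t j) (pc p k) = e t (k5 j k)) ∧
    (∀ j < 4, j + 1 ≠ ty t → id t j < id t (j + 1)) ∧
    (ty t = 1 → (∀ k < 4, dl (e t k) = t) ∧ ∀ k < 4, ∀ k' < k, e t k' ≠ e t k) ∧
    (ty t = 2 → dl (e t 0) = t) ∧ (ty t = 3 → bl (e t 9) = t)) →
  ZL (Live n b d 0) tet =
    DD ^ ((Icc 1 M).filter fun t => ty t = 1).card * ZL (Live n b d M) tet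

/-- steps of the dynamic programme, last step first -/
inductive Op
  | tet (i j0 j1 j2 j3 j4 j5 : ℕ)
  | elim (j l : ℕ)
  | intro (j : ℕ)

noncomputable def FF : List Op → ℕ → ℝ
  | [], i => if i = 0 then 1 else 0
  | .tet _ j0 j1 j2 j3 j4 j5 :: r, i => FF r i * W6 (i.testBit j0) (i.testBit j1) (i.testBit j2)
      (i.testBit j3) (i.testBit j4) (i.testBit j5)
  | .elim j _ :: r, i => if i.testBit j then 0 else FF r i + ph * FF r (i + 2 ^ j)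
  | .intro j :: r, i => FF r (if i.testBit j then i - 2 ^ j else i)

def elims : List Op → List ℕ
  | [] => []
  | .elim _ l :: r => l :: elims r
  | _ :: r => elims r

def tets : List Op → List ℕ
  | [] => []
  | .tet i _ _ _ _ _ _ :: r => i :: tets r
  | _ :: r => tets r

/-- `h j` is the label held by slot `j` after the steps, `0` for a free slot -/
def okS (w : ℕ) (tet : ℕ → ℕ → ℕ) : List Op → (ℕ → ℕ) → Bool
  | [], h => decide (∀ j < w, h j = 0)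
  | .tet i j0 j1 j2 j3 j4 j5 :: r, h =>
      decide (tet i 0 = h j0 ∧ tet i 1 = h j1 ∧ tet i 2 = h j2 ∧ tet i 3 = h j3 ∧ tet i 4 = h j4 ∧
        tet i 5 = h j5) && (List.range 6).all (fun k => decide (tet i k ∉ elims r)) && okS w tet r h
  | .elim j l :: r, h => decide (j < w ∧ h j = 0 ∧ l ≠ 0 ∧ l ∉ elims r) &&
      decide (∀ j' < w, h j' ≠ l) && okS w tet r (fun x => if x = j then l else h x)
  | .intro j :: r, h => decide (j < w) && okS w tet r (fun x => if x = j then 0 else h x)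

def S_SEM : Prop := ∀ (w : ℕ) (tet : ℕ → ℕ → ℕ) (ops : List Op),
  okS w tet ops (fun _ => 0) = true →
  FF ops 0 = SS (elims ops).toFinset fun U => ((tets ops).map fun i => wt (tet i) U).prod

/-! ### The edge-path group -/

def S_RANK : Prop := ∀ (T : Cx) (u : ℕ) (p : ℕ → ℕ), Face T {u} →
  (∀ v, Face T {v} → v ≠ u → p v < v ∧ Face T {p v, v}) →
  ∃ (L : Subgroup (PresentedGroup (rels T))) (y : ℕ → ℕ → PresentedGroup (rels T)),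
    (∀ g, Walk T u u g ↔ g ∈ L) ∧ (∀ a b c, Face T {a, b, c} → y a b * y b c = y a c) ∧
    (∀ v, Face T {v} → v ≠ u → y (p v) v = 1) ∧ (∀ v w, Face T {v, w} → y v w ∈ L) ∧
    ∀ H : Subgroup (PresentedGroup (rels T)),
      (∀ v w, v < w → Face T {v, w} → y v w ∈ H) → L ≤ H

/-! ### Geometry -/

abbrev M2 := Matrix (Fin 2) (Fin 2) ℂ
abbrev SL2 := Matrix.SpecialLinearGroup (Fin 2) ℂ

/-- the image of the origin of hyperbolic space under `g` -/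
noncomputable def pos (g : M2) : Fin 3 → ℝ :=
  ![(g 0 0 * (starRingEnd ℂ) (g 1 0) + g 0 1 * (starRingEnd ℂ) (g 1 1)).re,
    (g 0 0 * (starRingEnd ℂ) (g 1 0) + g 0 1 * (starRingEnd ℂ) (g 1 1)).im,
    (Complex.normSq (g 0 0) + Complex.normSq (g 0 1) - Complex.normSq (g 1 0) -
      Complex.normSq (g 1 1)) / 2]

def D3 (p a b : Fin 3 → ℝ) : ℝ := p ⬝ᵥ (a ⨯₃ b)

def S_POS : Prop := pos 1 = 0 ∧ (∀ g : M2, pos (-g) = pos g) ∧
  (∀ g h : SL2, ch (pos g) (pos h) = ch 0 (pos (g⁻¹ * h : SL2))) ∧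
  ∀ g h k : SL2, D3 (pos g) (pos h) (pos k) =
    -D3 (pos (g⁻¹ : SL2)) (pos (g⁻¹ * h : SL2)) (pos (g⁻¹ * k : SL2))

/-- the vectors `u 0, .., u (n-1)` turn once around the axis `p` -/
def Sg (p : Fin 3 → ℝ) (n : ℕ) (u : ℕ → Fin 3 → ℝ) : Prop :=
  (∀ k < n, 0 < D3 p (u k) (u ((k + 1) % n))) ∧
    ∃ m, ∀ k < n, (1 ≤ k → k ≤ m → 0 < D3 p (u 0) (u k)) ∧ (m + 2 ≤ k → D3 p (u 0) (u k) < 0)

def S_ANG : Prop := ∀ (p : Fin 3 → ℝ) (n : ℕ) (u : ℕ → Fin 3 → ℝ), 0 < n → Sg p n u →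
  ∑ k ∈ range n, dih p (u k) (u ((k + 1) % n)) = 2 * Real.pi

/-- `a v w 0, .., a v w (n v w - 1)` is the link of the edge `v w` in cyclic order -/
def Cyc (T : Cx) (n : ℕ → ℕ → ℕ) (a : ℕ → ℕ → ℕ → ℕ) : Prop :=
  ∀ v w, v < w → Face T {v, w} → 3 ≤ n v w ∧
    (∀ k < n v w, {v, w, a v w k, a v w ((k + 1) % n v w)} ∈ T) ∧
    (∀ k < n v w, ∀ j < k, a v w j ≠ a v w k) ∧
    ∀ σ ∈ T, v ∈ σ → w ∈ σ → ∃ k < n v w, σ = {v, w, a v w k, a v w ((k + 1) % n v w)}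

def S_CYC : Prop := ∀ (T : Cx) (n : ℕ → ℕ → ℕ) (a : ℕ → ℕ → ℕ → ℕ), (∀ σ ∈ T, σ.card = 4) →
  Cyc T n a →
  (∀ σ ∈ T, ∀ v ∈ σ, (T.filter fun τ => σ.erase v ⊆ τ).card = 2) ∧
  (∀ A : Finset ℕ, A.card = 2 → ∀ x ∉ A, ∀ y ∉ A, Face T (insert x A) → Face T (insert y A) →
    Relation.ReflTransGen (fun x y => y ∉ A ∧ Face T (insert x (insert y A))) x y) ∧
  (∀ v w, v < w → Face T {v, w} → ∀ θ : Finset ℕ → ℝ,
    ∑ σ ∈ T.filter (fun σ => v ∈ σ ∧ w ∈ σ), θ σ =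
      ∑ k ∈ range (n v w), θ {v, w, a v w k, a v w ((k + 1) % n v w)}) ∧
  ∀ v w x b c, v < w → {v, w, x, b} ∈ T → {v, w, x, c} ∈ T → b ≠ c →
    ∃ j < n v w, x = a v w ((j + 1) % n v w) ∧
      (b = a v w j ∧ c = a v w (((j + 1) % n v w + 1) % n v w) ∨
        c = a v w j ∧ b = a v w (((j + 1) % n v w + 1) % n v w))

def S_HYP : Prop := ∀ (T : Cx) (n : ℕ → ℕ → ℕ) (a : ℕ → ℕ → ℕ → ℕ) (G : ℕ → ℕ → SL2),
  (∀ σ ∈ T, σ.card = 4) → Cyc T n a → (∀ v, G v v = 1) →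
  (∀ u v w, Face T {u, v, w} → G u v * G v w = G u w ∨ G u v * G v w = -G u w) →
  (∀ v w, v < w → Face T {v, w} → Sg (pos (G v w)) (n v w) fun k => pos (G v (a v w k))) →
  Hyp T ∧ ∃ o : ℕ → ℕ → ℕ → ℕ → Bool, ∀ v w a b, {v, w, a, b} ∈ T →
    o v w a b ≠ o w v a b ∧ o v w a b ≠ o v a w b ∧ o v w a b ≠ o v w b a ∧
      ∀ c, c ≠ b → {v, w, a, c} ∈ T → o v w a b ≠ o v w a c

/-! ### An exact solution near an approximate one -/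

def S_NEWT : Prop := ∀ (n : ℕ) (F : (Fin n → ℂ) → Fin n → ℂ) (x₀ : Fin n → ℂ) (ρ : ℝ)
  (Y : Matrix (Fin n) (Fin n) ℂ), 0 < ρ →
  (∀ x y : Fin n → ℂ, (∀ j, ‖x j - x₀ j‖ ≤ ρ) → (∀ j, ‖y j - x₀ j‖ ≤ ρ) →
    ∃ S : Matrix (Fin n) (Fin n) ℂ, F x - F y = S *ᵥ (x - y) ∧
      ∀ i, ∑ j, ‖(1 - Y * S) i j‖ ≤ 1 / 2) →
  (∀ i, ‖(Y *ᵥ F x₀) i‖ ≤ ρ / 2) → ∃ x : Fin n → ℂ, (∀ j, ‖x j - x₀ j‖ ≤ ρ) ∧ F x = 0

def S_REC : Prop := ∀ p q r s : M2, p.trace = 0 → q.trace = 0 → r.trace = 0 → s.trace = 0 →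
  p.det = 1 → q.det = 1 → r.det = 1 → s.det = 1 → (p * q * r * s = 1 ∨ p * q * r * s = -1) →
  ∀ i j, (r * s - s * r) i j = 0 → (r * p - p * r) i j ≠ 0 → s = r ∨ s = -r

end Pool.Agent.P.MP_4830f8_gt.RG
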