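import Pool.Agent.P.MP_4830f8_gt.RG.Ball

/-! Statements: soundness of the checkers. -/

set_option autoImplicit false

namespace Pool.Agent.P.MP_4830f8_gt.RG

open Finset Matrix CB

/-! ### Relations -/

def S_FACT : Prop := ∀ (G : Type) [Group G] (H : Subgroup G) (B : ℕ) (val : ℕ → G) (F : ℕ → ℕ)
  (n : ℕ), B % 2 = 0 → val 0 = 1 → (∀ c < B, val (c / 2) * val (c / 2) = 1) →
  ((∀ i < n, tetChk F B i = true) → (∀ i < n, fd (F i) 43 1 = 0 → Holds H B val (F i)) →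
    ∀ i < n, Holds H B val (F i)) ∧
  ((∀ i < n, Holds H B val (F i)) → ∀ (ed : ℕ → ℕ) (h r u v w : ℕ),
    fcChk F ed B n h r u v w = true →
    sv B val (eG (ed (ky u v))) * sv B val (eG (ed (ky v w))) = sv B val (eG (ed (ky u w))))

def S_DEF : Prop := ∀ (G : Type) [Group G] (B ng nd : ℕ) (F : ℕ → ℕ) (g : ℕ → G), B ≤ 2 * ng →
  (∀ i < nd, defChk F ng i = true) →
  ∃ val : ℕ → G, (∀ z < ng, val z = g z) ∧
    (∀ i < nd, val (ng + i) = sv B val (cd (F i) 0) * sv B val (cd (F i) 1)) ∧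
    ∀ L : Subgroup G, (∀ z < ng, g z ∈ L) → ∀ c, sv B val c ∈ L

/-- defining records hold -/
def S_DH : Prop := ∀ (G : Type) [Group G] (H : Subgroup G) (B ng i : ℕ) (F : ℕ → ℕ) (val : ℕ → G),
  B ≤ 2 * ng → defChk F ng i = true →
  val (ng + i) = sv B val (cd (F i) 0) * sv B val (cd (F i) 1) → Holds H B val (F i)

/-! ### The state sum -/

def S_MVC : Prop := ∀ (tt mv : ℕ → ℕ) (n n0 M c d : ℕ) (ops : List Op), n0 ≤ n → M < 2 ^ d →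
  (∀ i < n, lifeChk tt mv n0 M (tets ops) i = true) →
  (∀ t, 1 ≤ t → t ≤ M → moveChk tt mv n t = true) → cnt1 mv M d 0 = c →
  finChk tt n M ops = true → ZL (range n0) (fun i => lb (tt i)) = DD ^ c * FF ops 0

/-- a full field -/
def FU : ℕ := 309485009821345068724781055

def S_PK : Prop :=
  (∀ A B i, gf (Nat.land A B) i = gf A i &&& gf B i) ∧
  (∀ A B i, gf (Nat.lor A B) i = gf A i ||| gf B i) ∧
  (∀ A B i, gf (Nat.xor A B) i = gf A i ^^^ gf B i) ∧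
  (∀ A B i, (∀ j ≤ i, gf A j + gf B j ≤ FU) → gf (Nat.add A B) i = gf A i + gf B i) ∧
  (∀ A k i, gf (Nat.shiftRight A (Nat.mul 88 k)) i = gf A (i + k)) ∧
  (∀ A k i, gf (Nat.shiftLeft A (Nat.mul 88 k)) i = if k ≤ i then gf A (i - k) else 0) ∧
  (∀ i < 8192, gf (ful 13) i = FU) ∧
  (∀ j < 13, ∀ i < 8192, gf (mk1 j) i = if i.testBit j then FU else 0) ∧
  (∀ j < 13, ∀ i < 8192, gf (mk0 j) i = if i.testBit j then 0 else FU) ∧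
  (∀ x : V4, x.ok top = true → ∀ i < 8192,
    gf x.a i < 2 ^ 84 ∧ gf x.b i < 2 ^ 84 ∧ gf x.c i < 2 ^ 84 ∧ gf x.d i < 2 ^ 84) ∧
  ∀ i, gf 0 i = 0 ∧ gf 1 i = if i = 0 then 1 else 0

/-- all fields of `x` are below `2 ^ 84` -/
def Sml (x : V4) : Prop := ∀ i < 8192,
  gf x.a i < 2 ^ 84 ∧ gf x.b i < 2 ^ 84 ∧ gf x.c i < 2 ^ 84 ∧ gf x.d i < 2 ^ 84
/-- `m` is the mask of the indices with the property `p` -/
def Msk (m : ℕ) (p : ℕ → Bool) : Prop := ∀ i < 8192, gf m i = if p i then FU else 0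

def S_VEC : Prop :=
  (∀ (m0 m3 m5 m6 : ℕ) (p0 p3 p5 p6 : ℕ → Bool) (x y : V4) (k : V4 → Bool), Msk m0 p0 → Msk m3 p3 →
    Msk m5 p5 → Msk m6 p6 → Sml x → Sml y → tetV m0 m3 m5 m6 x y k = true →
    ∃ x', k x' = true ∧ ∀ i < 8192, vl x' i = ((if p0 i then rr ^ 4 else 0) +
      (if p3 i then rr ^ 3 else 0) + (if p5 i then rr ^ 2 else 0)) * vl x i +
      if p6 i then vl y i else 0) ∧
  (∀ j < 13, ∀ (x : V4) (k : V4 → Bool), Sml x →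
    elimV (mk0 j) (Nat.mul 88 (Nat.pow 2 j)) x k = true → ∃ x', k x' = true ∧ ∀ i < 8192,
      vl x' i = if i.testBit j then 0 else vl x i + ph * vl x (i + 2 ^ j)) ∧
  ∀ j < 13, ∀ (x : V4) (k : V4 → Bool), Sml x →
    introV (mk0 j) (Nat.mul 88 (Nat.pow 2 j)) x k = true → ∃ x', k x' = true ∧ ∀ i < 8192,
      vl x' i = vl x (if i.testBit j then i - 2 ^ j else i)

def S_DP : Prop := ∀ (ops : List Op) (a c : ℕ), dpChk ops a c = true →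
  ph ^ (2 * (tets ops).length) * FF ops 0 = a + c * ph

def S_GEN : Prop := ∀ T : Cx, DD ^ 3 < TV T → ∀ T', Eqv T T' → ∀ g ≤ 4, ¬ Splits g T'

def S_NUM : Prop := ∀ (T : Cx) (x : ℝ), (verts T).card ≤ 97 →
  SS (edges T) (fun U => ∏ σ ∈ T, WW σ U) = DD ^ 96 * x →
  ph ^ (2 * 45) * x = (334484573959393691908 : ℕ) + (541207409378826984196 : ℕ) * ph →
  DD ^ 3 < TV T

/-! ### The triangulation -/

structure Tri (tt ed en : ℕ → ℕ) (N n0 nE : ℕ) : Prop where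
  srt : ∀ i < n0, t0 (tt i) < t1 (tt i) ∧ t1 (tt i) < t2 (tt i) ∧ t2 (tt i) < t3 (tt i) ∧
    t3 (tt i) < N
  card : ∀ σ ∈ TT tt n0, σ.card = 4
  vts : (verts (TT tt n0)).card ≤ N
  sum : SS (edges (TT tt n0)) (fun U => ∏ σ ∈ TT tt n0, WW σ U) =
    ZL (range n0) fun i => lb (tt i)
  nam : ∀ v w, v < w → Face (TT tt n0) {v, w} →
    ∃ z, 1 ≤ z ∧ z ≤ nE ∧ en z = ky v w ∧ k1 (en z) = v ∧ k2 (en z) = w
  edg : ∀ z, 1 ≤ z → z ≤ nE → k1 (en z) < k2 (en z) ∧ Face (TT tt n0) {k1 (en z), k2 (en z)}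
  cyc : Cyc (TT tt n0) (fun v w => eL (ed (ky v w))) fun v w => eA (ed (ky v w))

def S_TRI : Prop := ∀ (tt ed en tx vt : ℕ → ℕ) (N n0 nE : ℕ),
  (∀ i < n0, triChk tt ed en tx N n0 nE i = true) →
  (∀ z, 1 ≤ z → z ≤ nE → edgeChk tt ed en vt n0 z = true) → Tri tt ed en N n0 nE

def S_LNK : Prop := ∀ (tt ed en vt : ℕ → ℕ) (N n0 nE : ℕ), 1 < N → Tri tt ed en N n0 nE →
  (∀ z, 1 ≤ z → z ≤ nE → edgeChk tt ed en vt n0 z = true) →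
  (∀ v, 1 ≤ v → v < N → vertChk tt vt n0 v = true) →
  Face (TT tt n0) {0} ∧
  (∀ v, Face (TT tt n0) {v} → v ≠ 0 → vP (vt v) < v ∧ Face (TT tt n0) {vP (vt v), v}) ∧
  ∀ A : Finset ℕ, A.card ≤ 2 → ∀ a ∉ A, ∀ b ∉ A, Face (TT tt n0) (insert a A) →
    Face (TT tt n0) (insert b A) →
    Relation.ReflTransGen (fun x y => y ∉ A ∧ Face (TT tt n0) (insert x (insert y A))) a b

def S_RKB : Prop := ∀ (F tt ed en vt : ℕ → ℕ) (N n0 nE nd n g1 g2 g3 g4 : ℕ),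
  Tri tt ed en N n0 nE → Face (TT tt n0) {0} →
  (∀ v, Face (TT tt n0) {v} → v ≠ 0 → vP (vt v) < v ∧ Face (TT tt n0) {vP (vt v), v}) →
  (∀ i < nd, defChk F (nE + 1) i = true) → (∀ i < n, tetChk F 2 i = true) →
  (∀ i, nd ≤ i → i < n → baseB F tt en vt n0 nE g1 g2 g3 g4 i = true) →
  (∀ z, 1 ≤ z → z ≤ nE → markChk F ed en n z = true) → RankLE (TT tt n0) 4

/-! ### The representation -/

def S_EXN : Prop := ∀ (nv ns op xc : ℕ → ℕ) (ta ρ nj : ℕ),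
  (∀ k < 54, nodeChk nv ns op xc ta ρ nj k = true) →
  ((∀ k, 7 ≤ k → k < 45 → 0 < o1 (op k) ∧ o1 (op k) < k ∧ 0 < o2 (op k) ∧ o2 (op k) < k) ∧
    ∀ i < 5, 0 < o1 (op i) ∧ o1 (op i) < 45 ∧ 0 < o2 (op i) ∧ o2 (op i) < 45) ∧
  ∀ (τ : ℂ) (x : Fin 9 → ℂ), ∃ f, IsNode op τ x f

def S_NODE : Prop := ∀ (nv ns op xc : ℕ → ℕ) (ta ρ nj : ℕ) (x y : Fin 9 → ℂ) (f g : ℕ → ℕ → ℂ),
  IsNode op (ta / 3 ^ 202) x f → IsNode op (ta / 3 ^ 202) y g →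
  (∀ j, ‖x j - ctr xc j‖ ≤ ρ / 3 ^ 202) → (∀ j, ‖y j - ctr xc j‖ ≤ ρ / 3 ^ 202) →
  (∀ k < 54, nodeChk nv ns op xc ta ρ nj k = true) →
  ∀ k c, (1 ≤ k ∧ k < 45 ∧ c < 3 ∨ 45 ≤ k ∧ k < 54 ∧ c = 0) → mem 202 (f k c) (vb nv k c) ∧
    ∃ S : Fin 9 → ℂ, f k c - g k c = ∑ j, S j * (x j - y j) ∧
      ∀ j : Fin 9, j.val < nj → mem 81 (S j) (sb ns k c j)

def S_SOL : Prop := ∀ (nv nc ns op xc yt : ℕ → ℕ) (ta ρ : ℕ), 0 < ρ →
  (∀ k < 54, nodeChk nv ns op xc ta ρ 9 k = true) →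
  (∀ k < 54, nodeChk nc ns op xc ta 0 0 k = true) → (∀ i < 9, rowChk nc ns yt ρ i = true) →
  ∃ τ x f, IsNode op τ x f ∧ (∀ i < 9, f (45 + i) 0 = 0) ∧
    ∀ k, 1 ≤ k → k < 45 → ∀ c < 3, mem 202 (f k c) (vb nv k c)

/-- equal up to sign -/
def PM (a b : SL2) : Prop := a = b ∨ a = -b

/-- matrices for the arcs of the link diagram -/
structure Arcs (op : ℕ → ℕ) (g : ℕ → SL2) : Prop where
  one : g 0 = 1
  sq : ∀ k, 1 ≤ k → k < 45 → g k * g k = -1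
  crs : ∀ k, 7 ≤ k → k < 45 → o1 (op k) < 45 ∧ o2 (op k) < 45 ∧
    g k = g (o1 (op k)) * g (o2 (op k)) * g (o1 (op k))
  cup : ∀ i < 4, o1 (op i) < 45 ∧ o2 (op i) < 45 ∧ PM (g (o1 (op i)) * g (o2 (op i))) 1
  lst : o1 (op 4) < 45 ∧ o2 (op 4) < 45 ∧ (0 < o1 (op 5) → o1 (op 5) < 45 → 0 < o2 (op 5) →
    o2 (op 5) < 45 → PM (g (o1 (op 5)) * g (o2 (op 5)) * g (o1 (op 4)) * g (o2 (op 4))) 1 →
    PM (g (o1 (op 4)) * g (o2 (op 4))) 1)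

def S_ALG : Prop := ∀ (nv op : ℕ → ℕ) (τ : ℂ) (x : Fin 9 → ℂ) (f : ℕ → ℕ → ℂ),
  (∀ k, 7 ≤ k → k < 45 → 0 < o1 (op k) ∧ o1 (op k) < k ∧ 0 < o2 (op k) ∧ o2 (op k) < k) →
  (∀ i < 5, 0 < o1 (op i) ∧ o1 (op i) < 45 ∧ 0 < o2 (op i) ∧ o2 (op i) < 45) →
  IsNode op τ x f → (∀ i < 9, f (45 + i) 0 = 0) →
  (∀ k, 1 ≤ k → k < 45 → ∀ c < 3, mem 202 (f k c) (vb nv k c)) → nzChk nv op = true →
  ∃ g : ℕ → SL2, Arcs op g ∧ ∀ k, 1 ≤ k → k < 45 → (g k : M2) = tm (f k 0) (f k 1) (f k 2)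

def S_REP : Prop := ∀ (F op tt ed tx : ℕ → ℕ) (g val : ℕ → SL2) (nd n1 n n0 i1 i2 i3 : ℕ),
  Arcs op g → (∀ z < 45, val z = g z) →
  (∀ i < nd, val (45 + i) = sv 90 val (cd (F i) 0) * sv 90 val (cd (F i) 1)) → n1 ≤ n →
  (∀ i < nd, defChk F 45 i = true) → (∀ i < n, tetChk F 90 i = true) →
  (∀ i, nd ≤ i → i < n → baseA F op nd n1 i = true) → phChk F op n1 i1 i2 i3 = true →
  (∀ i < n0, faceChk F tt ed tx 90 n i = true) →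
  (∀ i < n0, t0 (tt i) < t1 (tt i) ∧ t1 (tt i) < t2 (tt i) ∧ t2 (tt i) < t3 (tt i)) →
  ∀ u v w, u < v → v < w → Face (TT tt n0) {u, v, w} →
    PM (sv 90 val (eG (ed (ky u v))) * sv 90 val (eG (ed (ky v w)))) (sv 90 val (eG (ed (ky u w))))

/-- the four entries of `g` lie in the balls `b 0, .., b 3` -/
def Enc (s : ℕ) (g : SL2) (b : ℕ → CB) : Prop :=
  mem s (g 0 0) (b 0) ∧ mem s (g 0 1) (b 1) ∧ mem s (g 1 0) (b 2) ∧ mem s (g 1 1) (b 3)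

def S_PROD : Prop := ∀ (F nv mt : ℕ → ℕ) (f : ℕ → ℕ → ℂ) (val : ℕ → SL2) (nb : ℕ), val 0 = 1 →
  (∀ k, 1 ≤ k → k < 45 → (val k : M2) = tm (f k 0) (f k 1) (f k 2)) →
  (∀ k, 1 ≤ k → k < 45 → ∀ c < 3, mem 202 (f k c) (vb nv k c)) →
  (∀ i < nb, val (45 + i) = sv 90 val (cd (F i) 0) * sv 90 val (cd (F i) 1)) →
  (∀ i < nb, defChk F 45 i = true) → (∀ i < nb, prodChk F nv mt i = true) →
  ∀ c < 2 * (45 + nb), Enc 202 (sv 90 val c) (cb nv mt c)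

/-! ### Geometry -/

/-- the transition matrices -/
noncomputable def GG (vt : ℕ → ℕ) (γ : ℕ → ℕ → SL2) (v w : ℕ) : SL2 :=
  if v < w then (hm (vt v))⁻¹ * γ v w * hm (vt w)
  else if w < v then ((hm (vt w))⁻¹ * γ w v * hm (vt v))⁻¹ else 1

def S_COC : Prop := ∀ (T : Cx) (vt : ℕ → ℕ) (γ : ℕ → ℕ → SL2),
  (∀ u v w, u < v → v < w → Face T {u, v, w} → PM (γ u v * γ v w) (γ u w)) →
  (∀ v, GG vt γ v v = 1) ∧ ∀ u v w, Face T {u, v, w} → PM (GG vt γ u v * GG vt γ v w) (GG vt γ u w)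

/-- the record `E` holds the vector `p` at scale 21 up to 16 units -/
def Near (p : Fin 3 → ℝ) (E : ℕ) : Prop := ∀ k : Fin 3, |p k * 3 ^ 21 - eX E k| ≤ 16

def S_GP : Prop := ∀ (tt ed en vt nv mt : ℕ → ℕ) (val : ℕ → SL2) (N n0 nE nb : ℕ),
  Tri tt ed en N n0 nE → (∀ c < 2 * (45 + nb), Enc 202 (sv 90 val c) (cb nv mt c)) →
  (∀ z, 1 ≤ z → z ≤ nE → gChk ed en vt nv mt nb z = true) →
  ∀ v w, v ≠ w → Face (TT tt n0) {v, w} →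
    Near (pos (GG vt (fun v w => sv 90 val (eG (ed (ky v w)))) v w)) (ed (ky v w))

def S_SG : Prop := ∀ (tt ed en mw : ℕ → ℕ) (x : ℕ → ℕ → Fin 3 → ℝ) (N n0 nE : ℕ),
  Tri tt ed en N n0 nE → (∀ v w, v ≠ w → Face (TT tt n0) {v, w} → Near (x v w) (ed (ky v w))) →
  (∀ z, 1 ≤ z → z ≤ nE → sgChk ed en mw z = true) →
  ∀ v w, v < w → Face (TT tt n0) {v, w} →
    Sg (x v w) (eL (ed (ky v w))) fun k => x v (eA (ed (ky v w)) k)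

end Pool.Agent.P.MP_4830f8_gt.RG
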