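import Pool.Agent.P.MP_4830f8_gt.RG.Iface

/-! Every triangle of a coned handlebody lies in at least two tetrahedra. -/

set_option autoImplicit false

namespace Pool.Agent.P.MP_4830f8_gt.RG

open Finset

namespace INV

lemma ball : Inv ((range 5).powersetCard 4) := by
  unfold Inv
  decide

lemma rename {K : Cx} (f : Equiv.Perm ℕ) (h : Inv K) : Inv (ren f K) := by
  intro σ' hσ'
  obtain ⟨σ, hσ, rfl⟩ := mem_image.1 hσ'
  refine ⟨by rw [card_image_of_injective _ f.injective, (h σ hσ).1], fun v' hv' => ?_⟩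
  obtain ⟨v, hv, rfl⟩ := mem_image.1 hv'
  obtain ⟨τ, hτ, h1, h2⟩ := (h σ hσ).2 v hv
  refine ⟨τ.image f, mem_image_of_mem _ hτ, fun e => h1 (image_injective f.injective e), ?_⟩
  rw [← image_erase f.injective]
  exact image_subset_image h2

lemma flip {A B : Finset ℕ} {K K' : Cx} (hf : Flip A B K K') (h : Inv K) : Inv K' := by
  obtain ⟨-, -, hd, h5, R, hR, rfl, rfl⟩ := hf
  have hB : ∀ a ∈ A, B ⊆ (A ∪ B).erase a := fun a ha =>
    subset_erase.2 ⟨subset_union_right, disjoint_left.1 hd ha⟩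
  intro σ hσ
  rcases mem_union.1 hσ with hσ | hσ
  · obtain ⟨h1, h2⟩ := h σ (mem_union_left _ hσ)
    refine ⟨h1, fun v hv => ?_⟩
    obtain ⟨τ, hτ, h3, h4⟩ := h2 v hv
    rcases mem_union.1 hτ with hτ | hτ
    · exact ⟨τ, mem_union_left _ hτ, h3, h4⟩
    · obtain ⟨b, -, rfl⟩ := mem_image.1 hτ
      obtain ⟨a, ha, ha'⟩ := not_subset.1 (hR σ hσ).1
      refine ⟨_, mem_union_right _ (mem_image_of_mem _ ha), fun e => (hR σ hσ).2 (e ▸ hB a ha),
        subset_erase.2 ⟨h4.trans (erase_subset _ _), fun h' => ha' (mem_of_mem_erase h')⟩⟩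
  · obtain ⟨a, ha, rfl⟩ := mem_image.1 hσ
    refine ⟨by rw [card_erase_of_mem (mem_union_left _ ha), h5], fun v hv => ?_⟩
    obtain ⟨hva, hv'⟩ := mem_erase.1 hv
    rcases mem_union.1 hv' with hv' | hv'
    · refine ⟨_, mem_union_right _ (mem_image_of_mem _ hv'), fun e => ?_,
        erase_subset_erase _ (erase_subset _ _)⟩
      exact notMem_erase v (A ∪ B) (e ▸ hv)
    · obtain ⟨τ, hτ, h3, h4⟩ := (h _ (mem_union_right _ (mem_image_of_mem _ hv'))).2 a
        (mem_erase.2 ⟨hva.symm, mem_union_left _ ha⟩)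
      rcases mem_union.1 hτ with hτ | hτ
      · refine ⟨τ, mem_union_left _ hτ, fun e => (hR τ hτ).2 (e ▸ hB a ha), ?_⟩
        rwa [erase_right_comm]
      · obtain ⟨b, hb, rfl⟩ := mem_image.1 hτ
        refine absurd (h4 (mem_erase.2 ⟨fun e => disjoint_left.1 hd ha (e ▸ hb),
          mem_erase.2 ⟨fun e => h3 (by rw [e]), mem_union_right _ hb⟩⟩)) (notMem_erase _ _)

/-- the prism and its cone -/
def N0 : Finset (Finset (Fin 7)) := {{1, 2, 3, 6}, {1, 2, 5, 6}, {1, 4, 5, 6}, {0, 1, 2, 5},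
  {0, 1, 4, 5}, {0, 2, 3, 6}, {0, 2, 5, 6}, {0, 1, 3, 6}, {0, 1, 4, 6}}
/-- the two cones that are removed -/
def O0 : Finset (Finset (Fin 7)) := {{0, 1, 2, 3}, {0, 4, 5, 6}}

lemma d1 : ∀ σ ∈ N0, σ.card = 4 ∧ ∀ v ∈ σ, (∃ τ ∈ N0, τ ≠ σ ∧ σ.erase v ⊆ τ) ∨
    ∃ ρ ∈ O0, ∃ w ∈ ρ, σ.erase v = ρ.erase w := by
  unfold N0 O0
  decide +kernel

lemma d2 : ∀ ρ ∈ O0, ρ.card = 4 ∧ ∀ w ∈ ρ, (∃ τ ∈ N0, ρ.erase w ⊆ τ) ∧
    ∀ ρ' ∈ O0, ρ.erase w ⊆ ρ' → ρ' = ρ := by
  unfold N0 O0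
  decide +kernel

lemma repl {R : Cx} {φ : Fin 7 → ℕ} (hφ : Function.Injective φ)
    (hR : ∀ σ ∈ R, σ ∉ N0.image (image φ)) (h : Inv (R ∪ O0.image (image φ))) :
    Inv (R ∪ N0.image (image φ)) := by
  intro σ hσ
  rcases mem_union.1 hσ with hσ | hσ
  · obtain ⟨h1, h2⟩ := h σ (mem_union_left _ hσ)
    refine ⟨h1, fun v hv => ?_⟩
    obtain ⟨τ, hτ, h3, h4⟩ := h2 v hv
    rcases mem_union.1 hτ with hτ | hτ
    · exact ⟨τ, mem_union_left _ hτ, h3, h4⟩
    · obtain ⟨ρ, hρ, rfl⟩ := mem_image.1 hτ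
      obtain ⟨w', hw', hw⟩ := exists_mem_notMem_of_card_lt_card (s := σ.erase v)
        (t := ρ.image φ) (by
          rw [card_erase_of_mem hv, h1, card_image_of_injective _ hφ, (d2 ρ hρ).1]; norm_num)
      obtain ⟨w, hw2, rfl⟩ := mem_image.1 hw'
      obtain ⟨τ, hτ, h5⟩ := ((d2 ρ hρ).2 w hw2).1
      have hm : τ.image φ ∈ N0.image (image φ) := mem_image_of_mem _ hτ
      refine ⟨_, mem_union_right _ hm, fun e => hR σ hσ (e ▸ hm),
        (subset_erase.2 ⟨h4, hw⟩).trans ?_⟩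
      rw [← image_erase hφ]
      exact image_subset_image h5
  · obtain ⟨σ, hσ', rfl⟩ := mem_image.1 hσ
    refine ⟨by rw [card_image_of_injective _ hφ, (d1 σ hσ').1], fun v' hv' => ?_⟩
    obtain ⟨v, hv, rfl⟩ := mem_image.1 hv'
    rw [← image_erase hφ]
    rcases (d1 σ hσ').2 v hv with ⟨τ, hτ, h1, h2⟩ | ⟨ρ, hρ, w, hw, h1⟩
    · exact ⟨_, mem_union_right _ (mem_image_of_mem _ hτ), fun e => h1 (image_injective hφ e),
        image_subset_image h2⟩
    · obtain ⟨τ, hτ, h3, h4⟩ := (h _ (mem_union_right _ (mem_image_of_mem _ hρ))).2 _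
        (mem_image_of_mem φ hw)
      rw [← image_erase hφ] at h4
      rcases mem_union.1 hτ with hτ | hτ
      · exact ⟨τ, mem_union_left _ hτ, fun e => hR τ hτ (e ▸ hσ), h1 ▸ h4⟩
      · obtain ⟨ρ', hρ', rfl⟩ := mem_image.1 hτ
        rw [image_subset_image_iff hφ] at h4
        exact absurd (by rw [((d2 ρ hρ).2 w hw).2 ρ' hρ' h4]) h3

end INV

theorem INV : S_INV := by
  intro g K h
  induction h with
  | ball => exact INV.ball
  | ren f _ _ ih => exact INV.rename f ih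
  | flip A B hf _ _ _ ih => exact INV.flip hf ih
  | handle R a b c d e f hn hR _ ih =>
    let φ : Fin 7 → ℕ := [0, a, b, c, d, e, f].get
    have hφ : Function.Injective φ := List.nodup_iff_injective_get.1 hn
    have e1 : INV.N0.image (image φ) = {{a, b, c, f}, {a, b, e, f}, {a, d, e, f}, {0, a, b, e},
        {0, a, d, e}, {0, b, c, f}, {0, b, e, f}, {0, a, c, f}, {0, a, d, f}} := by
      simp only [INV.N0, image_insert, image_singleton]
      rfl
    have e2 : INV.O0.image (image φ) = {{0, a, b, c}, {0, d, e, f}} := by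
      simp only [INV.O0, image_insert, image_singleton]
      rfl
    rw [← e1]
    refine INV.repl hφ (fun σ hσ hm => ?_) (e2 ▸ ih)
    obtain ⟨-, -, h1, h2, h3, h4, h5, -⟩ := hR σ hσ
    rw [e1] at hm
    simp only [mem_insert, mem_singleton] at hm
    rcases hm with rfl | rfl | rfl | rfl | rfl | rfl | rfl | rfl | rfl
    · exact h3 (by simp [insert_subset_iff])
    · exact h2 (by simp [insert_subset_iff])
    · exact h1 (by simp [insert_subset_iff])
    · exact h2 (by simp [insert_subset_iff])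
    · exact h1 (by simp [insert_subset_iff])
    · exact h5 (by simp [insert_subset_iff])
    · exact h4 (by simp [insert_subset_iff])
    · exact h3 (by simp [insert_subset_iff])
    · exact h1 (by simp [insert_subset_iff])

end Pool.Agent.P.MP_4830f8_gt.RG
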