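import Pool.Agent.P.MP_4830f8_gt.RG.Iface2

/-! Links are connected. -/

set_option autoImplicit false

namespace Pool.Agent.P.MP_4830f8_gt.RG

open Finset

namespace LNK

theorem root {T : Cx} {A : Finset ℕ} (ρ : ℕ) (μ : ℕ → ℕ)
    (st : ∀ a ∉ A, Face T (insert a A) →
      a = ρ ∨ ∃ b ∉ A, μ b < μ a ∧ Face T (insert a (insert b A))) :
    ∀ a ∉ A, ∀ b ∉ A, Face T (insert a A) → Face T (insert b A) →
      Relation.ReflTransGen (fun x y => y ∉ A ∧ Face T (insert x (insert y A))) a b := by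
  have key : ∀ m a, μ a = m → a ∉ A → Face T (insert a A) →
      Relation.ReflTransGen (fun x y => y ∉ A ∧ Face T (insert x (insert y A))) a ρ ∧
      Relation.ReflTransGen (fun x y => y ∉ A ∧ Face T (insert x (insert y A))) ρ a := by
    intro m
    induction m using Nat.strong_induction_on with
    | _ m ih =>
      rintro a rfl ha hf
      rcases st a ha hf with rfl | ⟨b, hb, hlt, σ, hσ, h⟩
      · exact ⟨.refl, .refl⟩
      · obtain ⟨h1, h2⟩ := ih _ hlt b rfl hb ⟨σ, hσ, (subset_insert _ _).trans h⟩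
        exact ⟨.head ⟨hb, σ, hσ, h⟩ h1, .tail h2 ⟨ha, σ, hσ, insert_comm a b A ▸ h⟩⟩
  exact fun a ha b hb h1 h2 => (key _ a rfl ha h1).1.trans (key _ b rfl hb h2).2

theorem face {tt : ℕ → ℕ} {n0 i : ℕ} (hi : i < n0) {A : Finset ℕ}
    (h : ∀ x ∈ A, inT (tt i) x = true) : Face (TT tt n0) A :=
  ⟨_, mem_image.2 ⟨i, mem_range.2 hi, rfl⟩, fun x hx => by
    simpa [inT, oo_iff, beq_iff, tv] using h x hx⟩

theorem lnk {tt ed vt : ℕ → ℕ} {n0 v w : ℕ} (h : lnkChk tt ed vt n0 v w = true) :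
    w = vR (vt v) ∨ ∃ b ∉ ({v} : Finset ℕ), eH (ed (ky v b)) < eH (ed (ky v w)) ∧
      Face (TT tt n0) (insert w (insert b {v})) := by
  simp only [lnkChk, force_eq, cn_eq] at h
  split_ifs at h
  · exact .inl (beq_iff.1 h)
  · simp only [an_iff, lt_iff, ne_iff'] at h
    obtain ⟨h1, h2, h3, h4, h5, h6⟩ := h
    exact .inr ⟨_, notMem_singleton.2 h5, h6, face h1 (by simp [h2, h3, h4])⟩

end LNK

open LNK in
theorem LNK (h : S_CYC) : S_LNK := by
  intro tt ed en vt N n0 nE hN hT hE hV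
  have v1 : ∀ v, 1 ≤ v → v < N → vP (vt v) < v ∧ Face (TT tt n0) {vP (vt v), v} := by
    intro v h1 h2
    have h3 := hV v h1 h2
    simp only [vertChk, force_eq, an_iff, lt_iff] at h3
    exact ⟨h3.1, face h3.2.1 (by simp [h3.2.2.1, h3.2.2.2])⟩
  have v2 : ∀ v, Face (TT tt n0) {v} → v ≠ 0 →
      vP (vt v) < v ∧ Face (TT tt n0) {vP (vt v), v} := by
    rintro v ⟨σ, hσ, h1⟩ h0
    obtain ⟨i, hi, rfl⟩ := mem_image.1 hσ
    have h2 := hT.srt i (mem_range.1 hi)
    have h3 := singleton_subset_iff.1 h1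
    simp [tv] at h3
    exact v1 v (by omega) (by omega)
  have e1 : ∀ v w, v < w → Face (TT tt n0) {v, w} →
      lnkChk tt ed vt n0 v w = true ∧ lnkChk tt ed vt n0 w v = true := by
    intro v w h1 h2
    obtain ⟨z, z1, z2, -, z3, z4⟩ := hT.nam v w h1 h2
    have h3 := hE z z1 z2
    simp only [edgeChk, force_eq, an_iff, z3, z4] at h3
    exact h3.2.2.2
  refine ⟨?_, v2, fun A hA => ?_⟩
  · obtain ⟨h1, σ, hσ, h2⟩ := v1 1 le_rfl hN
    rw [Nat.lt_one_iff.1 h1] at h2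
    exact ⟨σ, hσ, (singleton_subset_iff.2 (mem_insert_self _ _)).trans h2⟩
  · obtain h0 | h0 | h0 : A.card = 0 ∨ A.card = 1 ∨ A.card = 2 := by omega
    · obtain rfl := card_eq_zero.1 h0
      refine root 0 id fun a _ ha => (eq_or_ne a 0).imp_right fun h1 => ?_
      obtain ⟨h2, h3⟩ := v2 a ha h1
      exact ⟨_, notMem_empty _, h2, by rwa [pair_comm] at h3⟩
    · obtain ⟨v, rfl⟩ := card_eq_one.1 h0
      refine root (vR (vt v)) (fun w => eH (ed (ky v w))) fun a h1 ha => lnk ?_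
      rcases lt_or_gt_of_ne (notMem_singleton.1 h1) with h2 | h2
      · exact (e1 a v h2 ha).2
      · exact (e1 v a h2 (by rwa [pair_comm])).1
    · exact (h _ _ _ hT.card hT.cyc).2.1 A h0

end Pool.Agent.P.MP_4830f8_gt.RG
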