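import Pool.Agent.P.MP_4830f8_gt.RG.Iface

/-! The local identity of a flip. -/

set_option autoImplicit false

namespace Pool.Agent.P.MP_4830f8_gt.RG

open Finset

namespace LOC

lemma eO_empty {A B : Finset ℕ} (h : 3 ≤ A.card) : eO A B = ∅ := by
  refine filter_eq_empty_iff.2 fun e he hA => ?_
  have := card_le_card hA
  rw [(mem_powersetCard.1 he).2] at this
  omega

lemma eO_two {A B : Finset ℕ} (h : A.card = 2) : eO A B = {A} := by
  ext e
  simp only [eO, mem_filter, mem_powersetCard, mem_singleton]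
  constructor
  · rintro ⟨⟨-, h2⟩, h3⟩
    exact (eq_of_subset_of_card_le h3 (by omega)).symm
  · rintro rfl
    exact ⟨⟨subset_union_left, h⟩, subset_rfl⟩

lemma eO_one {a : ℕ} {B : Finset ℕ} (h : a ∉ B) :
    eO {a} B = B.image fun b => ({a, b} : Finset ℕ) := by
  ext e
  simp only [eO, mem_filter, mem_powersetCard, mem_image, singleton_subset_iff]
  constructor
  · rintro ⟨⟨h1, h2⟩, h3⟩
    obtain ⟨x, y, hxy, rfl⟩ := card_eq_two.1 h2
    have hx := h1 (mem_insert_self x {y})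
    have hy := h1 (show y ∈ ({x, y} : Finset ℕ) by simp)
    simp only [mem_union, mem_singleton, mem_insert] at hx hy h3
    rcases h3 with rfl | rfl
    · exact ⟨y, hy.resolve_left (Ne.symm hxy), rfl⟩
    · exact ⟨x, hx.resolve_left hxy, pair_comm _ _⟩
  · rintro ⟨b, hb, rfl⟩
    refine ⟨⟨?_, card_pair fun e => h (e ▸ hb)⟩, mem_insert_self _ _⟩
    exact insert_subset (by simp) (by simp [hb])

lemma mem_ite {α : Type} [DecidableEq α] (x : Bool) (e f : α) (U : Finset α) :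
    f ∈ (if x then insert e U else U) ↔ (x = true ∧ f = e) ∨ f ∈ U := by
  cases x <;> simp

lemma two {x0 x1 x2 x3 x4 : ℕ} (h : [x0, x1, x2, x3, x4].Nodup) (c : Finset (Finset ℕ))
    (hc : {x0, x1} ∉ c) :
    SS {{x0, x1}} (fun U => ∏ b ∈ ({x2, x3, x4} : Finset ℕ),
      WW ((({x0, x1} : Finset ℕ) ∪ {x2, x3, x4}).erase b) (c ∪ U)) =
    ∏ a ∈ ({x0, x1} : Finset ℕ), WW ((({x0, x1} : Finset ℕ) ∪ {x2, x3, x4}).erase a) c := by
  simp only [List.nodup_cons, List.mem_cons, List.not_mem_nil, not_or, or_false] at h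
  obtain ⟨⟨h01, h02, h03, h04⟩, ⟨h12, h13, h14⟩, ⟨h23, h24⟩, h34, -⟩ := h
  have e0 : (({x0, x1} : Finset ℕ) ∪ {x2, x3, x4}).erase x0 = {x1, x2, x3, x4} := by
    ext; simp; omega
  have e1 : (({x0, x1} : Finset ℕ) ∪ {x2, x3, x4}).erase x1 = {x0, x2, x3, x4} := by
    ext; simp; omega
  have e2 : (({x0, x1} : Finset ℕ) ∪ {x2, x3, x4}).erase x2 = {x0, x1, x3, x4} := by
    ext; simp; omega
  have e3 : (({x0, x1} : Finset ℕ) ∪ {x2, x3, x4}).erase x3 = {x0, x1, x2, x4} := by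
    ext; simp; omega
  have e4 : (({x0, x1} : Finset ℕ) ∪ {x2, x3, x4}).erase x4 = {x0, x1, x2, x3} := by
    ext; simp; omega
  have n02 : ({x0, x2} : Finset ℕ) ≠ {x0, x1} := pair_ne (by omega)
  have n03 : ({x0, x3} : Finset ℕ) ≠ {x0, x1} := pair_ne (by omega)
  have n04 : ({x0, x4} : Finset ℕ) ≠ {x0, x1} := pair_ne (by omega)
  have n12 : ({x1, x2} : Finset ℕ) ≠ {x0, x1} := pair_ne (by omega)
  have n13 : ({x1, x3} : Finset ℕ) ≠ {x0, x1} := pair_ne (by omega)
  have n14 : ({x1, x4} : Finset ℕ) ≠ {x0, x1} := pair_ne (by omega)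
  have n23 : ({x2, x3} : Finset ℕ) ≠ {x0, x1} := pair_ne (by omega)
  have n24 : ({x2, x4} : Finset ℕ) ≠ {x0, x1} := pair_ne (by omega)
  have n34 : ({x3, x4} : Finset ℕ) ≠ {x0, x1} := pair_ne (by omega)
  rw [SS_singleton]
  simp only [prod_insert (show x2 ∉ ({x3, x4} : Finset ℕ) by simp [h23, h24]), prod_pair h34,
    prod_pair h01, e0, e1, e2, e3, e4, WW_eq h12 h13 h14 h23 h24 h34,
    WW_eq h02 h03 h04 h23 h24 h34, WW_eq h01 h03 h04 h13 h14 h34, WW_eq h01 h02 h04 h12 h14 h24,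
    WW_eq h01 h02 h03 h12 h13 h23, mem_union, mem_singleton, notMem_empty, or_false, hc,
    n02, n03, n04, n12, n13, n14, n23, n24, n34, or_true, decide_true, decide_false]
  rw [← b32, sm]; ring

lemma one {x0 x1 x2 x3 x4 : ℕ} (h : [x0, x1, x2, x3, x4].Nodup) (c : Finset (Finset ℕ))
    (h1 : {x0, x1} ∉ c) (h2 : {x0, x2} ∉ c) (h3 : {x0, x3} ∉ c) (h4 : {x0, x4} ∉ c) :
    SS {{x0, x1}, {x0, x2}, {x0, x3}, {x0, x4}} (fun U => ∏ b ∈ ({x1, x2, x3, x4} : Finset ℕ),
      WW ((({x0} : Finset ℕ) ∪ {x1, x2, x3, x4}).erase b) (c ∪ U)) =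
    DD * WW ((({x0} : Finset ℕ) ∪ {x1, x2, x3, x4}).erase x0) c := by
  simp only [List.nodup_cons, List.mem_cons, List.not_mem_nil, not_or, or_false] at h
  obtain ⟨⟨h01, h02, h03, h04⟩, ⟨h12, h13, h14⟩, ⟨h23, h24⟩, h34, -⟩ := h
  have e0 : (({x0} : Finset ℕ) ∪ {x1, x2, x3, x4}).erase x0 = {x1, x2, x3, x4} := by
    ext; simp; omega
  have e1 : (({x0} : Finset ℕ) ∪ {x1, x2, x3, x4}).erase x1 = {x0, x2, x3, x4} := by
    ext; simp; omega
  have e2 : (({x0} : Finset ℕ) ∪ {x1, x2, x3, x4}).erase x2 = {x0, x1, x3, x4} := by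
    ext; simp; omega
  have e3 : (({x0} : Finset ℕ) ∪ {x1, x2, x3, x4}).erase x3 = {x0, x1, x2, x4} := by
    ext; simp; omega
  have e4 : (({x0} : Finset ℕ) ∪ {x1, x2, x3, x4}).erase x4 = {x0, x1, x2, x3} := by
    ext; simp; omega
  have m : ∀ {a b : ℕ}, a ≠ b → x0 ≠ a → ({x0, a} : Finset ℕ) ≠ {x0, b} :=
    fun _ _ => pair_ne (by omega)
  have k : ∀ {a b : ℕ} (d : ℕ), x0 ≠ a → x0 ≠ b → ({a, b} : Finset ℕ) ≠ {x0, d} :=
    fun _ _ _ => pair_ne (by omega)
  rw [show ({{x0, x1}, {x0, x2}, {x0, x3}, {x0, x4}} : Finset (Finset ℕ)) =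
    insert {x0, x1} (insert {x0, x2} (insert {x0, x3} (insert {x0, x4} ∅))) from rfl,
    SS_insert_sm (by simp [m h12 h01, m h13 h01, m h14 h01])]
  simp only [SS_insert_sm (show ({x0, x2} : Finset ℕ) ∉
      (insert {x0, x3} (insert {x0, x4} ∅) : Finset (Finset ℕ)) by simp [m h23 h02, m h24 h02]),
    SS_insert_sm (show ({x0, x3} : Finset ℕ) ∉ (insert {x0, x4} ∅ : Finset (Finset ℕ)) by
      simp [m h34 h03]), SS_insert_sm (notMem_empty _), SS_empty]
  simp only [prod_insert (show x1 ∉ ({x2, x3, x4} : Finset ℕ) by simp [h12, h13, h14]),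
    prod_insert (show x2 ∉ ({x3, x4} : Finset ℕ) by simp [h23, h24]), prod_pair h34,
    e0, e1, e2, e3, e4, WW_eq h12 h13 h14 h23 h24 h34,
    WW_eq h02 h03 h04 h23 h24 h34, WW_eq h01 h03 h04 h13 h14 h34, WW_eq h01 h02 h04 h12 h14 h24,
    WW_eq h01 h02 h03 h12 h13 h23, mem_union, mem_ite, notMem_empty, or_false, h1, h2, h3, h4,
    m h12 h01, m h13 h01, m h14 h01, m h23 h02, m h24 h02, m h34 h03, m (Ne.symm h12) h02,
    m (Ne.symm h13) h03, m (Ne.symm h14) h04, m (Ne.symm h23) h03, m (Ne.symm h24) h04,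
    m (Ne.symm h34) h04,
    k _ h01 h02, k _ h01 h03, k _ h01 h04, k _ h02 h03, k _ h02 h04, k _ h03 h04,
    and_false, and_true, false_or, Bool.decide_eq_true, ← mul_assoc]
  exact b41 _ _ _ _ _ _

lemma half (A B : Finset ℕ) (hA : A.Nonempty) (hd : Disjoint A B) (h5 : (A ∪ B).card = 5)
    (h2 : A.card ≤ 2) (c : Finset (Finset ℕ)) (hc : Disjoint c (eO A B)) :
    DD ^ (if B.card = 1 then 1 else 0) *
      SS (eO A B) (fun U => ∏ b ∈ B, WW ((A ∪ B).erase b) (c ∪ U)) =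
    DD ^ (if A.card = 1 then 1 else 0) *
      SS (eO B A) (fun U => ∏ a ∈ A, WW ((A ∪ B).erase a) (c ∪ U)) := by
  rw [card_union_of_disjoint hd] at h5
  have h0 := hA.card_pos
  rw [eO_empty (A := B) (by omega), SS_empty, if_neg (by omega), pow_zero, one_mul, union_empty]
  by_cases h1 : A.card = 1
  · rw [if_pos h1, pow_one]
    obtain ⟨x0, rfl⟩ := card_eq_one.1 h1
    obtain ⟨x1, B', hx, rfl, h3⟩ := card_eq_succ.1 (show B.card = 3 + 1 by omega)
    obtain ⟨x2, x3, x4, h23, h24, h34, rfl⟩ := card_eq_three.1 h3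
    have hn := disjoint_singleton_left.1 hd
    rw [eO_one hn] at hc ⊢
    simp only [image_insert, image_singleton, disjoint_insert_right,
      disjoint_singleton_right] at hc ⊢
    rw [prod_singleton]
    simp only [mem_insert, mem_singleton, not_or] at hn hx
    exact one (by simp [hn, hx, h23, h24, h34]) c hc.1 hc.2.1 hc.2.2.1 hc.2.2.2
  · rw [if_neg h1, pow_zero, one_mul]
    have hA2 : A.card = 2 := by omega
    rw [eO_two hA2] at hc ⊢
    obtain ⟨x0, x1, h01, rfl⟩ := card_eq_two.1 hA2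
    obtain ⟨x2, x3, x4, h23, h24, h34, rfl⟩ := card_eq_three.1 (show B.card = 3 by omega)
    simp only [disjoint_insert_left, disjoint_singleton_left, mem_insert, mem_singleton,
      not_or] at hd
    exact two (by simp [hd, h01, h23, h24, h34]) c (disjoint_singleton_right.1 hc)

end LOC

theorem LOC : S_LOC := by
  intro A B hA hB hd h5 c h1 h2
  by_cases h : A.card ≤ 2
  · exact LOC.half A B hA hd h5 h c h1
  · have h6 := h5
    rw [card_union_of_disjoint hd] at h6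
    have := LOC.half B A hB hd.symm (by rwa [union_comm]) (by omega) c h2
    rw [union_comm B A] at this
    exact this.symm

end Pool.Agent.P.MP_4830f8_gt.RG
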