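import Pool.Agent.P.MP_4830f8_gt.RG.Iface

/-! Invariance of the labelled state sum under a sequence of moves. -/

set_option autoImplicit false

namespace Pool.Agent.P.MP_4830f8_gt.RG

open Finset

namespace MV

lemma q_perm : ∀ p < 24, ∀ a b c d e f : Bool,
    Q4.W6 ([a, b, c, d, e, f].getD (pc p 0) false) ([a, b, c, d, e, f].getD (pc p 1) false)
      ([a, b, c, d, e, f].getD (pc p 2) false) ([a, b, c, d, e, f].getD (pc p 3) false)
      ([a, b, c, d, e, f].getD (pc p 4) false) ([a, b, c, d, e, f].getD (pc p 5) false) =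
    Q4.W6 a b c d e f := by decide +kernel

lemma pc_lt : ∀ p < 24, ∀ k < 6, pc p k < 6 := by decide +kernel

lemma pc_img : ∀ p < 24, (range 6).image (pc p) = range 6 := by decide +kernel

lemma getD_eq (x : ℕ → Bool) {k : ℕ} (hk : k < 6) :
    [x 0, x 1, x 2, x 3, x 4, x 5].getD k false = x k := by
  interval_cases k <;> rfl

lemma w_perm {p : ℕ} (hp : p < 24) (x : ℕ → Bool) :
    W6 (x (pc p 0)) (x (pc p 1)) (x (pc p 2)) (x (pc p 3)) (x (pc p 4)) (x (pc p 5)) =
      W6 (x 0) (x 1) (x 2) (x 3) (x 4) (x 5) := by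
  have h := congrArg Q4.ev (q_perm p hp (x 0) (x 1) (x 2) (x 3) (x 4) (x 5))
  rw [getD_eq x (pc_lt p hp 0 (by omega)), getD_eq x (pc_lt p hp 1 (by omega)),
    getD_eq x (pc_lt p hp 2 (by omega)), getD_eq x (pc_lt p hp 3 (by omega)),
    getD_eq x (pc_lt p hp 4 (by omega)), getD_eq x (pc_lt p hp 5 (by omega)),
    Q4.ev_W6, Q4.ev_W6] at h
  exact h

lemma wt_perm {p : ℕ} (hp : p < 24) {s s' : ℕ → ℕ} (h : ∀ k < 6, s (pc p k) = s' k) :
    (∀ U, wt s U = wt s' U) ∧ (range 6).image s = (range 6).image s' := by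
  refine ⟨fun U => ?_, ?_⟩
  · have := w_perm hp fun k => decide (s k ∈ U)
    simp only [h 0 (by omega), h 1 (by omega), h 2 (by omega), h 3 (by omega), h 4 (by omega),
      h 5 (by omega)] at this
    exact this.symm
  · conv_lhs => rw [← pc_img p hp, image_image]
    exact image_congr fun k hk => h k (by simpa using hk)

lemma wt_insert {s : ℕ → ℕ} {l : ℕ} (h : ∀ k < 6, s k ≠ l) (U : Finset ℕ) :
    wt s (insert l U) = wt s U := by
  simp only [wt, mem_insert, h 0 (by omega), h 1 (by omega), h 2 (by omega), h 3 (by omega),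
    h 4 (by omega), h 5 (by omega), false_or]

/-- the edges used by the tetrahedra `J` of the five -/
def KK (J : Finset ℕ) : Finset ℕ := J.biUnion fun j => (range 6).image (k5 j)

/-- weight of the `j`-th tetrahedron of the five -/
noncomputable def w5 (e : ℕ → ℕ) (j : ℕ) (U : Finset ℕ) : ℝ := wt (fun k => e (k5 j k)) U

lemma split (R J : Finset ℕ) (f e : ℕ → ℕ) (tet : ℕ → ℕ → ℕ) (hinj : Set.InjOn f J)
    (hd : Disjoint R (J.image f))
    (hT : ∀ j ∈ J, ∃ p < 24, ∀ k < 6, tet (f j) (pc p k) = e (k5 j k)) :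
    labs (R ∪ J.image f) tet = labs R tet ∪ (KK J).image e ∧
    ZL (R ∪ J.image f) tet = SS (labs R tet ∪ (KK J).image e)
      fun U => (∏ i ∈ R, wt (tet i) U) * ∏ j ∈ J, w5 e j U := by
  have h1 : labs (R ∪ J.image f) tet = labs R tet ∪ (KK J).image e := by
    unfold labs KK
    rw [union_biUnion, image_biUnion, biUnion_image]
    congr 1
    refine biUnion_congr rfl fun j hj => ?_
    obtain ⟨p, hp, h⟩ := hT j hj
    rw [(wt_perm hp h).2, image_image]; rfl
  refine ⟨h1, ?_⟩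
  unfold ZL
  rw [h1]
  refine SS_congr fun U _ => ?_
  rw [prod_union hd, prod_image hinj]
  congr 1
  refine prod_congr rfl fun j hj => ?_
  obtain ⟨p, hp, h⟩ := hT j hj
  exact (wt_perm hp h).1 U

section
variable (e : ℕ → ℕ) (U : Finset ℕ)
lemma w50 : w5 e 0 U = W6 (decide (e 4 ∈ U)) (decide (e 5 ∈ U)) (decide (e 6 ∈ U))
    (decide (e 7 ∈ U)) (decide (e 8 ∈ U)) (decide (e 9 ∈ U)) := rfl
lemma w51 : w5 e 1 U = W6 (decide (e 1 ∈ U)) (decide (e 2 ∈ U)) (decide (e 3 ∈ U))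
    (decide (e 7 ∈ U)) (decide (e 8 ∈ U)) (decide (e 9 ∈ U)) := rfl
lemma w52 : w5 e 2 U = W6 (decide (e 0 ∈ U)) (decide (e 2 ∈ U)) (decide (e 3 ∈ U))
    (decide (e 5 ∈ U)) (decide (e 6 ∈ U)) (decide (e 9 ∈ U)) := rfl
lemma w53 : w5 e 3 U = W6 (decide (e 0 ∈ U)) (decide (e 1 ∈ U)) (decide (e 3 ∈ U))
    (decide (e 4 ∈ U)) (decide (e 6 ∈ U)) (decide (e 8 ∈ U)) := rfl
lemma w54 : w5 e 4 U = W6 (decide (e 0 ∈ U)) (decide (e 1 ∈ U)) (decide (e 2 ∈ U))
    (decide (e 4 ∈ U)) (decide (e 5 ∈ U)) (decide (e 7 ∈ U)) := rfl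
end

lemma core2 (E : Finset ℕ) (P : Finset ℕ → ℝ) (e : ℕ → ℕ) (h0 : e 0 ∉ E)
    (hk : ∀ k, 1 ≤ k → k < 10 → e k ∈ E) (hP : ∀ U, P (insert (e 0) U) = P U) :
    SS (insert (e 0) E) (fun U => P U * ∏ j ∈ Ico 2 5, w5 e j U) =
      SS E fun U => P U * ∏ j ∈ range 2, w5 e j U := by
  rw [SS_insert h0]
  refine SS_congr fun U hU => ?_
  have hn : ∀ k, 1 ≤ k → k < 10 → e k ≠ e 0 := fun k h1 h2 h => h0 (h ▸ hk k h1 h2)
  have hU0 : e 0 ∉ U := fun h => h0 (hU h)
  have := b32 (decide (e 1 ∈ U)) (decide (e 2 ∈ U)) (decide (e 3 ∈ U)) (decide (e 4 ∈ U))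
    (decide (e 5 ∈ U)) (decide (e 6 ∈ U)) (decide (e 7 ∈ U)) (decide (e 8 ∈ U)) (decide (e 9 ∈ U))
  rw [show Ico 2 5 = {2, 3, 4} by decide, show range 2 = {0, 1} by decide]
  simp only [prod_insert, mem_insert, mem_singleton, prod_singleton, w50, w51, w52, w53, w54, hP,
    hn 1, hn 2, hn 3, hn 4, hn 5, hn 6, hn 7, hn 8, hn 9, hU0, Nat.reduceEqDiff, Nat.reduceLeDiff,
    Nat.reduceLT, or_self, not_false_eq_true, false_or, true_or, decide_true, decide_false,
    le_refl]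
  simp only [sm] at this
  rw [← this]; ring

lemma core3 (E : Finset ℕ) (P : Finset ℕ → ℝ) (e : ℕ → ℕ) (h0 : e 9 ∉ E)
    (hk : ∀ k, k < 9 → e k ∈ E) (hP : ∀ U, P (insert (e 9) U) = P U) :
    (SS E fun U => P U * ∏ j ∈ Ico 3 5, w5 e j U) =
      SS (insert (e 9) E) (fun U => P U * ∏ j ∈ range 3, w5 e j U) := by
  rw [SS_insert h0]
  refine SS_congr fun U hU => ?_
  have hn : ∀ k, k < 9 → e k ≠ e 9 := fun k h1 h => h0 (h ▸ hk k h1)
  have hU0 : e 9 ∉ U := fun h => h0 (hU h)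
  have := b23 (decide (e 0 ∈ U)) (decide (e 1 ∈ U)) (decide (e 2 ∈ U)) (decide (e 3 ∈ U))
    (decide (e 4 ∈ U)) (decide (e 5 ∈ U)) (decide (e 6 ∈ U)) (decide (e 7 ∈ U)) (decide (e 8 ∈ U))
  rw [show Ico 3 5 = {3, 4} by decide, show range 3 = {0, 1, 2} by decide]
  simp only [prod_insert, mem_insert, mem_singleton, prod_singleton, w50, w51, w52, w53, w54, hP,
    hn 0, hn 1, hn 2, hn 3, hn 4, hn 5, hn 6, hn 7, hn 8, hU0, Nat.reduceEqDiff,
    Nat.reduceLT, or_self, not_false_eq_true, false_or, true_or, decide_true, decide_false]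
  simp only [sm] at this
  rw [this]; ring

lemma core1 (E : Finset ℕ) (P : Finset ℕ → ℝ) (e : ℕ → ℕ) (h0 : ∀ k < 4, e k ∉ E)
    (hd : ∀ k < 4, ∀ k' < k, e k' ≠ e k)
    (hk : ∀ k, 4 ≤ k → k < 10 → e k ∈ E) (hP : ∀ k < 4, ∀ U, P (insert (e k) U) = P U) :
    SS (insert (e 0) (insert (e 1) (insert (e 2) (insert (e 3) E))))
      (fun U => P U * ∏ j ∈ Ico 1 5, w5 e j U) =
      DD * SS E fun U => P U * ∏ j ∈ range 1, w5 e j U := by
  have d01 := hd 1 (by omega) 0 (by omega)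
  have d02 := hd 2 (by omega) 0 (by omega)
  have d03 := hd 3 (by omega) 0 (by omega)
  have d12 := hd 2 (by omega) 1 (by omega)
  have d13 := hd 3 (by omega) 1 (by omega)
  have d23 := hd 3 (by omega) 2 (by omega)
  rw [SS_insert (by simp [d01, d02, d03, h0]), SS_insert (by simp [d12, d13, h0]),
    SS_insert (by simp [d23, h0]), SS_insert (h0 3 (by omega)), ← SS_mul]
  refine SS_congr fun U hU => ?_
  have hn : ∀ k, 4 ≤ k → k < 10 → e k ≠ e 0 ∧ e k ≠ e 1 ∧ e k ≠ e 2 ∧ e k ≠ e 3 :=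
    fun k h1 h2 => ⟨fun h => h0 0 (by omega) (h ▸ hk k h1 h2),
      fun h => h0 1 (by omega) (h ▸ hk k h1 h2), fun h => h0 2 (by omega) (h ▸ hk k h1 h2),
      fun h => h0 3 (by omega) (h ▸ hk k h1 h2)⟩
  have hU0 : ∀ k < 4, e k ∉ U := fun k h1 h => h0 k h1 (hU h)
  have := b41 (decide (e 4 ∈ U))
    (decide (e 5 ∈ U)) (decide (e 6 ∈ U)) (decide (e 7 ∈ U)) (decide (e 8 ∈ U)) (decide (e 9 ∈ U))
  rw [show Ico 1 5 = {1, 2, 3, 4} by decide, show range 1 = {0} by decide]
  simp only [prod_insert, mem_insert, mem_singleton, prod_singleton, w50, w51, w52, w53, w54,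
    hP 0, hP 1, hP 2, hP 3, hn 4, hn 5, hn 6, hn 7, hn 8, hn 9, hU0 0, hU0 1, hU0 2, hU0 3,
    d01, d02, d03, d12, d13, d23, d01.symm, d02.symm, d03.symm, d12.symm, d13.symm, d23.symm,
    Nat.reduceEqDiff, Nat.reduceLeDiff, Nat.reduceLT, or_self, not_false_eq_true, false_or,
    or_true, or_false, decide_true, decide_false, le_refl, Nat.ofNat_pos]
  simp only [sm] at this
  linear_combination P U * this

lemma prod_insert_lab {R : Finset ℕ} {tet : ℕ → ℕ → ℕ} {l : ℕ} (h : l ∉ labs R tet)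
    (U : Finset ℕ) : ∏ i ∈ R, wt (tet i) (insert l U) = ∏ i ∈ R, wt (tet i) U :=
  prod_congr rfl fun i hi => wt_insert (fun k hk hl => h
    (mem_biUnion.2 ⟨i, hi, mem_image.2 ⟨k, mem_range.2 hk, hl⟩⟩)) U

lemma step (n t y : ℕ) (tet : ℕ → ℕ → ℕ) (f e b d bl dl : ℕ → ℕ) (ht : 1 ≤ t)
    (h1 : ∀ i < n, b i < d i ∧ (∀ k < 6, bl (tet i k) ≤ b i ∧ d i ≤ dl (tet i k)) ∧
      (b i = t → ∃ j < y, f j = i) ∧ (d i = t → ∃ j, y ≤ j ∧ j < 5 ∧ f j = i))
    (hy1 : 1 ≤ y) (hy3 : y ≤ 3)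
    (h2 : ∀ j < 5, f j < n ∧ (j < y → b (f j) = t) ∧ (y ≤ j → d (f j) = t) ∧
      ∃ p < 24, ∀ k < 6, tet (f j) (pc p k) = e (k5 j k))
    (h3 : ∀ j < 4, j + 1 ≠ y → f j < f (j + 1))
    (h4 : y = 1 → (∀ k < 4, dl (e k) = t) ∧ ∀ k < 4, ∀ k' < k, e k' ≠ e k)
    (h5 : y = 2 → dl (e 0) = t) (h6 : y = 3 → bl (e 9) = t) :
    ZL (Live n b d (t - 1)) tet = (if y = 1 then DD else 1) * ZL (Live n b d t) tet := by
  set R := (range n).filter fun i => b i < t ∧ t < d i with hR
  have eo : Live n b d (t - 1) = R ∪ (Ico y 5).image f := by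
    ext i
    simp only [Live, hR, mem_union, mem_filter, mem_range, mem_image, mem_Ico]
    constructor
    · rintro ⟨hi, hb, hd⟩
      by_cases h : d i = t
      · obtain ⟨j, a1, a2, a3⟩ := (h1 i hi).2.2.2 h
        exact Or.inr ⟨j, ⟨a1, a2⟩, a3⟩
      · exact Or.inl ⟨hi, by omega, by omega⟩
    · rintro (⟨hi, hb, hd⟩ | ⟨j, ⟨a1, a2⟩, rfl⟩)
      · exact ⟨hi, by omega, by omega⟩
      · have a3 := (h2 j a2).2.2.1 a1
        have a4 := (h1 _ (h2 j a2).1).1
        exact ⟨(h2 j a2).1, by omega, by omega⟩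
  have en : Live n b d t = R ∪ (range y).image f := by
    ext i
    simp only [Live, hR, mem_union, mem_filter, mem_range, mem_image]
    constructor
    · rintro ⟨hi, hb, hd⟩
      by_cases h : b i = t
      · exact Or.inr ((h1 i hi).2.2.1 h)
      · exact Or.inl ⟨hi, by omega, hd⟩
    · rintro (⟨hi, hb, hd⟩ | ⟨j, a1, rfl⟩)
      · exact ⟨hi, by omega, hd⟩
      · have a2 : j < 5 := by omega
        have a3 := (h2 j a2).2.1 a1
        have a4 := (h1 _ (h2 j a2).1).1
        exact ⟨(h2 j a2).1, by omega, by omega⟩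
  have mono : ∀ a c, a < c → c < 5 → (c < y ∨ y ≤ a) → f a < f c := by
    intro a c hac hc hy
    have g0 := h3 0 (by omega)
    have g1 := h3 1 (by omega)
    have g2 := h3 2 (by omega)
    have g3 := h3 3 (by omega)
    interval_cases c <;> interval_cases a <;> simp only [Nat.reduceAdd, zero_add] at * <;> omega
  have inj : ∀ a c, a < 5 → c < 5 → (a < y ∧ c < y ∨ y ≤ a ∧ y ≤ c) → f a = f c → a = c := by
    intro a c ha hc hy h
    rcases lt_trichotomy a c with h' | h' | h'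
    · have := mono a c h' hc (by omega); omega
    · exact h'
    · have := mono c a h' ha (by omega); omega
  obtain ⟨lo, zo⟩ := split R (Ico y 5) f e tet
    (fun a ha c hc h => by
      simp only [coe_Ico, Set.mem_Ico] at ha hc
      exact inj a c ha.2 hc.2 (by omega) h)
    (disjoint_left.2 fun i hi hi' => by
      obtain ⟨j, hj, rfl⟩ := mem_image.1 hi'
      rw [mem_Ico] at hj
      have := (h2 j hj.2).2.2.1 hj.1
      have := (mem_filter.1 hi).2.2
      omega)
    fun j hj => (h2 j (mem_Ico.1 hj).2).2.2.2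
  obtain ⟨ln, zn⟩ := split R (range y) f e tet
    (fun a ha c hc h => by
      simp only [coe_range, Set.mem_Iio] at ha hc
      exact inj a c (by omega) (by omega) (by omega) h)
    (disjoint_left.2 fun i hi hi' => by
      obtain ⟨j, hj, rfl⟩ := mem_image.1 hi'
      rw [mem_range] at hj
      have := (h2 j (by omega)).2.1 hj
      have := (mem_filter.1 hi).2.1
      omega)
    fun j hj => (h2 j (by have := mem_range.1 hj; omega)).2.2.2
  have dn : ∀ l ∈ labs R tet ∪ (KK (range y)).image e, t < dl l := by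
    rw [← ln, ← en]
    intro l hl
    obtain ⟨i, hi, hl⟩ := mem_biUnion.1 hl
    obtain ⟨k, hk, rfl⟩ := mem_image.1 hl
    obtain ⟨a1, a2⟩ := mem_filter.1 hi
    have := ((h1 i (mem_range.1 a1)).2.1 k (mem_range.1 hk)).2
    omega
  have bo : ∀ l ∈ labs R tet ∪ (KK (Ico y 5)).image e, bl l < t := by
    rw [← lo, ← eo]
    intro l hl
    obtain ⟨i, hi, hl⟩ := mem_biUnion.1 hl
    obtain ⟨k, hk, rfl⟩ := mem_image.1 hl
    obtain ⟨a1, a2⟩ := mem_filter.1 hi
    have := ((h1 i (mem_range.1 a1)).2.1 k (mem_range.1 hk)).1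
    omega
  rw [eo, en, zo, zn]
  obtain rfl | rfl | rfl : y = 1 ∨ y = 2 ∨ y = 3 := by omega
  · obtain ⟨a1, a2⟩ := h4 rfl
    have hE : ∀ k < 4, e k ∉ labs R tet ∪ (KK (range 1)).image e := fun k hk h => by
      have := dn _ h
      have := a1 k hk
      omega
    rw [show KK (Ico 1 5) = insert 0 (insert 1 (insert 2 (insert 3 (KK (range 1))))) by
      decide +kernel, if_pos rfl]
    simp only [image_insert, union_insert]
    refine core1 _ _ e hE a2 (fun k k1 k2 => mem_union_right _ (mem_image_of_mem _ ?_))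
      fun k hk => prod_insert_lab fun h => hE k hk (mem_union_left _ h)
    rw [show KK (range 1) = Ico 4 10 by decide +kernel]
    exact mem_Ico.2 ⟨k1, k2⟩
  · have hE : e 0 ∉ labs R tet ∪ (KK (range 2)).image e := fun h => by
      have := dn _ h
      have := h5 rfl
      omega
    rw [show KK (Ico 2 5) = insert 0 (KK (range 2)) by decide +kernel, if_neg (by omega), one_mul]
    simp only [image_insert, union_insert]
    refine core2 _ _ e hE (fun k k1 k2 => mem_union_right _ (mem_image_of_mem _ ?_))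
      (prod_insert_lab fun h => hE (mem_union_left _ h))
    rw [show KK (range 2) = Ico 1 10 by decide +kernel]
    exact mem_Ico.2 ⟨k1, k2⟩
  · have hE : e 9 ∉ labs R tet ∪ (KK (Ico 3 5)).image e := fun h => by
      have := bo _ h
      have := h6 rfl
      omega
    rw [show KK (range 3) = insert 9 (KK (Ico 3 5)) by decide +kernel, if_neg (by omega), one_mul]
    simp only [image_insert, union_insert]
    refine core3 _ _ e hE (fun k k1 => mem_union_right _ (mem_image_of_mem _ ?_))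
      (prod_insert_lab fun h => hE (mem_union_left _ h))
    rw [show KK (Ico 3 5) = range 9 by decide +kernel]
    exact mem_range.2 k1

end MV

theorem MV : S_MV := by
  intro n M tet id e b d bl dl ty h1 h2
  have key : ∀ t ≤ M, ZL (Live n b d 0) tet =
      DD ^ ((Icc 1 t).filter fun t => ty t = 1).card * ZL (Live n b d t) tet := by
    intro t
    induction t with
    | zero => intro _; simp
    | succ t ih =>
      intro ht
      obtain ⟨a1, a2, a3, a4, a5, a6, a7⟩ := h2 (t + 1) (by omega) ht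
      have hs := MV.step n (t + 1) (ty (t + 1)) tet (id (t + 1)) (e (t + 1)) b d bl dl
        (by omega) (fun i hi => ⟨(h1 i hi).1, (h1 i hi).2.1,
          fun h => h ▸ (h1 i hi).2.2.1 (by omega) (by omega),
          fun h => h ▸ (h1 i hi).2.2.2 (by omega)⟩) a1 a2 a3 a4 a5 a6 a7
      rw [Nat.add_sub_cancel] at hs
      rw [ih (by omega), hs, show Icc 1 (t + 1) = insert (t + 1) (Icc 1 t) by
        ext; simp only [mem_Icc, mem_insert]; omega, filter_insert]
      split_ifs with h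
      · rw [card_insert_of_notMem (by simp), pow_succ, mul_assoc]
      · rw [one_mul]
  exact key M le_rfl

end Pool.Agent.P.MP_4830f8_gt.RG
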