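import Pool.Agent.P.MP_4830f8_gt.RG.Iface2

/-! Soundness of the checker of the move log. -/

set_option autoImplicit false

namespace Pool.Agent.P.MP_4830f8_gt.RG

open Finset

namespace MVC

theorem memL (i : ℕ) (L : List ℕ) :
    (List.rec false (fun x _ r => oo (Nat.beq x i) r) L : Bool) = true ↔ i ∈ L := by
  induction L with
  | nil => simp
  | cons x L ih =>
    show oo (Nat.beq x i) _ = true ↔ _
    rw [oo_iff, beq_iff, ih, List.mem_cons, eq_comm]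

theorem life {tt mv : ℕ → ℕ} {n0 M i : ℕ} {L : List ℕ} (h : lifeChk tt mv n0 M L i = true) :
    bt (tt i) < dt (tt i) ∧
    (∀ k < 6, bl (lb (tt i) k) ≤ bt (tt i) ∧ dt (tt i) ≤ dl (lb (tt i) k)) ∧
    (i < n0 → bt (tt i) = 0) ∧
    (¬ i < n0 → 0 < bt (tt i) ∧ bt (tt i) ≤ M ∧
      ∃ j < mty (mv (bt (tt i))), mid (mv (bt (tt i))) j = i) ∧
    (dt (tt i) ≤ M → ∃ j < 5, mty (mv (dt (tt i))) ≤ j ∧ mid (mv (dt (tt i))) j = i) ∧
    (¬ dt (tt i) ≤ M → i ∈ L) := by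
  simp only [lifeChk, force_eq, an_iff, cn_eq, lt_iff, ble_iff, allN_iff] at h
  obtain ⟨h1, h2, h3, h4⟩ := h
  refine ⟨h1, h2, fun e => ?_, fun e => ?_, fun e => ?_, fun e => ?_⟩
  · rwa [if_pos e, beq_iff] at h3
  · rw [if_neg e] at h3
    simpa only [an_iff, lt_iff, ble_iff, anyN_iff, beq_iff] using h3
  · rw [if_pos e] at h4
    simpa only [an_iff, ble_iff, anyN_iff, beq_iff] using h4
  · rwa [if_neg e, memL] at h4

theorem move {tt mv : ℕ → ℕ} {n t : ℕ} (h : moveChk tt mv n t = true) :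
    1 ≤ mty (mv t) ∧ mty (mv t) ≤ 3 ∧
    (∀ j < 5, mid (mv t) j < n ∧ (j < mty (mv t) → bt (tt (mid (mv t) j)) = t) ∧
      (mty (mv t) ≤ j → dt (tt (mid (mv t) j)) = t) ∧
      ∃ p < 24, ∀ k < 6, lb (tt (mid (mv t) j)) (pc p k) = lb (mvP tt (mv t)) (k5 j k)) ∧
    (∀ j < 4, j + 1 ≠ mty (mv t) → mid (mv t) j < mid (mv t) (j + 1)) ∧
    (mty (mv t) = 1 → (∀ k < 4, dl (lb (mvP tt (mv t)) k) = t) ∧
      ∀ k < 4, ∀ k' < k, lb (mvP tt (mv t)) k' ≠ lb (mvP tt (mv t)) k) ∧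
    (mty (mv t) = 2 → dl (lb (mvP tt (mv t)) 0) = t) ∧
    (mty (mv t) = 3 → bl (lb (mvP tt (mv t)) 9) = t) := by
  simp only [moveChk, force_eq, an_iff, oo_iff, cn_eq, lt_iff, ble_iff, beq_iff, allN_iff,
    Nat.succ_eq_add_one] at h
  obtain ⟨h1, h2, h3, h4⟩ := h
  refine ⟨h1, fd_le _ _ _, fun j hj => ?_, fun j hj e => (h3 j hj).resolve_left e, fun e => ?_,
    fun e => ?_, fun e => ?_⟩
  · obtain ⟨a, b, c, d⟩ := h2 j hj
    exact ⟨a, fun e => by rwa [if_pos e] at b, fun e => by rwa [if_neg (not_lt.2 e)] at b, _, c, d⟩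
  · rw [if_neg (by omega)] at h4
    simp only [an_iff, oo_iff, beq_iff, allN_iff, ne_iff'] at h4
    have := h4.2.resolve_left (by omega)
    exact ⟨fun k hk => (this k hk).1, fun k hk => (this k hk).2⟩
  · rw [if_neg (by omega), an_iff, beq_iff] at h4
    exact h4.1
  · rw [if_pos e] at h4
    exact beq_iff.1 h4

theorem cnt (mv : ℕ → ℕ) (M d : ℕ) : ∀ a, cnt1 mv M d a = ∑ i ∈ range (2 ^ d),
    if 0 < a * 2 ^ d + i ∧ a * 2 ^ d + i ≤ M ∧ mty (mv (a * 2 ^ d + i)) = 1 then 1 else 0 := by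
  induction d with
  | zero =>
    intro a
    show cn (an (lt 0 a) (an (Nat.ble a M) (Nat.beq (mty (mv a)) 1))) 1 0 = _
    simp only [cn_eq, an_iff, lt_iff, ble_iff, beq_iff, pow_zero, sum_range_one, mul_one, add_zero]
  | succ d ih =>
    intro a
    have e : cnt1 mv M (d + 1) a = force (Nat.mul 2 a) fun b =>
      Nat.add (cnt1 mv M d b) (force (Nat.succ b) (cnt1 mv M d)) := rfl
    have e1 : 2 * a * 2 ^ d = a * (2 ^ d + 2 ^ d) := by ring
    have e2 : ∀ i, (2 * a + 1) * 2 ^ d + i = a * (2 ^ d + 2 ^ d) + (2 ^ d + i) := fun i => by ring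
    rw [e, force_eq, force_eq, Nat.add_eq, Nat.mul_eq, Nat.succ_eq_add_one, ih, ih, pow_succ,
      mul_two, sum_range_add, e1]
    simp only [e2]

theorem cnt0 {mv : ℕ → ℕ} {M d : ℕ} (h : M < 2 ^ d) :
    cnt1 mv M d 0 = ((Icc 1 M).filter fun t => mty (mv t) = 1).card := by
  rw [cnt, ← card_filter]
  refine congrArg _ (Finset.ext fun i => ?_)
  simp only [mem_filter, mem_range, mem_Icc, zero_mul, zero_add]
  exact ⟨fun k => ⟨⟨k.2.1, k.2.2.1⟩, k.2.2.2⟩, fun k => ⟨by omega, k.1.1, k.1.2, k.2⟩⟩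

end MVC

theorem MVC (h1 : S_MV) (h2 : S_SEM) : S_MVC := by
  intro tt mv n n0 M c d ops hn hM hl hm hc hf
  have L := fun i hi => MVC.life (hl i hi)
  simp only [finChk, Bool.and_eq_true, decide_eq_true_eq, List.all_eq_true, List.any_eq_true,
    List.mem_range, beq_iff_eq] at hf
  obtain ⟨⟨⟨f1, f2⟩, f3⟩, f4⟩ := hf
  have key := h1 n M (fun i => lb (tt i)) (fun t => mid (mv t)) (fun t => lb (mvP tt (mv t)))
    (fun i => bt (tt i)) (fun i => dt (tt i)) bl dl (fun t => mty (mv t))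
    (fun i hi => by
      obtain ⟨a1, a2, a3, a4, a5, -⟩ := L i hi
      refine ⟨a1, a2, fun e _ => (a4 fun k => e.ne' (a3 k)).2.2, fun e => ?_⟩
      obtain ⟨j, b1, b2, b3⟩ := a5 e
      exact ⟨j, b2, b1, b3⟩)
    fun t t1 t2 => MVC.move (hm t t1 t2)
  have e0 : Live n (fun i => bt (tt i)) (fun i => dt (tt i)) 0 = range n0 := by
    ext i
    simp only [Live, mem_filter, mem_range]
    refine ⟨fun k => by_contra fun e => ?_, fun k => ?_⟩
    · exact ((L i k.1).2.2.2.1 e).1.not_ge k.2.1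
    · obtain ⟨a1, -, a3, -⟩ := L i (k.trans_le hn)
      exact ⟨k.trans_le hn, (a3 k).le, a3 k ▸ a1⟩
  have e1 : Live n (fun i => bt (tt i)) (fun i => dt (tt i)) M = (tets ops).toFinset := by
    ext i
    simp only [Live, mem_filter, mem_range, List.mem_toFinset]
    refine ⟨fun k => (L i k.1).2.2.2.2.2 k.2.2.not_ge, fun k => ?_⟩
    obtain ⟨⟨b1, b2⟩, -⟩ := f3 i k
    obtain ⟨-, -, a3, a4, -⟩ := L i b1
    refine ⟨b1, ?_, b2⟩
    by_cases e : i < n0
    · rw [a3 e]; exact Nat.zero_le _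
    · exact (a4 e).2.1
  have e2 : labs (tets ops).toFinset (fun i => lb (tt i)) = (elims ops).toFinset := by
    ext l
    simp only [labs, mem_biUnion, mem_image, mem_range, List.mem_toFinset]
    exact ⟨fun ⟨i, hi, k, hk, e⟩ => e ▸ (f3 i hi).2 k hk, f4 l⟩
  rw [e0, e1, ← MVC.cnt0 hM, hc] at key
  rw [key, h2 13 _ ops f1, ZL, e2]
  simp only [List.prod_toFinset _ f2]

end Pool.Agent.P.MP_4830f8_gt.RG
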