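import Pool.Agent.P.MP_4830f8_gt.RG.Iface

/-! The state sum of the double of a single tetrahedron. -/

set_option autoImplicit false

namespace Pool.Agent.P.MP_4830f8_gt.RG

open Finset

namespace NB

lemma hK : (range 5).powersetCard 4 =
    ({{0, 1, 2, 3}, {0, 1, 2, 4}, {0, 1, 3, 4}, {0, 2, 3, 4}, {1, 2, 3, 4}} : Cx) := by
  decide

lemma heI : eI ((range 5).powersetCard 4) = ∅ := by decide

lemma hvI : vI ((range 5).powersetCard 4) = ∅ := by decide

lemma hvB : (vB ((range 5).powersetCard 4)).card = 4 := by decide

lemma heB : eB ((range 5).powersetCard 4) =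
    insert {1, 2} (insert {1, 3} (insert {1, 4} (insert {2, 3} (insert {2, 4}
      (insert {3, 4} ∅))))) := by decide

lemma hZ (c : Finset (Finset ℕ)) : ZZ ((range 5).powersetCard 4) c = WW {1, 2, 3, 4} c := by
  rw [ZZ, heI, SS_empty, hK, union_empty, prod_insert (by decide), prod_insert (by decide),
    prod_insert (by decide), prod_insert (by decide), prod_singleton]
  unfold W0
  rw [if_pos (by decide), if_pos (by decide), if_pos (by decide), if_pos (by decide),
    if_neg (by decide)]
  have h := fun (F : Finset ℕ) (hF : F ⊆ {1, 2, 3, 4}) => WW_mul_AD hF c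
  rw [mul_comm (AD _ c) (WW _ c), h _ (by decide), mul_comm (AD _ c) (WW _ c), h _ (by decide),
    mul_comm (AD _ c) (WW _ c), h _ (by decide), mul_comm (AD _ c) (WW _ c), h _ (by decide)]

end NB

theorem NB : S_NB := by
  unfold S_NB NN
  rw [NB.hvI, NB.hvB, NB.heB]
  simp only [NB.hZ]
  have hs : SS (insert {1, 2} (insert {1, 3} (insert {1, 4} (insert {2, 3} (insert {2, 4}
      (insert {3, 4} (∅ : Finset (Finset ℕ)))))))) (fun c => WW {1, 2, 3, 4} c ^ 2) = DD ^ 3 := by
    rw [← bball, SS_insert_sm (by decide)]
    congr 1; funext a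
    rw [SS_insert_sm (by decide)]
    congr 1; funext b
    rw [SS_insert_sm (by decide)]
    congr 1; funext c
    rw [SS_insert_sm (by decide)]
    congr 1; funext d
    rw [SS_insert_sm (by decide)]
    congr 1; funext e
    rw [SS_insert_sm (by decide)]
    congr 1; funext f
    rw [SS_empty, WW_eq (by decide) (by decide) (by decide) (by decide) (by decide) (by decide)]
    cases a <;> cases b <;> cases c <;> cases d <;> cases e <;> cases f <;> rfl
  rw [hs]
  have := DD_pos
  simp only [card_empty, mul_zero, zero_add]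
  field_simp

end Pool.Agent.P.MP_4830f8_gt.RG
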