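import Pool.Agent.P.MP_4830f8_gt.RG.Iface

/-! A Newton type existence lemma and a recovery lemma for traceless matrices. -/

set_option autoImplicit false

namespace Pool.Agent.P.MP_4830f8_gt.RG

open Finset Matrix

namespace NEWT

theorem norm_mulVec_le {n : ℕ} (A : Matrix (Fin n) (Fin n) ℂ)
    (hA : ∀ i, ∑ j, ‖A i j‖ ≤ 1 / 2) (v : Fin n → ℂ) : ‖A *ᵥ v‖ ≤ 1 / 2 * ‖v‖ := by
  rw [pi_norm_le_iff_of_nonneg (by positivity)]
  intro i
  calc ‖(A *ᵥ v) i‖ = ‖∑ j, A i j * v j‖ := rfl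
    _ ≤ ∑ j, ‖A i j * v j‖ := norm_sum_le _ _
    _ ≤ ∑ j, ‖A i j‖ * ‖v‖ := by
        refine Finset.sum_le_sum fun j _ => ?_
        rw [norm_mul]
        exact mul_le_mul_of_nonneg_left (norm_le_pi_norm v j) (norm_nonneg _)
    _ = (∑ j, ‖A i j‖) * ‖v‖ := by rw [Finset.sum_mul]
    _ ≤ 1 / 2 * ‖v‖ := mul_le_mul_of_nonneg_right (hA i) (norm_nonneg _)

theorem mem_ball_iff {n : ℕ} (x x₀ : Fin n → ℂ) {ρ : ℝ} (hρ : 0 < ρ) :
    x ∈ Metric.closedBall x₀ ρ ↔ ∀ j, ‖x j - x₀ j‖ ≤ ρ := by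
  rw [mem_closedBall_iff_norm, pi_norm_le_iff_of_nonneg hρ.le]
  rfl

theorem sq_eq (p : M2) (h : p.trace = 0) (hd : p.det = 1) : p * p = -1 := by
  rw [Matrix.trace_fin_two] at h
  rw [Matrix.det_fin_two] at hd
  have h11 : p 1 1 = -p 0 0 := by linear_combination h
  rw [h11] at hd
  ext i j
  fin_cases i <;> fin_cases j <;> simp [Matrix.mul_apply, Fin.sum_univ_two, h11]
  · linear_combination -hd
  · ring
  · ring
  · linear_combination -hd

theorem triple (p q r s : M2) (hp : p * p = -1) (hq : q * q = -1) (hr : r * r = -1)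
    (hs : s * s = -1) (h : p * q * r * s = 1 ∨ p * q * r * s = -1) :
    ((r * s - s * r) * p).trace = 0 := by
  have key : ∀ e : ℂ, p * q * r * s = e • (1 : M2) → e * e = 1 →
      ((r * s - s * r) * p).trace = 0 := by
    intro e he hee
    have h1 : r * s = e • (q * p) := by
      have : q * p * (p * q * r * s) = r * s := by
        calc q * p * (p * q * r * s) = q * (p * p) * q * (r * s) := by simp only [mul_assoc]
          _ = -(q * q) * (r * s) := by rw [hp]; simp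
          _ = r * s := by rw [hq]; simp
      rw [← this, he]; simp
    have h2 : s * r = e • (p * q) := by
      have h3 : p * q * r * s * (s * r) = p * q := by
        calc p * q * r * s * (s * r) = p * q * (r * (s * s) * r) := by simp only [mul_assoc]
          _ = p * q * (-(r * r)) := by rw [hs]; simp
          _ = p * q := by rw [hr]; simp
      rw [← h3, he, smul_mul_assoc, one_mul, smul_smul, hee, one_smul]
    have h4 : (q * p * p).trace = (p * q * p).trace := by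
      rw [Matrix.trace_mul_comm (p * q) p, ← mul_assoc, hp, mul_assoc, hp]
      simp
    rw [h1, h2, ← smul_sub, smul_mul_assoc, Matrix.trace_smul, sub_mul, Matrix.trace_sub, h4,
      sub_self, smul_zero]
  rcases h with h | h
  · exact key 1 (by simpa using h) (by simp)
  · exact key (-1) (by simpa using h) (by simp)

end NEWT

theorem NEWT : S_NEWT := by
  intro n F x₀ ρ Y hρ hS h0
  set G : (Fin n → ℂ) → Fin n → ℂ := fun x => x - Y *ᵥ F x with hG
  have hlip : ∀ x ∈ Metric.closedBall x₀ ρ, ∀ y ∈ Metric.closedBall x₀ ρ,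
      ‖G x - G y‖ ≤ 1 / 2 * ‖x - y‖ := by
    intro x hx y hy
    obtain ⟨S, hS1, hS2⟩ := hS x y ((NEWT.mem_ball_iff x x₀ hρ).1 hx)
      ((NEWT.mem_ball_iff y x₀ hρ).1 hy)
    have : G x - G y = (1 - Y * S) *ᵥ (x - y) := by
      rw [Matrix.sub_mulVec, Matrix.one_mulVec, ← Matrix.mulVec_mulVec, ← hS1,
        Matrix.mulVec_sub]
      simp only [hG]
      abel
    rw [this]
    exact NEWT.norm_mulVec_le _ hS2 _
  have hx₀ : x₀ ∈ Metric.closedBall x₀ ρ := Metric.mem_closedBall_self hρ.le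
  have hG0 : ‖G x₀ - x₀‖ ≤ ρ / 2 := by
    have : G x₀ - x₀ = -(Y *ᵥ F x₀) := by simp only [hG]; abel
    rw [this, norm_neg, pi_norm_le_iff_of_nonneg (by positivity)]
    exact h0
  have hmaps : Set.MapsTo G (Metric.closedBall x₀ ρ) (Metric.closedBall x₀ ρ) := by
    intro x hx
    rw [mem_closedBall_iff_norm]
    have h1 := hlip x hx x₀ hx₀
    have h2 : ‖x - x₀‖ ≤ ρ := mem_closedBall_iff_norm.1 hx
    calc ‖G x - x₀‖ = ‖(G x - G x₀) + (G x₀ - x₀)‖ := by congr 1; abel
      _ ≤ ‖G x - G x₀‖ + ‖G x₀ - x₀‖ := norm_add_le _ _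
      _ ≤ ρ := by linarith
  have hc : ContractingWith (1 / 2 : NNReal) (hmaps.restrict G _ _) := by
    refine ⟨by norm_num, LipschitzWith.of_dist_le_mul fun x y => ?_⟩
    have := hlip x.1 x.2 y.1 y.2
    rw [Subtype.dist_eq, Subtype.dist_eq, dist_eq_norm, dist_eq_norm]
    simpa using this
  obtain ⟨x, hx, hfix, -⟩ := ContractingWith.exists_fixedPoint'
    (Metric.isClosed_closedBall.isComplete) hmaps hc hx₀ (edist_ne_top _ _)
  refine ⟨x, (NEWT.mem_ball_iff x x₀ hρ).1 hx, ?_⟩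
  have hY0 : Y *ᵥ F x = 0 := by
    have : x - Y *ᵥ F x = x := hfix
    simpa using this
  obtain ⟨S, -, hS2⟩ := hS x₀ x₀ ((NEWT.mem_ball_iff x₀ x₀ hρ).1 hx₀)
    ((NEWT.mem_ball_iff x₀ x₀ hρ).1 hx₀)
  have hdet : (Y * S).det ≠ 0 := by
    intro hd
    obtain ⟨v, hv, hv0⟩ := Matrix.exists_mulVec_eq_zero_iff.2 hd
    have h1 : (1 - Y * S) *ᵥ v = v := by rw [Matrix.sub_mulVec, hv0]; simp
    have h2 := NEWT.norm_mulVec_le _ hS2 v
    rw [h1] at h2
    have h3 : ‖v‖ = 0 := by linarith [norm_nonneg v]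
    exact hv (norm_eq_zero.1 h3)
  have hY : Y.det ≠ 0 := by
    intro hd
    apply hdet
    rw [Matrix.det_mul, hd, zero_mul]
  exact Matrix.eq_zero_of_mulVec_eq_zero hY hY0

theorem REC : S_REC := by
  intro p q r s hp hq hr hs dp dq dr ds h i j hN hM
  have ht := NEWT.triple p q r s (NEWT.sq_eq p hp dp) (NEWT.sq_eq q hq dq) (NEWT.sq_eq r hr dr)
    (NEWT.sq_eq s hs ds) h
  rw [Matrix.trace_fin_two] at hp hr hs ht
  rw [Matrix.det_fin_two] at dr ds
  have hp1 : p 1 1 = -p 0 0 := by linear_combination hp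
  have hr1 : r 1 1 = -r 0 0 := by linear_combination hr
  have hs1 : s 1 1 = -s 0 0 := by linear_combination hs
  simp only [Matrix.mul_apply, Matrix.sub_apply, Fin.sum_univ_two, hp1, hr1, hs1] at ht
  rw [hr1] at dr
  rw [hs1] at ds
  have key : r 0 1 * s 1 0 - s 0 1 * r 1 0 = 0 ∧ r 0 0 * s 0 1 - r 0 1 * s 0 0 = 0 ∧
      r 1 0 * s 0 0 - r 0 0 * s 1 0 = 0 := by
    fin_cases i <;> fin_cases j <;>
      simp only [Matrix.mul_apply, Matrix.sub_apply, Fin.sum_univ_two, hp1, hr1, hs1,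
        Fin.zero_eta, Fin.mk_one, Fin.isValue] at hN hM
    · refine ⟨by linear_combination hN, ?_, ?_⟩
      · apply mul_left_cancel₀ hM
        linear_combination (r 0 0 * p 0 1 - r 0 1 * p 0 0) * hN + (r 0 1 / 2) * ht
      · apply mul_left_cancel₀ hM
        linear_combination (r 1 0 * p 0 0 - r 0 0 * p 1 0) * hN - (r 1 0 / 2) * ht
    · refine ⟨?_, by linear_combination (1 / 2 : ℂ) * hN, ?_⟩
      · apply mul_left_cancel₀ hM
        linear_combination (r 0 1 * p 1 0 - p 0 1 * r 1 0) * hN - r 0 1 * ht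
      · apply mul_left_cancel₀ hM
        linear_combination (r 1 0 * p 0 0 - r 0 0 * p 1 0) * hN + r 0 0 * ht
    · refine ⟨?_, ?_, by linear_combination (1 / 2 : ℂ) * hN⟩
      · apply mul_left_cancel₀ hM
        linear_combination (r 0 1 * p 1 0 - p 0 1 * r 1 0) * hN + r 1 0 * ht
      · apply mul_left_cancel₀ hM
        linear_combination (r 0 0 * p 0 1 - r 0 1 * p 0 0) * hN - r 0 0 * ht
    · refine ⟨by linear_combination -hN, ?_, ?_⟩
      · apply mul_left_cancel₀ hM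
        linear_combination (r 0 0 * p 0 1 - r 0 1 * p 0 0) * hN - (r 0 1 / 2) * ht
      · apply mul_left_cancel₀ hM
        linear_combination (r 1 0 * p 0 0 - r 0 0 * p 1 0) * hN + (r 1 0 / 2) * ht
  obtain ⟨k1, k2, k3⟩ := key
  set c : ℂ := -(r 0 0 * s 0 0) - (r 0 1 * s 1 0 + r 1 0 * s 0 1) / 2 with hc
  have e0 : s 0 0 = c * r 0 0 := by
    rw [hc]; linear_combination (-s 0 0) * dr + (r 1 0 / 2) * k2 - (r 0 1 / 2) * k3
  have e1 : s 0 1 = c * r 0 1 := by
    rw [hc]; linear_combination (-s 0 1) * dr - r 0 0 * k2 + (r 0 1 / 2) * k1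
  have e2 : s 1 0 = c * r 1 0 := by
    rw [hc]; linear_combination (-s 1 0) * dr + r 0 0 * k3 - (r 1 0 / 2) * k1
  have hcc : (c - 1) * (c + 1) = 0 := by
    rw [e0, e1, e2] at ds
    linear_combination ds - c ^ 2 * dr
  rcases mul_eq_zero.1 hcc with h1 | h1
  · left
    have hc1 : c = 1 := by linear_combination h1
    rw [hc1, one_mul] at e0 e1 e2
    ext a b
    fin_cases a <;> fin_cases b <;> simp [e0, e1, e2, hr1, hs1]
  · right
    have hc1 : c = -1 := by linear_combination h1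
    rw [hc1, neg_one_mul] at e0 e1 e2
    ext a b
    fin_cases a <;> fin_cases b <;> simp [e0, e1, e2, hr1, hs1]

end Pool.Agent.P.MP_4830f8_gt.RG
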