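import Pool.Agent.P.MP_4830f8_gt.RG.Iface

/-! Invariance of the state sum of the double under gluing a tetrahedron along two triangles. -/

set_option autoImplicit false

namespace Pool.Agent.P.MP_4830f8_gt.RG

open Finset

namespace NF3

lemma alg (G : Bool → ℝ) (b c d e : Bool) :
    (sm fun x => (G x * (ad x c e * ad x b d)) ^ 2) =
      sm fun y => (sm fun x => G x * W6 x b c d e y) ^ 2 := by
  have h00 := bort false false b c d e
  have h01 := bort false true b c d e
  have h11 := bort true true b c d e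
  have a1 := ad_sq false b d
  have a2 := ad_sq false c e
  have a3 := ad_sq true b d
  have a4 := ad_sq true c e
  simp only [pw, sm, if_true, Bool.false_eq_true, if_false, one_mul] at h00 h01 h11 ⊢
  linear_combination (-(G false) ^ 2) * h00 - 2 * ph * G false * G true * h01 -
    ph * G true ^ 2 * h11 + G false ^ 2 * (ad false c e * ad false c e) * a1 +
    G false ^ 2 * ad false b d * a2 + ph * G true ^ 2 * (ad true c e * ad true c e) * a3 +
    ph * G true ^ 2 * ad true b d * a4

lemma pair_of_sub {a b : ℕ} {e : Finset ℕ} (hab : a ≠ b) (he : e.card = 2) (ha : a ∈ e)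
    (hb : b ∈ e) : e = {a, b} :=
  (eq_of_subset_of_card_le (insert_subset ha (singleton_subset_iff.2 hb))
    (by rw [he, card_pair hab])).symm

lemma SS_sm {α : Type} (E : Finset α) (f : Bool → Finset α → ℝ) :
    (sm fun x => SS E (f x)) = SS E fun U => sm fun x => f x U := by
  simp only [sm]
  rw [SS_add, SS_mul]

section
variable {p q r s : ℕ} {K K' : Cx} (h : Flip {0, p, q} {r, s} K K')
  (hp : p ≠ 0) (hq : q ≠ 0) (hr : r ≠ 0) (hs : s ≠ 0) (hpq : p ≠ q) (hpr : p ≠ r) (hps : p ≠ s)
  (hqr : q ≠ r) (hqs : q ≠ s) (hrs : r ≠ s)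
include h

lemma face_iff {F : Finset ℕ} (hA : ¬ {0, p, q} ⊆ F) (hB : ¬ {r, s} ⊆ F) :
    Face K F ↔ Face K' F := ⟨flip_face h hA, flip_face (flip_symm h) hB⟩

include hp hq hr hs hpq hrs

lemma vB_eq : vB K = vB K' := by
  ext v
  rw [mem_vB, mem_vB, face_iff h] <;>
    simp only [insert_subset_iff, singleton_subset_iff, mem_insert, mem_singleton] <;> omega

lemma vI_eq : vI K = vI K' := by
  ext v
  rw [mem_vI, mem_vI, face_iff h, face_iff (F := {0, v}) h] <;>
    simp only [insert_subset_iff, singleton_subset_iff, mem_insert, mem_singleton] <;> omega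

lemma face0_iff {e : Finset ℕ} (he : e.card = 2) (h1 : e ≠ {p, q}) (h2 : e ≠ {r, s}) :
    Face K (insert 0 e) ↔ Face K' (insert 0 e) := by
  refine face_iff h (fun k => h1 (pair_of_sub hpq he ?_ ?_)) fun k => h2 (pair_of_sub hrs he ?_ ?_)
  · simpa [hp] using k (show p ∈ _ by simp)
  · simpa [hq] using k (show q ∈ _ by simp)
  · simpa [hr] using k (show r ∈ _ by simp)
  · simpa [hs] using k (show s ∈ _ by simp)

include hpr hps hqr hqs

omit hp hq hr hpq hrs in
lemma pq_K : Face K {0, p, q} := flip_face_of h subset_union_left (by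
  simp only [insert_subset_iff, singleton_subset_iff, mem_insert, mem_singleton]; omega)

omit hp hr hs hpq hrs in
lemma rs_K' : Face K' {0, r, s} := flip_face_of (flip_symm h) (by
  simp [insert_subset_iff]) (by
  simp only [insert_subset_iff, singleton_subset_iff, mem_insert, mem_singleton]; omega)

lemma eB_eq : eB K' = insert {r, s} ((eB K).erase {p, q}) := by
  ext e
  rw [mem_insert, mem_erase, mem_eB, mem_eB]
  by_cases h2 : e = {r, s}
  · subst h2
    simp [card_pair hrs, hr.symm, hs.symm, rs_K' h hq hpr hps hqr hqs]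
  by_cases h1 : e = {p, q}
  · subst h1
    have := flip_not_face (flip_symm h) (subset_refl _)
    simp [this, h2]
  simp only [h2, false_or, ne_eq, h1, not_false_eq_true, true_and]
  exact and_congr_right fun he => by rw [face0_iff h hp hq hr hs hpq hrs he h1 h2]

lemma eI_eq : eI K' = insert {p, q} (eI K) := by
  ext e
  rw [mem_insert, mem_eI, mem_eI]
  by_cases h1 : e = {p, q}
  · subst h1
    have k1 := flip_not_face (flip_symm h) (subset_refl _)
    have k2 : Face K' {p, q} := flip_face_of (flip_symm h) (by simp [insert_subset_iff]) (by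
      simp only [insert_subset_iff, singleton_subset_iff, mem_insert, mem_singleton]; omega)
    simp [card_pair hpq, hp.symm, hq.symm, k1, k2]
  by_cases h2 : e = {r, s}
  · subst h2
    have k1 := flip_not_face h (subset_refl _)
    simp [k1, h1, rs_K' h hq hpr hps hqr hqs]
  simp only [h1, false_or]
  refine and_congr_right fun he => and_congr_right fun h0 => ?_
  rw [face0_iff h hp hq hr hs hpq hrs he h1 h2, face_iff (F := e) h (fun k => h0 (k (by simp)))
    fun k => h2 (pair_of_sub hrs he (k (by simp)) (k (by simp)))]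

lemma main : NN K = NN K' := by
  obtain ⟨R, hR, e1, e2⟩ := flip_prod h
  have hE : {p, q} ∈ eB K :=
    mem_eB.2 ⟨card_pair hpq, by simp [hp.symm, hq.symm], pq_K h hs hpr hps hqr hqs⟩
  have hrsB : {r, s} ∉ eB K := fun k =>
    flip_not_face h (subset_insert _ _) (mem_eB.1 k).2.2
  have hI : ∀ a b : ℕ, a ∈ ({p, q, r, s} : Finset ℕ) → b ∈ ({p, q, r, s} : Finset ℕ) →
      {a, b} ∉ eI K := by
    intro a b ha hb k
    obtain ⟨-, -, k1, k2⟩ := mem_eI.1 k
    by_cases hB : ({r, s} : Finset ℕ) ⊆ insert 0 {a, b}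
    · refine flip_not_face h ?_ k1
      simp only [insert_subset_iff, singleton_subset_iff, mem_insert, mem_singleton] at hB ⊢
      omega
    · refine k2 (flip_face_of h (fun v hv => ?_) hB)
      simp only [mem_insert, mem_singleton, mem_union] at ha hb hv ⊢
      omega
  have u1 : (({0, p, q} : Finset ℕ) ∪ {r, s}).erase r = {0, p, q, s} := by
    ext v; simp only [mem_erase, mem_union, mem_insert, mem_singleton]; omega
  have u2 : (({0, p, q} : Finset ℕ) ∪ {r, s}).erase s = {0, p, q, r} := by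
    ext v; simp only [mem_erase, mem_union, mem_insert, mem_singleton]; omega
  have u3 : (({0, p, q} : Finset ℕ) ∪ {r, s}).erase 0 = {p, q, r, s} := by
    ext v; simp only [mem_erase, mem_union, mem_insert, mem_singleton]; omega
  have u4 : (({0, p, q} : Finset ℕ) ∪ {r, s}).erase p = {0, q, r, s} := by
    ext v; simp only [mem_erase, mem_union, mem_insert, mem_singleton]; omega
  have u5 : (({0, p, q} : Finset ℕ) ∪ {r, s}).erase q = {0, p, r, s} := by
    ext v; simp only [mem_erase, mem_union, mem_insert, mem_singleton]; omega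
  have w0 : ∀ a b c : ℕ, a ≠ 0 → b ≠ 0 → c ≠ 0 → ∀ V, W0 {0, a, b, c} V = AD {a, b, c} V := by
    intro a b c ha hb hc V
    rw [W0, if_pos (mem_insert_self _ _), erase_insert (by simp [ha.symm, hb.symm, hc.symm])]
  have f1 : ∀ V, ∏ σ ∈ K, W0 σ V = (∏ σ ∈ R, W0 σ V) *
      (ad (decide ({p, q} ∈ V)) (decide ({p, s} ∈ V)) (decide ({q, s} ∈ V)) *
        ad (decide ({p, q} ∈ V)) (decide ({p, r} ∈ V)) (decide ({q, r} ∈ V))) := by
    intro V
    rw [e1, prod_pair hrs, u1, u2, w0 _ _ _ hp hq hs, w0 _ _ _ hp hq hr, AD_eq hpq hps hqs,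
      AD_eq hpq hpr hqr]
  have f2 : ∀ V, ∏ σ ∈ K', W0 σ V = (∏ σ ∈ R, W0 σ V) *
      W6 (decide ({p, q} ∈ V)) (decide ({p, r} ∈ V)) (decide ({p, s} ∈ V)) (decide ({q, r} ∈ V))
        (decide ({q, s} ∈ V)) (decide ({r, s} ∈ V)) := by
    intro V
    rw [e2, prod_insert (by simp [hp.symm, hq.symm]), prod_pair hpq, u3, u4, u5, w0 _ _ _ hq hr hs,
      w0 _ _ _ hp hr hs, W0, if_neg (by simp [hp.symm, hq.symm, hr.symm, hs.symm]),
      ← mul_assoc (WW _ _),
      WW_mul_AD (by simp [insert_subset_iff]), WW_mul_AD (by simp [insert_subset_iff]),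
      WW_eq hpq hpr hps hqr hqs hrs]
  have n1 : ({p, r} : Finset ℕ) ≠ {p, q} := pair_ne (by omega)
  have n2 : ({p, s} : Finset ℕ) ≠ {p, q} := pair_ne (by omega)
  have n3 : ({q, r} : Finset ℕ) ≠ {p, q} := pair_ne (by omega)
  have n4 : ({q, s} : Finset ℕ) ≠ {p, q} := pair_ne (by omega)
  have n5 : ({r, s} : Finset ℕ) ≠ {p, q} := pair_ne (by omega)
  have m1 : ({p, r} : Finset ℕ) ≠ {r, s} := pair_ne (by omega)
  have m2 : ({p, s} : Finset ℕ) ≠ {r, s} := pair_ne (by omega)
  have m3 : ({q, r} : Finset ℕ) ≠ {r, s} := pair_ne (by omega)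
  have m4 : ({q, s} : Finset ℕ) ≠ {r, s} := pair_ne (by omega)
  unfold NN
  rw [← vI_eq h hp hq hr hs hpq hrs, ← vB_eq h hp hq hr hs hpq hrs,
    eB_eq h hp hq hr hs hpq hpr hps hqr hqs hrs]
  congr 1
  conv_lhs => rw [← insert_erase hE]
  rw [SS_insert_sm (notMem_erase _ _), SS_insert_sm fun k => hrsB (mem_of_mem_erase k), SS_sm,
    SS_sm]
  refine SS_congr fun c hc => ?_
  have c1 : {p, q} ∉ c := fun k => notMem_erase _ _ (hc k)
  have c2 : {r, s} ∉ c := fun k => hrsB (mem_of_mem_erase (hc k))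
  set G : Bool → ℝ := fun x => SS (eI K) fun U =>
    ∏ σ ∈ R, W0 σ ((if x then insert {p, q} c else c) ∪ U) with hG
  have g1 : ∀ x : Bool, ZZ K (if x then insert {p, q} c else c) = G x *
      (ad x (decide ({p, s} ∈ c)) (decide ({q, s} ∈ c)) *
        ad x (decide ({p, r} ∈ c)) (decide ({q, r} ∈ c))) := by
    intro x
    rw [ZZ, hG, mul_comm, ← SS_mul]
    refine SS_congr fun U hU => ?_
    have k : ∀ a b : ℕ, a ∈ ({p, q, r, s} : Finset ℕ) → b ∈ ({p, q, r, s} : Finset ℕ) →
        {a, b} ∉ U := fun a b ha hb k => hI a b ha hb (hU k)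
    rw [f1, mul_comm]
    cases x <;> simp [k, c1, n1, n2, n3, n4]
  have g2 : ∀ y : Bool, ZZ K' (if y then insert {r, s} c else c) = sm fun x => G x *
      W6 x (decide ({p, r} ∈ c)) (decide ({p, s} ∈ c)) (decide ({q, r} ∈ c))
        (decide ({q, s} ∈ c)) y := by
    intro y
    rw [ZZ, eI_eq h hp hq hr hs hpq hpr hps hqr hqs hrs,
      SS_insert_sm (hI _ _ (by simp) (by simp))]
    congr 1
    funext x
    rw [hG, mul_comm, ← SS_mul]
    refine SS_congr fun U hU => ?_
    have k : ∀ a b : ℕ, a ∈ ({p, q, r, s} : Finset ℕ) → b ∈ ({p, q, r, s} : Finset ℕ) →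
        {a, b} ∉ U := fun a b ha hb k => hI a b ha hb (hU k)
    rw [f2, mul_comm]
    congr 1
    · cases x <;> cases y <;> simp [k, c1, c2, n1, n2, n3, n4, n5, n5.symm, m1, m2, m3, m4]
    · refine prod_congr rfl fun σ hσ => W0_congr fun e he _ _ => ?_
      have : e ≠ {r, s} := fun k => (hR σ hσ).2 (k ▸ he)
      cases x <;> cases y <;> simp [this]
  simp only [g1, g2]
  exact alg G _ _ _ _
end

end NF3

theorem NF3 : S_NF3 := by
  intro A B K K' h h0 hA
  have hd : Disjoint A B := h.2.2.1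
  have hB : B.card = 2 := by
    have := h.2.2.2.1
    rw [card_union_of_disjoint hd] at this
    omega
  obtain ⟨r, s, hrs, rfl⟩ := card_eq_two.1 hB
  have hA' : (A.erase 0).card = 2 := by rw [card_erase_of_mem h0, hA]
  obtain ⟨p, q, hpq, e⟩ := card_eq_two.1 hA'
  have hp : p ≠ 0 := (mem_erase.1 (e ▸ by simp : p ∈ A.erase 0)).1
  have hq : q ≠ 0 := (mem_erase.1 (e ▸ by simp : q ∈ A.erase 0)).1
  obtain rfl : A = {0, p, q} := by rw [← e, insert_erase h0]
  simp only [disjoint_insert_left, disjoint_singleton_left, mem_insert, mem_singleton,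
    not_or] at hd
  exact NF3.main h hp hq (by omega) (by omega) hpq (by omega) (by omega) (by omega) (by omega) hrs

end Pool.Agent.P.MP_4830f8_gt.RG
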