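import Pool.Agent.P.MP_4830f8_gt.RG.Iface

/-! Gluing a tetrahedron along one boundary triangle does not change `NN`. -/

set_option autoImplicit false

namespace Pool.Agent.P.MP_4830f8_gt.RG

open Finset

namespace NF4

lemma absorb {σ S : Finset ℕ} {F : ℕ → Finset ℕ} (h : ∀ a ∈ S, F a ⊆ σ) (U : Finset (Finset ℕ)) :
    WW σ U * ∏ a ∈ S, AD (F a) U = WW σ U := by
  induction S using Finset.induction_on with
  | empty => simp
  | insert a S ha ih =>
    rw [prod_insert ha, ← mul_assoc, WW_mul_AD (h a (mem_insert_self _ _)),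
      ih fun b hb => h b (mem_insert_of_mem hb)]

lemma pillow {p q r s : ℕ} (hpq : p ≠ q) (hpr : p ≠ r) (hqr : q ≠ r) (hps : p ≠ s) (hqs : q ≠ s)
    (hrs : r ≠ s) (c : Finset (Finset ℕ)) (hc : ∀ e ∈ c, s ∉ e) :
    SS {{p, s}, {q, s}, {r, s}} (fun V => WW {p, q, r, s} (c ∪ V) ^ 2) = DD * AD {p, q, r} c := by
  have n1 : ({p, s} : Finset ℕ) ≠ {q, s} := pair_ne (by omega)
  have n2 : ({p, s} : Finset ℕ) ≠ {r, s} := pair_ne (by omega)
  have n3 : ({q, s} : Finset ℕ) ≠ {r, s} := pair_ne (by omega)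
  have m : ∀ a b d : ℕ, a ≠ s → b ≠ s → ({a, b} : Finset ℕ) ≠ {d, s} := fun a b d h1 h2 =>
    pair_ne (by omega)
  have k : ∀ a : ℕ, ({a, s} : Finset ℕ) ∉ c := fun a h => hc _ h (by simp)
  rw [← insert_empty_eq ({r, s} : Finset ℕ), SS_insert_sm (by simp [n1, n2]), AD_eq hpq hpr hqr,
    ← bpil]
  refine congrArg sm (funext fun x => ?_)
  rw [SS_insert_sm (by simp [n3])]
  refine congrArg sm (funext fun y => ?_)
  rw [SS_insert_sm (notMem_empty _)]
  refine congrArg sm (funext fun z => ?_)
  rw [SS_empty, WW_eq hpq hpr hps hqr hqs hrs]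
  cases x <;> cases y <;> cases z <;>
    simp [n1, n2, n3, n1.symm, n2.symm, n3.symm, k, m p q _ hps hqs, m p r _ hps hrs,
      m q r _ hqs hrs]

end NF4

open NF4 in
theorem NF4 : S_NF4 := by
  intro A B K K' h h0 hA
  have hd : Disjoint A B := h.2.2.1
  have hB : B.card = 1 := by
    have := h.2.2.2.1
    rw [card_union_of_disjoint hd] at this
    omega
  obtain ⟨s, rfl⟩ := card_eq_one.1 hB
  have hs : s ∉ A := disjoint_singleton_right.1 hd
  have hs0 : s ≠ 0 := fun e => hs (e ▸ h0)
  obtain ⟨p, q, r, hpq, hpr, hqr, hP⟩ : ∃ p q r, p ≠ q ∧ p ≠ r ∧ q ≠ r ∧ A.erase 0 = {p, q, r} :=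
    card_eq_three.1 (by rw [card_erase_of_mem h0, hA])
  have hmem : ∀ x, x ∈ A ↔ x = 0 ∨ x = p ∨ x = q ∨ x = r := fun x => by
    rw [← insert_erase h0, hP]; simp
  have hP0 : ∀ x, x = p ∨ x = q ∨ x = r → x ≠ 0 := fun x hx => by
    have : x ∈ A.erase 0 := by rw [hP]; simpa using hx
    exact ne_of_mem_erase this
  have hps : p ≠ s := fun e => hs (e ▸ (hmem p).2 (by simp))
  have hqs : q ≠ s := fun e => hs (e ▸ (hmem q).2 (by simp))
  have hrs : r ≠ s := fun e => hs (e ▸ (hmem r).2 (by simp))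
  have hT : (A ∪ {s}).erase 0 = {p, q, r, s} := by
    rw [erase_union_distrib, hP, erase_eq_of_notMem (by simpa using hs0.symm)]
    ext x; simp
  have nA : ∀ F : Finset ℕ, F.card ≤ 3 → ¬ A ⊆ F := fun F hF k => by
    have := card_le_card k; omega
  have f1 : ∀ F : Finset ℕ, F.card ≤ 3 → s ∉ F → (Face K' F ↔ Face K F) := fun F hF k =>
    ⟨flip_face (flip_symm h) (by simpa using k), flip_face h (nA F hF)⟩
  have f2 : ∀ F : Finset ℕ, s ∈ F → ¬ Face K F := fun F k => flip_not_face h (by simpa using k)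
  have f3 : ∀ F : Finset ℕ, F.card ≤ 3 → s ∈ F → (Face K' F ↔ F ⊆ A ∪ {s}) := fun F hF k =>
    ⟨fun m => union_comm A {s} ▸ flip_sub (flip_symm h) (by simpa using k) m,
      fun m => flip_face_of (flip_symm h) (union_comm A {s} ▸ m) (nA F hF)⟩
  have h0' : (0 : ℕ) ∈ A ∪ {s} := mem_union_left _ h0
  have c3 : ∀ e : Finset ℕ, e.card = 2 → (insert 0 e).card ≤ 3 := fun e he =>
    (card_insert_le _ _).trans (by omega)
  have heI : eI K' = eI K := by
    ext e
    rw [mem_eI, mem_eI]
    refine and_congr_right fun he => and_congr_right fun _ => ?_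
    by_cases k : s ∈ e
    · rw [f3 e (by omega) k, f3 _ (c3 e he) (mem_insert_of_mem k)]
      exact ⟨fun m => (m.2 (insert_subset h0' m.1)).elim, fun m => (f2 e k m.1).elim⟩
    · rw [f1 e (by omega) k, f1 _ (c3 e he) (by simp [k, hs0])]
  have hvI : vI K' = vI K := by
    ext v
    rw [mem_vI, mem_vI]
    refine and_congr_right fun _ => ?_
    by_cases k : v = s
    · subst k
      rw [f3 {0, v} (card_le_two.trans (by omega)) (by simp)]
      exact ⟨fun m => (m.2 (insert_subset h0' subset_union_right)).elim,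
        fun m => (f2 _ (by simp) m.1).elim⟩
    · rw [f1 {v} (by simp) (by simpa using Ne.symm k),
        f1 {0, v} (card_le_two.trans (by omega)) (by simp [hs0, Ne.symm k])]
  have hsv : s ∉ vB K := fun m => f2 _ (by simp) (mem_vB.1 m).2
  have hvB : vB K' = insert s (vB K) := by
    ext v
    rw [mem_insert, mem_vB, mem_vB]
    by_cases k : v = s
    · subst k
      rw [f3 {0, v} (card_le_two.trans (by omega)) (by simp)]
      exact ⟨fun _ => Or.inl rfl, fun _ => ⟨hs0, insert_subset h0' subset_union_right⟩⟩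
    · rw [f1 {0, v} (card_le_two.trans (by omega)) (by simp [hs0, Ne.symm k])]
      simp [k]
  have hN : ∀ e ∈ ({{p, s}, {q, s}, {r, s}} : Finset (Finset ℕ)), s ∈ e := by simp
  have hE : ∀ e ∈ eB K, s ∉ e := fun e he k => f2 _ (mem_insert_of_mem k) (mem_eB.1 he).2.2
  have heB : eB K' = eB K ∪ {{p, s}, {q, s}, {r, s}} := by
    ext e
    rw [mem_union]
    by_cases k : s ∈ e
    · rw [or_iff_right fun m => hE e m k, mem_eB]
      constructor
      · rintro ⟨he, h1, h2⟩
        rw [f3 _ (c3 e he) (mem_insert_of_mem k)] at h2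
        obtain ⟨x, hx⟩ := card_eq_one.1 (by rw [card_erase_of_mem k, he] : (e.erase s).card = 1)
        have hx' : x ∈ e.erase s := hx ▸ mem_singleton_self x
        have hx2 := h2 (mem_insert_of_mem (mem_of_mem_erase hx'))
        have hx0 : x ≠ 0 := fun m => h1 (m ▸ mem_of_mem_erase hx')
        rw [mem_union, hmem, mem_singleton] at hx2
        rw [← insert_erase k, hx, pair_comm s x]
        rcases hx2 with (m | m | m | m) | m
        · exact absurd m hx0
        · simp [m]
        · simp [m]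
        · simp [m]
        · exact absurd m (ne_of_mem_erase hx')
      · have key : ∀ x, x = p ∨ x = q ∨ x = r → x ≠ s → ({x, s} : Finset ℕ).card = 2 ∧
            0 ∉ ({x, s} : Finset ℕ) ∧ Face K' (insert 0 {x, s}) := fun x hx hxs => by
          refine ⟨card_pair hxs, by simp [(hP0 x hx).symm, hs0.symm], ?_⟩
          rw [f3 _ (c3 _ (card_pair hxs)) (by simp)]
          exact insert_subset h0' (insert_subset (mem_union_left _ ((hmem x).2 (Or.inr hx)))
            subset_union_right)
        intro m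
        simp only [mem_insert, mem_singleton] at m
        rcases m with rfl | rfl | rfl
        · exact key p (by simp) hps
        · exact key q (by simp) hqs
        · exact key r (by simp) hrs
    · rw [or_iff_left fun m => k (hN e m), mem_eB, mem_eB]
      refine and_congr_right fun he => and_congr_right fun _ => ?_
      exact f1 _ (c3 e he) (by simp [k, hs0])
  have hI : ∀ e ⊆ (A ∪ {s}).erase 0, e ∉ eI K := fun e he m => by
    obtain ⟨-, -, m1, m2⟩ := mem_eI.1 m
    refine m2 (flip_face_of h (insert_subset h0' (he.trans (erase_subset _ _))) fun k => ?_)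
    rcases mem_insert.1 (k (mem_singleton_self s)) with k | k
    · exact hs0 k
    · exact f2 e k m1
  obtain ⟨R, hR, hK, hK'⟩ := flip_prod h
  set G : Finset (Finset ℕ) → ℝ := fun c => SS (eI K) fun U => ∏ σ ∈ R, W0 σ (c ∪ U) with hG
  have z1 : ∀ c, ZZ K c = AD {p, q, r} c * G c := fun c => by
    rw [ZZ, hG, ← SS_mul]
    refine SS_congr fun U hU => ?_
    rw [hK, prod_singleton, mul_comm, erase_union_distrib, erase_singleton, union_empty,
      erase_eq_of_notMem hs, W0, if_pos h0, ← hP]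
    refine congrArg (· * _) (AD_congr fun e he _ => ?_)
    rw [mem_union, or_iff_left fun m =>
      hI e (he.trans (erase_subset_erase _ subset_union_left)) (hU m)]
  have z2 : ∀ c V, (∀ e ∈ V, s ∈ e) → ZZ K' (c ∪ V) = WW {p, q, r, s} (c ∪ V) * G c := by
    intro c V hV
    rw [ZZ, heI, hG, ← SS_mul]
    refine SS_congr fun U hU => ?_
    rw [hK', mul_comm, ← mul_prod_erase A _ h0, W0, if_neg (notMem_erase _ _),
      prod_congr rfl (g := fun a => AD (((A ∪ {s}).erase a).erase 0) (c ∪ V ∪ U)) fun a ha => by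
        rw [W0, if_pos (mem_erase.2 ⟨(ne_of_mem_erase ha).symm, h0'⟩)],
      absorb fun a _ => erase_subset_erase _ (erase_subset _ _), ← hT]
    refine congrArg₂ (· * ·) (WW_congr fun e he _ => ?_)
      (prod_congr rfl fun σ hσ => W0_congr fun e he _ _ => ?_)
    · rw [mem_union, or_iff_left fun m => hI e he (hU m)]
    · have : e ∉ V := fun m => (hR σ hσ).2 (singleton_subset_iff.2 (he (hV e m)))
      simp [this]
  have hDD := DD_pos.ne'
  have main : SS (eB K') (fun c => ZZ K' c ^ 2) = DD * SS (eB K) fun c => ZZ K c ^ 2 := by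
    rw [heB, SS_union (disjoint_left.2 fun e m m' => hE e m (hN e m')), ← SS_mul]
    refine SS_congr fun c hc => ?_
    rw [SS_congr (g := fun V => G c ^ 2 * WW {p, q, r, s} (c ∪ V) ^ 2) fun V hV => by
        rw [z2 c V fun e m => hN e (hV m)]; ring,
      SS_mul, pillow hpq hpr hqr hps hqs hrs c fun e m => hE e (hc m), z1, mul_pow,
      sq (AD _ _), AD_mul_AD subset_rfl]
    ring
  rw [NN, NN, main, hvI, hvB, card_insert_of_notMem hsv, ← add_assoc, pow_succ]
  field_simp

end Pool.Agent.P.MP_4830f8_gt.RG
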