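import Pool.Agent.P.MP_4830f8_gt.RG.Iface

/-! Invariance of `NN` under interior flips. -/

set_option autoImplicit false

namespace Pool.Agent.P.MP_4830f8_gt.RG

open Finset

namespace NFI

variable {A B : Finset ℕ} {K K' : Cx}

lemma notc (h : Flip A B K K') (h0 : 0 ∉ A ∪ B) {F : Finset ℕ} (hA : A ⊆ insert 0 F) :
    ¬ Face K (insert 0 F) := fun hF => h0 (flip_sub h hA hF (mem_insert_self _ _))

lemma cone (h : Flip A B K K') (h0 : 0 ∉ A ∪ B) {F : Finset ℕ} (hF : Face K (insert 0 F)) :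
    Face K' (insert 0 F) := flip_face h (fun hA => notc h h0 hA hF) hF

lemma cone_iff (h : Flip A B K K') (h0 : 0 ∉ A ∪ B) (F : Finset ℕ) :
    Face K (insert 0 F) ↔ Face K' (insert 0 F) :=
  ⟨cone h h0, cone (flip_symm h) (by rwa [union_comm])⟩

lemma eI_split (h : Flip A B K K') (h0 : 0 ∉ A ∪ B) :
    eI K = (eI K).filter (fun e => ¬ A ⊆ e) ∪ eO A B := by
  ext e
  simp only [mem_union, mem_filter, eO, mem_powersetCard]
  constructor
  · intro he
    by_cases hA : A ⊆ e
    · have := mem_eI.1 he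
      exact .inr ⟨⟨flip_sub h hA this.2.2.1, this.1⟩, hA⟩
    · exact .inl ⟨he, hA⟩
  · rintro (he | ⟨⟨h1, h2⟩, h3⟩)
    · exact he.1
    · refine mem_eI.2 ⟨h2, fun k => h0 (h1 k), flip_face_of h h1 fun hB => ?_,
        notc h h0 (h3.trans (subset_insert _ _))⟩
      have := card_le_card (union_subset h3 hB)
      rw [h.2.2.2.1] at this
      omega

lemma eI_sub (h : Flip A B K K') (h0 : 0 ∉ A ∪ B) :
    (eI K).filter (fun e => ¬ A ⊆ e) ⊆ (eI K').filter (fun e => ¬ B ⊆ e) := by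
  intro e he
  obtain ⟨he, hA⟩ := mem_filter.1 he
  obtain ⟨h1, h2, h3, h4⟩ := mem_eI.1 he
  exact mem_filter.2 ⟨mem_eI.2 ⟨h1, h2, flip_face h hA h3, fun k => h4 ((cone_iff h h0 e).2 k)⟩,
    fun hB => flip_not_face h hB h3⟩

lemma vI_sub (h : Flip A B K K') (h0 : 0 ∉ A ∪ B) :
    (vI K).filter (fun v => ¬ A ⊆ {v}) ⊆ (vI K').filter (fun v => ¬ B ⊆ {v}) := by
  intro v hv
  obtain ⟨hv, hA⟩ := mem_filter.1 hv
  obtain ⟨h1, h3, h4⟩ := mem_vI.1 hv
  exact mem_filter.2 ⟨mem_vI.2 ⟨h1, flip_face h hA h3, fun k => h4 ((cone_iff h h0 {v}).2 k)⟩,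
    fun hB => flip_not_face h hB h3⟩

lemma vI_card (h : Flip A B K K') (h0 : 0 ∉ A ∪ B) :
    (vI K).card = ((vI K).filter fun v => ¬ A ⊆ {v}).card + if A.card = 1 then 1 else 0 := by
  rw [← card_filter_add_card_filter_not (s := vI K) fun v => A ⊆ {v}, add_comm]
  congr 1
  split_ifs with hA
  · obtain ⟨a, rfl⟩ := card_eq_one.1 hA
    refine card_eq_one.2 ⟨a, ?_⟩
    ext v
    simp only [mem_filter, singleton_subset_iff, mem_singleton]
    refine ⟨fun k => k.2.symm, ?_⟩
    rintro rfl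
    refine ⟨mem_vI.2 ⟨fun k => h0 (by simp [k]), flip_face_of h subset_union_left fun hB => ?_,
      notc h h0 (F := {v}) (subset_insert _ _)⟩, rfl⟩
    obtain ⟨b, hb⟩ := h.2.1
    exact disjoint_left.1 h.2.2.1 (hB hb) hb
  · rw [card_eq_zero, filter_eq_empty_iff]
    intro v _ hv
    have h1 := card_le_card hv
    have h2 := card_pos.2 h.1
    rw [card_singleton] at h1
    omega

end NFI

open NFI

theorem NFI (h : S_CORE) : S_NFI := by
  intro A B K K' hf h0
  have hf' := flip_symm hf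
  have h0' : 0 ∉ B ∪ A := by rwa [union_comm]
  have e1 : eB K = eB K' := by
    ext e
    rw [mem_eB, mem_eB, cone_iff hf h0]
  have e2 : vB K = vB K' := by
    ext v
    rw [mem_vB, mem_vB]
    exact and_congr_right fun _ => cone_iff hf h0 {v}
  have e3 := Subset.antisymm (eI_sub hf h0) (eI_sub hf' h0')
  have e4 := Subset.antisymm (vI_sub hf h0) (vI_sub hf' h0')
  have e5 := vI_card hf h0
  have e6 := vI_card hf' h0'
  rw [← e4] at e6
  have key : ∀ c ⊆ eB K, DD ^ (if B.card = 1 then 1 else 0) * ZZ K c =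
      DD ^ (if A.card = 1 then 1 else 0) * ZZ K' c := by
    intro c hc
    have := h A B K K' hf W0 (fun σ U U' k => W0_congr fun e he h2 _ => k e he h2)
      (fun σ hσ U => if_neg fun k => h0 (hσ k)) ((eI K).filter fun e => ¬ A ⊆ e) c ?_
    · rw [← eI_split hf h0, e3, ← eI_split hf' h0'] at this
      exact this
    · intro e he
      rcases mem_union.1 he with he | he
      · exact ⟨(mem_filter.1 he).2, (mem_filter.1 (eI_sub hf h0 he)).2⟩
      · have k := (mem_eB.1 (hc he)).2.2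
        exact ⟨fun hA => notc hf h0 (hA.trans (subset_insert _ _)) k, fun hB =>
          notc hf' h0' (hB.trans (subset_insert _ _)) (cone hf h0 k)⟩
  have hD := DD_pos.ne'
  unfold NN
  rw [← e1, ← e2, e5, e6]
  generalize (if B.card = 1 then 1 else 0) = i at key
  generalize (if A.card = 1 then 1 else 0) = j at key
  have e7 : SS (eB K) (fun c => ZZ K' c ^ 2) =
      (DD ^ i / DD ^ j) ^ 2 * SS (eB K) fun c => ZZ K c ^ 2 := by
    rw [← SS_mul]
    refine SS_congr fun c hc => ?_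
    rw [← mul_pow, div_mul_eq_mul_div, key c hc]
    field_simp
  rw [e7]
  field_simp
  ring

end Pool.Agent.P.MP_4830f8_gt.RG
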