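import Pool.Agent.P.MP_4830f8_gt.RG.Iface

/-! Attaching a handle multiplies the number of the double by the global dimension. -/

set_option autoImplicit false

namespace Pool.Agent.P.MP_4830f8_gt.RG

open Finset

namespace NH

/-- seven distinct points -/
def Dst (a b c d e f : ℕ) : Prop :=
  ((0 ≠ a ∧ 0 ≠ b ∧ 0 ≠ c ∧ 0 ≠ d ∧ 0 ≠ e ∧ 0 ≠ f) ∧ (a ≠ b ∧ a ≠ c ∧ a ≠ d ∧ a ≠ e ∧ a ≠ f) ∧
    (b ≠ c ∧ b ≠ d ∧ b ≠ e ∧ b ≠ f) ∧ (c ≠ d ∧ c ≠ e ∧ c ≠ f) ∧ (d ≠ e ∧ d ≠ f) ∧ e ≠ f) ∧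
  ((a ≠ 0 ∧ b ≠ 0 ∧ c ≠ 0 ∧ d ≠ 0 ∧ e ≠ 0 ∧ f ≠ 0) ∧ (b ≠ a ∧ c ≠ a ∧ d ≠ a ∧ e ≠ a ∧ f ≠ a) ∧
    (c ≠ b ∧ d ≠ b ∧ e ≠ b ∧ f ≠ b) ∧ (d ≠ c ∧ e ≠ c ∧ f ≠ c) ∧ (e ≠ d ∧ f ≠ d) ∧ f ≠ e)

/-- the two cones -/
def CC (a b c d e f : ℕ) : Cx := {{0, a, b, c}, {0, d, e, f}}
/-- the prism and its six cones -/
def PP (a b c d e f : ℕ) : Cx := {{a, b, c, f}, {a, b, e, f}, {a, d, e, f}, {0, a, b, e},
  {0, a, d, e}, {0, b, c, f}, {0, b, e, f}, {0, a, c, f}, {0, a, d, f}}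
/-- the old edges -/
def OE (a b c d e f : ℕ) : Cx := {{a, b}, {a, c}, {b, c}, {d, e}, {d, f}, {e, f}}
/-- the new edges -/
def NE (a b c d e f : ℕ) : Cx := {{a, d}, {a, e}, {a, f}, {b, e}, {b, f}, {c, f}}

variable {a b c d e f : ℕ} {R : Cx} {k : Finset ℕ}

lemma dst_of (h : [0, a, b, c, d, e, f].Nodup) : Dst a b c d e f := by
  simp only [List.nodup_cons, List.mem_cons, List.not_mem_nil, or_false, not_or,
    not_false_eq_true, List.nodup_nil, and_true] at h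
  refine ⟨h, ?_⟩
  obtain ⟨⟨h1, h2, h3, h4, h5, h6⟩, ⟨h7, h8, h9, h10, h11⟩, ⟨h12, h13, h14, h15⟩,
    ⟨h16, h17, h18⟩, ⟨h19, h20⟩, h21⟩ := h
  exact ⟨⟨.symm h1, .symm h2, .symm h3, .symm h4, .symm h5, .symm h6⟩,
    ⟨.symm h7, .symm h8, .symm h9, .symm h10, .symm h11⟩,
    ⟨.symm h12, .symm h13, .symm h14, .symm h15⟩, ⟨.symm h16, .symm h17, .symm h18⟩,
    ⟨.symm h19, .symm h20⟩, .symm h21⟩

lemma face_union {X Y : Cx} {F : Finset ℕ} : Face (X ∪ Y) F ↔ Face X F ∨ Face Y F := by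
  simp only [Face, mem_union, or_and_right, exists_or]

lemma pair_eq {x y z w : ℕ} :
    ({x, y} : Finset ℕ) = {z, w} ↔ (x = z ∧ y = w) ∨ (x = w ∧ y = z) := by
  refine ⟨fun h => by_contra fun h' => pair_ne h' h, ?_⟩
  rintro (⟨rfl, rfl⟩ | ⟨rfl, rfl⟩)
  · rfl
  · exact pair_comm _ _

lemma sub3 {x y z : ℕ} (h1 : x ≠ y) (h2 : x ≠ z) (h3 : y ≠ z) (hk : k.card = 2) (h0 : 0 ∉ k)
    (h : k ⊆ {0, x, y, z}) : k = {x, y} ∨ k = {x, z} ∨ k = {y, z} := by
  have := mem_powersetCard.2 ⟨(subset_insert_iff_of_notMem h0).1 h, hk⟩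
  rw [pc2_three h1 h2 h3] at this
  simpa using this

lemma sub4 {x y z w : ℕ} (h1 : x ≠ y) (h2 : x ≠ z) (h3 : x ≠ w) (h4 : y ≠ z) (h5 : y ≠ w)
    (h6 : z ≠ w) (hk : k.card = 2) (h : k ⊆ {x, y, z, w}) :
    (k = {x, y} ∨ k = {x, z} ∨ k = {x, w}) ∨ k = {y, z} ∨ k = {y, w} ∨ k = {z, w} := by
  have := mem_powersetCard.2 ⟨h, hk⟩
  rw [pc2_four h1 h2 h3 h4 h5 h6, mem_union] at this
  simpa only [mem_insert, mem_singleton] using this

lemma face_C (h : Dst a b c d e f) (hk : k.card = 2) (h0 : 0 ∉ k) (hF : Face (CC a b c d e f) k) :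
    k ∈ OE a b c d e f := by
  obtain ⟨σ, h1, h2⟩ := hF
  obtain ⟨p, q⟩ := h
  simp only [CC, mem_insert, mem_singleton] at h1
  simp only [OE, mem_insert, mem_singleton]
  rcases h1 with rfl | rfl <;>
  · have := sub3 (by simp [p]) (by simp [p]) (by simp [p]) hk h0 h2
    tauto

lemma face_P (h : Dst a b c d e f) (hk : k.card = 2) (h0 : 0 ∉ k) (hF : Face (PP a b c d e f) k) :
    k ∈ OE a b c d e f ∨ k ∈ NE a b c d e f := by
  obtain ⟨σ, h1, h2⟩ := hF
  obtain ⟨p, q⟩ := h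
  simp only [PP, mem_insert, mem_singleton] at h1
  simp only [OE, NE, mem_insert, mem_singleton]
  rcases h1 with rfl | rfl | rfl | h1
  iterate 3
    have := sub4 (by simp [p]) (by simp [p]) (by simp [p]) (by simp [p]) (by simp [p])
      (by simp [p]) hk h2
    rcases this with (rfl | rfl | rfl) | rfl | rfl | rfl <;> simp only [true_or, or_true]
  rcases h1 with rfl | rfl | rfl | rfl | rfl | rfl <;>
  · have := sub3 (by simp [p]) (by simp [p]) (by simp [p]) hk h0 h2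
    rcases this with rfl | rfl | rfl <;> simp only [true_or, or_true]

lemma cone_C (hk : k ∈ OE a b c d e f) : Face (CC a b c d e f) (insert 0 k) := by
  simp only [OE, mem_insert, mem_singleton] at hk
  rcases hk with rfl | rfl | rfl | rfl | rfl | rfl <;> simp [Face, CC, insert_subset_iff]

lemma cone_P (hk : k ∈ OE a b c d e f ∨ k ∈ NE a b c d e f) :
    Face (PP a b c d e f) (insert 0 k) := by
  simp only [OE, NE, mem_insert, mem_singleton] at hk
  rcases hk with (rfl | rfl | rfl | rfl | rfl | rfl) | rfl | rfl | rfl | rfl | rfl | rfl <;>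
    simp [Face, PP, insert_subset_iff]

lemma new_prop (h : Dst a b c d e f) (hk : k ∈ NE a b c d e f) :
    k.card = 2 ∧ 0 ∉ k ∧ k ∉ OE a b c d e f := by
  obtain ⟨p, q⟩ := h
  simp only [NE, mem_insert, mem_singleton] at hk
  rcases hk with rfl | rfl | rfl | rfl | rfl | rfl <;> simp [OE, pair_eq, p, q]

lemma eB_eq (h : Dst a b c d e f) :
    eB (R ∪ PP a b c d e f) = eB (R ∪ CC a b c d e f) ∪ NE a b c d e f := by
  ext k
  simp only [mem_union, mem_eB, face_union]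
  constructor
  · rintro ⟨h1, h2, h3 | h3⟩
    · exact .inl ⟨h1, h2, .inl h3⟩
    · rcases face_P h h1 h2 (Face.mono h3 (subset_insert _ _)) with h4 | h4
      · exact .inl ⟨h1, h2, .inr (cone_C h4)⟩
      · exact .inr h4
  · rintro (⟨h1, h2, h3 | h3⟩ | h3)
    · exact ⟨h1, h2, .inl h3⟩
    · exact ⟨h1, h2, .inr (cone_P (.inl (face_C h h1 h2 (Face.mono h3 (subset_insert _ _)))))⟩
    · exact ⟨(new_prop h h3).1, (new_prop h h3).2.1, .inr (cone_P (.inr h3))⟩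

lemma eI_eq (h : Dst a b c d e f) (hR : ∀ k ∈ NE a b c d e f, ¬ Face R k) :
    eI (R ∪ PP a b c d e f) = eI (R ∪ CC a b c d e f) := by
  ext k
  simp only [mem_eI, face_union, not_or]
  refine and_congr_right fun h1 => and_congr_right fun h2 => ?_
  constructor
  · rintro ⟨h3 | h3, h4, h5⟩
    · exact ⟨.inl h3, h4, fun h6 =>
        h5 (cone_P (.inl (face_C h h1 h2 (Face.mono h6 (subset_insert _ _)))))⟩
    · exact (h5 (cone_P (face_P h h1 h2 h3))).elim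
  · rintro ⟨h3 | h3, h4, h5⟩
    · exact ⟨.inl h3, h4, fun h6 => (face_P h h1 h2 (Face.mono h6 (subset_insert _ _))).elim
        (fun h7 => h5 (cone_C h7)) fun h7 => hR k h7 h3⟩
    · exact (h5 (cone_C (face_C h h1 h2 h3))).elim

lemma vert {v : ℕ} (hv : v ≠ 0) :
    (Face (PP a b c d e f) {0, v} ↔ Face (CC a b c d e f) {0, v}) ∧
    (Face (PP a b c d e f) {v} ↔ Face (CC a b c d e f) {v}) := by
  have : v = a ∨ v = b ∨ v = c ∨ v = d ∨ v = e ∨ v = f ∨
      (v ≠ a ∧ v ≠ b ∧ v ≠ c ∧ v ≠ d ∧ v ≠ e ∧ v ≠ f) := by tauto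
  rcases this with rfl | rfl | rfl | rfl | rfl | rfl | h
  iterate 6 simp [Face, PP, CC, insert_subset_iff]
  simp [Face, PP, CC, insert_subset_iff, hv, h]

lemma prod_C (h : Dst a b c d e f) (V : Finset (Finset ℕ)) :
    ∏ σ ∈ CC a b c d e f, W0 σ V = AD {a, b, c} V * AD {d, e, f} V := by
  obtain ⟨p, q⟩ := h
  rw [CC, prod_pair (by simp [Subset.antisymm_iff, insert_subset_iff, p, q])]
  simp [W0, p]

lemma prod_P (h : Dst a b c d e f) (V : Finset (Finset ℕ)) :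
    ∏ σ ∈ PP a b c d e f, W0 σ V =
      WW {a, b, c, f} V * WW {a, b, e, f} V * WW {a, d, e, f} V := by
  obtain ⟨p, q⟩ := h
  rw [PP]
  iterate 8 rw [prod_insert (by simp [Subset.antisymm_iff, insert_subset_iff, p, q])]
  have e1 := WW_mul_AD (F := {b, c, f}) (σ := {a, b, c, f}) (by simp) V
  have e2 := WW_mul_AD (F := {a, c, f}) (σ := {a, b, c, f}) (by simp [insert_subset_iff]) V
  have e3 := WW_mul_AD (F := {a, b, e}) (σ := {a, b, e, f}) (by simp [insert_subset_iff]) V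
  have e4 := WW_mul_AD (F := {b, e, f}) (σ := {a, b, e, f}) (by simp) V
  have e5 := WW_mul_AD (F := {a, d, e}) (σ := {a, d, e, f}) (by simp [insert_subset_iff]) V
  have e6 := WW_mul_AD (F := {a, d, f}) (σ := {a, d, e, f}) (by simp [insert_subset_iff]) V
  conv_rhs => rw [← e1, ← e2, ← e3, ← e4, ← e5, ← e6]
  simp [W0, p]
  ring

/-- insert `k` if `x` -/
def ins (x : Bool) (k : Finset ℕ) (U : Finset (Finset ℕ)) : Finset (Finset ℕ) :=
  if x then insert k U else U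

lemma mem_ins {x : Bool} {l : Finset ℕ} {U : Finset (Finset ℕ)} :
    l ∈ ins x k U ↔ (l = k ∧ x = true) ∨ l ∈ U := by
  cases x <;> simp [ins]

lemma SS_ins {E : Finset (Finset ℕ)} (h : k ∉ E) (g : Finset (Finset ℕ) → ℝ) :
    SS (insert k E) g = sm fun x => SS E fun U => g (ins x k U) := SS_insert_sm h g

lemma prism (h : Dst a b c d e f) (s : Finset (Finset ℕ)) (hs : ∀ k ∈ NE a b c d e f, k ∉ s) :
    SS (NE a b c d e f) (fun n => (WW {a, b, c, f} (s ∪ n) * WW {a, b, e, f} (s ∪ n) *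
      WW {a, d, e, f} (s ∪ n)) ^ 2) = DD * (AD {a, b, c} s * AD {d, e, f} s) := by
  obtain ⟨p, q⟩ := h
  simp only [NE, mem_insert, mem_singleton, forall_eq_or_imp, forall_eq] at hs
  rw [AD_eq (by simp [p]) (by simp [p]) (by simp [p]),
    AD_eq (by simp [p]) (by simp [p]) (by simp [p]), ← mul_assoc, ← bpri, NE,
    ← insert_empty_eq ({c, f} : Finset ℕ)]
  iterate 6
    rw [SS_ins (by simp [pair_eq, p, q])]
    congr 1
    funext x
  rw [SS_empty]
  iterate 3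
    rw [WW_eq (by simp [p]) (by simp [p]) (by simp [p]) (by simp [p]) (by simp [p]) (by simp [p])]
  simp [mem_ins, pair_eq, p, q, hs]

lemma ZZ_C (h : Dst a b c d e f) (dC : Disjoint R (CC a b c d e f)) (s : Finset (Finset ℕ)) :
    ZZ (R ∪ CC a b c d e f) s = (AD {a, b, c} s * AD {d, e, f} s) *
      SS (eI (R ∪ CC a b c d e f)) fun U => ∏ σ ∈ R, W0 σ (s ∪ U) := by
  rw [ZZ, ← SS_mul, ← prod_C h]
  refine SS_congr fun U hU => ?_
  rw [prod_union dC, mul_comm]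
  refine congrArg (· * _) (prod_congr rfl fun σ h1 => W0_congr fun k h2 _ _ => ?_)
  rw [mem_union, or_iff_left fun h3 => ?_]
  obtain ⟨k1, k2, -, k4⟩ := mem_eI.1 (hU h3)
  exact k4 (face_union.2 (.inr (cone_C (face_C h k1 k2 ⟨σ, h1, h2⟩))))

lemma ZZ_P (h : Dst a b c d e f) (dP : Disjoint R (PP a b c d e f))
    (hR : ∀ k ∈ NE a b c d e f, ¬ Face R k) (s n : Finset (Finset ℕ)) (hn : n ⊆ NE a b c d e f) :
    ZZ (R ∪ PP a b c d e f) (s ∪ n) =
      (WW {a, b, c, f} (s ∪ n) * WW {a, b, e, f} (s ∪ n) * WW {a, d, e, f} (s ∪ n)) *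
      SS (eI (R ∪ CC a b c d e f)) fun U => ∏ σ ∈ R, W0 σ (s ∪ U) := by
  rw [ZZ, ← SS_mul, ← eI_eq h hR, ← prod_P h]
  refine SS_congr fun U hU => ?_
  rw [prod_union dP, mul_comm]
  refine congrArg₂ (· * ·) (prod_congr rfl fun σ h1 => W0_congr fun k h2 _ _ => ?_)
    (prod_congr rfl fun σ h1 => W0_congr fun k h2 _ _ => ?_)
  · rw [mem_union, or_iff_left fun h3 => ?_]
    obtain ⟨k1, k2, -, k4⟩ := mem_eI.1 (hU h3)
    exact k4 (face_union.2 (.inr (cone_P (face_P h k1 k2 ⟨σ, h1, h2⟩))))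
  · simp only [mem_union]
    rw [or_iff_left fun h3 => hR k (hn h3) ⟨σ, h1, h2⟩]

end NH

open NH in
theorem NH : S_NH := by
  intro R a b c d e f h0 hσ
  have h := dst_of h0
  show NN (R ∪ PP a b c d e f) = DD * NN (R ∪ CC a b c d e f)
  have hR : ∀ k ∈ NE a b c d e f, ¬ Face R k := by
    rintro k hk ⟨σ, h1, h2⟩
    have := (hσ σ h1).2.2
    simp only [NE, mem_insert, mem_singleton] at hk
    rcases hk with rfl | rfl | rfl | rfl | rfl | rfl <;> tauto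
  have hN : ∀ k ∈ NE a b c d e f, k ∉ eB (R ∪ CC a b c d e f) := by
    intro k hk h1
    obtain ⟨h2, h3, h4⟩ := mem_eB.1 h1
    rcases face_union.1 (Face.mono h4 (subset_insert _ _)) with h5 | h5
    · exact hR k hk h5
    · exact (new_prop h hk).2.2 (face_C h h2 h3 h5)
  have hB : vB (R ∪ PP a b c d e f) = vB (R ∪ CC a b c d e f) := by
    ext v
    simp only [mem_vB, face_union]
    exact and_congr_right fun hv => by rw [(vert hv).1]
  have hI : vI (R ∪ PP a b c d e f) = vI (R ∪ CC a b c d e f) := by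
    ext v
    simp only [mem_vI, face_union]
    exact and_congr_right fun hv => by rw [(vert hv).1, (vert hv).2]
  have dC : Disjoint R (CC a b c d e f) := by
    refine disjoint_left.2 fun σ h1 h2 => ?_
    have := hσ σ h1
    simp only [CC, mem_insert, mem_singleton] at h2
    tauto
  have dP : Disjoint R (PP a b c d e f) := by
    refine disjoint_left.2 fun σ h1 h2 => ?_
    have := (hσ σ h1).2.2
    simp only [PP, mem_insert, mem_singleton] at h2
    rcases h2 with rfl | rfl | rfl | rfl | rfl | rfl | rfl | rfl | rfl <;>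
      simp [insert_subset_iff] at this
  rw [NN, NN, hB, hI, eB_eq h, SS_union (disjoint_right.2 hN), mul_left_comm,
    ← SS_mul _ DD]
  refine congrArg _ (SS_congr fun s hs => ?_)
  rw [SS_congr fun n hn => by rw [ZZ_P h dP hR s n hn, mul_pow, mul_comm], SS_mul,
    prism h s fun k hk h1 => hN k hk (hs h1), ZZ_C h dC]
  have e1 := AD_mul_AD (Subset.refl {a, b, c}) s
  have e2 := AD_mul_AD (Subset.refl {d, e, f}) s
  rw [mul_pow, mul_pow, sq (AD _ _), sq (AD _ _), e1, e2]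
  ring

end Pool.Agent.P.MP_4830f8_gt.RG
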