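import Pool.Agent.P.MP_4830f8_gt.RG.Iface2

/-! Soundness of the node checker: values and slopes of all nodes. -/

set_option autoImplicit false

namespace Pool.Agent.P.MP_4830f8_gt.RG

open Finset CB

namespace NODE

/-- `a` and `b` lie in `B`, and their difference has slopes in `D` -/
def En (nj : ℕ) (δ : Fin 9 → ℂ) (s t : ℕ) (a b : ℂ) (B : CB) (D : ℕ → CB) : Prop :=
  mem s a B ∧ mem s b B ∧ ∃ S : Fin 9 → ℂ, a - b = ∑ j, S j * δ j ∧
    ∀ j : Fin 9, j.val < nj → mem t (S j) (D j)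

variable {nj : ℕ} {δ : Fin 9 → ℂ} {s t s' t' : ℕ} {a b a' b' : ℂ} {B B' : CB} {D D' : ℕ → CB}

lemma En.add (h : En nj δ s t a b B D) (k : En nj δ s t a' b' B' D') :
    En nj δ s t (a + a') (b + b') (B.add B') (fun j => (D j).add (D' j)) := by
  obtain ⟨h1, h2, S, h3, h4⟩ := h
  obtain ⟨k1, k2, S', k3, k4⟩ := k
  refine ⟨h1.add k1, h2.add k2, fun j => S j + S' j, ?_, fun j hj => (h4 j hj).add (k4 j hj)⟩
  simp only [add_mul, sum_add_distrib]
  linear_combination h3 + k3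

lemma En.sub (h : En nj δ s t a b B D) (k : En nj δ s t a' b' B' D') :
    En nj δ s t (a - a') (b - b') (B.sub B') (fun j => (D j).sub (D' j)) := by
  obtain ⟨h1, h2, S, h3, h4⟩ := h
  obtain ⟨k1, k2, S', k3, k4⟩ := k
  refine ⟨h1.sub k1, h2.sub k2, fun j => S j - S' j, ?_, fun j hj => (h4 j hj).sub (k4 j hj)⟩
  simp only [sub_mul, sum_sub_distrib]
  linear_combination h3 - k3

lemma En.neg (h : En nj δ s t a b B D) :
    En nj δ s t (-a) (-b) B.neg (fun j => (D j).neg) := by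
  obtain ⟨h1, h2, S, h3, h4⟩ := h
  refine ⟨h1.neg, h2.neg, fun j => -S j, ?_, fun j hj => (h4 j hj).neg⟩
  simp only [neg_mul, sum_neg_distrib]
  linear_combination -h3

lemma En.mulI (h : En nj δ s t a b B D) :
    En nj δ s t (a * Complex.I) (b * Complex.I) B.mulI (fun j => (D j).mulI) := by
  obtain ⟨h1, h2, S, h3, h4⟩ := h
  refine ⟨h1.mulI, h2.mulI, fun j => S j * Complex.I, ?_, fun j hj => (h4 j hj).mulI⟩
  rw [← sub_mul, h3, sum_mul]
  exact sum_congr rfl fun j _ => by ring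

lemma En.mul {u v : ℕ} (h : En nj δ s t a b B D) (k : En nj δ s' t' a' b' B' D')
    (e1 : u = s + s') (e2 : v = s + t') (e3 : v = s' + t) :
    En nj δ u v (a * a') (b * b') (B.mul B')
      (fun j => (B.mul (D' j)).add (B'.mul (D j))) := by
  obtain ⟨h1, h2, S, h3, h4⟩ := h
  obtain ⟨k1, k2, S', k3, k4⟩ := k
  subst e1
  refine ⟨h1.mul k1, h2.mul k2, fun j => a * S' j + b' * S j, ?_, fun j hj => ?_⟩
  · simp only [add_mul, sum_add_distrib, mul_assoc, ← mul_sum]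
    linear_combination a * k3 + b' * h3
  · have p1 := h1.mul (k4 j hj)
    have p2 := k2.mul (h4 j hj)
    rw [← e2] at p1
    rw [← e3] at p2
    exact p1.add p2

lemma En.up {m u v : ℕ} (k : ℕ) (hm : m = 3 ^ k) (h : En nj δ s t a b B D) (e1 : u = s + k)
    (e2 : v = t + k) : En nj δ u v a b (CB.up m B) (fun j => CB.up m (D j)) := by
  obtain ⟨h1, h2, S, h3, h4⟩ := h
  subst e1 e2
  exact ⟨h1.up k hm, h2.up k hm, S, h3, fun j hj => (h4 j hj).up k hm⟩

lemma En.cadd {z : ℂ} {C : CB} (hz : mem s z C) (h : En nj δ s t a b B D) :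
    En nj δ s t (z + a) (z + b) (C.add B) D := by
  obtain ⟨h1, h2, S, h3, h4⟩ := h
  exact ⟨hz.add h1, hz.add h2, S, by linear_combination h3, h4⟩

lemma En.inc {m u v : ℕ} (k : ℕ) (hm : m = 3 ^ k) (h : En nj δ u v a b B D) (e1 : u = s + k)
    (e2 : v = t + k) (i1 : CB.inc m B B' = true) (i2 : ∀ j < nj, CB.inc m (D j) (D' j) = true) :
    En nj δ s t a b B' D' := by
  obtain ⟨h1, h2, S, h3, h4⟩ := h
  subst e1 e2
  exact ⟨h1.inc k hm i1, h2.inc k hm i1, S, h3, fun j hj => (h4 j hj).inc k hm (i2 j hj)⟩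

lemma En.congr (h : En nj δ s t a b B D) (e1 : a' = a) (e2 : b' = b) :
    En nj δ s t a' b' B D := by
  rw [e1, e2]; exact h

/-- a constant has slope zero -/
lemma en_cst {z : ℂ} (hz : mem s z B) (hD : ∀ j < 9, D j = cst (Int.ofNat 0)) :
    En nj δ s t z z B D := by
  refine ⟨hz, hz, fun _ => 0, by simp, fun j _ => ?_⟩
  rw [hD j j.2]
  exact mem_cst (by simp)

lemma mem_ctr {xc : ℕ → ℕ} {ρ : ℕ} {z : ℂ} {j : Fin 9} (h : ‖z - ctr xc j‖ ≤ ρ / 3 ^ 202) :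
    mem 202 z ⟨(dv (xc j)).x, (dv (xc j)).y, ρ⟩ := by
  have h0 : (0 : ℝ) < 3 ^ 202 := by positivity
  have h1 : (3 : ℂ) ^ 202 ≠ 0 := pow_ne_zero _ (by norm_num)
  have e : z * 3 ^ 202 - (((dv (xc j)).x : ℂ) + (dv (xc j)).y * Complex.I) =
      (z - ctr xc j) * 3 ^ 202 := by
    rw [ctr, sub_mul, div_mul_cancel₀ _ h1]
  show ‖z * 3 ^ 202 - (((dv (xc j)).x : ℂ) + (dv (xc j)).y * Complex.I)‖ ≤ (ρ : ℝ)
  rw [e, norm_mul, norm_pow, Complex.norm_ofNat]
  exact (le_div_iff₀ h0).1 h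

/-- a coordinate has slope one in its own direction -/
lemma en_var {xc : ℕ → ℕ} {ρ : ℕ} {x y : Fin 9 → ℂ} (i : Fin 9)
    (hx : ∀ j, ‖x j - ctr xc j‖ ≤ ρ / 3 ^ 202) (hy : ∀ j, ‖y j - ctr xc j‖ ≤ ρ / 3 ^ 202)
    (hD : ∀ j : Fin 9, D j = cst (Int.ofNat (if j = i then 3 ^ 81 else 0))) :
    En nj (fun j => x j - y j) 202 81 (x i) (y i) ⟨(dv (xc i)).x, (dv (xc i)).y, ρ⟩ D := by
  refine ⟨mem_ctr (hx i), mem_ctr (hy i), fun j => if j = i then 1 else 0, by simp, fun j _ => ?_⟩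
  rw [hD j]
  refine mem_cst ?_
  by_cases hj : j = i
  · rw [if_pos hj, Int.ofNat_eq_natCast, Int.cast_natCast, Nat.cast_pow, Nat.cast_ofNat]
    simp only [hj, if_true, one_mul]
  · simp [hj]

lemma ps_eq (m j : ℕ) :
    ps m j = cst (Int.ofNat (if m = 2 ∧ j = 0 ∨ 3 < m ∧ m = j + 3 then 3 ^ 81 else 0)) := by
  simp only [ps, cn_eq, oo_iff, an_iff, beq_iff, lt_iff, Nat.add_eq, Nat.pow_eq]

lemma en_par {xc : ℕ → ℕ} {ta ρ : ℕ} {x y : Fin 9 → ℂ}
    (hx : ∀ j, ‖x j - ctr xc j‖ ≤ ρ / 3 ^ 202) (hy : ∀ j, ‖y j - ctr xc j‖ ≤ ρ / 3 ^ 202)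
    (m : ℕ) (hm : m < 12) :
    En nj (fun j => x j - y j) 202 81 (par (ta / 3 ^ 202) x m) (par (ta / 3 ^ 202) y m)
      (pv xc ta ρ m) (ps m) := by
  have h1 : (3 : ℂ) ^ 202 ≠ 0 := pow_ne_zero _ (by norm_num)
  simp only [pv, cn_eq, lt_iff, beq_iff, fz_eq, par]
  by_cases c1 : m < 2
  · simp only [c1, if_true]
    refine en_cst (mem_cst (by simp)) fun j _ => ?_
    rw [ps_eq, if_neg (by omega)]
  by_cases c2 : m = 2
  · subst c2
    simp only [c1, if_false, if_true, show ¬ (2 = 3) by omega]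
    refine en_var 0 hx hy fun j => ?_
    rw [ps_eq]
    refine congrArg (fun n => cst (Int.ofNat n)) (if_congr ?_ rfl rfl)
    rw [Fin.ext_iff, Fin.val_zero]
    omega
  by_cases c3 : m = 3
  · subst c3
    simp only [c1, c2, if_false, if_true]
    refine en_cst (mem_cst ?_) fun j _ => ?_
    · rw [div_mul_cancel₀ _ h1]; simp
    · rw [ps_eq, if_neg (by omega)]
  have c4 : m - 3 < 9 := by omega
  simp only [c1, c2, c3, if_false, dif_pos c4]
  refine en_var ⟨m - 3, c4⟩ hx hy fun j => ?_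
  rw [ps_eq]
  refine congrArg (fun n => cst (Int.ofNat n)) (if_congr ?_ rfl rfl)
  simp only [Fin.ext_iff]
  omega

variable {nv ns op xc : ℕ → ℕ} {ta ρ : ℕ}

lemma cap {x y : Fin 9 → ℂ} {f g : ℕ → ℕ → ℂ}
    (hf : IsNode op (ta / 3 ^ 202) x f) (hg : IsNode op (ta / 3 ^ 202) y g)
    (hx : ∀ j, ‖x j - ctr xc j‖ ≤ ρ / 3 ^ 202) (hy : ∀ j, ‖y j - ctr xc j‖ ≤ ρ / 3 ^ 202)
    {k : ℕ} (h1 : 1 ≤ k) (h7 : k < 7) (hc : capChk nv ns xc ta ρ nj k = true) :
    ∀ c < 3, En nj (fun j => x j - y j) 202 81 (f k c) (g k c) (vb nv k c) (sb ns k c) := by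
  have e : Nat.succ (Nat.sub (Nat.mul 2 k) 2) = 2 * k - 1 := by
    show 2 * k - 2 + 1 = _
    omega
  have e' : Nat.sub (Nat.mul 2 k) 2 = 2 * k - 2 := rfl
  simp only [capChk, force_eq, fz_eq, an_iff, allN_iff] at hc
  rw [e, e'] at hc
  obtain ⟨c0, c1, c2, c3⟩ := hc
  obtain ⟨f0, f1, f2⟩ := hf.1 k h1 h7
  obtain ⟨g0, g1, g2⟩ := hg.1 k h1 h7
  have S := en_par (nj := nj) (ta := ta) hx hy (2 * k - 2) (by omega)
  have T := en_par (nj := nj) (ta := ta) hx hy (2 * k - 1) (by omega)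
  have ST := S.mul T (u := 404) (v := 283) rfl rfl rfl
  have U := ST.cadd (z := 1) (C := cst (Int.ofNat P2))
    (mem_cst (by rw [P2_eq, Int.ofNat_eq_natCast, Int.cast_natCast, Nat.cast_pow, Nat.cast_ofNat,
      one_mul]))
  have SU := S.mul U (u := 606) (v := 485) rfl rfl rfl
  intro c hc
  interval_cases c
  · exact ((U.add ST).mulI.inc 202 P1_eq rfl rfl c0 fun j hj => (c3 j hj).1).congr
      (by rw [f0]; ring) (by rw [g0]; ring)
  · exact ((SU.add SU).mulI.neg.inc 404 P2_eq rfl rfl c1 fun j hj => (c3 j hj).2.1).congr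
      (by rw [f1]; ring) (by rw [g1]; ring)
  · exact ((T.add T).mulI.inc 0 rfl rfl rfl c2 fun j hj => (c3 j hj).2.2).congr
      (by rw [f2]; ring) (by rw [g2]; ring)

lemma crs {τ : ℂ} {x y : Fin 9 → ℂ} {f g : ℕ → ℕ → ℂ} (hf : IsNode op τ x f)
    (hg : IsNode op τ y g) {k : ℕ} (h7 : 7 ≤ k) (h45 : k < 45)
    (hc : crsChk nv ns op nj k = true)
    (ih : ∀ m < k, 1 ≤ m → ∀ c < 3, En nj δ 202 81 (f m c) (g m c) (vb nv m c) (sb ns m c)) :
    ∀ c < 3, En nj δ 202 81 (f k c) (g k c) (vb nv k c) (sb ns k c) := by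
  simp only [crsChk, force_eq, fz_eq, an_iff, allN_iff, lt_iff] at hc
  obtain ⟨p0, p1, q0, q1, c0, c1, c2, c3⟩ := hc
  have u0 := ih _ p1 p0 0 (by omega)
  have u1 := ih _ p1 p0 1 (by omega)
  have u2 := ih _ p1 p0 2 (by omega)
  have v0 := ih _ q1 q0 0 (by omega)
  have v1 := ih _ q1 q0 1 (by omega)
  have v2 := ih _ q1 q0 2 (by omega)
  have W := u0.mul v0 (u := 404) (v := 283) rfl rfl rfl
  have T := ((W.add W).add (u1.mul v2 rfl rfl rfl)).add (u2.mul v1 rfl rfl rfl)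
  intro c hc
  have fc := hf.2.1 k h7 h45 c hc
  have gc := hg.2.1 k h7 h45 c hc
  interval_cases c
  · exact (((v0.up 404 P2_eq (u := 606) (v := 485) rfl rfl).add (T.mul u0 rfl rfl rfl)).inc 404
      P2_eq rfl rfl c0 fun j hj => (c3 j hj).1).congr (by rw [fc]; ring) (by rw [gc]; ring)
  · exact (((v1.up 404 P2_eq (u := 606) (v := 485) rfl rfl).add (T.mul u1 rfl rfl rfl)).inc 404
      P2_eq rfl rfl c1 fun j hj => (c3 j hj).2.1).congr (by rw [fc]; ring) (by rw [gc]; ring)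
  · exact (((v2.up 404 P2_eq (u := 606) (v := 485) rfl rfl).add (T.mul u2 rfl rfl rfl)).inc 404
      P2_eq rfl rfl c2 fun j hj => (c3 j hj).2.2).congr (by rw [fc]; ring) (by rw [gc]; ring)

lemma eqn {τ : ℂ} {x y : Fin 9 → ℂ} {f g : ℕ → ℕ → ℂ} (hf : IsNode op τ x f)
    (hg : IsNode op τ y g) {i : ℕ} (h9 : i < 9) (hc : eqChk nv ns op nj i = true)
    (ih : ∀ m < 45, 1 ≤ m → ∀ c < 3, En nj δ 202 81 (f m c) (g m c) (vb nv m c) (sb ns m c)) :
    En nj δ 202 81 (f (45 + i) 0) (g (45 + i) 0) (vb nv (45 + i) 0) (sb ns (45 + i) 0) := by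
  have e1 : Nat.shiftRight i 1 = i / 2 := Nat.shiftRight_succ i 0
  have e2 : Nat.land i 1 = i % 2 := Nat.and_one_is_mod i
  simp only [eqChk, force_eq, fz_eq, an_iff, lt_iff, cn_eq, beq_iff, e1, e2, Nat.add_eq] at hc
  obtain ⟨p0, p1, q0, q1, hc⟩ := hc
  by_cases h8 : i < 8
  · have u := ih _ p1 p0 (i % 2) (by omega)
    have v := ih _ q1 q0 (i % 2) (by omega)
    have fi := hf.2.2.1 i h8
    have gi := hg.2.2.1 i h8
    rw [if_pos h8] at hc
    by_cases hs : fd (op (i / 2)) 12 1 = 0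
    · rw [if_pos hs] at hc fi gi
      rw [an_iff, allN_iff] at hc
      exact ((u.sub v).inc 0 rfl rfl rfl hc.1 hc.2).congr fi gi
    · rw [if_neg hs] at hc fi gi
      rw [an_iff, allN_iff] at hc
      exact ((u.add v).inc 0 rfl rfl rfl hc.1 hc.2).congr fi gi
  · obtain rfl : i = 8 := by omega
    rw [if_neg h8, an_iff, allN_iff] at hc
    have u0 := ih _ p1 p0 0 (by omega)
    have u1 := ih _ p1 p0 1 (by omega)
    have v0 := ih _ q1 q0 0 (by omega)
    have v1 := ih _ q1 q0 1 (by omega)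
    exact (((u0.mul v1 (u := 404) (v := 283) rfl rfl rfl).sub (u1.mul v0 rfl rfl rfl)).inc 202
      P1_eq rfl rfl hc.1 hc.2).congr hf.2.2.2 hg.2.2.2

end NODE

open NODE in
theorem NODE : S_NODE := by
  intro nv ns op xc ta ρ nj x y f g hf hg hx hy hc
  have main : ∀ k, k < 45 → 1 ≤ k → ∀ c < 3,
      En nj (fun j => x j - y j) 202 81 (f k c) (g k c) (vb nv k c) (sb ns k c) := by
    intro k
    induction k using Nat.strong_induction_on with
    | _ k ih =>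
      intro h45 h1
      have h := hc k (by omega)
      simp only [nodeChk, cn_eq, lt_iff] at h
      by_cases h7 : k < 7
      · rw [if_pos h7, oo_iff, beq_iff] at h
        exact cap hf hg hx hy h1 h7 (h.resolve_left (by omega))
      · rw [if_neg h7, if_pos h45] at h
        exact crs hf hg (by omega) h45 h fun m hm => ih m hm (by omega)
  intro k c hk
  have fin : En nj (fun j => x j - y j) 202 81 (f k c) (g k c) (vb nv k c) (sb ns k c) := by
    rcases hk with ⟨h1, h2, h3⟩ | ⟨h1, h2, rfl⟩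
    · exact main k h2 h1 c h3
    · obtain ⟨i, rfl⟩ := Nat.exists_eq_add_of_le h1
      have h := hc (45 + i) h2
      simp only [nodeChk, cn_eq, lt_iff] at h
      rw [if_neg (by omega), if_neg (by omega), oo_iff, ble_iff, force_eq] at h
      have e : Nat.sub (45 + i) 45 = i := Nat.add_sub_cancel_left ..
      rw [e] at h
      exact eqn hf hg (by omega) (h.resolve_left (by omega)) main
  exact ⟨fin.1, fin.2.2⟩

end Pool.Agent.P.MP_4830f8_gt.RG
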