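import Pool.Agent.P.MP_4830f8_gt.RG.Iface2

/-! Fields of packed arrays. -/

set_option autoImplicit false

namespace Pool.Agent.P.MP_4830f8_gt.RG

namespace PK

lemma fu : FU = 2 ^ 88 - 1 := by norm_num [FU]

lemma gf_eq (A i : ℕ) : gf A i = (A >>> (88 * i)) &&& (2 ^ 88 - 1) := by rw [← fu]; rfl

lemma tb (A i b : ℕ) : (gf A i).testBit b = (decide (b < 88) && A.testBit (88 * i + b)) := by
  rw [gf_eq, Nat.testBit_and, Nat.testBit_shiftRight, Nat.testBit_two_pow_sub_one, Bool.and_comm]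

lemma tf (b : ℕ) : FU.testBit b = decide (b < 88) := by rw [fu, Nat.testBit_two_pow_sub_one]

lemma dv (A i : ℕ) : gf A i = A / 2 ^ (88 * i) % 2 ^ 88 := by
  rw [gf_eq, Nat.and_two_pow_sub_one_eq_mod, Nat.shiftRight_eq_div_pow]

lemma land (A B i : ℕ) : gf (Nat.land A B) i = gf A i &&& gf B i :=
  Nat.eq_of_testBit_eq fun b => by
    rw [Nat.testBit_and, tb, tb, tb, Nat.land_eq, Nat.testBit_and]
    cases decide (b < 88) <;> simp

lemma lor (A B i : ℕ) : gf (Nat.lor A B) i = gf A i ||| gf B i :=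
  Nat.eq_of_testBit_eq fun b => by
    rw [Nat.testBit_or, tb, tb, tb, Nat.lor_eq, Nat.testBit_or]
    cases decide (b < 88) <;> simp

lemma xor (A B i : ℕ) : gf (Nat.xor A B) i = gf A i ^^^ gf B i :=
  Nat.eq_of_testBit_eq fun b => by
    rw [Nat.testBit_xor, tb, tb, tb, Nat.xor_eq, Nat.testBit_xor]
    cases decide (b < 88) <;> simp

lemma succ (A i : ℕ) : gf A (i + 1) = gf (A / 2 ^ 88) i := by
  rw [dv, dv, Nat.div_div_eq_div_mul, ← pow_add, Nat.mul_succ, Nat.add_comm]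

lemma zero (A : ℕ) : gf A 0 = A % 2 ^ 88 := by rw [dv, Nat.mul_zero, pow_zero, Nat.div_one]

lemma add (i : ℕ) : ∀ A B, (∀ j ≤ i, gf A j + gf B j ≤ FU) →
    gf (A + B) i = gf A i + gf B i := by
  induction i with
  | zero =>
    intro A B h
    have h0 := h 0 le_rfl
    rw [zero, zero, fu] at h0
    rw [zero, zero, zero]
    omega
  | succ i ih =>
    intro A B h
    have h0 := h 0 (Nat.zero_le _)
    rw [zero, zero, fu] at h0
    have e : (A + B) / 2 ^ 88 = A / 2 ^ 88 + B / 2 ^ 88 := by omega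
    rw [succ, succ, succ, e]
    exact ih _ _ fun j hj => by rw [← succ, ← succ]; exact h _ (by omega)

lemma shr (A k i : ℕ) : gf (Nat.shiftRight A (Nat.mul 88 k)) i = gf A (i + k) :=
  Nat.eq_of_testBit_eq fun b => by
    rw [tb, tb, Nat.shiftRight_eq, Nat.testBit_shiftRight, Nat.mul_eq]
    congr 2
    omega

lemma shl (A k i : ℕ) :
    gf (Nat.shiftLeft A (Nat.mul 88 k)) i = if k ≤ i then gf A (i - k) else 0 :=
  Nat.eq_of_testBit_eq fun b => by
    rw [tb, Nat.shiftLeft_eq', Nat.testBit_shiftLeft, Nat.mul_eq]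
    by_cases hb : b < 88
    · split_ifs with e
      · rw [tb, decide_eq_true (show 88 * i + b ≥ 88 * k by omega), Bool.true_and]
        congr 2
        omega
      · rw [decide_eq_false (show ¬ 88 * i + b ≥ 88 * k by omega)]; simp
    · split_ifs with e
      · rw [tb, decide_eq_false hb]; simp
      · rw [decide_eq_false hb]; simp

lemma ful_eq (k : ℕ) : ful k = 2 ^ (88 * 2 ^ k) - 1 := by
  rw [ful, Nat.shiftLeft_eq', Nat.one_shiftLeft]; rfl

lemma ful_lt (k : ℕ) : ful k < 2 ^ (88 * 2 ^ k) := by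
  rw [ful_eq]; exact Nat.sub_lt (by positivity) Nat.one_pos

lemma gf_ful (k i : ℕ) : gf (ful k) i = if i < 2 ^ k then FU else 0 :=
  Nat.eq_of_testBit_eq fun b => by
    rw [tb, ful_eq, Nat.testBit_two_pow_sub_one]
    by_cases hb : b < 88
    · split_ifs with e
      · rw [tf, decide_eq_true (show 88 * i + b < 88 * 2 ^ k by omega), Bool.and_true]
      · rw [decide_eq_false (show ¬ 88 * i + b < 88 * 2 ^ k by omega)]; simp
    · split_ifs with e
      · rw [tf, decide_eq_false hb]; simp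
      · rw [decide_eq_false hb]; simp

lemma gf_rep (d : ℕ) : ∀ k A, A < 2 ^ (88 * 2 ^ k) → ∀ i < 2 ^ (k + d),
    gf (rep A k d) i = gf A (i % 2 ^ k) := by
  induction d with
  | zero => exact fun k A _ i hi => by rw [Nat.mod_eq_of_lt (show i < 2 ^ k from hi)]; rfl
  | succ d ih =>
    intro k A hA i hi
    have e : rep A k (d + 1) = rep (2 ^ (88 * 2 ^ k) * A + A) (k + 1) d := by
      rw [Nat.add_comm _ A, Nat.mul_comm _ A, ← Nat.shiftLeft_eq]
      show force (k + 1) (fun k' => force (A + A <<< (88 * 2 ^ k)) fun A' => rep A' k' d) = _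
      rw [force_eq, force_eq]
    have h1 : i % 2 ^ (k + 1) < 2 ^ k * 2 := Nat.mod_lt _ (by positivity)
    rw [e, ih _ _ ?_ i (by rwa [Nat.add_assoc, Nat.add_comm 1]),
      ← Nat.mod_mod_of_dvd i (Nat.pow_dvd_pow 2 (Nat.le_succ k))]
    · generalize i % 2 ^ (k + 1) = l at h1
      refine Nat.eq_of_testBit_eq fun b => ?_
      rw [tb, tb, Nat.testBit_two_pow_mul_add _ hA]
      by_cases hb : b < 88
      · by_cases e1 : l < 2 ^ k
        · rw [if_pos (by omega), Nat.mod_eq_of_lt e1]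
        · rw [if_neg (by omega), Nat.mod_eq_sub_mod (by omega), Nat.mod_eq_of_lt (by omega)]
          congr 2
          omega
      · rw [decide_eq_false hb]; simp
    · rw [pow_succ, ← Nat.mul_assoc, Nat.mul_two, pow_add]
      nlinarith

lemma bit_iff (i j : ℕ) : i.testBit j = true ↔ 2 ^ j ≤ i % 2 ^ (j + 1) := by
  have h := Nat.mod_lt i (Nat.two_pow_pos j)
  rw [Nat.testBit_eq_decide_div_mod_eq, decide_eq_true_eq, pow_succ, Nat.mod_mul]
  rcases Nat.mod_two_eq_zero_or_one (i / 2 ^ j) with e | e <;> rw [e] <;> omega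

lemma lt13 {i j : ℕ} (hj : j < 13) (hi : i < 8192) : i < 2 ^ (j + 1 + (12 - j)) := by
  rw [show j + 1 + (12 - j) = 13 by omega]; omega

lemma gf_mk0 {i j : ℕ} (hi : i < 2 ^ (j + 1 + (12 - j))) :
    gf (mk0 j) i = if i.testBit j then 0 else FU := by
  have e : mk0 j = rep (ful j) (j + 1) (12 - j) := rfl
  rw [e, gf_rep _ _ _ ((ful_lt j).trans_le (Nat.pow_le_pow_right Nat.two_pos (by omega))) i hi,
    gf_ful]
  simp only [bit_iff, ← not_le, ite_not]

lemma gf_mk1 {i j : ℕ} (hi : i < 2 ^ (j + 1 + (12 - j))) :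
    gf (mk1 j) i = if i.testBit j then FU else 0 := by
  have e : mk1 j = rep (Nat.shiftLeft (ful j) (Nat.mul 88 (2 ^ j))) (j + 1) (12 - j) := rfl
  have h1 : i % 2 ^ (j + 1) < 2 ^ j * 2 := Nat.mod_lt _ (by positivity)
  rw [e, gf_rep _ _ _ ?_ i hi, shl, gf_ful, if_pos (show i % 2 ^ (j + 1) - 2 ^ j < 2 ^ j by omega)]
  · simp only [bit_iff]
  · rw [Nat.shiftLeft_eq', Nat.shiftLeft_eq, Nat.mul_eq, pow_succ, ← Nat.mul_assoc, Nat.mul_two,
      pow_add]
    exact Nat.mul_lt_mul_of_pos_right (ful_lt j) (by positivity)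

lemma gf_top {d i b : ℕ} (hi : i < 2 ^ (0 + d)) (h : 84 ≤ b) (h' : b < 88) :
    (gf (rep (Nat.shiftLeft 15 84) 0 d) i).testBit b = true := by
  rw [gf_rep _ _ _ (by decide) i hi, pow_zero, Nat.mod_one, tb, Nat.shiftLeft_eq',
    Nat.testBit_shiftLeft, show 15 = 2 ^ 4 - 1 from rfl, Nat.testBit_two_pow_sub_one]
  simp only [Bool.and_eq_true, decide_eq_true_eq]
  omega

lemma gf0 (i : ℕ) : gf 0 i = 0 := by rw [dv, Nat.zero_div, Nat.zero_mod]

lemma ok (x : V4) (t i : ℕ) (h : x.ok t = true)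
    (ht : ∀ b, 84 ≤ b → b < 88 → (gf t i).testBit b = true) :
    gf x.a i < 2 ^ 84 ∧ gf x.b i < 2 ^ 84 ∧ gf x.c i < 2 ^ 84 ∧ gf x.d i < 2 ^ 84 := by
  have h1 := congrArg (gf · i) (beq_iff.1 h)
  simp only [land, lor, gf0] at h1
  have h2 : ∀ b, 84 ≤ b → (gf x.a i).testBit b = false ∧ (gf x.b i).testBit b = false ∧
      (gf x.c i).testBit b = false ∧ (gf x.d i).testBit b = false := fun b hb => by
    by_cases e : b < 88
    · have := congrArg (·.testBit b) h1
      simpa only [Nat.testBit_and, Nat.testBit_or, ht b hb e, Nat.zero_testBit, Bool.and_true,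
        Bool.or_eq_false_iff, and_assoc] using this
    · simp only [tb, decide_eq_false e, Bool.false_and, and_self]
  exact ⟨Nat.lt_pow_two_of_testBit _ fun b hb => (h2 b hb).1,
    Nat.lt_pow_two_of_testBit _ fun b hb => (h2 b hb).2.1,
    Nat.lt_pow_two_of_testBit _ fun b hb => (h2 b hb).2.2.1,
    Nat.lt_pow_two_of_testBit _ fun b hb => (h2 b hb).2.2.2⟩

lemma gf1 (i : ℕ) : gf 1 i = if i = 0 then 1 else 0 := by
  cases i with
  | zero => rw [zero, if_pos rfl]; norm_num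
  | succ i => rw [succ, if_neg (Nat.succ_ne_zero i), show 1 / 2 ^ 88 = 0 by norm_num, gf0]

end PK

theorem PK : S_PK :=
  ⟨PK.land, PK.lor, PK.xor, fun A B i => PK.add i A B, PK.shr, PK.shl,
    fun i hi => (PK.gf_ful 13 i).trans (if_pos (by omega)),
    fun _ hj _ hi => PK.gf_mk1 (PK.lt13 hj hi), fun _ hj _ hi => PK.gf_mk0 (PK.lt13 hj hi),
    fun x h i hi => PK.ok x top i h fun _ => by unfold top; exact PK.gf_top (by omega),
    fun i => ⟨PK.gf0 i, PK.gf1 i⟩⟩

end Pool.Agent.P.MP_4830f8_gt.RG
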