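import Pool.Agent.P.MP_4830f8_gt.RG.Iface

/-! The action of `SL(2, ℂ)` on hyperbolic space in the coordinates `pos`. -/

set_option autoImplicit false

namespace Pool.Agent.P.MP_4830f8_gt.RG

open Finset Matrix

namespace POS

noncomputable def tt (g : M2) : ℝ :=
  (Complex.normSq (g 0 0) + Complex.normSq (g 0 1) + Complex.normSq (g 1 0) +
    Complex.normSq (g 1 1)) / 2

lemma tt_sq (g : M2) : tt g ^ 2 = Complex.normSq g.det + pos g ⬝ᵥ pos g := by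
  simp [tt, pos, det_fin_two, Complex.normSq_apply, dotProduct, Fin.sum_univ_three]
  ring

lemma sqrt_eq (g : SL2) : √(1 + pos g ⬝ᵥ pos g) = tt g := by
  have h := tt_sq g
  rw [g.det_coe, map_one] at h
  rw [← h]
  refine Real.sqrt_sq ?_
  have := Complex.normSq_nonneg
  unfold tt
  linarith [this (g.1 0 0), this (g.1 0 1), this (g.1 1 0), this (g.1 1 1)]

lemma tt_adj (g h : M2) : tt g * tt h - pos g ⬝ᵥ pos h = tt (adjugate g * h) := by
  simp [tt, pos, adjugate_fin_two, Complex.normSq_apply, dotProduct, Fin.sum_univ_three,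
    mul_apply, Fin.sum_univ_two]
  ring

def d4 (A B C E : M2) : ℂ :=
  (A 0 0 * B 0 1 - A 0 1 * B 0 0) * (C 1 0 * E 1 1 - C 1 1 * E 1 0)
  - (A 0 0 * B 1 0 - A 1 0 * B 0 0) * (C 0 1 * E 1 1 - C 1 1 * E 0 1)
  + (A 0 0 * B 1 1 - A 1 1 * B 0 0) * (C 0 1 * E 1 0 - C 1 0 * E 0 1)
  + (A 0 1 * B 1 0 - A 1 0 * B 0 1) * (C 0 0 * E 1 1 - C 1 1 * E 0 0)
  - (A 0 1 * B 1 1 - A 1 1 * B 0 1) * (C 0 0 * E 1 0 - C 1 0 * E 0 0)
  + (A 1 0 * B 1 1 - A 1 1 * B 1 0) * (C 0 0 * E 0 1 - C 0 1 * E 0 0)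

lemma d4_left (a A B C E : M2) : d4 (a * A) (a * B) (a * C) (a * E) = a.det ^ 2 * d4 A B C E := by
  simp only [d4, det_fin_two, mul_apply, Fin.sum_univ_two]
  ring

lemma d4_right (a A B C E : M2) : d4 (A * a) (B * a) (C * a) (E * a) = a.det ^ 2 * d4 A B C E := by
  simp only [d4, det_fin_two, mul_apply, Fin.sum_univ_two]
  ring

lemma d4_swap (A B C E : M2) : d4 A B C E = -d4 B A C E := by
  simp only [d4]
  ring

lemma ent (g : M2) : (g * gᴴ) 0 0 = tt g + pos g 2 ∧ (g * gᴴ) 1 1 = tt g - pos g 2 ∧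
    (g * gᴴ) 0 1 = pos g 0 + pos g 1 * Complex.I ∧ (g * gᴴ) 1 0 = pos g 0 - pos g 1 * Complex.I := by
  refine ⟨?_, ?_, ?_, ?_⟩ <;> apply Complex.ext <;>
    simp [tt, pos, mul_apply, Fin.sum_univ_two, Complex.normSq_apply] <;> ring

lemma d4_pos (g h k : M2) : d4 1 (g * gᴴ) (h * hᴴ) (k * kᴴ) =
    4 * Complex.I * (D3 (pos g) (pos h) (pos k) : ℝ) := by
  obtain ⟨g1, g2, g3, g4⟩ := ent g
  obtain ⟨h1, h2, h3, h4⟩ := ent h
  obtain ⟨k1, k2, k3, k4⟩ := ent k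
  simp only [d4, g1, g2, g3, g4, h1, h2, h3, h4, k1, k2, k3, k4]
  simp [D3, cross_apply, dotProduct, Fin.sum_univ_three]
  ring

lemma herm (a g : M2) : a * g * (a * g)ᴴ = a * (g * gᴴ) * aᴴ := by
  simp only [conjTranspose_mul, Matrix.mul_assoc]

lemma key (a g h k : M2) (h1 : a * g = 1) (h2 : a.det = 1) :
    D3 (pos g) (pos h) (pos k) = -D3 (pos a) (pos (a * h)) (pos (a * k)) := by
  have e := d4_pos a (a * h) (a * k)
  have e1 : a * (g * gᴴ) * aᴴ = 1 := by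
    rw [← herm, h1]
    simp
  have e2 : d4 (a * (g * gᴴ) * aᴴ) (a * 1 * aᴴ) (a * (h * hᴴ) * aᴴ) (a * (k * kᴴ) * aᴴ) =
      -(4 * Complex.I * (D3 (pos g) (pos h) (pos k) : ℝ)) := by
    rw [d4_right, d4_left, det_conjTranspose, h2, d4_swap, d4_pos]
    simp
  rw [e1, Matrix.mul_one, ← herm, ← herm, e] at e2
  have e3 : ((D3 (pos g) (pos h) (pos k) : ℝ) : ℂ) =
      -(D3 (pos a) (pos (a * h)) (pos (a * k)) : ℝ) := by
    apply mul_left_cancel₀ (a := 4 * Complex.I) (by simp)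
    rw [mul_neg, e2, neg_neg]
  exact_mod_cast e3

end POS

open POS in
theorem POS : S_POS := by
  refine ⟨?_, fun g => ?_, fun g h => ?_, fun g h k => ?_⟩
  · ext i
    fin_cases i <;> simp [pos]
  · ext i
    fin_cases i <;> simp [pos]
  · rw [ch, ch, sqrt_eq, sqrt_eq, sqrt_eq, tt_adj]
    simp
  · exact key (g⁻¹ : SL2) g h k (congrArg Subtype.val (inv_mul_cancel g)) (g⁻¹).det_coe

end Pool.Agent.P.MP_4830f8_gt.RG
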