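import Pool.Agent.P.MP_4830f8_gt.RG.Iface2

/-! Enclosures of the named matrices. -/

set_option autoImplicit false

namespace Pool.Agent.P.MP_4830f8_gt.RG

open Finset Matrix CB

namespace PRD

lemma cb_enc {nv mt : ℕ → ℕ} {val : ℕ → SL2} {c : ℕ}
    (h : Enc 202 (val (c / 2)) (mb nv mt (c / 2))) : Enc 202 (sv 90 val c) (cb nv mt c) := by
  have e1 : Nat.shiftRight c 1 = c / 2 := by simp [Nat.shiftRight_eq_div_pow]
  have e2 : Nat.land c 1 = c % 2 := Nat.and_one_is_mod c
  have e : ∀ e, cb nv mt c e = if 90 ≤ c ∧ c % 2 = 1 then (if e = 0 then mb nv mt (c / 2) 3 else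
      if e = 3 then mb nv mt (c / 2) 0 else (mb nv mt (c / 2) e).neg) else mb nv mt (c / 2) e := by
    intro e
    simp only [cb, force_eq, cn_eq, an_iff, ble_iff, beq_iff, e1, e2, fz_eq]
  obtain ⟨h0, h1, h2, h3⟩ := h
  unfold sv Enc
  rw [e, e, e, e]
  by_cases hc : 90 ≤ c ∧ c % 2 = 1
  · simp only [if_pos hc]
    rw [SpecialLinearGroup.SL2_inv_expl]
    exact ⟨h3, h1.neg, h2.neg, h0⟩
  · simp only [if_neg hc]
    exact ⟨h0, h1, h2, h3⟩

end PRD

theorem PROD : S_PROD := by
  intro F nv mt f val nb h0 h1 h2 h3 h4 h5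
  have key : ∀ z, z < 45 + nb → Enc 202 (val z) (mb nv mt z) := by
    intro z
    induction z using Nat.strong_induction_on with
    | _ z ih =>
    intro hz
    by_cases a : z < 45
    · by_cases b : z = 0
      · subst b
        rw [h0]
        refine ⟨mem_cst ?_, mem_cst ?_, mem_cst ?_, mem_cst ?_⟩
        · show (1 : ℂ) * _ = ((P1 : ℤ) : ℂ); rw [P1_eq, one_mul]; norm_num
        · show _ = ((Int.ofNat 0 : ℤ) : ℂ); simp
        · show _ = ((Int.ofNat 0 : ℤ) : ℂ); simp
        · show (1 : ℂ) * _ = ((P1 : ℤ) : ℂ); rw [P1_eq, one_mul]; norm_num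
      · have e : ∀ e, mb nv mt z e = if e = 3 then (vb nv z 0).neg else vb nv z e := by
          intro e
          simp only [mb, cn_eq, lt_iff, beq_iff, fz_eq, if_pos a, if_neg b]
        have hv : ∀ i j, val z i j = tm (f z 0) (f z 1) (f z 2) i j := fun i j => by
          rw [← h1 z (by omega) a]
        have k := h2 z (by omega) a
        unfold Enc
        rw [e, e, e, e, hv, hv, hv, hv]
        exact ⟨k 0 (by omega), k 1 (by omega), k 2 (by omega), (k 0 (by omega)).neg⟩
    · obtain ⟨i, rfl⟩ : ∃ i, z = 45 + i := ⟨z - 45, by omega⟩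
      have d := h4 i (by omega)
      have p := h5 i (by omega)
      simp only [defChk, force_eq, an_iff, lt_iff, Nat.add_eq, Nat.mul_eq] at d
      simp only [prodChk, force_eq, fz_eq, an_iff, Nat.add_eq] at p
      obtain ⟨a0, a1, a2, a3⟩ := PRD.cb_enc (ih (cd (F i) 0 / 2) (by omega) (by omega))
      obtain ⟨b0, b1, b2, b3⟩ := PRD.cb_enc (ih (cd (F i) 1 / 2) (by omega) (by omega))
      rw [h3 i (by omega)]
      have hm : ∀ (g k : SL2) i j, (g * k) i j = g i 0 * k 0 j + g i 1 * k 1 j := fun g k i j => by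
        show (g.1 * k.1) i j = _
        rw [Matrix.mul_apply, Fin.sum_univ_two]
      unfold Enc
      rw [hm, hm, hm, hm]
      exact ⟨((a0.mul b0).add (a1.mul b2)).inc 202 P1_eq p.1,
        ((a0.mul b1).add (a1.mul b3)).inc 202 P1_eq p.2.1,
        ((a2.mul b0).add (a3.mul b2)).inc 202 P1_eq p.2.2.1,
        ((a2.mul b1).add (a3.mul b3)).inc 202 P1_eq p.2.2.2⟩
  exact fun c hc => PRD.cb_enc (key _ (by omega))

end Pool.Agent.P.MP_4830f8_gt.RG
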