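import Pool.Agent.P.MP_4830f8_gt.RG.Iface2

/-! Soundness of the product check. -/

set_option autoImplicit false

namespace Pool.Agent.P.MP_4830f8_gt.RG

open Finset Matrix CB

namespace PROD

lemma cb_inv (nv mt : ℕ → ℕ) {c : ℕ} (h : 90 ≤ c ∧ c % 2 = 1) (e : ℕ) :
    cb nv mt c e = if e = 0 then mb nv mt (c / 2) 3 else if e = 3 then mb nv mt (c / 2) 0
      else (mb nv mt (c / 2) e).neg := by
  have e1 : Nat.shiftRight c 1 = c / 2 := Nat.shiftRight_one c
  have e2 : Nat.land c 1 = c % 2 := Nat.and_one_is_mod c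
  simp only [cb, force_eq, cn_eq, an_iff, ble_iff, beq_iff, CB.fz_eq, e1, e2, if_pos h]

lemma cb_id (nv mt : ℕ → ℕ) {c : ℕ} (h : ¬ (90 ≤ c ∧ c % 2 = 1)) (e : ℕ) :
    cb nv mt c e = mb nv mt (c / 2) e := by
  have e1 : Nat.shiftRight c 1 = c / 2 := Nat.shiftRight_one c
  have e2 : Nat.land c 1 = c % 2 := Nat.and_one_is_mod c
  simp only [cb, force_eq, cn_eq, an_iff, ble_iff, beq_iff, e1, e2, if_neg h]

lemma code {nv mt : ℕ → ℕ} {val : ℕ → SL2} {c : ℕ} (h : Enc 202 (val (c / 2)) (mb nv mt (c / 2))) :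
    Enc 202 (sv 90 val c) (cb nv mt c) := by
  obtain ⟨h0, h1, h2, h3⟩ := h
  by_cases e : 90 ≤ c ∧ c % 2 = 1
  · rw [sv, if_pos e, Enc, cb_inv nv mt e, cb_inv nv mt e, cb_inv nv mt e, cb_inv nv mt e,
      SpecialLinearGroup.SL2_inv_expl]
    exact ⟨h3, h1.neg, h2.neg, h0⟩
  · rw [sv, if_neg e, Enc, cb_id nv mt e, cb_id nv mt e, cb_id nv mt e, cb_id nv mt e]
    exact ⟨h0, h1, h2, h3⟩

lemma mb_zero (nv mt : ℕ → ℕ) : Enc 202 1 (mb nv mt 0) := by
  have a : mem 202 1 (cst (Int.ofNat P1)) := mem_cst (by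
    rw [one_mul, P1_eq, Int.ofNat_eq_natCast, Int.cast_natCast, Nat.cast_pow, Nat.cast_ofNat])
  have b : mem 202 0 (cst (Int.ofNat 0)) := mem_cst (by rw [zero_mul]; simp)
  exact ⟨a, b, b, a⟩

lemma mb_arc (nv mt : ℕ → ℕ) {k : ℕ} (h1 : 1 ≤ k) (h2 : k < 45) (e : ℕ) :
    mb nv mt k e = if e = 3 then (vb nv k 0).neg else vb nv k e := by
  simp only [mb, cn_eq, lt_iff, beq_iff, CB.fz_eq, if_pos h2, if_neg (show ¬ k = 0 by omega)]

lemma ent (g h : SL2) (i j : Fin 2) : (g * h) i j = g i 0 * h 0 j + g i 1 * h 1 j := by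
  have e : (g * h) i j = ((g : M2) * (h : M2)) i j := rfl
  rw [e, Matrix.mul_apply, Fin.sum_univ_two]

end PROD

open PROD in
theorem PROD : S_PROD := by
  intro F nv mt f val nb h0 harc hf hdef hchk hprod
  have main : ∀ z, z < 45 + nb → Enc 202 (val z) (mb nv mt z) := by
    intro z
    induction z using Nat.strong_induction_on with
    | _ z ih =>
    intro hz
    rcases Nat.eq_zero_or_pos z with rfl | h1
    · rw [h0]; exact mb_zero nv mt
    rcases lt_or_ge z 45 with h2 | h2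
    · have e : ∀ i j, val z i j = tm (f z 0) (f z 1) (f z 2) i j := fun i j => by
        rw [← harc z h1 h2]
      rw [Enc, e, e, e, e, mb_arc nv mt h1 h2, mb_arc nv mt h1 h2, mb_arc nv mt h1 h2,
        mb_arc nv mt h1 h2]
      exact ⟨hf z h1 h2 0 (by omega), hf z h1 h2 1 (by omega), hf z h1 h2 2 (by omega),
        (hf z h1 h2 0 (by omega)).neg⟩
    · obtain ⟨i, rfl⟩ := Nat.exists_eq_add_of_le h2
      have hi : i < nb := by omega
      have d := hchk i hi
      have q := hprod i hi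
      simp only [defChk, force_eq, an_iff, lt_iff, Nat.add_eq, Nat.mul_eq] at d
      simp only [prodChk, force_eq, CB.fz_eq, an_iff, Nat.add_eq] at q
      obtain ⟨d1, d2, -⟩ := d
      obtain ⟨q0, q1, q2, q3⟩ := q
      obtain ⟨a0, a1, a2, a3⟩ := code (ih (cd (F i) 0 / 2) (by omega) (by omega))
      obtain ⟨b0, b1, b2, b3⟩ := code (ih (cd (F i) 1 / 2) (by omega) (by omega))
      rw [hdef i hi, Enc, ent, ent, ent, ent]
      exact ⟨mem.inc 202 P1_eq ((a0.mul b0).add (a1.mul b2)) q0,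
        mem.inc 202 P1_eq ((a0.mul b1).add (a1.mul b3)) q1,
        mem.inc 202 P1_eq ((a2.mul b0).add (a3.mul b2)) q2,
        mem.inc 202 P1_eq ((a2.mul b1).add (a3.mul b3)) q3⟩
  exact fun c hc => code (main _ (by omega))

end Pool.Agent.P.MP_4830f8_gt.RG
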