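import Pool.Agent.P.MP_4830f8_gt.RG.Iface

/-! Generators of the edge-path group from a spanning tree. -/

set_option autoImplicit false

namespace Pool.Agent.P.MP_4830f8_gt.RG

open Finset

namespace RANK

/-- the class of an oriented edge -/
def x (T : Cx) (v w : ℕ) : PresentedGroup (rels T) := PresentedGroup.of (v, w)

lemma x_mul {T : Cx} {a b c : ℕ} (h : Face T {a, b, c}) : x T a b * x T b c = x T a c := by
  have h1 : PresentedGroup.mk (rels T)
      (FreeGroup.of (a, b) * FreeGroup.of (b, c) * (FreeGroup.of (a, c))⁻¹) = 1 :=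
    PresentedGroup.one_of_mem ⟨a, b, c, h, rfl⟩
  rw [map_mul, map_mul, map_inv, mul_inv_eq_one] at h1
  exact h1

lemma face_left {T : Cx} {a b : ℕ} (h : Face T {a, b}) : Face T {a} :=
  Face.mono h (by simp)

lemma face_right {T : Cx} {a b : ℕ} (h : Face T {a, b}) : Face T {b} :=
  Face.mono h (by simp)

lemma face_symm {T : Cx} {a b : ℕ} (h : Face T {a, b}) : Face T {b, a} := by
  rw [pair_comm]; exact h

lemma x_self {T : Cx} {a : ℕ} (h : Face T {a}) : x T a a = 1 := by
  have h1 : x T a a * x T a a = x T a a := x_mul (Face.mono h (by simp))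
  exact mul_left_cancel (h1.trans (mul_one _).symm)

lemma x_inv {T : Cx} {a b : ℕ} (h : Face T {a, b}) : x T b a = (x T a b)⁻¹ := by
  have h1 : x T a b * x T b a = x T a a := x_mul (Face.mono h (by
    intro z hz; simp only [mem_insert, mem_singleton] at hz ⊢; tauto))
  rw [x_self (face_left h)] at h1
  exact (inv_eq_of_mul_eq_one_right h1).symm

lemma walk_edge {T : Cx} {a b : ℕ} (h : Face T {a, b}) : Walk T a b (x T a b) := by
  have := Walk.step (Walk.nil (T := T) (u := a)) h
  rw [one_mul] at this
  exact this

lemma walk_trans {T : Cx} {a b c : ℕ} {g h : PresentedGroup (rels T)} (h1 : Walk T a b g)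
    (h2 : Walk T b c h) : Walk T a c (g * h) := by
  induction h2 with
  | nil => rw [mul_one]; exact h1
  | step _ hf ih => rw [← mul_assoc]; exact Walk.step ih hf

lemma walk_symm {T : Cx} {a b : ℕ} {g : PresentedGroup (rels T)} (h1 : Walk T a b g) :
    Walk T b a g⁻¹ := by
  induction h1 with
  | nil => rw [inv_one]; exact Walk.nil
  | step _ hf ih =>
    rw [mul_inv_rev]
    refine walk_trans ?_ ih
    have := walk_edge (face_symm hf)
    rw [x_inv hf] at this
    exact this

/-- the loops at a vertex -/
def loops (T : Cx) (u : ℕ) : Subgroup (PresentedGroup (rels T)) where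
  carrier := {g | Walk T u u g}
  mul_mem' := fun h1 h2 => walk_trans h1 h2
  one_mem' := Walk.nil
  inv_mem' := fun h => walk_symm h

/-- the tree path from the root to a vertex -/
def t (T : Cx) (u : ℕ) (p : ℕ → ℕ) (v : ℕ) : PresentedGroup (rels T) :=
  if _h : v ≠ u ∧ p v < v then t T u p (p v) * x T (p v) v else 1
termination_by v
decreasing_by exact _h.2

lemma t_root (T : Cx) (u : ℕ) (p : ℕ → ℕ) : t T u p u = 1 := by
  rw [t]; simp

lemma t_step (T : Cx) (u : ℕ) (p : ℕ → ℕ) {v : ℕ} (h1 : v ≠ u) (h2 : p v < v) :
    t T u p v = t T u p (p v) * x T (p v) v := by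
  rw [t, dif_pos ⟨h1, h2⟩]

lemma walk_t {T : Cx} {u : ℕ} {p : ℕ → ℕ}
    (hp : ∀ v, Face T {v} → v ≠ u → p v < v ∧ Face T {p v, v}) (v : ℕ) :
    Face T {v} → Walk T u v (t T u p v) := by
  induction v using Nat.strong_induction_on with
  | _ v ih =>
    intro hv
    by_cases h : v = u
    · subst h; rw [t_root]; exact Walk.nil
    · obtain ⟨h2, h3⟩ := hp v hv h
      rw [t_step T u p h h2]
      exact walk_trans (ih _ h2 (face_left h3)) (walk_edge h3)

end RANK

open RANK in
theorem RANK : S_RANK := by
  intro T u p _ hp
  refine ⟨loops T u, fun v w => t T u p v * x T v w * (t T u p w)⁻¹, fun g => Iff.rfl,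
    ?_, ?_, ?_, ?_⟩
  · intro a b c h
    simp only
    rw [← x_mul h]
    group
  · intro v hv h
    simp only
    rw [t_step T u p h (hp v hv h).1]
    group
  · intro v w h
    exact walk_trans (walk_trans (walk_t hp v (face_left h)) (walk_edge h))
      (walk_symm (walk_t hp w (face_right h)))
  · intro H hH g hg
    have key : ∀ v w, Face T {v, w} → t T u p v * x T v w * (t T u p w)⁻¹ ∈ H := by
      intro v w h
      rcases lt_trichotomy v w with h1 | h1 | h1
      · exact hH v w h1 h
      · subst h1
        rw [x_self (face_left h), mul_one, mul_inv_cancel]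
        exact H.one_mem
      · have h2 := H.inv_mem (hH w v h1 (face_symm h))
        simp only at h2
        rw [x_inv (face_symm h)]
        convert h2 using 1
        group
    have main : ∀ v g, Walk T u v g → g * (t T u p v)⁻¹ ∈ H := by
      intro v g hw
      induction hw with
      | nil => rw [t_root, inv_one, mul_one]; exact H.one_mem
      | @step v w g _ hf ih =>
        have h2 := H.mul_mem ih (key v w hf)
        convert h2 using 1
        change g * x T v w * _ = _
        group
    have := main u g hg
    rw [t_root, inv_one, mul_one] at this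
    exact this

end Pool.Agent.P.MP_4830f8_gt.RG
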