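import Pool.Agent.P.MP_4830f8_gt.RG.Iface

/-! Invariance of the state sums under renaming of the vertices. -/

set_option autoImplicit false

namespace Pool.Agent.P.MP_4830f8_gt.RG

open Finset

namespace REN

variable (f : Equiv.Perm ℕ)

/-- the image of a vertex set -/
def im (σ : Finset ℕ) : Finset ℕ := σ.image f

lemma inj : Function.Injective (im f) := image_injective f.injective

lemma surj (A : Finset ℕ) : ∃ B, A = im f B :=
  ⟨A.image f.symm, by simp [im, image_image]⟩

lemma card_im (A : Finset ℕ) : (im f A).card = A.card := card_image_of_injective _ f.injective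

lemma sub_im {A B : Finset ℕ} : im f A ⊆ im f B ↔ A ⊆ B :=
  image_subset_image_iff f.injective

lemma mem_im {A : Finset ℕ} {v : ℕ} : f v ∈ im f A ↔ v ∈ A := f.injective.mem_finset_image

lemma insert_im (A : Finset ℕ) (v : ℕ) : insert (f v) (im f A) = im f (insert v A) :=
  (image_insert _ _ _).symm

lemma single_im (v : ℕ) : ({f v} : Finset ℕ) = im f {v} := (image_singleton _ _).symm

lemma mem_img {E : Finset (Finset ℕ)} {A : Finset ℕ} : im f A ∈ E.image (im f) ↔ A ∈ E :=
  (inj f).mem_finset_image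

lemma face {K : Cx} {A : Finset ℕ} : Face (ren f K) (im f A) ↔ Face K A := by
  constructor
  · rintro ⟨_, h, h'⟩
    obtain ⟨σ, hσ, rfl⟩ := mem_image.1 h
    exact ⟨σ, hσ, (sub_im f).1 h'⟩
  · rintro ⟨σ, hσ, h⟩
    exact ⟨_, mem_image_of_mem _ hσ, (sub_im f).2 h⟩

lemma ext_im {E E' : Finset (Finset ℕ)} (h : ∀ A, im f A ∈ E' ↔ A ∈ E) :
    E' = E.image (im f) := by
  ext A
  obtain ⟨B, rfl⟩ := surj f A
  rw [h, mem_img]

lemma ext_v {V V' : Finset ℕ} (h : ∀ v, f v ∈ V' ↔ v ∈ V) : V'.card = V.card := by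
  rw [← card_im f V]
  congr 1
  ext v
  obtain ⟨w, rfl⟩ := f.surjective v
  rw [h, mem_im]

lemma pow_im (n : ℕ) (A : Finset ℕ) :
    (im f A).powersetCard n = (A.powersetCard n).image (im f) :=
  ext_im f fun B => by rw [mem_powersetCard, mem_powersetCard, sub_im, card_im]

lemma cnt (A : Finset ℕ) (U : Finset (Finset ℕ)) :
    ((im f A).powersetCard 2 ∩ U.image (im f)).card = (A.powersetCard 2 ∩ U).card := by
  rw [pow_im, ← image_inter _ _ (inj f), card_image_of_injective _ (inj f)]

lemma AD_im (σ : Finset ℕ) (U : Finset (Finset ℕ)) :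
    AD (im f σ) (U.image (im f)) = AD σ U := by
  unfold AD
  refine if_congr ?_ rfl rfl
  rw [pow_im, forall_mem_image]
  exact forall₂_congr fun t _ => by rw [cnt]

lemma WW_im (σ : Finset ℕ) (U : Finset (Finset ℕ)) :
    WW (im f σ) (U.image (im f)) = WW σ U := by
  rw [WW, WW, AD_im, cnt]

lemma prod_ren (K : Cx) (g : Finset ℕ → ℝ) : ∏ σ ∈ ren f K, g σ = ∏ σ ∈ K, g (im f σ) :=
  prod_image fun _ _ _ _ h => inj f h

lemma tv (K : Cx) : TV (ren f K) = TV K := by
  have h1 : (verts (ren f K)).card = (verts K).card :=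
    ext_v f fun v => by rw [mem_verts, mem_verts, single_im, face]
  have h2 : edges (ren f K) = (edges K).image (im f) :=
    ext_im f fun A => by rw [mem_edges, mem_edges, card_im, face]
  rw [TV, TV, h1, h2, SS_image (inj f).injOn]
  simp only [prod_ren, WW_im]

variable {f}

lemma zero_im (h : f 0 = 0) {A : Finset ℕ} : 0 ∈ im f A ↔ 0 ∈ A := by
  rw [← mem_im f (A := A) (v := 0), h]

lemma ins_im (h : f 0 = 0) (A : Finset ℕ) : insert 0 (im f A) = im f (insert 0 A) := by
  rw [← insert_im, h]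

lemma ne_zero (h : f 0 = 0) {v : ℕ} : f v ≠ 0 ↔ v ≠ 0 := by
  rw [← f.injective.ne_iff (x := v) (y := 0), h]

lemma W0_im (h : f 0 = 0) (σ : Finset ℕ) (U : Finset (Finset ℕ)) :
    W0 (im f σ) (U.image (im f)) = W0 σ U := by
  have e : (im f σ).erase 0 = im f (σ.erase 0) := by
    rw [im, im, image_erase f.injective, h]
  unfold W0
  rw [e, AD_im, WW_im]
  exact if_congr (zero_im h) rfl rfl

lemma nn (h : f 0 = 0) (K : Cx) : NN (ren f K) = NN K := by
  have h0 : ∀ v, ({0, f v} : Finset ℕ) = im f {0, v} := fun v => by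
    rw [single_im, ins_im h]
  have h1 : (vI (ren f K)).card = (vI K).card :=
    ext_v f fun v => by rw [mem_vI, mem_vI, h0, single_im, face, face, ne_zero h]
  have h2 : (vB (ren f K)).card = (vB K).card :=
    ext_v f fun v => by rw [mem_vB, mem_vB, h0, face, ne_zero h]
  have h3 : eB (ren f K) = (eB K).image (im f) :=
    ext_im f fun A => by rw [mem_eB, mem_eB, card_im, ins_im h, face, zero_im h]
  have h4 : eI (ren f K) = (eI K).image (im f) :=
    ext_im f fun A => by rw [mem_eI, mem_eI, card_im, ins_im h, face, face, zero_im h]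
  have h5 : ∀ c, ZZ (ren f K) (c.image (im f)) = ZZ K c := fun c => by
    rw [ZZ, ZZ, h4, SS_image (inj f).injOn]
    simp only [prod_ren, ← image_union, W0_im h]
  rw [NN, NN, h1, h2, h3, SS_image (inj f).injOn]
  simp only [h5]

end REN

theorem REN : S_REN := ⟨REN.tv, fun _ K h => REN.nn h K⟩

end Pool.Agent.P.MP_4830f8_gt.RG
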