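import Pool.Agent.P.MP_4830f8_gt.RG.Iface2

/-! The relations between the edge elements hold up to sign. -/

set_option autoImplicit false

namespace Pool.Agent.P.MP_4830f8_gt.RG

open Finset Matrix

namespace REP

/-- the signs -/
def Z : Subgroup SL2 where
  carrier := {a | a = 1 ∨ a = -1}
  one_mem' := Or.inl rfl
  mul_mem' := by
    rintro a b (rfl | rfl) (rfl | rfl) <;> simp
  inv_mem' := by
    rintro a (rfl | rfl)
    · simp
    · right
      exact inv_eq_of_mul_eq_one_right (by simp)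

instance : Z.Normal := ⟨by
  rintro a (rfl | rfl) g
  · left; simp
  · right; simp⟩

abbrev Q := SL2 ⧸ Z

noncomputable def pr : SL2 →* Q := QuotientGroup.mk' Z

lemma pr_one {a : SL2} : pr a = 1 ↔ PM a 1 := by
  unfold pr PM
  rw [QuotientGroup.mk'_apply, QuotientGroup.eq_one_iff]
  rfl

lemma pr_eq {a b : SL2} (h : pr a = pr b) : PM a b := by
  have h1 : pr (a * b⁻¹) = 1 := by rw [map_mul, map_inv, h, mul_inv_cancel]
  rcases pr_one.1 h1 with h2 | h2
  · left; exact mul_inv_eq_one.1 h2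
  · right
    have := congrArg (· * b) h2
    simpa using this

lemma pr_neg : pr (-1) = 1 := pr_one.2 (Or.inr rfl)

lemma sv_pr (val : ℕ → SL2) (c : ℕ) : sv 90 (fun z => pr (val z)) c = pr (sv 90 val c) := by
  unfold sv
  split_ifs <;> simp

lemma sv_even {G : Type} [Group G] (val : ℕ → G) (z : ℕ) : sv 90 val (2 * z) = val z := by
  unfold sv
  rw [if_neg (by omega), Nat.mul_div_cancel_left _ (by norm_num)]

lemma sv_zero {G : Type} [Group G] (val : ℕ → G) : sv 90 val 0 = val 0 := sv_even val 0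

section
variable {F op : ℕ → ℕ} {g val : ℕ → SL2} {nd n1 n : ℕ}

lemma sqs (hA : Arcs op g) (hv : ∀ z < 45, val z = g z) :
    pr (val 0) = 1 ∧ ∀ c < 90, pr (val (c / 2)) * pr (val (c / 2)) = 1 := by
  have h0 : pr (val 0) = 1 := by rw [hv 0 (by norm_num), hA.one, map_one]
  refine ⟨h0, fun c hc => ?_⟩
  rcases Nat.eq_zero_or_pos (c / 2) with h | h
  · rw [h, h0, one_mul]
  · rw [hv _ (by omega), ← map_mul, hA.sq _ h (by omega), pr_neg]

lemma base (h1 : S_FACT) (h2 : S_DH) (hA : Arcs op g) (hv : ∀ z < 45, val z = g z)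
    (hd : ∀ i < nd, val (45 + i) = sv 90 val (cd (F i) 0) * sv 90 val (cd (F i) 1))
    (hdef : ∀ i < nd, defChk F 45 i = true) (htet : ∀ i < n, tetChk F 90 i = true)
    (hb : ∀ i, nd ≤ i → i < n → baseA F op nd n1 i = true) (m : ℕ) (hm : m ≤ n)
    (h4 : n1 < m → PM (g (o1 (op 4)) * g (o2 (op 4))) 1) :
    ∀ i < m, Holds ⊥ 90 (fun z => pr (val z)) (F i) := by
  obtain ⟨h0, hs⟩ := sqs hA hv
  refine (h1 Q ⊥ 90 (fun z => pr (val z)) F m (by norm_num) h0 hs).1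
    (fun i hi => htet i (by omega)) fun i hi h43 => ?_
  rcases Nat.lt_or_ge i nd with hi2 | hi2
  · refine h2 Q ⊥ 90 45 i F _ (by norm_num) (hdef i hi2) ?_
    rw [sv_pr, sv_pr, ← map_mul, hd i hi2]
  have h := hb i hi2 (by omega)
  simp only [baseA, force_eq, an_iff, oo_iff, cn_eq, lt_iff, beq_iff, Nat.add_eq,
    Nat.mul_eq] at h
  rcases h with h | ⟨h42, h⟩
  · omega
  unfold Holds
  rw [if_pos h42]
  generalize fd (F i) 44 63 = k at h
  split_ifs at h with hk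
  · simp only [an_iff, oo_iff, lt_iff, ble_iff, beq_iff] at h
    obtain ⟨hk4, e0, e1, e2⟩ := h
    have hc : o1 (op k) < 45 ∧ o2 (op k) < 45 ∧ PM (g (o1 (op k)) * g (o2 (op k))) 1 := by
      rcases Nat.lt_or_ge k 4 with h3 | h3
      · exact hA.cup k h3
      · have : k = 4 := by omega
        subst this
        exact ⟨hA.lst.1, hA.lst.2.1, h4 (by omega)⟩
    rw [e0, e1, e2, sv_even, sv_even, sv_zero, h0, mul_one, hv _ hc.1, hv _ hc.2.1, ← map_mul]
    exact pr_one.2 hc.2.2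
  · simp only [an_iff, lt_iff, ble_iff, beq_iff] at h
    obtain ⟨hk7, hk45, hj, e0, e1, e2, e3, e4⟩ := h
    obtain ⟨c1, c2, c3⟩ := hA.crs k hk7 hk45
    rw [e0, e1, e2, sv_even, sv_even, sv_even, hd _ hj, e3, e4, sv_even, sv_even, hv _ c1,
      hv _ c2, hv _ hk45, ← map_mul, ← c3, ← map_mul, hA.sq k (by omega) hk45, pr_neg]

lemma last {i1 i2 i3 : ℕ} (hA : Arcs op g) (hv : ∀ z < 45, val z = g z)
    (hp : phChk F op n1 i1 i2 i3 = true)
    (hH : ∀ i < n1, Holds ⊥ 90 (fun z => pr (val z)) (F i)) :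
    PM (g (o1 (op 4)) * g (o2 (op 4))) 1 := by
  simp only [phChk, an_iff, lt_iff, beq_iff, Nat.mul_eq] at hp
  obtain ⟨l1, l2, l3, b1, b2, b3, e1, e2, e3, e4, e5, e6, e7, p1, p2, p3, p4⟩ := hp
  have a1 := hH i1 l1
  have a2 := hH i2 l2
  have a3 := hH i3 l3
  unfold Holds at a1 a2 a3
  rw [if_pos b1, e1, e2, sv_even, sv_even, hv _ p2, hv _ p4] at a1
  rw [if_pos b2, e3, e4, sv_even, sv_even, hv _ hA.lst.1, hv _ hA.lst.2.1] at a2
  rw [if_pos b3, e5, e6, e7, sv_zero, (sqs hA hv).1, mul_one] at a3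
  refine hA.lst.2.2 p1 p2 p3 p4 (pr_one.1 ?_)
  rw [map_mul, map_mul, map_mul]
  have c1 := eq_inv_of_mul_eq_one_left a1
  have c2 := eq_inv_of_mul_eq_one_left a2
  have c3 := eq_inv_of_mul_eq_one_left a3
  rw [c1, mul_assoc, c2, c3, inv_inv, mul_inv_cancel]

end

end REP

open REP in
theorem REP (h1 : S_FACT) (h2 : S_DH) : S_REP := by
  intro F op tt ed tx g val nd n1 n n0 i1 i2 i3 hA hv hd hn hdef htet hb hp hf hs u v w huv hvw
    hF
  have h4 := last hA hv hp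
    (base h1 h2 hA hv hd hdef htet hb n1 hn fun h => absurd h (lt_irrefl _))
  have hH := base h1 h2 hA hv hd hdef htet hb n le_rfl fun _ => h4
  obtain ⟨h0, hq⟩ := sqs hA hv
  have key := (h1 Q ⊥ 90 (fun z => pr (val z)) F n (by norm_num) h0 hq).2 hH ed
  apply pr_eq
  rw [map_mul, ← sv_pr, ← sv_pr, ← sv_pr]
  obtain ⟨σ, hσ, hsub⟩ := hF
  simp only [TT, mkT, mem_image, mem_range] at hσ
  obtain ⟨i, hi, rfl⟩ := hσ
  have hfi := hf i hi
  obtain ⟨s1, s2, s3⟩ := hs i hi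
  simp only [faceChk, force_eq, an_iff] at hfi
  obtain ⟨f1, f2, f3, f4⟩ := hfi
  have hu := hsub (show u ∈ ({u, v, w} : Finset ℕ) by simp)
  have hv' := hsub (show v ∈ ({u, v, w} : Finset ℕ) by simp)
  have hw := hsub (show w ∈ ({u, v, w} : Finset ℕ) by simp)
  simp only [tv, mem_insert, mem_singleton, if_true, one_ne_zero, if_false, OfNat.ofNat_ne_zero,
    OfNat.ofNat_ne_one, Nat.reduceEqDiff] at hu hv' hw
  have hc : (u = t1 (tt i) ∧ v = t2 (tt i) ∧ w = t3 (tt i)) ∨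
      (u = t0 (tt i) ∧ v = t2 (tt i) ∧ w = t3 (tt i)) ∨
      (u = t0 (tt i) ∧ v = t1 (tt i) ∧ w = t3 (tt i)) ∨
      (u = t0 (tt i) ∧ v = t1 (tt i) ∧ w = t2 (tt i)) := by omega
  rcases hc with ⟨rfl, rfl, rfl⟩ | ⟨rfl, rfl, rfl⟩ | ⟨rfl, rfl, rfl⟩ | ⟨rfl, rfl, rfl⟩
  · exact key _ _ _ _ _ f1
  · exact key _ _ _ _ _ f2
  · exact key _ _ _ _ _ f3
  · exact key _ _ _ _ _ f4

end Pool.Agent.P.MP_4830f8_gt.RG
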