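import Pool.Agent.P.MP_4830f8_gt.RG.Iface2

/-! The edge-path group is generated by four elements: soundness of the checker. -/

set_option autoImplicit false

namespace Pool.Agent.P.MP_4830f8_gt.RG

open Finset

namespace RKB

lemma k1_ky {v w : ℕ} (hw : w ≤ 127) : k1 (ky v w) = v := by
  show (128 * v + w) >>> 7 = v
  rw [Nat.shiftRight_eq_div_pow]
  omega

lemma k2_ky {v w : ℕ} (hw : w ≤ 127) : k2 (ky v w) = w := by
  show (128 * v + w) &&& (2 ^ 7 - 1) = w
  rw [Nat.and_two_pow_sub_one_eq_mod]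
  omega

lemma shr1 (c : ℕ) : Nat.shiftRight c 1 = c / 2 := Nat.shiftRight_eq_div_pow c 1

lemma land1 (c : ℕ) : Nat.land c 1 = c % 2 := Nat.and_one_is_mod c

lemma nm {en : ℕ → ℕ} {nE c v w : ℕ} (h : nmE en nE c v w = true) (hw : w ≤ 127) :
    1 ≤ c / 2 ∧ c / 2 ≤ nE ∧ k1 (en (c / 2)) = v ∧ k2 (en (c / 2)) = w := by
  simp only [nmE, force_eq, an_iff, lt_iff, ble_iff, beq_iff, shr1] at h
  exact ⟨h.1, h.2.1, by rw [h.2.2, k1_ky hw], by rw [h.2.2, k2_ky hw]⟩

lemma face3 {tt : ℕ → ℕ} {n0 j u v w : ℕ} (hj : j < n0) (hu : inT (tt j) u = true)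
    (hv : inT (tt j) v = true) (hw : inT (tt j) w = true) : Face (TT tt n0) {u, v, w} := by
  simp only [inT, oo_iff, beq_iff] at hu hv hw
  refine ⟨{t0 (tt j), t1 (tt j), t2 (tt j), t3 (tt j)}, mem_image.2 ⟨j, mem_range.2 hj, rfl⟩, ?_⟩
  simp only [insert_subset_iff, singleton_subset_iff, mem_insert, mem_singleton]
  exact ⟨hu, hv, hw⟩

lemma sv_mem {G : Type} [Group G] (H : Subgroup G) (B : ℕ) (val : ℕ → G) (c : ℕ) :
    sv B val c ∈ H ↔ val (c / 2) ∈ H := by
  unfold sv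
  split_ifs
  exacts [H.inv_mem_iff, Iff.rfl]

lemma sv_zero {G : Type} [Group G] {val : ℕ → G} (h : val 0 = 1) : sv 2 val 0 = 1 := by
  simp [sv, h]

end RKB

open RKB in
theorem RKB (h1 : S_RANK) (h2 : S_FACT) (h3 : S_DEF) (h4 : S_DH) : S_RKB := by
  classical
  intro F tt ed en vt N n0 nE nd n g1 g2 g3 g4 hT hf0 hp hdef htet hbase hmark
  obtain ⟨L, y, hW, htri, htree, hL, hle⟩ := h1 (TT tt n0) 0 (fun v => vP (vt v)) hf0 hp
  obtain ⟨val, hv, hd, hLs⟩ := h3 _ 2 (nE + 1) nd F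
    (fun z => if z = 0 then 1 else y (k1 (en z)) (k2 (en z))) (by omega) hdef
  have v0 : val 0 = 1 := by rw [hv 0 (by omega), if_pos rfl]
  have vz : ∀ z, 1 ≤ z → z ≤ nE → val z = y (k1 (en z)) (k2 (en z)) := fun z a b => by
    rw [hv z (by omega), if_neg (by omega)]
  have hin : ∀ c, sv 2 val c ∈ L := hLs L fun z hz => by
    split_ifs with e
    exacts [L.one_mem, hL _ _ (hT.edg z (by omega) (by omega)).2]
  have vn : ∀ c v w, nmE en nE c v w = true → w ≤ 127 →
      1 ≤ c / 2 ∧ val (c / 2) = y v w ∧ Face (TT tt n0) {v, w} := fun c v w h hw => by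
    obtain ⟨a, b, e1, e2⟩ := nm h hw
    exact ⟨a, by rw [vz _ a b, e1, e2], e1 ▸ e2 ▸ (hT.edg _ a b).2⟩
  let S : Finset (PresentedGroup (rels (TT tt n0))) :=
    {sv 2 val g1, sv 2 val g2, sv 2 val g3, sv 2 val g4}
  let H := Subgroup.closure (S : Set (PresentedGroup (rels (TT tt n0))))
  have all : ∀ i < n, Holds H 2 val (F i) := by
    refine (h2 _ H 2 val F n rfl v0 fun c hc => ?_).1 htet fun i hi h43 => ?_
    · rw [show c / 2 = 0 by omega, v0, one_mul]
    rcases lt_or_ge i nd with hnd | hnd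
    · exact h4 _ H 2 (nE + 1) i F val (by omega) (hdef i hnd) (hd i hnd)
    have hb := hbase i hnd hi
    simp only [baseB, force_eq, oo_iff, cn_eq, beq_iff, h43] at hb
    unfold Holds
    rcases hb with hb | hb
    · omega
    split_ifs with h42
    · rw [if_pos h42] at hb
      simp only [an_iff, lt_iff, beq_iff, land1] at hb
      obtain ⟨hj, hu, hv', hw, ea, eb, ec, na, nb, nc⟩ := hb
      obtain ⟨-, a2, -⟩ := vn _ _ _ na (fd_le _ _ _)
      obtain ⟨-, b2, -⟩ := vn _ _ _ nb (fd_le _ _ _)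
      obtain ⟨c1, c2, -⟩ := vn _ _ _ nc (fd_le _ _ _)
      unfold sv
      rw [if_neg (by omega), if_neg (by omega), if_pos ⟨by omega, ec⟩, a2, b2, c2,
        htri _ _ _ (face3 hj hu hv' hw), mul_inv_cancel]
    · rw [if_neg h42] at hb
      simp only [an_iff, oo_iff, lt_iff, beq_iff] at hb
      obtain ⟨ea, ec, hb⟩ := hb
      rw [ea, ec, sv_zero v0, one_mul, mul_one]
      rcases hb with hb | hb | hb | hb | ⟨h0, hb⟩
      · exact Subgroup.subset_closure (by simp [S, hb])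
      · exact Subgroup.subset_closure (by simp [S, hb])
      · exact Subgroup.subset_closure (by simp [S, hb])
      · exact Subgroup.subset_closure (by simp [S, hb])
      · obtain ⟨-, b2, σ, hσ, b3⟩ := vn _ _ _ hb (fd_le _ _ _)
        rw [sv_mem, b2, htree _ ⟨σ, hσ, fun x hx => b3 (mem_insert_of_mem hx)⟩ (by omega)]
        exact H.one_mem
  refine ⟨0, hf0, S, card_le_four, fun g => (hW g).trans ⟨fun h => hle H ?_ h, fun h => ?_⟩⟩
  · intro v w hvw hf
    obtain ⟨z, z1, z2, -, e1, e2⟩ := hT.nam v w hvw hf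
    have hm := hmark z z1 z2
    simp only [markChk, force_eq, an_iff, lt_iff, beq_iff, shr1] at hm
    obtain ⟨hi, ea, eb, ec⟩ := hm
    have hh := all _ hi
    unfold Holds at hh
    rw [ea, ec, sv_zero v0, one_mul, mul_one] at hh
    rw [← e1, ← e2, ← vz z z1 z2, ← eb, ← sv_mem H 2]
    split_ifs at hh
    exacts [hh ▸ H.one_mem, hh]
  · refine (Subgroup.closure_le L).2 (fun x hx => ?_) h
    simp only [S, coe_insert, coe_singleton, Set.mem_insert_iff, Set.mem_singleton_iff] at hx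
    rcases hx with rfl | rfl | rfl | rfl <;> exact hin _

end Pool.Agent.P.MP_4830f8_gt.RG
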