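import Pool.Agent.P.MP_4830f8_gt.RG.Iface

/-! The dynamic programme computes the state sum. -/

set_option autoImplicit false

namespace Pool.Agent.P.MP_4830f8_gt.RG

open Finset

namespace SEM

lemma bit_add : ∀ (j a : ℕ), a.testBit j = false → ∀ k,
    (a + 2 ^ j).testBit k = if k = j then true else a.testBit k := by
  intro j
  induction j with
  | zero =>
    intro a ha k
    have h0 : a % 2 = 0 := by
      rw [Nat.testBit_zero] at ha
      have := of_decide_eq_false ha
      omega
    cases k with
    | zero => simp [Nat.testBit_zero]; omega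
    | succ k =>
      rw [if_neg (Nat.succ_ne_zero k), Nat.testBit_succ, Nat.testBit_succ]
      congr 1; omega
  | succ j ih =>
    intro a ha k
    rw [Nat.testBit_succ] at ha
    cases k with
    | zero =>
      rw [if_neg (Nat.succ_ne_zero j).symm, Nat.testBit_zero, Nat.testBit_zero, pow_succ]
      have : (a + 2 ^ j * 2) % 2 = a % 2 := by omega
      rw [this]
    | succ k =>
      rw [Nat.testBit_succ, Nat.testBit_succ, pow_succ]
      have : (a + 2 ^ j * 2) / 2 = a / 2 + 2 ^ j := by omega
      rw [this, ih _ ha k]
      by_cases h : k = j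
      · simp [h]
      · simp [h]

lemma bit_clear (j a k : ℕ) :
    (if a.testBit j then a - 2 ^ j else a).testBit k = if k = j then false else a.testBit k := by
  by_cases h : a.testBit j = true
  · rw [if_pos h]
    have hle : 2 ^ j ≤ a := Nat.ge_two_pow_of_testBit h
    have e : a = 2 ^ j + (a - 2 ^ j) := by omega
    have h1 : (a - 2 ^ j).testBit j = false := by
      have := Nat.testBit_two_pow_add_eq (a - 2 ^ j) j
      rw [← e, h] at this
      cases hb : (a - 2 ^ j).testBit j
      · rfl
      · rw [hb] at this; simp at this
    have h2 := bit_add j _ h1 k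
    rw [Nat.sub_add_cancel hle] at h2
    by_cases hk : k = j
    · rw [if_pos hk, hk, h1]
    · rw [if_neg hk] at h2 ⊢; exact h2.symm
  · rw [if_neg h]
    by_cases hk : k = j
    · rw [if_pos hk, hk]; simpa using h
    · rw [if_neg hk]

lemma main (w : ℕ) (tet : ℕ → ℕ → ℕ) : ∀ (ops : List Op) (h : ℕ → ℕ) (i : ℕ) (U0 : Finset ℕ),
    okS w tet ops h = true → (∀ j, w ≤ j → h j = 0) →
    (∀ j, i.testBit j = decide (h j ∈ U0)) → 0 ∉ U0 → (∀ l ∈ elims ops, l ∉ U0) →
    FF ops i = SS (elims ops).toFinset
      fun U => ((tets ops).map fun i => wt (tet i) (U0 ∪ U)).prod := by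
  intro ops
  induction ops with
  | nil =>
    intro h i U0 hok hw hb h0 _
    have hz : ∀ j, h j = 0 := by
      intro j
      by_cases hj : j < w
      · exact (of_decide_eq_true hok) j hj
      · exact hw j (not_lt.1 hj)
    have hi : i = 0 := Nat.eq_of_testBit_eq fun j => by
      rw [hb j, hz j, Nat.zero_testBit]; simpa using h0
    simp [FF, hi, elims, tets, SS_empty]
  | cons op r ih =>
    intro h i U0 hok hw hb h0 hl
    cases op with
    | tet t j0 j1 j2 j3 j4 j5 =>
      simp only [okS, Bool.and_eq_true, decide_eq_true_eq, List.all_eq_true, List.mem_range] at hok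
      obtain ⟨⟨⟨e0, e1, e2, e3, e4, e5⟩, hn⟩, hok⟩ := hok
      have hr := ih h i U0 hok hw hb h0 hl
      have key : ∀ U ⊆ (elims r).toFinset, ∀ k < 6,
          decide (tet t k ∈ U0 ∪ U) = decide (tet t k ∈ U0) := by
        intro U hU k hk
        have : tet t k ∉ U := fun hm => hn k hk (List.mem_toFinset.1 (hU hm))
        simp [this]
      show FF r i * _ = SS (elims r).toFinset fun U =>
        ((t :: tets r).map fun i => wt (tet i) (U0 ∪ U)).prod
      rw [hr, mul_comm, ← SS_mul]
      refine SS_congr fun U hU => ?_
      rw [List.map_cons, List.prod_cons]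
      congr 1
      unfold wt
      rw [key U hU 0 (by norm_num), key U hU 1 (by norm_num), key U hU 2 (by norm_num),
        key U hU 3 (by norm_num), key U hU 4 (by norm_num), key U hU 5 (by norm_num),
        hb j0, hb j1, hb j2, hb j3, hb j4, hb j5, e0, e1, e2, e3, e4, e5]
    | elim j l =>
      simp only [okS, Bool.and_eq_true, decide_eq_true_eq] at hok
      obtain ⟨⟨⟨hj, hj0, hl0, hlr⟩, hne⟩, hok⟩ := hok
      have hbj : i.testBit j = false := by rw [hb j, hj0]; simpa using h0
      have hlU : l ∉ U0 := hl l (by simp [elims])
      have hl' : ∀ x ∈ elims r, x ∉ U0 := fun x hx => hl x (by simp [elims, hx])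
      have hw' : ∀ x, w ≤ x → (fun x => if x = j then l else h x) x = 0 := by
        intro x hx
        have : x ≠ j := by omega
        simp only [this, if_false]; exact hw x hx
      have hne' : ∀ x, h x ≠ l := by
        intro x
        by_cases hx : x < w
        · exact hne x hx
        · rw [hw x (not_lt.1 hx)]; exact hl0.symm
      have h1 := ih _ i U0 hok hw' (fun x => by
        by_cases hx : x = j
        · simp [hx, hbj, hlU]
        · simp only [hx, if_false]; exact hb x) h0 hl'
      have h2 := ih _ (i + 2 ^ j) (insert l U0) hok hw' (fun x => by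
        rw [bit_add j i hbj x]
        by_cases hx : x = j
        · simp [hx]
        · simp only [hx, if_false]; rw [hb x]; simp [hne' x])
        (by simp [h0, hl0.symm]) (fun x hx => by
          have : x ≠ l := fun e => hlr (e ▸ hx)
          simp [this, hl' x hx])
      show (if i.testBit j then 0 else FF r i + ph * FF r (i + 2 ^ j)) =
        SS (l :: elims r).toFinset fun U => ((tets r).map fun i => wt (tet i) (U0 ∪ U)).prod
      rw [hbj, if_neg (by simp), List.toFinset_cons,
        SS_insert (by simpa using hlr), h1, h2, ← SS_mul, ← SS_add]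
      refine SS_congr fun U _ => ?_
      rw [insert_union, union_insert]
    | intro j =>
      simp only [okS, Bool.and_eq_true, decide_eq_true_eq] at hok
      obtain ⟨hj, hok⟩ := hok
      exact ih _ _ U0 hok (fun x hx => by
        by_cases e : x = j
        · simp [e]
        · simp only [e, if_false]; exact hw x hx) (fun x => by
        rw [bit_clear]
        by_cases e : x = j
        · simp [e, h0]
        · simp only [e, if_false]; exact hb x) h0 hl

end SEM

theorem SEM : S_SEM := by
  intro w tet ops hok
  have := SEM.main w tet ops (fun _ => 0) 0 ∅ hok (fun _ _ => rfl) (fun j => by simp)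
    (notMem_empty 0) (fun l _ => notMem_empty l)
  simpa only [empty_union] using this

end Pool.Agent.P.MP_4830f8_gt.RG
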