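import Pool.Agent.P.MP_4830f8_gt.RG.Iface2

/-! Signs of determinants and the cocycle of transition matrices. -/

set_option autoImplicit false

namespace Pool.Agent.P.MP_4830f8_gt.RG

open Finset Matrix CB

namespace SG

lemma eX_le (E k : ℕ) : |((eX E k : ℤ) : ℝ)| ≤ 137438953472 := by
  have h := fd_le E (Nat.add 70 (Nat.mul 38 k)) 274877906943
  have : |eX E k| ≤ 137438953472 := by
    rw [eX, Int.subNatNat_eq_coe, abs_le]
    omega
  exact_mod_cast this

lemma err {a b c x y z : ℝ} (ha : |a| ≤ 137438953472) (hb : |b| ≤ 137438953472)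
    (hc : |c| ≤ 137438953472) (hx : |x - a| ≤ 16) (hy : |y - b| ≤ 16) (hz : |z - c| ≤ 16) :
    |x * y * z - a * b * c| ≤ 906694364816524997300224 := by
  have y' : |y| ≤ 137438953488 := by
    have := abs_add_le (y - b) b
    rw [sub_add_cancel] at this
    linarith
  have z' : |z| ≤ 137438953488 := by
    have := abs_add_le (z - c) c
    rw [sub_add_cancel] at this
    linarith
  have e : x * y * z - a * b * c = (x - a) * y * z + a * (y - b) * z + a * b * (z - c) := by ring
  have h1 : |(x - a) * y * z| ≤ 16 * 137438953488 * 137438953488 := by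
    rw [abs_mul, abs_mul]; gcongr
  have h2 : |a * (y - b) * z| ≤ 137438953472 * 16 * 137438953488 := by
    rw [abs_mul, abs_mul]; gcongr
  have h3 : |a * b * (z - c)| ≤ 137438953472 * 137438953472 * 16 := by
    rw [abs_mul, abs_mul]; gcongr
  rw [e]
  refine (abs_add_three _ _ _).trans ?_
  linarith

lemma big_lt {x : ℤ} (h : big x = true) : 5440166188899149983801344 < x := by
  cases x with
  | ofNat n =>
    have : 5440166188899149983801344 < n := lt_iff.1 h
    exact Int.ofNat_lt.2 this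
  | negSucc n => exact absurd h (by simp [big])

lemma pos3 {p a b : Fin 3 → ℝ} {E A B : ℕ} (hp : Near p E) (ha : Near a A) (hb : Near b B)
    (h : big (d3 (eX E 0) (eX E 1) (eX E 2) A B) = true) : 0 < D3 p a b := by
  have h0 := big_lt h
  simp only [d3, forceI_eq, Int.add_def, Int.mul_def] at h0
  have h1 : (5440166188899149983801344 : ℝ) <
      eX E 0 * (eX A 1 * eX B 2 - eX A 2 * eX B 1) + eX E 1 * (eX A 2 * eX B 0 - eX A 0 * eX B 2) +
        eX E 2 * (eX A 0 * eX B 1 - eX A 1 * eX B 0) := by exact_mod_cast h0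
  have k := fun i j l : Fin 3 =>
    abs_le.1 (err (eX_le E i) (eX_le A j) (eX_le B l) (hp i) (ha j) (hb l))
  have k1 := k 0 1 2
  have k2 := k 0 2 1
  have k3 := k 1 2 0
  have k4 := k 1 0 2
  have k5 := k 2 0 1
  have k6 := k 2 1 0
  simp only [Fin.val_zero, Fin.val_one, Fin.val_two] at k1 k2 k3 k4 k5 k6
  have e : D3 p a b = p 0 * (a 1 * b 2 - a 2 * b 1) + p 1 * (a 2 * b 0 - a 0 * b 2) +
      p 2 * (a 0 * b 1 - a 1 * b 0) := by
    simp [D3, cross_apply, dotProduct, Fin.sum_univ_three]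
  have : 0 < (3 : ℝ) ^ 21 * 3 ^ 21 * 3 ^ 21 * D3 p a b := by
    rw [e]
    generalize (3 : ℝ) ^ 21 = s at *
    linarith [k1.1, k2.2, k3.1, k4.2, k5.1, k6.2]
  exact (mul_pos_iff_of_pos_left (by positivity)).1 this

lemma swap3 (p a b : Fin 3 → ℝ) : D3 p a b = -D3 p b a := by
  simp [D3, cross_apply, dotProduct, Fin.sum_univ_three]
  ring

lemma inv_G (vt : ℕ → ℕ) (γ : ℕ → ℕ → SL2) (v w : ℕ) : GG vt γ w v = (GG vt γ v w)⁻¹ := by
  unfold GG
  rcases lt_trichotomy v w with h | h | h
  · rw [if_neg h.not_gt, if_pos h, if_pos h]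
  · simp [h]
  · rw [if_pos h, if_neg h.not_gt, if_pos h, inv_inv]

lemma sw1 {a b c : SL2} (h : PM (a * b) c) : PM (a⁻¹ * c) b := by
  rcases h with h | h
  · exact .inl (by rw [← h, inv_mul_cancel_left])
  · exact .inr (by rw [← neg_neg c, ← h, mul_neg, inv_mul_cancel_left])

lemma sw2 {a b c : SL2} (h : PM (a * b) c) : PM (c * b⁻¹) a := by
  rcases h with h | h
  · exact .inl (by rw [← h, mul_inv_cancel_right])
  · exact .inr (by rw [← neg_neg c, ← h, neg_mul, mul_inv_cancel_right])

end SG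

open SG

theorem SG : S_SG := by
  intro tt ed en mw x N n0 nE T hx hc v w hvw hf
  obtain ⟨z, z1, z2, ez, e1, -⟩ := T.nam v w hvw hf
  obtain ⟨h3, hm, -, -⟩ := T.cyc v w hvw hf
  simp only at h3 hm
  have c := hc z z1 z2
  simp only [sgChk, force_eq, forceI_eq, allN_iff, an_iff, oo_iff, cn_eq, beq_iff, ble_iff, e1] at c
  rw [ez] at c
  have na : ∀ k < eL (ed (ky v w)),
      Near (x v (eA (ed (ky v w)) k)) (ed (ky v (eA (ed (ky v w)) k))) := fun k hk => by
    have m := hm k hk
    refine hx _ _ (fun e => ?_) ⟨_, m, by simp [insert_subset_iff]⟩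
    have c4 := T.card _ m
    rw [← e, insert_comm w v, insert_eq_of_mem (mem_insert_self v _)] at c4
    have := card_le_three (a := v) (b := w)
      (c := eA (ed (ky v w)) ((k + 1) % eL (ed (ky v w))))
    omega
  have np := hx v w hvw.ne hf
  have n0' := na 0 (by omega)
  refine ⟨fun k hk => pos3 np (na k hk) (na _ (Nat.mod_lt _ (by omega))) (c k hk).1,
    mw z, fun k hk => ⟨fun k1 k2 => ?_, fun k2 => ?_⟩⟩
  · have := (c k hk).2.resolve_left (by omega)
    rw [if_pos k2] at this
    exact pos3 np n0' (na k hk) this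
  · have := (c k hk).2.resolve_left (by omega)
    rw [if_neg (by omega), oo_iff, beq_iff] at this
    rw [swap3, neg_lt_zero]
    exact pos3 np (na k hk) n0' (this.resolve_left (by omega))

theorem COC : S_COC := by
  intro T vt γ h
  have one : ∀ v, GG vt γ v v = 1 := fun v => by simp [GG]
  refine ⟨one, ?_⟩
  let P : ℕ → ℕ → ℕ → Prop := fun u v w =>
    Face T {u, v, w} → PM (GG vt γ u v * GG vt γ v w) (GG vt γ u w)
  have s1 : ∀ {u v w}, P u v w → P v u w := fun {u v w} k f => by
    rw [inv_G vt γ u v]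
    exact sw1 (k (by rwa [insert_comm]))
  have s2 : ∀ {u v w}, P u v w → P u w v := fun {u v w} k f => by
    rw [inv_G vt γ v w]
    exact sw2 (k (by rwa [pair_comm]))
  have d1 : ∀ u w, P u u w := fun u w _ => .inl (by rw [one, one_mul])
  have b : ∀ {u v w}, u < v → v < w → P u v w := fun {u v w} h1 h2 f => by
    simp only [GG, if_pos h1, if_pos h2, if_pos (h1.trans h2)]
    have e : (hm (vt u))⁻¹ * γ u v * hm (vt v) * ((hm (vt v))⁻¹ * γ v w * hm (vt w)) =
        (hm (vt u))⁻¹ * (γ u v * γ v w) * hm (vt w) := by group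
    rw [e]
    rcases h u v w h1 h2 f with k | k
    · exact .inl (by rw [k])
    · exact .inr (by rw [k, mul_neg, neg_mul])
  have b' : ∀ {u v}, u < v → ∀ w, P u v w := fun {u v} h1 w => by
    rcases lt_trichotomy v w with h2 | rfl | h2
    · exact b h1 h2
    · exact s1 (s2 (d1 v u))
    · rcases lt_trichotomy u w with h3 | rfl | h3
      · exact s2 (b h3 h2)
      · exact s2 (d1 u v)
      · exact s2 (s1 (b h3 h1))
  intro u v w
  rcases lt_trichotomy u v with h1 | rfl | h1
  · exact b' h1 w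
  · exact d1 u w
  · exact s1 (b' h1 w)

end Pool.Agent.P.MP_4830f8_gt.RG
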