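import Pool.Agent.P.MP_4830f8_gt.RG.Iface2

/-! Soundness of the Newton step checker. -/

set_option autoImplicit false

namespace Pool.Agent.P.MP_4830f8_gt.RG

open Finset Matrix CB

namespace SOL

lemma sumB_mem {s : ℕ} (z : ℕ → ℂ) (b : ℕ → CB) (n : ℕ) (h : ∀ k < n, mem s (z k) (b k)) :
    mem s (∑ k ∈ range n, z k) (sumB b n) := by
  induction n with
  | zero => rw [range_zero, sum_empty]; exact mem_cst (by simp)
  | succ n ih =>
    rw [sum_range_succ, add_comm]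
    exact (h n (by omega)).add (ih fun k hk => h k (by omega))

lemma sumB_fin {s : ℕ} (z : Fin 9 → ℂ) (b : ℕ → CB) (h : ∀ k : Fin 9, mem s (z k) (b k)) :
    mem s (∑ k, z k) (sumB b 9) := by
  have h1 := sumB_mem (fun k => if h : k < 9 then z ⟨k, h⟩ else 0) b 9
    (fun k hk => by simp only [dif_pos hk]; exact h ⟨k, hk⟩)
  rw [← Fin.sum_univ_eq_sum_range (fun k => if h : k < 9 then z ⟨k, h⟩ else 0) 9] at h1
  simpa only [Fin.is_lt, dif_pos, Fin.eta] using h1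

lemma sumN_eq (f : ℕ → ℕ) (n : ℕ) : sumN f n = ∑ k ∈ range n, f k := by
  induction n with
  | zero => rfl
  | succ n ih => rw [sum_range_succ, ← ih]; exact Nat.add_comm (f n) _

/-- the approximate inverse -/
noncomputable def YY (yt : ℕ → ℕ) : Matrix (Fin 9) (Fin 9) ℂ :=
  fun i j => (((yb yt i j).x : ℂ) + (yb yt i j).y * Complex.I) / 3 ^ 81

lemma mem_YY (yt : ℕ → ℕ) (i j : Fin 9) : mem 81 (YY yt i j) (yb yt i j) := by
  have e : yb yt i j = ⟨(yb yt i j).x, (yb yt i j).y, 0⟩ := by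
    simp only [yb, force_eq, CB.fz_eq]
  rw [e]
  exact mem_mk (by rw [YY]; field_simp)

lemma ent {ns yt : ℕ → ℕ} (S : Matrix (Fin 9) (Fin 9) ℂ) (M : ℕ) (hM : M = 3 ^ 162)
    (hS : ∀ k j : Fin 9, mem 81 (S k j) (sb ns (45 + k) 0 j)) (i j : Fin 9) :
    mem 162 ((1 - YY yt * S) i j) ((cst (Int.ofNat (if i.val = j.val then M else 0))).sub
      (sumB (fun k => (yb yt i k).mul (sb ns (45 + k) 0 j)) 9)) := by
  have k1 : mem 162 ((1 : Matrix (Fin 9) (Fin 9) ℂ) i j)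
      (cst (Int.ofNat (if i.val = j.val then M else 0))) := by
    refine mem_cst ?_
    by_cases e : i = j
    · subst e
      rw [if_pos rfl, Matrix.one_apply_eq, one_mul, Int.ofNat_eq_natCast, Int.cast_natCast, hM,
        Nat.cast_pow, Nat.cast_ofNat]
    · rw [if_neg (fun k => e (Fin.ext k)), Matrix.one_apply_ne e, zero_mul]; simp
  have k2 := sumB_fin (s := 81 + 81) (fun k => YY yt i k * S k j)
    (fun k => (yb yt i k).mul (sb ns (45 + k) 0 j)) fun k => (mem_YY yt i k).mul (hS k j)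
  rw [Matrix.sub_apply, Matrix.mul_apply]
  exact k1.sub k2

lemma half (z : Fin 9 → ℂ) (b : ℕ → CB) (M : ℕ) (hM : M = 3 ^ 162)
    (hz : ∀ j : Fin 9, mem 162 (z j) (b j))
    (h : 2 * ∑ j ∈ range 9, ((b j).nm + (b j).r) ≤ M) : ∑ j, ‖z j‖ ≤ 1 / 2 := by
  rw [← Fin.sum_univ_eq_sum_range (fun j => (b j).nm + (b j).r) 9] at h
  have h2 := (Nat.cast_le (α := ℝ)).2 h
  rw [Nat.cast_mul, Nat.cast_sum, hM, Nat.cast_pow, Nat.cast_ofNat, Nat.cast_ofNat] at h2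
  have h4 : ∑ j, ‖z j‖ * 3 ^ 162 ≤ ∑ j : Fin 9, (((b j).nm + (b j).r : ℕ) : ℝ) :=
    Finset.sum_le_sum fun j _ => by rw [Nat.cast_add]; exact (hz j).norm_le
  rw [← Finset.sum_mul] at h4
  have h5 : (0 : ℝ) < 3 ^ 162 := by positivity
  generalize (3 : ℝ) ^ 162 = N at h2 h4 h5
  refine le_of_mul_le_mul_right ?_ h5
  linarith

lemma row1 {nc ns yt : ℕ → ℕ} {ρ : ℕ} (S : Matrix (Fin 9) (Fin 9) ℂ)
    (hS : ∀ k j : Fin 9, mem 81 (S k j) (sb ns (45 + k) 0 j)) (i : Fin 9)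
    (h : rowChk nc ns yt ρ i = true) : ∑ j, ‖(1 - YY yt * S) i j‖ ≤ 1 / 2 := by
  rw [rowChk] at h
  have hM : Nat.pow 3 162 = 3 ^ 162 := Nat.pow_eq
  generalize Nat.pow 3 162 = M at h hM
  simp only [CB.fz_eq, an_iff, ble_iff, cn_eq, beq_iff, sumN_eq, Nat.add_eq, Nat.mul_eq] at h
  exact half _ (fun j => (cst (Int.ofNat (if i.val = j then M else 0))).sub
    (sumB (fun k => (yb yt i k).mul (sb ns (45 + k) 0 j)) 9)) M hM
    (fun j => ent S M hM hS i j) h.1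

lemma row2 {nc ns yt : ℕ → ℕ} {ρ : ℕ} (z : Fin 9 → ℂ)
    (hz : ∀ k : Fin 9, mem 202 (z k) (vb nc (45 + k) 0)) (i : Fin 9)
    (h : rowChk nc ns yt ρ i = true) : ‖(YY yt *ᵥ z) i‖ ≤ (ρ : ℝ) / 3 ^ 202 / 2 := by
  simp only [rowChk, CB.fz_eq, an_iff, ble_iff, cn_eq, beq_iff, sumN_eq, Nat.add_eq, Nat.mul_eq,
    Nat.pow_eq] at h
  have h2 := (Nat.cast_le (α := ℝ)).2 h.2
  rw [Nat.cast_mul, Nat.cast_mul, Nat.cast_add, Nat.cast_pow, Nat.cast_ofNat, Nat.cast_ofNat] at h2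
  have k2 := (sumB_fin (s := 81 + 202) (fun k => YY yt i k * z k)
    (fun k => (yb yt i k).mul (vb nc (45 + k) 0)) fun k => (mem_YY yt i k).mul (hz k)).norm_le
  rw [pow_add] at k2
  have h5 : (0 : ℝ) < 3 ^ 81 := by positivity
  have h6 : (0 : ℝ) < 3 ^ 202 := by positivity
  have e : (YY yt *ᵥ z) i = ∑ k, YY yt i k * z k := rfl
  rw [e, div_div, le_div_iff₀ (by positivity)]
  generalize (3 : ℝ) ^ 81 = M at h2 k2 h5
  generalize (3 : ℝ) ^ 202 = N at k2 h6 ⊢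
  refine le_of_mul_le_mul_right ?_ h5
  linarith

end SOL

open SOL in
theorem SOL (h1 : S_EXN) (h2 : S_NODE) (h3 : S_NEWT) : S_SOL := by
  intro nv nc ns op xc yt ta ρ hρ hv hc hr
  choose f hf using (h1 nv ns op xc ta ρ 9 hv).2 ((ta : ℂ) / 3 ^ 202)
  have hρ' : (0 : ℝ) < (ρ : ℝ) / 3 ^ 202 := div_pos (Nat.cast_pos.2 hρ) (by positivity)
  obtain ⟨x, hx, h0⟩ := h3 9 (fun x i => f x (45 + i) 0) (ctr xc) (ρ / 3 ^ 202) (YY yt) hρ'
    (fun x y hx hy => by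
      have k := fun i : Fin 9 => (h2 nv ns op xc ta ρ 9 x y _ _ (hf x) (hf y) hx hy hv (45 + i) 0
        (Or.inr ⟨by omega, by omega, rfl⟩)).2
      choose S hS hS' using k
      exact ⟨S, funext fun i => hS i, fun i =>
        row1 S (fun k j => hS' k j j.2) i (hr i i.2)⟩)
    (fun i => by
      have e : ∀ j, ‖ctr xc j - ctr xc j‖ ≤ ((0 : ℕ) : ℝ) / 3 ^ 202 := fun j => by simp
      exact row2 _ (fun k => (h2 nc ns op xc ta 0 0 _ _ _ _ (hf _) (hf _) e e hc (45 + k) 0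
        (Or.inr ⟨by omega, by omega, rfl⟩)).1) i (hr i i.2))
  exact ⟨_, x, f x, hf x, fun i hi => congrFun h0 ⟨i, hi⟩, fun k k1 k2 c hc =>
    (h2 nv ns op xc ta ρ 9 x x _ _ (hf x) (hf x) hx hx hv k c (Or.inl ⟨k1, k2, hc⟩)).1⟩

end Pool.Agent.P.MP_4830f8_gt.RG
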