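import Pool.Agent.P.MP_4830f8_gt.RG.Iface

/-! The Turaev-Viro number of a union of two handlebodies. -/

set_option autoImplicit false

namespace Pool.Agent.P.MP_4830f8_gt.RG

open Finset

namespace SPL

variable {K L T : Cx}

lemma base (hK : Inv K) {σ : Finset ℕ} (h : σ ∈ K) (h0 : 0 ∈ σ) :
    ∃ τ ∈ K, 0 ∉ τ ∧ σ.erase 0 ⊆ τ := by
  obtain ⟨τ, h1, h2, h3⟩ := (hK σ h).2 0 h0
  refine ⟨τ, h1, fun e => h2 (eq_of_subset_of_card_le ?_ ?_).symm, h3⟩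
  · rw [← insert_erase h0]; exact insert_subset e h3
  · rw [(hK σ h).1, (hK τ h1).1]

lemma face0 (hK : Inv K) {A : Finset ℕ} (h : Face K A) (h0 : 0 ∉ A) :
    ∃ τ ∈ K, 0 ∉ τ ∧ A ⊆ τ := by
  obtain ⟨σ, h1, h2⟩ := h
  by_cases e : 0 ∈ σ
  · obtain ⟨τ, k1, k2, k3⟩ := base hK h1 e
    exact ⟨τ, k1, k2, (subset_erase.2 ⟨h2, h0⟩).trans k3⟩
  · exact ⟨σ, h1, e, h2⟩

lemma cone (h0 : ∀ σ, 0 ∈ σ → (σ ∈ K ↔ σ ∈ L)) (A : Finset ℕ) :
    Face K (insert 0 A) ↔ Face L (insert 0 A) :=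
  ⟨fun ⟨σ, h1, h2⟩ => ⟨σ, (h0 σ (h2 (mem_insert_self _ _))).1 h1, h2⟩,
    fun ⟨σ, h1, h2⟩ => ⟨σ, (h0 σ (h2 (mem_insert_self _ _))).2 h1, h2⟩⟩

lemma faceT (hK : Inv K) (hL : Inv L) (hT : ∀ σ, σ ∈ T ↔ 0 ∉ σ ∧ (σ ∈ K ∨ σ ∈ L))
    (A : Finset ℕ) : Face T A ↔ 0 ∉ A ∧ (Face K A ∨ Face L A) := by
  constructor
  · rintro ⟨σ, h1, h2⟩
    obtain ⟨k1, k2⟩ := (hT σ).1 h1
    exact ⟨fun e => k1 (h2 e), k2.imp (fun k => ⟨σ, k, h2⟩) fun k => ⟨σ, k, h2⟩⟩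
  · rintro ⟨h1, h | h⟩
    · obtain ⟨τ, k1, k2, k3⟩ := face0 hK h h1
      exact ⟨τ, (hT τ).2 ⟨k2, Or.inl k1⟩, k3⟩
    · obtain ⟨τ, k1, k2, k3⟩ := face0 hL h h1
      exact ⟨τ, (hT τ).2 ⟨k2, Or.inr k1⟩, k3⟩

lemma prodW (hK : Inv K) (U : Finset (Finset ℕ)) :
    ∏ σ ∈ K, W0 σ U = ∏ σ ∈ K.filter (0 ∉ ·), WW σ U := by
  rw [← prod_filter_mul_prod_filter_not K (0 ∈ ·)]
  have e1 : ∏ σ ∈ K.filter (0 ∉ ·), W0 σ U = ∏ σ ∈ K.filter (0 ∉ ·), WW σ U :=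
    prod_congr rfl fun σ h => if_neg (mem_filter.1 h).2
  rw [e1]
  by_cases h : ∀ σ ∈ K.filter (0 ∈ ·), W0 σ U = 1
  · rw [prod_eq_one h, one_mul]
  · push Not at h
    obtain ⟨σ, h1, h2⟩ := h
    obtain ⟨k1, k2⟩ := mem_filter.1 h1
    obtain ⟨τ, t1, t2, t3⟩ := base hK k1 k2
    have a : AD (σ.erase 0) U = 0 := by
      rw [W0, if_pos k2] at h2
      unfold AD at h2 ⊢
      split_ifs at h2 ⊢ with q
      · exact absurd rfl h2
      · rfl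
    have b : WW τ U = 0 := by rw [← WW_mul_AD t3, a, mul_zero]
    have z : ∏ σ ∈ K.filter (0 ∉ ·), WW σ U = 0 := prod_eq_zero (mem_filter.2 ⟨t1, t2⟩) b
    rw [z, mul_zero]

lemma cs {α : Type} (E : Finset α) (f g : Finset α → ℝ) :
    SS E (fun c => f c * g c) ^ 2 ≤ SS E (fun c => f c ^ 2) * SS E fun c => g c ^ 2 := by
  have := ph_pos
  exact sum_sq_le_sum_mul_sum_of_sq_le_mul _ (fun _ _ => by positivity) (fun _ _ => by positivity)
    fun _ _ => le_of_eq (by ring)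

end SPL

open SPL in
theorem SPL : S_SPL := by
  intro K L T hK hL h0 hT hF
  have fc := cone h0
  have fT := faceT hK hL hT
  have dn : ∀ {M : Cx} {A : Finset ℕ}, Face M (insert 0 A) → Face M A :=
    fun h => Face.mono h (subset_insert _ _)
  have eBe : eB L = eB K := by ext e; rw [mem_eB, mem_eB, fc]
  have vBe : vB L = vB K := by ext v; rw [mem_vB, mem_vB, fc]
  have eT : edges T = eB K ∪ (eI K ∪ eI L) := by
    ext e
    rw [mem_union, mem_union, mem_edges, fT, mem_eB, mem_eI, mem_eI, ← fc]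
    have := @dn K e
    tauto
  have vT : verts T = vB K ∪ (vI K ∪ vI L) := by
    ext v
    rw [mem_union, mem_union, mem_verts, fT, mem_vB, mem_vI, mem_vI, ← fc, mem_singleton,
      ← ne_eq, ne_comm]
    have := @dn K {v}
    tauto
  have d1 : Disjoint (eB K) (eI K ∪ eI L) := disjoint_left.2 fun e h h' => by
    rw [mem_union, mem_eI, mem_eI, ← fc] at h'
    have := (mem_eB.1 h).2.2
    tauto
  have d2 : Disjoint (eI K) (eI L) := disjoint_left.2 fun e h h' =>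
    (mem_eI.1 h).2.2.2 (hF e (mem_eI.1 h).2.2.1 (mem_eI.1 h').2.2.1)
  have d3 : Disjoint (vB K) (vI K ∪ vI L) := disjoint_left.2 fun v h h' => by
    rw [mem_union, mem_vI, mem_vI, ← fc] at h'
    have := (mem_vB.1 h).2
    tauto
  have d4 : Disjoint (vI K) (vI L) := disjoint_left.2 fun v h h' =>
    (mem_vI.1 h).2.2 (hF {v} (mem_vI.1 h).2.1 (mem_vI.1 h').2.1)
  have tT : T = K.filter (0 ∉ ·) ∪ L.filter (0 ∉ ·) := by
    ext σ
    rw [mem_union, mem_filter, mem_filter, hT]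
    tauto
  have d5 : Disjoint (K.filter (0 ∉ ·)) (L.filter (0 ∉ ·)) := disjoint_left.2 fun σ h h' => by
    obtain ⟨k1, k2⟩ := mem_filter.1 h
    obtain ⟨τ, t1, t2⟩ := hF σ ⟨σ, k1, Subset.rfl⟩ ⟨σ, (mem_filter.1 h').1, Subset.rfl⟩
    have := card_le_card t2
    rw [card_insert_of_notMem k2, (hK σ k1).1, (hK τ t1).1] at this
    omega
  have main : SS (edges T) (fun U => ∏ σ ∈ T, WW σ U) = SS (eB K) fun c => ZZ K c * ZZ L c := by
    rw [eT, SS_union d1]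
    refine SS_congr fun c _ => ?_
    rw [SS_union d2, mul_comm, ZZ, ZZ, ← SS_mul]
    refine SS_congr fun U hU => ?_
    rw [mul_comm, ← SS_mul]
    refine SS_congr fun U' hU' => ?_
    rw [prodW hK, prodW hL, tT, prod_union d5]
    congr 1
    · refine prod_congr rfl fun σ hσ => WW_congr fun e he _ => ?_
      have : e ∉ U' := fun q => (mem_eI.1 (hU' q)).2.2.2
        ((fc e).1 (hF e ⟨σ, (mem_filter.1 hσ).1, he⟩ (mem_eI.1 (hU' q)).2.2.1))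
      simp [this]
    · refine prod_congr rfl fun σ hσ => WW_congr fun e he _ => ?_
      have : e ∉ U := fun q => (mem_eI.1 (hU q)).2.2.2
        (hF e (mem_eI.1 (hU q)).2.2.1 ⟨σ, (mem_filter.1 hσ).1, he⟩)
      simp [this]
  have pw : ((DD ^ (verts T).card)⁻¹) ^ 2 = (DD ^ (2 * (vI K).card + (vB K).card))⁻¹ *
      (DD ^ (2 * (vI L).card + (vB K).card))⁻¹ := by
    rw [vT, card_union_of_disjoint d3, card_union_of_disjoint d4, ← mul_inv, ← pow_add, inv_pow,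
      ← pow_mul]
    congr 2
    ring
  have := DD_pos
  rw [TV, NN, NN, main, mul_pow, pw, eBe, vBe, mul_mul_mul_comm]
  exact mul_le_mul_of_nonneg_left (cs _ _ _) (by positivity)

end Pool.Agent.P.MP_4830f8_gt.RG
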