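import Pool.Agent.P.MP_4830f8_gt.RG.Iface2

/-! Soundness of the checker of the triangulation. -/

set_option autoImplicit false

namespace Pool.Agent.P.MP_4830f8_gt.RG

open Finset

namespace TRI

lemma ky_eq (v w : ℕ) : ky v w = 128 * v + w := rfl
lemma k1_eq (q : ℕ) : k1 q = q / 128 := Nat.shiftRight_eq_div_pow q 7
lemma k2_eq (q : ℕ) : k2 q = q % 128 := Nat.and_two_pow_sub_one_eq_mod q 7
lemma ky_k (q : ℕ) : ky (k1 q) (k2 q) = q := by rw [ky_eq, k1_eq, k2_eq]; omega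

lemma bit_m4 (a b c d x : ℕ) : (m4 a b c d).testBit x = true ↔ x ∈ ({a, b, c, d} : Finset ℕ) := by
  have e : m4 a b c d = (2 ^ a ||| 2 ^ b) ||| (2 ^ c ||| 2 ^ d) := by
    simp only [← Nat.one_shiftLeft]; rfl
  rw [e]
  simp only [Nat.testBit_or, Nat.testBit_two_pow, Bool.or_eq_true, decide_eq_true_eq, mem_insert,
    mem_singleton]
  omega

lemma m4_inj {a b c d a' b' c' d' : ℕ} (h : m4 a b c d = m4 a' b' c' d') :
    ({a, b, c, d} : Finset ℕ) = {a', b', c', d'} := by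
  ext x
  rw [← bit_m4, ← bit_m4, h]

/-- the vertex set of a record -/
def vs (R : ℕ) : Finset ℕ := {t0 R, t1 R, t2 R, t3 R}

lemma mem_TT {tt : ℕ → ℕ} {n0 : ℕ} {σ : Finset ℕ} : σ ∈ TT tt n0 ↔ ∃ i < n0, σ = vs (tt i) := by
  simp only [TT, mkT, mem_image, mem_range]
  exact exists_congr fun i => and_congr Iff.rfl eq_comm

/-- the meaning of a slot -/
def Sl (ed en : ℕ → ℕ) (nE l v w : ℕ) (σ : Finset ℕ) : Prop :=
  l = labE ed v w ∧ (∃ z, 1 ≤ z ∧ z ≤ nE ∧ en z = ky v w) ∧ ∃ k < eL (ed (ky v w)),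
    σ = {v, w, eA (ed (ky v w)) k, eA (ed (ky v w)) ((k + 1) % eL (ed (ky v w)))}

lemma slot {ed en : ℕ → ℕ} {nE l v w x y k : ℕ} {σ : Finset ℕ}
    (h : slotChk ed en nE l v w x y k = true) (e : σ = {v, w, x, y}) : Sl ed en nE l v w σ := by
  simp only [slotChk, force_eq, an_iff, oo_iff, lt_iff, ble_iff, beq_iff] at h
  obtain ⟨h1, h2, h3, h4, h5, h6⟩ := h
  refine ⟨h1, ⟨_, h2, h3, h4⟩, k, h5, ?_⟩
  rcases h6 with ⟨rfl, rfl⟩ | ⟨rfl, rfl⟩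
  · exact e
  · rw [e, pair_comm]; rfl

structure Tc (tt ed en : ℕ → ℕ) (N n0 nE i : ℕ) : Prop where
  srt : t0 (tt i) < t1 (tt i) ∧ t1 (tt i) < t2 (tt i) ∧ t2 (tt i) < t3 (tt i) ∧ t3 (tt i) < N
  lex : i + 1 < n0 → lex (tt i) < lex (tt (i + 1))
  s0 : Sl ed en nE (lb (tt i) 0) (t0 (tt i)) (t1 (tt i)) (vs (tt i))
  s1 : Sl ed en nE (lb (tt i) 1) (t0 (tt i)) (t2 (tt i)) (vs (tt i))
  s2 : Sl ed en nE (lb (tt i) 2) (t0 (tt i)) (t3 (tt i)) (vs (tt i))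
  s3 : Sl ed en nE (lb (tt i) 3) (t1 (tt i)) (t2 (tt i)) (vs (tt i))
  s4 : Sl ed en nE (lb (tt i) 4) (t1 (tt i)) (t3 (tt i)) (vs (tt i))
  s5 : Sl ed en nE (lb (tt i) 5) (t2 (tt i)) (t3 (tt i)) (vs (tt i))

lemma tc {tt ed en tx : ℕ → ℕ} {N n0 nE i : ℕ} (h : triChk tt ed en tx N n0 nE i = true) :
    Tc tt ed en N n0 nE i := by
  simp only [triChk, force_eq, an_iff, oo_iff, lt_iff, ble_iff] at h
  obtain ⟨h1, h2, h3, h4, h5, a0, a1, a2, a3, a4, a5⟩ := h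
  refine ⟨⟨h1, h2, h3, h4⟩, fun k => h5.resolve_left (not_le.2 k), slot a0 rfl, slot a1 ?_,
    slot a2 ?_, slot a3 ?_, slot a4 ?_, slot a5 ?_⟩
  all_goals
    ext x
    simp only [vs, mem_insert, mem_singleton]
    omega

lemma Tc.sl {tt ed en : ℕ → ℕ} {N n0 nE i v w : ℕ} (h : Tc tt ed en N n0 nE i) (hvw : v < w)
    (hv : v ∈ vs (tt i)) (hw : w ∈ vs (tt i)) :
    w ≤ 127 ∧ ∃ l, Sl ed en nE l v w (vs (tt i)) := by
  obtain ⟨h1, h2, h3, -⟩ := h.srt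
  have b : t3 (tt i) ≤ 127 := fd_le _ _ _
  simp only [vs, mem_insert, mem_singleton] at hv hw
  refine ⟨by omega, ?_⟩
  have : v = t0 (tt i) ∧ w = t1 (tt i) ∨ v = t0 (tt i) ∧ w = t2 (tt i) ∨
      v = t0 (tt i) ∧ w = t3 (tt i) ∨ v = t1 (tt i) ∧ w = t2 (tt i) ∨
      v = t1 (tt i) ∧ w = t3 (tt i) ∨ v = t2 (tt i) ∧ w = t3 (tt i) := by omega
  rcases this with ⟨rfl, rfl⟩ | ⟨rfl, rfl⟩ | ⟨rfl, rfl⟩ | ⟨rfl, rfl⟩ | ⟨rfl, rfl⟩ | ⟨rfl, rfl⟩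
  exacts [⟨_, h.s0⟩, ⟨_, h.s1⟩, ⟨_, h.s2⟩, ⟨_, h.s3⟩, ⟨_, h.s4⟩, ⟨_, h.s5⟩]

lemma ec {tt ed en vt : ℕ → ℕ} {n0 z : ℕ} (h : edgeChk tt ed en vt n0 z = true) :
    k1 (en z) < k2 (en z) ∧ 3 ≤ eL (ed (en z)) ∧ ∀ k < eL (ed (en z)),
      {k1 (en z), k2 (en z), eA (ed (en z)) k, eA (ed (en z)) ((k + 1) % eL (ed (en z)))} ∈
        TT tt n0 ∧ ∀ j < k, eA (ed (en z)) j ≠ eA (ed (en z)) k := by
  simp only [edgeChk, force_eq, an_iff, lt_iff, ble_iff, beq_iff, allN_iff, ne_iff'] at h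
  obtain ⟨h1, h2, h3, -⟩ := h
  exact ⟨h1, h2, fun k hk => ⟨mem_TT.2 ⟨_, (h3 k hk).1, m4_inj (h3 k hk).2.1⟩, (h3 k hk).2.2⟩⟩

end TRI

open TRI in
theorem TRI (h : S_BR) : S_TRI := by
  intro tt ed en tx vt N n0 nE h1 h2
  have c : ∀ i < n0, Tc tt ed en N n0 nE i := fun i hi => tc (h1 i hi)
  have fc : ∀ v w, v < w → Face (TT tt n0) {v, w} →
      w ≤ 127 ∧ ∃ z, 1 ≤ z ∧ z ≤ nE ∧ en z = ky v w := by
    rintro v w hvw ⟨σ, hσ, e⟩
    obtain ⟨i, hi, rfl⟩ := mem_TT.1 hσ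
    obtain ⟨b, l, s⟩ := (c i hi).sl hvw (e (by simp)) (e (by simp))
    exact ⟨b, s.2.1⟩
  have nam : ∀ v w, v < w → Face (TT tt n0) {v, w} →
      ∃ z, 1 ≤ z ∧ z ≤ nE ∧ en z = ky v w ∧ k1 (en z) = v ∧ k2 (en z) = w := fun v w hvw f => by
    obtain ⟨b, z, a1, a2, a3⟩ := fc v w hvw f
    refine ⟨z, a1, a2, a3, ?_, ?_⟩
    · rw [a3, k1_eq, ky_eq]; omega
    · rw [a3, k2_eq, ky_eq]; omega
  have mono : ∀ i j, i < j → j < n0 → lex (tt i) < lex (tt j) := fun i j hij => by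
    induction j, hij using Nat.le_induction with
    | base => exact fun hj => (c i (by omega)).lex hj
    | succ j _ ih => exact fun hj => (ih (by omega)).trans ((c j (by omega)).lex hj)
  refine ⟨fun i hi => (c i hi).srt, fun σ hσ => ?_, ?_, ?_, nam, fun z a1 a2 => ?_,
    fun v w hvw f => ?_⟩
  · obtain ⟨i, hi, rfl⟩ := mem_TT.1 hσ
    obtain ⟨b1, b2, b3, -⟩ := (c i hi).srt
    rw [vs, card_insert_of_notMem (by simp; omega), card_insert_of_notMem (by simp; omega),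
      card_pair (by omega)]
  · refine (card_le_card fun v hv => ?_).trans (card_range N).le
    obtain ⟨σ, hσ, e⟩ := mem_verts.1 hv
    obtain ⟨i, hi, rfl⟩ := mem_TT.1 hσ
    obtain ⟨b1, b2, b3, b4⟩ := (c i hi).srt
    have := e (mem_singleton_self v)
    simp only [vs, mem_insert, mem_singleton] at this
    rw [mem_range]
    omega
  · refine h n0 (fun i => tv (tt i)) (fun i => lb (tt i)) (labE ed)
      (fun i hi => ⟨(c i hi).srt.1, (c i hi).srt.2.1, (c i hi).srt.2.2.1⟩)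
      (fun i hi j hj e0 e1 e2 e3 => ?_) (fun i hi => ⟨(c i hi).s0.1, (c i hi).s1.1, (c i hi).s2.1,
        (c i hi).s3.1, (c i hi).s4.1, (c i hi).s5.1⟩) fun v w v' w' a1 a2 f f' e => ?_
    · have e : lex (tt i) = lex (tt j) := by
        have e0' : t0 (tt i) = t0 (tt j) := e0
        have e1' : t1 (tt i) = t1 (tt j) := e1
        have e2' : t2 (tt i) = t2 (tt j) := e2
        have e3' : t3 (tt i) = t3 (tt j) := e3
        rw [lex, lex, e0', e1', e2', e3']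
      rcases lt_trichotomy i j with k | k | k
      exacts [absurd e (mono i j k hj).ne, k, absurd e (mono j i k hi).ne']
    · have b1 := (fc v w a1 f).1
      have b2 := (fc v' w' a2 f').1
      have e' : 32768 * eD (ed (ky v w)) + (128 * v + w) =
        32768 * eD (ed (ky v' w')) + (128 * v' + w') := e
      omega
  · obtain ⟨b1, b2, b3⟩ := ec (h2 z a1 a2)
    exact ⟨b1, _, (b3 0 (by omega)).1, by simp [subset_iff]⟩
  · obtain ⟨z, a1, a2, a3, a4, a5⟩ := nam v w hvw f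
    obtain ⟨-, b2, b3⟩ := ec (h2 z a1 a2)
    rw [a4, a5, a3] at b3
    rw [a3] at b2
    refine ⟨b2, fun k hk => (b3 k hk).1, fun k hk => (b3 k hk).2, fun σ hσ hv hw => ?_⟩
    obtain ⟨i, hi, rfl⟩ := mem_TT.1 hσ
    obtain ⟨-, l, s⟩ := (c i hi).sl hvw hv hw
    exact s.2.2

end Pool.Agent.P.MP_4830f8_gt.RG
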