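import Pool.Agent.P.MP_4830f8_gt.RG.Iface

/-! Invariance of the state sum under a flip. -/

set_option autoImplicit false

namespace Pool.Agent.P.MP_4830f8_gt.RG

open Finset

theorem CORE (h : S_LOC) : S_CORE := by
  intro A B K K' hf ω hloc hω E c hE
  obtain ⟨R, hR, hK, hK'⟩ := flip_prod hf
  obtain ⟨hA, hB, hAB, h5, -⟩ := hf
  have side : ∀ C D : Finset ℕ, (∀ σ ∈ R, ¬ C ⊆ σ) → (∀ e ∈ E ∪ c, ¬ C ⊆ e) →
      SS (E ∪ eO C D) (fun U => (∏ σ ∈ R, ω σ (c ∪ U)) *
        ∏ b ∈ D, ω ((A ∪ B).erase b) (c ∪ U)) =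
      SS E fun U => (∏ σ ∈ R, ω σ (c ∪ U)) *
        SS (eO C D) fun U' => ∏ b ∈ D, WW ((A ∪ B).erase b) ((c ∪ U) ∪ U') := by
    intro C D hRC hEC
    rw [SS_union]
    · refine SS_congr fun U _ => ?_
      rw [← SS_mul]
      refine SS_congr fun U' hU' => ?_
      congr 1
      · refine prod_congr rfl fun σ hσ => hloc _ _ _ fun e he _ => ?_
        have : e ∉ U' := fun h' => hRC σ hσ ((mem_filter.1 (hU' h')).2.trans he)
        simp [this]
      · refine prod_congr rfl fun b _ => ?_
        rw [hω _ (erase_subset _ _), union_assoc]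
    · exact disjoint_left.2 fun e he he' => hEC e (mem_union_left _ he) (mem_filter.1 he').2
  simp only [hK, hK']
  rw [side A B (fun σ hσ => (hR σ hσ).1) (fun e he => (hE e he).1),
    side B A (fun σ hσ => (hR σ hσ).2) (fun e he => (hE e he).2), ← SS_mul, ← SS_mul]
  refine SS_congr fun U hU => ?_
  have hs : ∀ e ∈ c ∪ U, e ∈ E ∪ c := fun e he => by
    rcases mem_union.1 he with he | he
    · exact mem_union_right _ he
    · exact mem_union_left _ (hU he)
  have := h A B hA hB hAB h5 (c ∪ U)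
    (disjoint_left.2 fun e he he' => (hE e (hs e he)).1 (mem_filter.1 he').2)
    (disjoint_left.2 fun e he he' => (hE e (hs e he)).2 (mem_filter.1 he').2)
  linear_combination (∏ σ ∈ R, ω σ (c ∪ U)) * this

namespace TVF

variable {A B : Finset ℕ} {K K' : Cx}

lemma edges_eq (h : Flip A B K K') :
    edges K = (edges K).filter (fun e => ¬ A ⊆ e) ∪ eO A B := by
  ext e
  simp only [mem_union, mem_filter, eO, mem_powersetCard, mem_edges]
  constructor
  · rintro ⟨h1, h2⟩
    by_cases hA : A ⊆ e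
    · exact Or.inr ⟨⟨flip_sub h hA h2, h1⟩, hA⟩
    · exact Or.inl ⟨⟨h1, h2⟩, hA⟩
  · rintro (⟨h1, -⟩ | ⟨⟨h1, h2⟩, h3⟩)
    · exact h1
    · refine ⟨h2, flip_face_of h h1 fun hB => ?_⟩
      have := card_le_card (union_subset h3 hB)
      rw [h.2.2.2.1, h2] at this
      omega

lemma face_iff (h : Flip A B K K') (F : Finset ℕ) :
    (Face K F ∧ ¬ A ⊆ F) ↔ (Face K' F ∧ ¬ B ⊆ F) :=
  ⟨fun h1 => ⟨flip_face h h1.2 h1.1, fun hB => flip_not_face h hB h1.1⟩,
    fun h1 => ⟨flip_face (flip_symm h) h1.2 h1.1,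
      fun hA => flip_not_face (flip_symm h) hA h1.1⟩⟩

lemma verts_card (h : Flip A B K K') :
    (verts K).card = ((verts K).filter fun v => ¬ A ⊆ {v}).card +
      (if A.card = 1 then 1 else 0) := by
  rw [← card_filter_add_card_filter_not (s := verts K) (fun v => A ⊆ {v}), add_comm]
  congr 1
  split_ifs with hA
  · obtain ⟨a, rfl⟩ := card_eq_one.1 hA
    rw [card_eq_one]
    refine ⟨a, ?_⟩
    ext v
    simp only [mem_filter, mem_verts, singleton_subset_iff, mem_singleton]
    constructor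
    · exact fun h1 => h1.2.symm
    · rintro rfl
      refine ⟨flip_face_of h subset_union_left fun hB => ?_, rfl⟩
      obtain ⟨b, hb⟩ := h.2.1
      exact disjoint_left.1 h.2.2.1 (hB hb) hb
  · rw [card_eq_zero, filter_eq_empty_iff]
    intro v _ hv
    rcases subset_singleton_iff.1 hv with e | e
    · exact h.1.ne_empty e
    · exact hA (by rw [e, card_singleton])

end TVF

theorem TVF (h : S_CORE) : S_TVF := by
  intro A B K K' hf
  have hE : (edges K').filter (fun e => ¬ B ⊆ e) = (edges K).filter (fun e => ¬ A ⊆ e) := by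
    ext e
    simp only [mem_filter, mem_edges, and_assoc, TVF.face_iff hf]
  have hV : ((verts K').filter fun v => ¬ B ⊆ {v}) = (verts K).filter fun v => ¬ A ⊆ {v} := by
    ext v
    simp only [mem_filter, mem_verts, TVF.face_iff hf]
  have key := h A B K K' hf WW (fun _ _ _ => WW_congr) (fun _ _ _ => rfl)
    ((edges K).filter fun e => ¬ A ⊆ e) ∅ fun e he => by
      rw [union_empty, mem_filter, mem_edges] at he
      exact ⟨he.2, fun hB => flip_not_face hf hB he.1.2⟩
  rw [← TVF.edges_eq hf, ← hE, ← TVF.edges_eq (flip_symm hf)] at key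
  simp only [empty_union] at key
  unfold TV
  rw [TVF.verts_card hf, TVF.verts_card (flip_symm hf), hV, pow_add, pow_add]
  have := DD_pos
  field_simp
  linear_combination key

end Pool.Agent.P.MP_4830f8_gt.RG
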