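import Pool.Agent.P.MP_4830f8_gt.RG.Iface2

/-! Soundness of the packed vector operations. -/

set_option autoImplicit false

namespace Pool.Agent.P.MP_4830f8_gt.RG

namespace VEC

lemma rr_sq : rr ^ 2 = ph := by
  have h := ss_four
  unfold rr ph
  linear_combination (ss ^ 2 + 1) * h

lemma rr_four : rr ^ 4 = rr ^ 2 + 1 := by
  have h := ss_four
  have e : rr ^ 4 = (rr ^ 2) ^ 2 := by ring
  rw [e, rr_sq]
  unfold ph
  linear_combination h

lemma fz_eq (x : V4) (k : V4 → Bool) : V4.fz x k = k x := by simp only [V4.fz, force_eq]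

/-- all fields are at most `p * 2 ^ 84` -/
def B1 (A p : ℕ) : Prop := ∀ i < 8192, gf A i ≤ p * 2 ^ 84

/-- bounds and values -/
structure Rp (x : V4) (p q r s : ℕ) (v : ℕ → ℝ) : Prop where
  a : B1 x.a p
  b : B1 x.b q
  c : B1 x.c r
  d : B1 x.d s
  v : ∀ i < 8192, vl x i = v i

lemma and_msk (h : S_PK) {m : ℕ} {p : ℕ → Bool} (hm : Msk m p) (A : ℕ) {i : ℕ} (hi : i < 8192) :
    gf (Nat.land m A) i = if p i then gf A i else 0 := by
  rw [h.1, hm i hi]
  split_ifs
  · have e : FU = 2 ^ 88 - 1 := by norm_num [FU]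
    have : gf A i ≤ 309485009821345068724781055 := fd_le _ _ _
    rw [Nat.and_comm, e, Nat.and_two_pow_sub_one_eq_mod, Nat.mod_eq_of_lt (by omega)]
  · exact Nat.zero_and _

lemma gf_add (h : S_PK) {A B p q : ℕ} (hA : B1 A p) (hB : B1 B q) (k : p + q ≤ 15) {i : ℕ}
    (hi : i < 8192) : gf (Nat.add A B) i = gf A i + gf B i :=
  h.2.2.2.1 A B i fun j hj => by
    have := hA j (by omega)
    have := hB j (by omega)
    unfold FU
    omega

lemma b_add (h : S_PK) {A B p q : ℕ} (hA : B1 A p) (hB : B1 B q) (k : p + q ≤ 15) :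
    B1 (Nat.add A B) (p + q) := fun i hi => by
  rw [gf_add h hA hB k hi, add_mul]
  exact add_le_add (hA i hi) (hB i hi)

variable {x y : V4} {p q r s p' q' r' s' : ℕ} {v w : ℕ → ℝ}

lemma Rp.mr (h : S_PK) (k : Rp x p q r s v) (e : q + s ≤ 15) :
    Rp x.mr s p (q + s) r fun i => rr * v i :=
  ⟨k.d, k.a, b_add h k.b k.d e, k.c, fun i hi => by
    rw [← k.v i hi]
    simp only [vl, V4.mr, gf_add h k.b k.d e hi, Nat.cast_add]
    linear_combination (-(gf x.d i : ℝ)) * rr_four⟩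

lemma Rp.add (h : S_PK) (k : Rp x p q r s v) (l : Rp y p' q' r' s' w)
    (e : p + p' ≤ 15 ∧ q + q' ≤ 15 ∧ r + r' ≤ 15 ∧ s + s' ≤ 15) :
    Rp (x.add y) (p + p') (q + q') (r + r') (s + s') fun i => v i + w i :=
  ⟨b_add h k.a l.a e.1, b_add h k.b l.b e.2.1, b_add h k.c l.c e.2.2.1, b_add h k.d l.d e.2.2.2,
    fun i hi => by
      rw [← k.v i hi, ← l.v i hi]
      simp only [vl, V4.add, gf_add h k.a l.a e.1 hi, gf_add h k.b l.b e.2.1 hi,
        gf_add h k.c l.c e.2.2.1 hi, gf_add h k.d l.d e.2.2.2 hi, Nat.cast_add]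
      ring⟩

/-- a map that selects fields -/
lemma rp_sel (hx : Sml x) (f : ℕ → ℕ) (t : ℕ → Bool) (σ : ℕ → ℕ)
    (hσ : ∀ i < 8192, t i = true → σ i < 8192)
    (hf : ∀ A, ∀ i < 8192, gf (f A) i = if t i then gf A (σ i) else 0) :
    Rp (x.map f) 1 1 1 1 fun i => if t i then vl x (σ i) else 0 := by
  refine ⟨fun i hi => ?_, fun i hi => ?_, fun i hi => ?_, fun i hi => ?_, fun i hi => ?_⟩
  rotate_right
  · simp only [vl, V4.map, hf _ i hi]
    split_ifs <;> simp
  all_goals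
    simp only [V4.map, hf _ i hi]
    split_ifs with e
    · have := hx _ (hσ i hi e)
      omega
    · omega

lemma rp_msk (h : S_PK) (hx : Sml x) {m : ℕ} {t : ℕ → Bool} (hm : Msk m t) :
    Rp (x.map (Nat.land m)) 1 1 1 1 fun i => if t i then vl x i else 0 :=
  rp_sel hx _ t id (fun _ hi _ => hi) fun A _ hi => and_msk h hm A hi

lemma msk0 (h : S_PK) {j : ℕ} (hj : j < 13) : Msk (mk0 j) fun i => !i.testBit j := fun i hi => by
  rw [h.2.2.2.2.2.2.2.2.1 j hj i hi]
  beta_reduce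
  cases i.testBit j <;> rfl

lemma up_lt {i j : ℕ} (hj : j < 13) (hi : i < 8192) (e : (!i.testBit j) = true) :
    i + 2 ^ j < 8192 := by
  rw [Nat.testBit_eq_decide_div_mod_eq] at e
  simp only [Bool.not_eq_true', decide_eq_false_iff_not] at e
  interval_cases j <;> omega

lemma gf_dn (h : S_PK) {j : ℕ} (hj : j < 13) (A : ℕ) {i : ℕ} (hi : i < 8192) :
    gf (Nat.shiftLeft (Nat.land (mk0 j) A) (Nat.mul 88 (Nat.pow 2 j))) i =
      if i.testBit j then gf A (i - 2 ^ j) else 0 := by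
  rw [h.2.2.2.2.2.1, Nat.pow_eq]
  by_cases e : 2 ^ j ≤ i
  · obtain ⟨k, rfl⟩ := Nat.exists_eq_add_of_le e
    rw [if_pos e, and_msk h (msk0 h hj) A ((Nat.sub_le _ _).trans_lt hi), Nat.add_sub_cancel_left,
      Nat.testBit_two_pow_add_eq]
  · rw [if_neg e, Nat.testBit_lt_two_pow (not_le.1 e)]
    rfl

end VEC

open VEC in
theorem VEC (h : S_PK) : S_VEC := by
  refine ⟨fun m0 m3 m5 m6 p0 p3 p5 p6 x y k h0 h3 h5 h6 hx hy e => ?_, fun j hj x k hx e => ?_,
    fun j hj x k hx e => ?_⟩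
  · simp only [tetV, VEC.fz_eq] at e
    have r := (((((((rp_msk h hx h0).mr h (by norm_num)).add h (rp_msk h hx h3) (by norm_num)).mr h
      (by norm_num)).add h (rp_msk h hx h5) (by norm_num)).mr h (by norm_num)).mr h
      (by norm_num)).add h (rp_msk h hy h6) (by norm_num)
    refine ⟨_, e, fun i hi => ?_⟩
    rw [r.v i hi]
    split_ifs <;> ring
  · simp only [elimV, VEC.fz_eq] at e
    have r0 := rp_sel hx (fun A => Nat.land (mk0 j) (Nat.shiftRight A (Nat.mul 88 (Nat.pow 2 j))))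
      (fun i => !i.testBit j) (fun i => i + 2 ^ j) (fun i hi => up_lt hj hi) fun A i hi => by
        rw [and_msk h (msk0 h hj) _ hi, h.2.2.2.2.1, Nat.pow_eq]
    have r := ((r0.mr h (by norm_num)).mr h (by norm_num)).add h (rp_msk h hx (msk0 h hj))
      (by norm_num)
    refine ⟨_, e, fun i hi => ?_⟩
    rw [r.v i hi, ← rr_sq]
    cases i.testBit j
    · simp
      ring
    · simp
  · simp only [introV, VEC.fz_eq] at e
    have r0 := rp_sel hx
      (fun A => Nat.shiftLeft (Nat.land (mk0 j) A) (Nat.mul 88 (Nat.pow 2 j)))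
      (fun i => i.testBit j) (fun i => i - 2 ^ j) (fun i hi _ => (Nat.sub_le _ _).trans_lt hi)
      fun A i hi => gf_dn h hj A hi
    have r := (rp_msk h hx (msk0 h hj)).add h r0 (by norm_num)
    refine ⟨_, e, fun i hi => (r.v i hi).trans ?_⟩
    cases i.testBit j <;> simp

end Pool.Agent.P.MP_4830f8_gt.RG
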